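import Mathlib
set_option autoImplicit false
open Matrix
namespace Pool.Agent.Helper608.VF

/-- rows `X 0, …, X (n-1), z, z'` -/
def rw' {c : Type} : (n : ℕ) → (Fin n → c → ℝ) → (c → ℝ) → (c → ℝ) → (Fin (n + 2) → c → ℝ)
  | 0, _, z, z' => ![z, z']
  | (n + 1), X, z, z' => Fin.cons (X 0) (rw' n (fun i => X i.succ) z z')

/-- the forms: sum over nodes `m` and `i : Fin 3` of `g m i * det(α X + β Y; Z_{i+1}; Z_{i+2})` -/
noncomputable def cls {ι : Type} [Fintype ι] (n : ℕ) (α β : ι → ℝ) (g : ι → Fin 3 → ℝ)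
    (X Y : Matrix (Fin n) (Fin (n + 2)) ℝ) (Z : Matrix (Fin 3) (Fin (n + 2)) ℝ) : ℝ :=
  ∑ m, ∑ i : Fin 3, g m i *
    (Matrix.of (rw' n (fun j => α m • X j + β m • Y j) (Z (i + 1)) (Z (i + 2)))).det

/-- the multilinear bound on decomposable frames -/
def MB {ι : Type} [Fintype ι] (n : ℕ) (α β : ι → ℝ) (g : ι → Fin 3 → ℝ) : Prop :=
  ∀ v : Fin n → ℝ × ℝ, (∀ j, (v j).1 ^ 2 + (v j).2 ^ 2 = 1) →
    ∑ i : Fin 3, (∑ m, g m i * ∏ j, (α m * (v j).1 + β m * (v j).2)) ^ 2 ≤ 1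

/-- removing column `j` -/
noncomputable def Acol {ι : Type} [Fintype ι] (n : ℕ) (α β : ι → ℝ) (g : ι → Fin 3 → ℝ)
    (X Y : Matrix (Fin n) (Fin (n + 3)) ℝ) (Z : Matrix (Fin 3) (Fin (n + 3)) ℝ) (j : Fin (n + 3)) : ℝ :=
  cls n α β g (X.submatrix id j.succAbove) (Y.submatrix id j.succAbove) (Z.submatrix id j.succAbove)

end Pool.Agent.Helper608.VF
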