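import Mathlib
set_option autoImplicit false
open Matrix MeasureTheory
open scoped ENNReal ContDiff
namespace Pool.Agent.Helper608.VF

/-- index type of the flat space `R^D`, `D = 2k+2` -/
abbrev I (k : ℕ) := Fin (2 * k) ⊕ Fin 2
abbrev E (k : ℕ) := EuclideanSpace ℝ (I k)

/-- the coefficients of the calibration -/
noncomputable def fc (k : ℕ) : ℕ → ℝ
  | 0 => 1
  | (j + 1) => fc k j * ((2 * (j:ℝ) + 1) * (2 * (k:ℝ) - 2 * (j:ℝ))) / ((2 * (j:ℝ) + 2) * (4 * (k:ℝ) + 1 - 2 * (j:ℝ)))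

noncomputable def F (k : ℕ) (q s : ℝ) : ℝ :=
  ∑ j ∈ Finset.range (k + 1), fc k j * s ^ (2 * j) * q ^ (k - j)
noncomputable def Fs (k : ℕ) (q s : ℝ) : ℝ :=
  ∑ j ∈ Finset.range (k + 1), fc k j * (2 * (j:ℝ)) * s ^ (2 * j - 1) * q ^ (k - j)
noncomputable def Fq (k : ℕ) (q s : ℝ) : ℝ :=
  ∑ j ∈ Finset.range (k + 1), fc k j * s ^ (2 * j) * (((k - j : ℕ) : ℝ) * q ^ (k - j - 1))

noncomputable def lam (R : ℝ) : ℝ := 1 / 2 + R
noncomputable def ell (R : ℝ) : ℝ := (Real.sqrt (2 * lam R))⁻¹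
noncomputable def Q (t R a b : ℝ) : ℝ := (1 + t ^ 2) * a ^ 2 / lam R ^ 2 - 2 * t * a * b / lam R + b ^ 2
noncomputable def Qa (t R a b : ℝ) : ℝ := 2 * (1 + t ^ 2) * a / lam R ^ 2 - 2 * t * b / lam R
noncomputable def Qb (t R a b : ℝ) : ℝ := 2 * b - 2 * t * a / lam R

/-- `K_a/(N+1)` -/
noncomputable def Kaf (k : ℕ) (t R a b : ℝ) : ℝ :=
  ell R / (2 * (2 * k + 1)) * (Fq k (Q t R a b) (ell R * b) * Qa t R a b ^ 2
    + F k (Q t R a b) (ell R * b) * (2 * (1 + t ^ 2) / lam R ^ 2))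
/-- `K_b/(N+1)` -/
noncomputable def Kbf (k : ℕ) (t R a b : ℝ) : ℝ :=
  ell R / (2 * (2 * k + 1)) * ((Fq k (Q t R a b) (ell R * b) * Qb t R a b
      + ell R * Fs k (Q t R a b) (ell R * b)) * Qa t R a b
    - F k (Q t R a b) (ell R * b) * (2 * t / lam R))
noncomputable def Kf (k : ℕ) (t R a b : ℝ) : ℝ :=
  ell R / 2 * F k (Q t R a b) (ell R * b) * Qa t R a b
noncomputable def Ef (k : ℕ) (t R a b : ℝ) : ℝ :=
  ell R * F k (Q t R a b) (ell R * b) / lam R ^ 2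
    - ell R ^ 2 * b * Fs k (Q t R a b) (ell R * b) / ((2 * k + 1) * lam R ^ 2)
noncomputable def Ff (k : ℕ) (t R a b : ℝ) : ℝ :=
  ell R ^ 2 * a * Fs k (Q t R a b) (ell R * b) / ((2 * k + 1) * lam R ^ 2)
noncomputable def Hf (k : ℕ) (t R a b : ℝ) : ℝ :=
  -(ell R / lam R) * F k (Q t R a b) (ell R * b)

/-- the coefficient functions (one triple per node `m`) of the calibration, with the identities they satisfy -/
structure Coef (k : ℕ) where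
  a : Fin (2 * k + 2) → ℝ → ℝ → ℝ
  b : Fin (2 * k + 2) → ℝ → ℝ → ℝ
  c : Fin (2 * k + 2) → ℝ → ℝ → ℝ
  sma : ∀ m, ContDiffOn ℝ ∞ (fun p : ℝ × ℝ => a m p.1 p.2) {p | -1 / 2 < p.2}
  smb : ∀ m, ContDiffOn ℝ ∞ (fun p : ℝ × ℝ => b m p.1 p.2) {p | -1 / 2 < p.2}
  smc : ∀ m, ContDiffOn ℝ ∞ (fun p : ℝ × ℝ => c m p.1 p.2) {p | -1 / 2 < p.2}
  pE : ∀ t R : ℝ, -1 / 2 < R → ∀ α β : ℝ,
    ∑ m : Fin (2 * k + 2), (a m t R + b m t R + c m t R * (t + (m:ℝ))) * (α + (m:ℝ) * β) ^ (2 * k)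
      = Kaf k t R α β + (2 * R - t ^ 2) * Ef k t R α β
  pF : ∀ t R : ℝ, -1 / 2 < R → ∀ α β : ℝ,
    ∑ m : Fin (2 * k + 2), ((m:ℝ) * (a m t R + b m t R + c m t R * (t + (m:ℝ)))
        + (2 * R - t ^ 2) * c m t R) * (α + (m:ℝ) * β) ^ (2 * k)
      = Kbf k t R α β + (2 * R - t ^ 2) * Ff k t R α β
  pH : ∀ t R : ℝ, -1 / 2 < R → ∀ α β : ℝ,
    ∑ m : Fin (2 * k + 2), (-(b m t R + c m t R * (t + (m:ℝ)))) * (α + (m:ℝ) * β) ^ (2 * k)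
      = Hf k t R α β
  cl : ∀ t R : ℝ, -1 / 2 < R → ∀ e : Polynomial ℝ, e.natDegree ≤ 2 * k →
    ∑ m : Fin (2 * k + 2),
      ((deriv (fun t => a m t R) t - (m:ℝ) * deriv (fun R => a m t R) R
        - (t + (m:ℝ)) * deriv (fun R => b m t R) R
        - (2 * R + 2 * (m:ℝ) * t + (m:ℝ) ^ 2) * deriv (fun R => c m t R) R
        - (2 * (k:ℝ) + 2) * c m t R) * e.eval (m:ℝ)
        - b m t R * e.derivative.eval (m:ℝ)) = 0

/-- the calibration, evaluated on the `D` columns `(X_j, Y_j)` -/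
noncomputable def Om {k : ℕ} (C : Coef k) (x V : I k → ℝ) (X Y : Matrix (I k) (I k) ℝ) : ℝ :=
  ∑ m : Fin (2 * k + 2),
    (C.a m (x ⬝ᵥ V) ((x ⬝ᵥ x) / 2) * (X + (m:ℝ) • Y).det
      + (V ᵥ* X + x ᵥ* Y) ⬝ᵥ ((X + (m:ℝ) • Y).adjugate *ᵥ
        (C.b m (x ⬝ᵥ V) ((x ⬝ᵥ x) / 2) • V + C.c m (x ⬝ᵥ V) ((x ⬝ᵥ x) / 2) • (x + (m:ℝ) • V))))

/-- the covariant derivative matrix -/
noncomputable def Mm {k : ℕ} (x V : I k → ℝ) (A : Matrix (I k) (I k) ℝ) : Matrix (I k) (I k) ℝ :=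
  lam ((x ⬝ᵥ x) / 2) • A - (x ⬝ᵥ V) • (1 : Matrix (I k) (I k) ℝ) + vecMulVec x V

/-- the volume density in flat coordinates -/
noncomputable def dens {k : ℕ} (x V : I k → ℝ) (A : Matrix (I k) (I k) ℝ) : ℝ :=
  Real.sqrt (1 + (Mm x V A)ᵀ * Mm x V A).det / lam ((x ⬝ᵥ x) / 2) ^ (2 * k + 2)

/-- Jacobian matrix -/
noncomputable def Jm {k : ℕ} (v : E k → E k) (z : E k) : Matrix (I k) (I k) ℝ :=
  fun i j => (fderiv ℝ v z (EuclideanSpace.single j 1)) i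

noncomputable def dE {k : ℕ} (v : E k → E k) (z : E k) : ℝ := dens z.ofLp (v z).ofLp (Jm v z)

/-- the calibration along the homotopy `x = z/s` -/
noncomputable def Lm {k : ℕ} (C : Coef k) (v : E k → E k) (s : ℝ) (z : E k) : ℝ :=
  Om C (s⁻¹ • z.ofLp) (v z).ofLp (s⁻¹ • (1 : Matrix (I k) (I k) ℝ)) (Jm v z)

/-- its flux: column `j` replaced by the homotopy direction `(-z/s^2, 0)` -/
noncomputable def Fx {k : ℕ} (C : Coef k) (v : E k → E k) (s : ℝ) (j : I k) (z : E k) : ℝ :=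
  Om C (s⁻¹ • z.ofLp) (v z).ofLp
    ((s⁻¹ • (1 : Matrix (I k) (I k) ℝ)).updateCol j (fun i => -(z i) / s ^ 2))
    ((Jm v z).updateCol j (fun _ => 0))

end Pool.Agent.Helper608.VF
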