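import Pool.Agent.Helper608.VF.XDefs
set_option autoImplicit false
open Matrix MeasureTheory
open scoped ENNReal ContDiff
namespace Pool.Agent.Helper608.VF



theorem banach_plane_sum {n : ℕ} (g : ℝ × ℝ → ℝ) (v : Fin n → ℝ × ℝ) (i : Fin n) (x : ℝ × ℝ) :
    ∑ j, g (Function.update v i x j) = ∑ j, g (v j) - g (v i) + g x := by
  rw [← Finset.add_sum_erase Finset.univ _ (Finset.mem_univ i),
    ← Finset.add_sum_erase Finset.univ (fun j => g (v j)) (Finset.mem_univ i),
    Function.update_self]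
  have : ∑ j ∈ Finset.univ.erase i, g (Function.update v i x j) =
      ∑ j ∈ Finset.univ.erase i, g (v j) := by
    refine Finset.sum_congr rfl fun j hj => ?_
    rw [Function.update_of_ne (Finset.ne_of_mem_erase hj)]
  rw [this]
  ring

theorem banach_plane_prod {n : ℕ} (s : Finset (Fin n)) (g : ℝ × ℝ → ℝ) (v : Fin n → ℝ × ℝ)
    (i : Fin n) (hi : i ∈ s) (x : ℝ × ℝ) :
    ∏ j ∈ s, g (Function.update v i x j) = g x * ∏ j ∈ s.erase i, g (v j) := by
  rw [← Finset.mul_prod_erase s _ hi, Function.update_self]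
  congr 1
  refine Finset.prod_congr rfl fun j hj => ?_
  rw [Function.update_of_ne (Finset.ne_of_mem_erase hj)]

theorem banach_plane_aux (g W D M p q : ℝ) (h4 : 4 * g = p * W - q * D) (hpq : p + q = 4)
    (hp : 0 < p) (hq : 0 < q) (hg : |g| = M) (hD : |D| ≤ M) : M ≤ |W| := by
  have h1 : 4 * M ≤ p * |W| + q * |D| := by
    calc 4 * M = |4 * g| := by rw [abs_mul, hg]; norm_num
      _ = |p * W - q * D| := by rw [h4]
      _ ≤ |p * W| + |q * D| := abs_sub _ _
      _ = _ := by rw [abs_mul, abs_mul, abs_of_pos hp, abs_of_pos hq]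
  have h2 : q * |D| ≤ q * M := by gcongr
  have h3 : p * M ≤ p * |W| := by
    have : p * M + q * M = 4 * M := by rw [← add_mul, hpq]
    linarith
  exact le_of_mul_le_mul_left h3 hp

theorem banach_plane_ineq (s1 s2 w1 w2 r : ℝ) (hr0 : 0 < r) (hr2 : r < 2)
    (hr : r ^ 2 = w1 ^ 2 + w2 ^ 2) (ht : 2 ≤ (s1 + w1) * w1 + (s2 + w2) * w2)
    (h : (s1 + 2 * (w1 / r)) ^ 2 + (s2 + 2 * (w2 / r)) ^ 2 ≤ (s1 + w1) ^ 2 + (s2 + w2) ^ 2) :
    False := by
  set t := s1 * w1 + s2 * w2 with htd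
  have h1 : (s1 + 2 * (w1 / r)) ^ 2 + (s2 + 2 * (w2 / r)) ^ 2 =
      s1 ^ 2 + s2 ^ 2 + 4 * t / r + 4 := by
    have h2 : (w1 / r) ^ 2 + (w2 / r) ^ 2 = 1 := by
      rw [div_pow, div_pow, ← add_div, ← hr]
      field_simp
    have h3 : (s1 + 2 * (w1 / r)) ^ 2 + (s2 + 2 * (w2 / r)) ^ 2 =
        s1 ^ 2 + s2 ^ 2 + 4 * (s1 * w1 + s2 * w2) / r + 4 * ((w1 / r) ^ 2 + (w2 / r) ^ 2) := by
      field_simp
      ring
    rw [h3, h2, ← htd]
    ring
  rw [h1] at h
  have h4 : 4 * t / r + 4 ≤ 2 * t + r ^ 2 := by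
    rw [hr]
    nlinarith
  have h5 : 2 - r ^ 2 ≤ t := by
    rw [hr]
    nlinarith
  have h6 : 4 * t + 4 * r ≤ (2 * t + r ^ 2) * r := by
    have := mul_le_mul_of_nonneg_right h4 hr0.le
    have e : (4 * t / r + 4) * r = 4 * t + 4 * r := by field_simp
    rw [e] at this
    exact this
  have h7 : (2 * t + r * (2 + r)) * (2 - r) ≤ 0 := by nlinarith
  have h8 : 2 * t + r * (2 + r) ≤ 0 := by
    by_contra hc
    push Not at hc
    have := mul_pos hc (by linarith : (0:ℝ) < 2 - r)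
    linarith
  nlinarith

/-- Banach: for symmetric forms on the plane the norm is attained on the diagonal (scalar version) -/
theorem banach_plane {ι : Type} [Fintype ι] (n : ℕ) (α β γ : ι → ℝ)
    (h : ∀ p q : ℝ, p ^ 2 + q ^ 2 = 1 → |∑ m, γ m * (α m * p + β m * q) ^ n| ≤ 1)
    (v : Fin n → ℝ × ℝ) (hv : ∀ j, (v j).1 ^ 2 + (v j).2 ^ 2 = 1) :
    |∑ m, γ m * ∏ j, (α m * (v j).1 + β m * (v j).2)| ≤ 1 := by
  classical
  set f : ι → ℝ × ℝ → ℝ := fun m u => α m * u.1 + β m * u.2 with hf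
  set G : (Fin n → ℝ × ℝ) → ℝ := fun v => ∑ m, γ m * ∏ j, f m (v j) with hG
  set C : Set (ℝ × ℝ) := {u | u.1 ^ 2 + u.2 ^ 2 = 1} with hC
  have hCc : IsCompact C := by
    refine IsCompact.of_isClosed_subset ((isCompact_Icc (a := (-1:ℝ)) (b := 1)).prod
      (isCompact_Icc (a := (-1:ℝ)) (b := 1))) (isClosed_eq (by fun_prop) (by fun_prop)) ?_
    rintro ⟨x, y⟩ hxy
    have hxy' : x ^ 2 + y ^ 2 = 1 := hxy
    refine ⟨⟨?_, ?_⟩, ⟨?_, ?_⟩⟩ <;> simp only <;> nlinarith [sq_nonneg x, sq_nonneg y]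
  have hK0 : IsCompact (Set.univ.pi fun _ : Fin n => C) := isCompact_univ_pi fun _ => hCc
  have hGc : Continuous G := by
    rw [hG]
    refine continuous_finsetSum _ fun m _ => continuous_const.mul ?_
    refine continuous_finsetProd _ fun j _ => ?_
    rw [hf]
    fun_prop
  obtain ⟨v0, hv0, hmax⟩ := hK0.exists_isMaxOn ⟨v, fun j _ => hv j⟩ (hGc.abs.continuousOn)
  have hmax' : ∀ v : Fin n → ℝ × ℝ, (∀ j, (v j).1 ^ 2 + (v j).2 ^ 2 = 1) → |G v| ≤ |G v0| :=
    fun v hv => hmax (fun j _ => hv j)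
  refine le_trans (hmax' v hv) ?_
  by_contra hcon
  push Not at hcon
  set M := |G v0| with hM
  have hKc : IsCompact ((Set.univ.pi fun _ : Fin n => C) ∩ {v | |G v| = M}) :=
    hK0.inter_right (isClosed_eq hGc.abs continuous_const)
  set Φ : (Fin n → ℝ × ℝ) → ℝ := fun v => (∑ j, (v j).1) ^ 2 + (∑ j, (v j).2) ^ 2 with hΦ
  have hΦc : Continuous Φ := by
    rw [hΦ]
    fun_prop
  obtain ⟨u, hu, humax⟩ := hKc.exists_isMaxOn ⟨v0, hv0, rfl⟩ hΦc.continuousOn
  have hu1 : ∀ j, (u j).1 ^ 2 + (u j).2 ^ 2 = 1 := fun j => hu.1 j trivial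
  have huM : |G u| = M := hu.2
  have humax' : ∀ v : Fin n → ℝ × ℝ, (∀ j, (v j).1 ^ 2 + (v j).2 ^ 2 = 1) → M ≤ |G v| →
      Φ v ≤ Φ u := fun v hv hv2 => humax ⟨fun j _ => hv j, le_antisymm (hmax' v hv) hv2⟩
  have hupd : ∀ (v : Fin n → ℝ × ℝ) (i : Fin n) (x : ℝ × ℝ),
      (∀ j, (v j).1 ^ 2 + (v j).2 ^ 2 = 1) → x.1 ^ 2 + x.2 ^ 2 = 1 →
      ∀ j, (Function.update v i x j).1 ^ 2 + (Function.update v i x j).2 ^ 2 = 1 := by
    intro v i x hv hx j
    by_cases hj : j = i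
    · subst hj
      rw [Function.update_self]
      exact hx
    · rw [Function.update_of_ne hj]
      exact hv j
  have hGup : ∀ (i : Fin n) (x : ℝ × ℝ), G (Function.update u i x) =
      ∑ m, γ m * (f m x * ∏ j ∈ Finset.univ.erase i, f m (u j)) := by
    intro i x
    rw [hG]
    refine Finset.sum_congr rfl fun m _ => ?_
    rw [banach_plane_prod Finset.univ (f m) u i (Finset.mem_univ i) x]
  -- flips
  have hflip : ∀ i, 1 ≤ (∑ j, (u j).1) * (u i).1 + (∑ j, (u j).2) * (u i).2 := by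
    intro i
    have h1 : G (Function.update u i (-(u i))) = - G u := by
      have h2 := hGup i (u i)
      rw [Function.update_eq_self] at h2
      rw [hGup, h2, ← Finset.sum_neg_distrib]
      refine Finset.sum_congr rfl fun m _ => ?_
      simp only [hf, Prod.fst_neg, Prod.snd_neg]
      ring
    have h3 := humax' (Function.update u i (-(u i)))
      (hupd u i _ hu1 (by simp only [Prod.fst_neg, Prod.snd_neg, neg_sq]; exact hu1 i))
      (by rw [h1, abs_neg, huM])
    simp only [hΦ] at h3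
    rw [banach_plane_sum (fun p => p.1) u i, banach_plane_sum (fun p => p.2) u i] at h3
    simp only [Prod.fst_neg, Prod.snd_neg] at h3
    have h4 := hu1 i
    linear_combination (1/4) * h3 - h4
  by_cases hall : ∀ a b, u a = u b
  · -- all equal
    have : |G u| ≤ 1 := by
      rcases Nat.eq_zero_or_pos n with hn | hn
      · subst hn
        have h1 := h 1 0 (by norm_num)
        simpa [hG] using h1
      · have h1 := h (u ⟨0, hn⟩).1 (u ⟨0, hn⟩).2 (hu1 _)
        have h2 : G u = ∑ m, γ m * (α m * (u ⟨0, hn⟩).1 + β m * (u ⟨0, hn⟩).2) ^ n := by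
          simp only [hG]
          refine Finset.sum_congr rfl fun m _ => ?_
          rw [Finset.prod_congr rfl (fun j _ => by rw [hall j ⟨0, hn⟩])]
          rw [Finset.prod_const, Finset.card_univ, Fintype.card_fin]
        rw [h2]
        exact h1
    linarith
  · push Not at hall
    obtain ⟨a, b, hab⟩ := hall
    have habne : a ≠ b := fun h => hab (by rw [h])
    set P : ι → ℝ := fun m => ∏ j ∈ (Finset.univ.erase b).erase a, f m (u j) with hP
    have hq : ∀ x y : ℝ × ℝ, G (Function.update (Function.update u a x) b y) =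
        ∑ m, γ m * (f m y * (f m x * P m)) := by
      intro x y
      simp only [hG]
      refine Finset.sum_congr rfl fun m _ => ?_
      rw [banach_plane_prod Finset.univ (f m) _ b (Finset.mem_univ b) y,
        banach_plane_prod (Finset.univ.erase b) (f m) u a
          (Finset.mem_erase.2 ⟨habne, Finset.mem_univ a⟩) x]
    have hGu : G u = ∑ m, γ m * (f m (u b) * (f m (u a) * P m)) := by
      rw [← hq, Function.update_eq_self]
      have : Function.update u b (u b) = u := Function.update_eq_self b u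
      rw [this]
    set w1 := (u a).1 + (u b).1 with hw1
    set w2 := (u a).2 + (u b).2 with hw2
    set d1 := (u a).1 - (u b).1 with hd1
    set d2 := (u a).2 - (u b).2 with hd2
    have ha1 := hu1 a
    have hb1 := hu1 b
    have hsum4 : (w1 ^ 2 + w2 ^ 2) + (d1 ^ 2 + d2 ^ 2) = 4 := by
      rw [hw1, hw2, hd1, hd2]; linear_combination 2 * ha1 + 2 * hb1
    have hdpos : 0 < d1 ^ 2 + d2 ^ 2 := by
      by_contra hc
      push Not at hc
      have q1 := sq_nonneg d1
      have q2 := sq_nonneg d2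
      have e1 : d1 = 0 := pow_eq_zero_iff two_ne_zero |>.1 (by linarith)
      have e2 : d2 = 0 := pow_eq_zero_iff two_ne_zero |>.1 (by linarith)
      apply hab
      exact Prod.ext (by linarith) (by linarith)
    have hfa := hflip a
    have hfb := hflip b
    set S1 := ∑ j, (u j).1 with hS1
    set S2 := ∑ j, (u j).2 with hS2
    have hSw : 2 ≤ S1 * w1 + S2 * w2 := by
      rw [hw1, hw2]; linear_combination hfa + hfb
    have hwpos : 0 < w1 ^ 2 + w2 ^ 2 := by
      by_contra hc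
      push Not at hc
      have q1 := sq_nonneg w1
      have q2 := sq_nonneg w2
      have e1 : w1 = 0 := pow_eq_zero_iff two_ne_zero |>.1 (by linarith)
      have e2 : w2 = 0 := pow_eq_zero_iff two_ne_zero |>.1 (by linarith)
      rw [e1, e2] at hSw
      norm_num at hSw
    -- normalised quadratic form
    have hqq : ∀ z1 z2 : ℝ, 0 < z1 ^ 2 + z2 ^ 2 →
        ∑ m, γ m * (f m (z1, z2) * (f m (z1, z2) * P m)) = (z1 ^ 2 + z2 ^ 2) *
        G (Function.update (Function.update u a (z1 / Real.sqrt (z1 ^ 2 + z2 ^ 2),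
          z2 / Real.sqrt (z1 ^ 2 + z2 ^ 2))) b (z1 / Real.sqrt (z1 ^ 2 + z2 ^ 2),
          z2 / Real.sqrt (z1 ^ 2 + z2 ^ 2))) := by
      intro z1 z2 hz
      rw [hq, Finset.mul_sum]
      refine Finset.sum_congr rfl fun m _ => ?_
      have hs : Real.sqrt (z1 ^ 2 + z2 ^ 2) ^ 2 = z1 ^ 2 + z2 ^ 2 := Real.sq_sqrt hz.le
      have hs0 : 0 < Real.sqrt (z1 ^ 2 + z2 ^ 2) := Real.sqrt_pos.2 hz
      set r := Real.sqrt (z1 ^ 2 + z2 ^ 2) with hr
      rw [← hs]
      simp only [hf]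
      field_simp
    have hunit : ∀ z1 z2 : ℝ, 0 < z1 ^ 2 + z2 ^ 2 →
        (z1 / Real.sqrt (z1 ^ 2 + z2 ^ 2)) ^ 2 + (z2 / Real.sqrt (z1 ^ 2 + z2 ^ 2)) ^ 2 = 1 := by
      intro z1 z2 hz
      have hs : Real.sqrt (z1 ^ 2 + z2 ^ 2) ^ 2 = z1 ^ 2 + z2 ^ 2 := Real.sq_sqrt hz.le
      rw [div_pow, div_pow, hs, ← add_div, div_self hz.ne']
    set W := G (Function.update (Function.update u a (w1 / Real.sqrt (w1 ^ 2 + w2 ^ 2),
          w2 / Real.sqrt (w1 ^ 2 + w2 ^ 2))) b (w1 / Real.sqrt (w1 ^ 2 + w2 ^ 2),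
          w2 / Real.sqrt (w1 ^ 2 + w2 ^ 2))) with hW
    set D := G (Function.update (Function.update u a (d1 / Real.sqrt (d1 ^ 2 + d2 ^ 2),
          d2 / Real.sqrt (d1 ^ 2 + d2 ^ 2))) b (d1 / Real.sqrt (d1 ^ 2 + d2 ^ 2),
          d2 / Real.sqrt (d1 ^ 2 + d2 ^ 2))) with hD
    have hpol : 4 * G u = (w1 ^ 2 + w2 ^ 2) * W - (d1 ^ 2 + d2 ^ 2) * D := by
      rw [hW, hD, ← hqq w1 w2 hwpos, ← hqq d1 d2 hdpos, hGu, Finset.mul_sum,
        ← Finset.sum_sub_distrib]
      refine Finset.sum_congr rfl fun m _ => ?_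
      simp only [hf, hw1, hw2, hd1, hd2]
      ring
    have hunW := hunit w1 w2 hwpos
    have hunD := hunit d1 d2 hdpos
    have hDM : |D| ≤ M := hmax' _ (hupd _ _ _ (hupd _ _ _ hu1 hunD) hunD)
    have hWM : M ≤ |W| := banach_plane_aux _ W D M _ _ hpol hsum4 hwpos hdpos huM hDM
    have hfin := humax' _ (hupd _ b _ (hupd _ a _ hu1 hunW) hunW) hWM
    simp only [hΦ] at hfin
    rw [banach_plane_sum (fun p => p.1) _ b, banach_plane_sum (fun p => p.2) _ b,
      banach_plane_sum (fun p => p.1) _ a, banach_plane_sum (fun p => p.2) _ a,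
      Function.update_of_ne (Ne.symm habne)] at hfin
    simp only [] at hfin
    have hr0 : 0 < Real.sqrt (w1 ^ 2 + w2 ^ 2) := Real.sqrt_pos.2 hwpos
    have hrr : Real.sqrt (w1 ^ 2 + w2 ^ 2) ^ 2 = w1 ^ 2 + w2 ^ 2 := Real.sq_sqrt hwpos.le
    refine banach_plane_ineq (S1 - w1) (S2 - w2) w1 w2 (Real.sqrt (w1 ^ 2 + w2 ^ 2)) hr0 ?_ hrr
      ?_ ?_
    · rw [Real.sqrt_lt' two_pos]
      linarith
    · have e1 : S1 - w1 + w1 = S1 := by ring
      have e2 : S2 - w2 + w2 = S2 := by ring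
      rw [e1, e2]
      exact hSw
    · have e1 : S1 - w1 + w1 = S1 := by ring
      have e2 : S2 - w2 + w2 = S2 := by ring
      rw [e1, e2]
      refine le_trans (le_of_eq ?_) hfin
      rw [hw1, hw2]
      ring

end Pool.Agent.Helper608.VF
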