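import Pool.Agent.Helper608.VF.XDefs
import Pool.Agent.Helper608.VF.J_banach_plane
set_option autoImplicit false
open Matrix MeasureTheory
open scoped ENNReal ContDiff
namespace Pool.Agent.Helper608.VF


theorem MB_of_diag {ι : Type} [Fintype ι] (n : ℕ) (α β : ι → ℝ) (g : ι → Fin 3 → ℝ)
    (h : ∀ p q : ℝ, p ^ 2 + q ^ 2 = 1 → ∑ i : Fin 3, (∑ m, g m i * (α m * p + β m * q) ^ n) ^ 2 ≤ 1) :
    MB n α β g := by
  intro v hv
  set W : Fin 3 → ℝ := fun i => ∑ m, g m i * ∏ j, (α m * (v j).1 + β m * (v j).2) with hW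
  have hS0 : 0 ≤ ∑ i, W i ^ 2 := Finset.sum_nonneg (fun i _ => sq_nonneg _)
  by_cases hS : ∑ i, W i ^ 2 = 0
  · change ∑ i, W i ^ 2 ≤ 1
    rw [hS]; norm_num
  · have hpos : 0 < ∑ i, W i ^ 2 := lt_of_le_of_ne hS0 (Ne.symm hS)
    set r := Real.sqrt (∑ i, W i ^ 2) with hr
    have hrpos : 0 < r := Real.sqrt_pos.mpr hpos
    have hr2 : r ^ 2 = ∑ i, W i ^ 2 := Real.sq_sqrt hpos.le
    set c : Fin 3 → ℝ := fun i => W i / r with hc
    have hc2 : ∑ i, c i ^ 2 = 1 := by
      simp only [hc, div_pow]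
      rw [← Finset.sum_div, ← hr2]
      field_simp
    have hsw : ∀ u : ι → ℝ, ∑ m, (∑ i, c i * g m i) * u m = ∑ i, c i * ∑ m, g m i * u m := by
      intro u
      simp_rw [Finset.sum_mul, Finset.mul_sum]
      rw [Finset.sum_comm]
      refine Finset.sum_congr rfl (fun i _ => Finset.sum_congr rfl (fun m _ => ?_))
      ring
    have key := banach_plane n α β (fun m => ∑ i, c i * g m i) (by
      intro p q hpq
      rw [hsw (fun m => (α m * p + β m * q) ^ n)]
      have h1 := h p q hpq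
      have h2 := Finset.sum_mul_sq_le_sq_mul_sq Finset.univ c (fun i => ∑ m, g m i * (α m * p + β m * q) ^ n)
      rw [hc2, one_mul] at h2
      rw [← sq_le_one_iff_abs_le_one]
      exact h2.trans h1) v hv
    rw [hsw (fun m => ∏ j, (α m * (v j).1 + β m * (v j).2))] at key
    have h3 : ∑ i, c i * W i = r := by
      simp only [hc]
      have : ∀ i, W i / r * W i = W i ^ 2 / r := fun i => by ring
      simp_rw [this]
      rw [← Finset.sum_div, ← hr2]
      field_simp
    have h4 : |∑ i, c i * W i| ≤ 1 := key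
    rw [h3, abs_of_pos hrpos] at h4
    change ∑ i, W i ^ 2 ≤ 1
    rw [← hr2]
    nlinarith

end Pool.Agent.Helper608.VF
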