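import Pool.Agent.Helper608.VF.XDefs
set_option autoImplicit false
open Matrix MeasureTheory
open scoped ENNReal ContDiff
namespace Pool.Agent.Helper608.VF


theorem block_det_one {ι : Type} [Fintype ι] [DecidableEq ι] (y : ι → ℝ) (W : Matrix ι ι ℝ) (j : ι)
    (N : Matrix (Unit ⊕ ι) (Unit ⊕ ι) ℝ) (h1 : ∀ β, N (Sum.inl ()) β = if β = Sum.inr j then 1 else 0)
    (h2 : ∀ i, N (Sum.inr i) (Sum.inl ()) = -(y i)) (h3 : ∀ i l, N (Sum.inr i) (Sum.inr l) = W i l) :
    N.det = (W.adjugate *ᵥ y) j := by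
  have hp := Matrix.det_permute' (Equiv.swap (Sum.inl ()) (Sum.inr j)) N
  have hne : (Sum.inl () : Unit ⊕ ι) ≠ Sum.inr j := by simp
  rw [Equiv.Perm.sign_swap hne] at hp
  have hsub : N.submatrix id (Equiv.swap (Sum.inl ()) (Sum.inr j)) =
      Matrix.fromBlocks (1 : Matrix Unit Unit ℝ) 0 (fun i _ => W i j) (W.updateCol j (-y)) := by
    ext α β
    rcases α with α | i <;> rcases β with β | l
    · simp [h1]
    · by_cases hl : l = j
      · subst hl
        simp [h1]
      · have hs : (Equiv.swap (Sum.inl () : Unit ⊕ ι) (Sum.inr j)) (Sum.inr l) = Sum.inr l :=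
          Equiv.swap_apply_of_ne_of_ne (by simp) (by simpa using hl)
        simp [h1, hs, hl]
    · simp [h3]
    · by_cases hl : l = j
      · subst hl
        simp [h2]
      · have hs : (Equiv.swap (Sum.inl () : Unit ⊕ ι) (Sum.inr j)) (Sum.inr l) = Sum.inr l :=
          Equiv.swap_apply_of_ne_of_ne (by simp) (by simpa using hl)
        simp [h3, hs, hl]
  rw [hsub, Matrix.det_fromBlocks_zero₁₂, Matrix.det_one, one_mul] at hp
  have hneg : (W.updateCol j (-y)).det = -(W.updateCol j y).det := by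
    have := Matrix.det_updateCol_smul W j (-1 : ℝ) y
    rw [neg_one_smul] at this
    rw [this]; ring
  rw [hneg] at hp
  rw [← Matrix.cramer_eq_adjugate_mulVec, Matrix.cramer_apply]
  simp at hp
  linarith

theorem block_det {ι : Type} [Fintype ι] [DecidableEq ι] (a : ℝ) (r y : ι → ℝ) (W : Matrix ι ι ℝ) :
    (Matrix.of (fun α β => Sum.elim (fun _ => Sum.elim (fun _ => a) (fun j => r j) β)
        (fun i => Sum.elim (fun _ => -(y i)) (fun j => W i j) β) α) :
        Matrix (Unit ⊕ ι) (Unit ⊕ ι) ℝ).det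
      = a * W.det + r ⬝ᵥ (W.adjugate *ᵥ y) := by
  set M : Matrix (Unit ⊕ ι) (Unit ⊕ ι) ℝ :=
    Matrix.of (fun α β => Sum.elim (fun _ => Sum.elim (fun _ => a) (fun j => r j) β)
        (fun i => Sum.elim (fun _ => -(y i)) (fun j => W i j) β) α) with hM
  rw [Matrix.det_eq_sum_mul_adjugate_row M (Sum.inl ()), Fintype.sum_sum_type]
  have h0 : Matrix.adjugate M (Sum.inl ()) (Sum.inl ()) = W.det := by
    rw [Matrix.adjugate_apply]
    have hb : M.updateRow (Sum.inl ()) (Pi.single (Sum.inl ()) 1) =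
        Matrix.fromBlocks (1 : Matrix Unit Unit ℝ) 0 (fun i _ => -(y i)) W := by
      ext α β
      rcases α with α | i <;> rcases β with β | l
      · simp
      · simp
      · simp [hM]
      · simp [hM]
    rw [hb, Matrix.det_fromBlocks_zero₁₂, Matrix.det_one, one_mul]
  have hj : ∀ j, Matrix.adjugate M (Sum.inr j) (Sum.inl ()) = (W.adjugate *ᵥ y) j := by
    intro j
    rw [Matrix.adjugate_apply]
    refine block_det_one y W j _ ?_ ?_ ?_
    · intro β
      rw [Matrix.updateRow_self, Pi.single_apply]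
    · intro i
      simp [hM]
    · intro i l
      simp [hM]
  simp only [hj, Finset.univ_unique, PUnit.default_eq_unit, Finset.sum_singleton, h0]
  rfl

end Pool.Agent.Helper608.VF
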