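import Pool.Agent.Helper608.VF.XDefs
set_option autoImplicit false
open Matrix MeasureTheory
open scoped ENNReal ContDiff
namespace Pool.Agent.Helper608.VF


theorem om_right_vec {k : ℕ} (v w : I k → ℝ) (W B : Matrix (I k) (I k) ℝ) :
    (v ᵥ* B) ⬝ᵥ ((W * B).adjugate *ᵥ w) = B.det * (v ⬝ᵥ (W.adjugate *ᵥ w)) := by
  rw [Matrix.adjugate_mul_distrib, ← Matrix.dotProduct_mulVec, Matrix.mulVec_mulVec,
    ← Matrix.mul_assoc, Matrix.mul_adjugate, Matrix.smul_mul, Matrix.one_mul, Matrix.smul_mulVec,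
    dotProduct_smul, smul_eq_mul]

theorem om_right {k : ℕ} (C : Coef k) (x V : I k → ℝ) (X Y B : Matrix (I k) (I k) ℝ) :
    Om C x V (X * B) (Y * B) = B.det * Om C x V X Y := by
  unfold Om
  rw [Finset.mul_sum]
  refine Finset.sum_congr rfl fun m _ => ?_
  have e1 : X * B + (m:ℝ) • (Y * B) = (X + (m:ℝ) • Y) * B := by
    rw [Matrix.add_mul, Matrix.smul_mul]
  have e2 : V ᵥ* (X * B) + x ᵥ* (Y * B) = (V ᵥ* X + x ᵥ* Y) ᵥ* B := by
    rw [Matrix.add_vecMul, Matrix.vecMul_vecMul, Matrix.vecMul_vecMul]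
  rw [e1, e2, Matrix.det_mul, om_right_vec]
  ring

theorem om_left_vecMul {k : ℕ} (x : I k → ℝ) (O : Matrix (I k) (I k) ℝ) (hO : Oᵀ * O = 1) :
    (O *ᵥ x) ᵥ* O = x := by
  rw [← Matrix.mulVec_transpose, Matrix.mulVec_mulVec, hO, Matrix.one_mulVec]

theorem om_left_dot {k : ℕ} (x V : I k → ℝ) (O : Matrix (I k) (I k) ℝ) (hO : Oᵀ * O = 1) :
    (O *ᵥ x) ⬝ᵥ (O *ᵥ V) = x ⬝ᵥ V := by
  rw [Matrix.dotProduct_mulVec, om_left_vecMul x O hO]

theorem om_left {k : ℕ} (C : Coef k) (x V : I k → ℝ) (X Y O : Matrix (I k) (I k) ℝ) (hO : Oᵀ * O = 1) :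
    Om C (O *ᵥ x) (O *ᵥ V) (O * X) (O * Y) = O.det * Om C x V X Y := by
  unfold Om
  rw [Finset.mul_sum]
  refine Finset.sum_congr rfl fun m _ => ?_
  have e1 : O * X + (m:ℝ) • (O * Y) = O * (X + (m:ℝ) • Y) := by
    rw [Matrix.mul_add, Matrix.mul_smul]
  have e2 : (O *ᵥ V) ᵥ* (O * X) + (O *ᵥ x) ᵥ* (O * Y) = V ᵥ* X + x ᵥ* Y := by
    rw [← Matrix.vecMul_vecMul, ← Matrix.vecMul_vecMul, om_left_vecMul V O hO,
      om_left_vecMul x O hO]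
  have e3 : ∀ b c : ℝ, b • (O *ᵥ V) + c • (O *ᵥ x + (m:ℝ) • (O *ᵥ V))
      = O *ᵥ (b • V + c • (x + (m:ℝ) • V)) := by
    intro b c
    rw [Matrix.mulVec_add, Matrix.mulVec_smul, Matrix.mulVec_smul, Matrix.mulVec_add,
      Matrix.mulVec_smul]
  have e4 : ∀ w : I k → ℝ, (O * (X + (m:ℝ) • Y)).adjugate *ᵥ (O *ᵥ w)
      = O.det • ((X + (m:ℝ) • Y).adjugate *ᵥ w) := by
    intro w
    rw [Matrix.adjugate_mul_distrib, Matrix.mulVec_mulVec, Matrix.mul_assoc, Matrix.adjugate_mul,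
      Matrix.mul_smul, Matrix.mul_one, Matrix.smul_mulVec]
  rw [om_left_dot x V O hO, om_left_dot x x O hO, e1, e2, e3, e4, Matrix.det_mul,
    dotProduct_smul, smul_eq_mul]
  ring

/-- invariance -/
theorem om_equiv {k : ℕ} (C : Coef k) (x V : I k → ℝ) (A O : Matrix (I k) (I k) ℝ) (hO : Oᵀ * O = 1) :
    Om C (O *ᵥ x) (O *ᵥ V) 1 (O * A * Oᵀ) = Om C x V 1 A := by
  have hO' : O * Oᵀ = 1 := mul_eq_one_comm.1 hO
  have h1 := om_left C x V Oᵀ (A * Oᵀ) O hO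
  have h2 := om_right C x V 1 A Oᵀ
  rw [Matrix.one_mul] at h2
  rw [hO', ← Matrix.mul_assoc, h2, ← mul_assoc, ← Matrix.det_mul, hO', Matrix.det_one,
    one_mul] at h1
  exact h1

theorem dens_equiv_Mm {k : ℕ} (x V : I k → ℝ) (A O : Matrix (I k) (I k) ℝ) (hO : Oᵀ * O = 1) :
    Mm (O *ᵥ x) (O *ᵥ V) (O * A * Oᵀ) = O * Mm x V A * Oᵀ := by
  have hO' : O * Oᵀ = 1 := mul_eq_one_comm.1 hO
  unfold Mm
  rw [om_left_dot x V O hO, om_left_dot x x O hO, Matrix.mul_add, Matrix.mul_sub,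
    Matrix.add_mul, Matrix.sub_mul, Matrix.mul_smul, Matrix.mul_smul, Matrix.smul_mul,
    Matrix.smul_mul, Matrix.mul_one, hO']
  congr 1
  rw [Matrix.mul_vecMulVec, Matrix.vecMulVec_mul, Matrix.vecMul_transpose]

theorem dens_equiv {k : ℕ} (x V : I k → ℝ) (A O : Matrix (I k) (I k) ℝ) (hO : Oᵀ * O = 1) :
    dens (O *ᵥ x) (O *ᵥ V) (O * A * Oᵀ) = dens x V A := by
  have hO' : O * Oᵀ = 1 := mul_eq_one_comm.1 hO
  unfold dens
  rw [om_left_dot x x O hO, dens_equiv_Mm x V A O hO]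
  congr 2
  have e : 1 + (O * Mm x V A * Oᵀ)ᵀ * (O * Mm x V A * Oᵀ)
      = O * (1 + (Mm x V A)ᵀ * Mm x V A) * Oᵀ := by
    rw [Matrix.mul_add, Matrix.add_mul, Matrix.mul_one, hO']
    congr 1
    rw [Matrix.transpose_mul, Matrix.transpose_mul, Matrix.transpose_transpose]
    calc O * ((Mm x V A)ᵀ * Oᵀ) * (O * Mm x V A * Oᵀ)
        = O * (Mm x V A)ᵀ * (Oᵀ * O) * Mm x V A * Oᵀ := by simp only [Matrix.mul_assoc]
      _ = O * ((Mm x V A)ᵀ * Mm x V A) * Oᵀ := by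
          rw [hO, Matrix.mul_one]; simp only [Matrix.mul_assoc]
  rw [e, Matrix.det_mul, Matrix.det_mul, mul_right_comm, ← Matrix.det_mul, hO', Matrix.det_one,
    one_mul]

end Pool.Agent.Helper608.VF
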