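import Pool.Agent.Helper608.VF.XDefs
import Pool.Agent.Helper608.VF.J_h_block
import Pool.Agent.Helper608.VF.J_p_alg
set_option autoImplicit false
open Matrix MeasureTheory
open scoped ENNReal ContDiff
open Filter Topology
namespace Pool.Agent.Helper608.VF


/-- the bordered matrix -/
noncomputable def om_contract_B {k : ℕ} (a m : ℝ) (x V y : I k → ℝ) (X Y : Matrix (I k) (I k) ℝ) :
    Matrix (Unit ⊕ I k) (Unit ⊕ I k) ℝ :=
  Matrix.of (fun α β => Sum.elim (fun _ => Sum.elim (fun _ => a) (fun j => (V ᵥ* X + x ᵥ* Y) j) β)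
        (fun i => Sum.elim (fun _ => -(y i)) (fun j => (X + m • Y) i j) β) α)

/-- the columns of the bordered matrix -/
noncomputable def om_contract_c {k : ℕ} (m : ℝ) (x V : I k → ℝ) (p q : I k → ℝ) :
    Unit ⊕ I k → ℝ :=
  Sum.elim (fun _ => V ⬝ᵥ p + x ⬝ᵥ q) (fun i => p i + m * q i)

theorem om_contract_det {k : ℕ} (a m : ℝ) (x V y : I k → ℝ) (X Y : Matrix (I k) (I k) ℝ) :
    (om_contract_B a m x V y X Y).det = a * (X + m • Y).det +
      (V ᵥ* X + x ᵥ* Y) ⬝ᵥ ((X + m • Y).adjugate *ᵥ y) :=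
  block_det a (V ᵥ* X + x ᵥ* Y) y (X + m • Y)

theorem om_contract_rank {ι : Type} [Fintype ι] [DecidableEq ι] (W : Matrix ι ι ℝ) (u v : ι → ℝ) :
    (W - vecMulVec u v).det = W.det - v ⬝ᵥ (W.adjugate *ᵥ u) := by
  have h1 := block_det 1 v (-u) W
  have h2 : (Matrix.of (fun α β => Sum.elim (fun _ => Sum.elim (fun _ => (1 : ℝ)) (fun j => v j) β)
        (fun i => Sum.elim (fun _ => -((-u) i)) (fun j => W i j) β) α) :
        Matrix (Unit ⊕ ι) (Unit ⊕ ι) ℝ) =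
      Matrix.fromBlocks 1 (Matrix.of fun _ j => v j) (Matrix.of fun i _ => u i) W := by
    ext α β
    rcases α with α | α <;> rcases β with β | β <;> simp [Matrix.one_apply]
  rw [h2, Matrix.det_fromBlocks_one₁₁] at h1
  have h3 : (Matrix.of fun (i : ι) (_ : Unit) => u i) * (Matrix.of fun (_ : Unit) (j : ι) => v j) =
      vecMulVec u v := by
    ext i j
    simp [Matrix.mul_apply, vecMulVec_apply]
  rw [h3] at h1
  rw [h1, mulVec_neg, dotProduct_neg]
  ring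

theorem om_contract_upd {k : ℕ} (a m : ℝ) (x V y : I k → ℝ) (X Y : Matrix (I k) (I k) ℝ)
    (j : I k) (p q : I k → ℝ) :
    om_contract_B a m x V y (X.updateCol j p) (Y.updateCol j q) =
      (om_contract_B a m x V y X Y).updateCol (Sum.inr j) (om_contract_c m x V p q) := by
  have hv : ∀ (w : I k → ℝ) (Z : Matrix (I k) (I k) ℝ) (s : I k → ℝ) (j' : I k),
      (w ᵥ* Z.updateCol j s) j' = if j' = j then w ⬝ᵥ s else (w ᵥ* Z) j' := by
    intro w Z s j'
    by_cases h : j' = j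
    · subst h
      simp [vecMul, dotProduct]
    · simp [vecMul, dotProduct, h]
  ext α β
  rcases α with α | α <;> rcases β with β | β
  · rw [Matrix.updateCol_ne (by simp)]
    rfl
  · by_cases h : β = j
    · subst h
      rw [Matrix.updateCol_self]
      show (V ᵥ* X.updateCol β p + x ᵥ* Y.updateCol β q) β = V ⬝ᵥ p + x ⬝ᵥ q
      rw [Pi.add_apply, hv, hv, if_pos rfl, if_pos rfl]
    · rw [Matrix.updateCol_ne (by simpa using h)]
      show (V ᵥ* X.updateCol j p + x ᵥ* Y.updateCol j q) β = (V ᵥ* X + x ᵥ* Y) β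
      rw [Pi.add_apply, hv, hv, if_neg h, if_neg h, Pi.add_apply]
  · rw [Matrix.updateCol_ne (by simp)]
    rfl
  · by_cases h : β = j
    · subst h
      rw [Matrix.updateCol_self]
      show (X.updateCol β p + m • Y.updateCol β q) α β = p α + m * q α
      simp
    · rw [Matrix.updateCol_ne (by simpa using h)]
      show (X.updateCol j p + m • Y.updateCol j q) α β = (X + m • Y) α β
      simp [h]

theorem om_contract_mul {k : ℕ} (a m : ℝ) (x V y : I k → ℝ) (X Y : Matrix (I k) (I k) ℝ)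
    (z : I k → ℝ) :
    om_contract_B a m x V y X Y *ᵥ (Sum.elim (fun _ => 0) z) =
      om_contract_c m x V (X *ᵥ z) (Y *ᵥ z) := by
  funext α
  rcases α with α | α
  · show (fun β => Sum.elim (fun _ => a) (fun j => (V ᵥ* X + x ᵥ* Y) j) β) ⬝ᵥ
      (Sum.elim (fun _ => 0) z) = V ⬝ᵥ (X *ᵥ z) + x ⬝ᵥ (Y *ᵥ z)
    rw [dotProduct_mulVec, dotProduct_mulVec, ← add_dotProduct]
    simp [dotProduct, Fintype.sum_sum_type]
  · show (fun β => Sum.elim (fun _ => -(y α)) (fun j => (X + m • Y) α j) β) ⬝ᵥ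
      (Sum.elim (fun _ => 0) z) = (X *ᵥ z) α + m * (Y *ᵥ z) α
    simp [dotProduct, Fintype.sum_sum_type, mulVec, add_mul, Finset.sum_add_distrib,
      mul_assoc]
    rw [← Finset.mul_sum]
    ring

theorem om_contract_one {k : ℕ} (a m : ℝ) (x V y : I k → ℝ) (X Y : Matrix (I k) (I k) ℝ)
    (z : I k → ℝ) (hz : z ⬝ᵥ z ≠ 0) :
    ∑ j, z j * (om_contract_B a m x V y (X.updateCol j (X *ᵥ z)) (Y.updateCol j (fun _ => 0))).det
      = (z ⬝ᵥ z) *
        (om_contract_B a m x V y X (Y * (1 - (z ⬝ᵥ z)⁻¹ • vecMulVec z z))).det := by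
  have hB' : om_contract_B a m x V y X (Y * (1 - (z ⬝ᵥ z)⁻¹ • vecMulVec z z)) =
      om_contract_B a m x V y X Y - vecMulVec (om_contract_c m x V 0 (Y *ᵥ z))
        ((z ⬝ᵥ z)⁻¹ • (Sum.elim (fun _ => 0) z)) := by
    have hY : Y * (1 - (z ⬝ᵥ z)⁻¹ • vecMulVec z z) = Y - (z ⬝ᵥ z)⁻¹ • vecMulVec (Y *ᵥ z) z := by
      rw [mul_sub, mul_one, Matrix.mul_smul, mul_vecMulVec]
    rw [hY]
    generalize (z ⬝ᵥ z)⁻¹ = s
    generalize Y *ᵥ z = w
    have hv : ∀ j, (x ᵥ* (s • vecMulVec w z)) j = s * ((x ⬝ᵥ w) * z j) := by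
      intro j
      rw [vecMul_smul, vecMul_vecMulVec]
      rfl
    ext α β
    rcases α with α | α <;> rcases β with β | β
    · simp [om_contract_B, vecMulVec_apply]
    · rw [Matrix.sub_apply, vecMulVec_apply]
      show (V ᵥ* X + x ᵥ* (Y - s • vecMulVec w z)) β =
        (V ᵥ* X + x ᵥ* Y) β - (V ⬝ᵥ 0 + x ⬝ᵥ w) * (s * z β)
      rw [vecMul_sub, Pi.add_apply, Pi.sub_apply, hv, dotProduct_zero, Pi.add_apply]
      ring
    · simp [om_contract_B, vecMulVec_apply]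
    · rw [Matrix.sub_apply, vecMulVec_apply]
      show (X + m • (Y - s • vecMulVec w z)) α β =
        (X + m • Y) α β - ((0 : I k → ℝ) α + m * w α) * (s * z β)
      simp [vecMulVec_apply]
      ring
  have hc : om_contract_c m x V (X *ᵥ z) (fun _ => 0) =
      om_contract_B a m x V y X Y *ᵥ (Sum.elim (fun _ => 0) z) -
        om_contract_c m x V 0 (Y *ᵥ z) := by
    rw [om_contract_mul]
    funext α
    rcases α with α | α
    · show V ⬝ᵥ (X *ᵥ z) + x ⬝ᵥ (fun _ => 0) = V ⬝ᵥ (X *ᵥ z) + x ⬝ᵥ (Y *ᵥ z) -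
        (V ⬝ᵥ 0 + x ⬝ᵥ (Y *ᵥ z))
      have h0 : x ⬝ᵥ (fun _ => (0 : ℝ)) = 0 := by simp [dotProduct]
      rw [h0, dotProduct_zero]
      ring
    · show (X *ᵥ z) α + m * 0 = (X *ᵥ z) α + m * (Y *ᵥ z) α -
        ((0 : I k → ℝ) α + m * (Y *ᵥ z) α)
      simp
  rw [hB', om_contract_rank]
  generalize hBdef : om_contract_B a m x V y X Y = B at *
  have hj : ∀ j, (om_contract_B a m x V y (X.updateCol j (X *ᵥ z))
      (Y.updateCol j (fun _ => 0))).det = B.det * z j -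
      (B.adjugate *ᵥ (om_contract_c m x V 0 (Y *ᵥ z))) (Sum.inr j) := by
    intro j
    rw [om_contract_upd, hBdef, ← Matrix.cramer_apply, Matrix.cramer_eq_adjugate_mulVec, hc,
      mulVec_sub, mulVec_mulVec, adjugate_mul, smul_mulVec, one_mulVec]
    rfl
  simp_rw [hj]
  rw [smul_dotProduct]
  have hs : (Sum.elim (fun _ => 0) z : Unit ⊕ I k → ℝ) ⬝ᵥ
      (B.adjugate *ᵥ (om_contract_c m x V 0 (Y *ᵥ z))) =
      ∑ j, z j * (B.adjugate *ᵥ (om_contract_c m x V 0 (Y *ᵥ z))) (Sum.inr j) := by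
    simp [dotProduct, Fintype.sum_sum_type]
  rw [hs, smul_eq_mul, mul_sub, ← mul_assoc, mul_inv_cancel₀ hz, one_mul]
  simp_rw [mul_sub]
  rw [Finset.sum_sub_distrib]
  congr 1
  unfold dotProduct
  rw [Finset.sum_mul]
  refine Finset.sum_congr rfl fun j _ => ?_
  ring

theorem om_contract_Om {k : ℕ} (C : Coef k) (x V : I k → ℝ) (X Y : Matrix (I k) (I k) ℝ) :
    Om C x V X Y = ∑ m : Fin (2 * k + 2),
      (om_contract_B (C.a m (x ⬝ᵥ V) ((x ⬝ᵥ x) / 2)) (m : ℝ) x V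
        (C.b m (x ⬝ᵥ V) ((x ⬝ᵥ x) / 2) • V +
          C.c m (x ⬝ᵥ V) ((x ⬝ᵥ x) / 2) • (x + (m:ℝ) • V)) X Y).det := by
  unfold Om
  refine Finset.sum_congr rfl fun m _ => ?_
  rw [om_contract_det]

theorem om_contract {k : ℕ} (C : Coef k) (x V : I k → ℝ) (X Y : Matrix (I k) (I k) ℝ) (z : I k → ℝ)
    (hz : z ⬝ᵥ z ≠ 0) :
    ∑ j, z j * Om C x V (X.updateCol j (X *ᵥ z)) (Y.updateCol j (fun _ => 0))
      = (z ⬝ᵥ z) * Om C x V X (Y * (1 - (z ⬝ᵥ z)⁻¹ • vecMulVec z z)) := by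
  simp_rw [om_contract_Om, Finset.mul_sum]
  rw [Finset.sum_comm]
  refine Finset.sum_congr rfl fun m _ => ?_
  exact om_contract_one _ _ _ _ _ X Y z hz

end Pool.Agent.Helper608.VF
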