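import Pool.Agent.Helper608.VF.XDefs
import Pool.Agent.Helper608.VF.J_a_contract
import Pool.Agent.Helper608.VF.J_p_alg
set_option autoImplicit false
open Matrix MeasureTheory
open scoped ENNReal ContDiff
open Filter Topology
namespace Pool.Agent.Helper608.VF


theorem flux_radial {k : ℕ} (C : Coef k) (v : E k → E k) (s : ℝ) (hs : 0 < s) (z : E k) (hz : z ≠ 0) :
    ∑ j, z j * Fx C v s j z = -(‖z‖ ^ 2 / s) * ((s⁻¹) ^ (2 * k + 2) *
      Om C (s⁻¹ • z.ofLp) (v z).ofLp 1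
        (s • (Jm v z * (1 - (z.ofLp ⬝ᵥ z.ofLp)⁻¹ • vecMulVec z.ofLp z.ofLp)))) := by
  obtain ⟨X, hX⟩ : ∃ X : Matrix (I k) (I k) ℝ, X = s⁻¹ • (1 : Matrix (I k) (I k) ℝ) := ⟨_, rfl⟩
  have hXz : X *ᵥ z.ofLp = s⁻¹ • z.ofLp := by
    rw [hX, smul_mulVec, one_mulVec]
  have hζ : z.ofLp ⬝ᵥ z.ofLp = ‖z‖ ^ 2 := by
    rw [EuclideanSpace.norm_sq_eq]
    simp [dotProduct, sq]
  have hz0 : z.ofLp ⬝ᵥ z.ofLp ≠ 0 := by
    rw [hζ]
    exact pow_ne_zero 2 (norm_ne_zero_iff.mpr hz)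
  have hFx : ∀ j, Fx C v s j z = (-s⁻¹) * Om C (s⁻¹ • z.ofLp) (v z).ofLp
      (X.updateCol j (X *ᵥ z.ofLp)) ((Jm v z).updateCol j (fun _ => 0)) := by
    intro j
    have hB : (diagonal (Function.update (fun _ : I k => (1:ℝ)) j (-s⁻¹))).det = -s⁻¹ := by
      rw [det_diagonal, Finset.prod_update_of_mem (Finset.mem_univ j)]
      simp
    have h1 := om_right C (s⁻¹ • z.ofLp) (v z).ofLp (X.updateCol j (X *ᵥ z.ofLp))
      ((Jm v z).updateCol j (fun _ => 0))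
      (diagonal (Function.update (fun _ : I k => (1:ℝ)) j (-s⁻¹)))
    rw [hB] at h1
    rw [← h1]
    unfold Fx
    congr 1
    · rw [← hX]
      ext a b
      rw [mul_diagonal]
      by_cases hb : b = j
      · subst hb
        rw [updateCol_self, updateCol_self, Function.update_self, hXz, Pi.smul_apply, smul_eq_mul]
        field_simp
      · rw [updateCol_ne hb, updateCol_ne hb, Function.update_of_ne hb, mul_one]
    · ext a b
      rw [mul_diagonal]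
      by_cases hb : b = j
      · subst hb
        rw [updateCol_self, zero_mul]
      · rw [updateCol_ne hb, Function.update_of_ne hb, mul_one]
  simp only [hFx]
  have h2 : ∑ j, z j * (-s⁻¹ * Om C (s⁻¹ • z.ofLp) (v z).ofLp
      (X.updateCol j (X *ᵥ z.ofLp)) ((Jm v z).updateCol j (fun _ => 0))) =
      -s⁻¹ * ∑ j, z.ofLp j * Om C (s⁻¹ • z.ofLp) (v z).ofLp
      (X.updateCol j (X *ᵥ z.ofLp)) ((Jm v z).updateCol j (fun _ => 0)) := by
    rw [Finset.mul_sum]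
    apply Finset.sum_congr rfl
    intro j _
    ring
  rw [h2, om_contract C _ _ X (Jm v z) z.ofLp hz0]
  have h3 := om_right C (s⁻¹ • z.ofLp) (v z).ofLp 1
    (s • (Jm v z * (1 - (z.ofLp ⬝ᵥ z.ofLp)⁻¹ • vecMulVec z.ofLp z.ofLp))) X
  have h4 : X.det = (s⁻¹) ^ (2 * k + 2) := by
    rw [hX, det_smul, det_one, mul_one]
    congr 1
    simp
  have h5 : s • (Jm v z * (1 - (z.ofLp ⬝ᵥ z.ofLp)⁻¹ • vecMulVec z.ofLp z.ofLp)) * X =
      Jm v z * (1 - (z.ofLp ⬝ᵥ z.ofLp)⁻¹ • vecMulVec z.ofLp z.ofLp) := by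
    rw [hX, Matrix.mul_smul, Matrix.mul_one, smul_smul, inv_mul_cancel₀ hs.ne', one_smul]
  rw [one_mul, h5, h4] at h3
  rw [h3]
  rw [show (‖z‖ ^ 2 / s : ℝ) = (z.ofLp ⬝ᵥ z.ofLp) * s⁻¹ by rw [hζ, div_eq_mul_inv]]
  ring

end Pool.Agent.Helper608.VF
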