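import Pool.Agent.Helper608.VF.XDefs
set_option autoImplicit false
open Matrix MeasureTheory
open scoped ENNReal ContDiff
open Filter Topology
namespace Pool.Agent.Helper608.VF


theorem Jm_perp {k : ℕ} (v : E k → E k) (hv : ContDiff ℝ ∞ v) (h1 : ∀ z, ‖v z‖ = 1) (z : E k) :
    (v z).ofLp ᵥ* Jm v z = 0 := by
  have hd : HasFDerivAt v (fderiv ℝ v z) z :=
    (hv.differentiable (by simp) z).hasFDerivAt
  have h2 := hd.norm_sq
  have h3 : (fun z => ‖v z‖ ^ 2) = fun _ => (1 : ℝ) := by
    funext z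
    rw [h1 z]
    norm_num
  rw [h3] at h2
  have h4 := h2.unique (hasFDerivAt_const (1 : ℝ) z)
  have h5 : ∀ w : E k, inner ℝ (v z) (fderiv ℝ v z w) = 0 := by
    intro w
    have := congrArg (fun L => L w) h4
    simpa using this
  funext j
  have h6 := h5 (EuclideanSpace.single j 1)
  rw [PiLp.inner_apply] at h6
  rw [Matrix.vecMul, dotProduct, Pi.zero_apply]
  rw [← h6]
  refine Finset.sum_congr rfl fun i _ => ?_
  simp [Jm, mul_comm]

end Pool.Agent.Helper608.VF
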