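import Pool.Agent.Helper608.VF.XDefs
set_option autoImplicit false
open Matrix MeasureTheory
open scoped ENNReal ContDiff
open Filter Topology
namespace Pool.Agent.Helper608.VF


open scoped MatrixOrder Matrix.Norms.L2Operator in
theorem det_mono_fac {n : Type} [Fintype n] [DecidableEq n] (P : Matrix n n ℝ)
    (hP : P.PosSemidef) : ∃ B : Matrix n n ℝ, P = Bᵀ * B := by
  obtain ⟨B, hB⟩ := CStarAlgebra.nonneg_iff_eq_star_mul_self.mp hP.nonneg
  refine ⟨B, ?_⟩
  rw [hB, star_eq_conjTranspose, conjTranspose_eq_transpose_of_trivial]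

theorem det_mono_tmul {n : Type} [Fintype n] [DecidableEq n] (B : Matrix n n ℝ) :
    (Bᵀ * B).PosSemidef := by
  rw [← conjTranspose_eq_transpose_of_trivial]
  exact posSemidef_conjTranspose_mul_self B

theorem det_mono_conj {n : Type} [Fintype n] [DecidableEq n] (A B : Matrix n n ℝ)
    (hA : A.PosSemidef) : (Bᵀ * A * B).PosSemidef := by
  rw [← conjTranspose_eq_transpose_of_trivial]
  exact hA.conjTranspose_mul_mul_same B

theorem det_mono_one {n : Type} [Fintype n] [DecidableEq n] (K : Matrix n n ℝ)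
    (hK : K.PosSemidef) : 1 ≤ (1 + K).det := by
  have h1 : (1 + K).IsHermitian := (isHermitian_one).add hK.isHermitian
  rw [h1.det_eq_prod_eigenvalues]
  have h2 : ∀ i, 1 ≤ h1.eigenvalues i := by
    intro i
    rw [h1.eigenvalues_eq i]
    have hn : star (⇑(h1.eigenvectorBasis i)) ⬝ᵥ (⇑(h1.eigenvectorBasis i)) = (1 : ℝ) := by
      have h3 : ‖h1.eigenvectorBasis i‖ = 1 := h1.eigenvectorBasis.orthonormal.1 i
      have h4 := EuclideanSpace.real_norm_sq_eq (h1.eigenvectorBasis i)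
      rw [h3] at h4
      rw [star_trivial]
      unfold dotProduct
      rw [one_pow] at h4
      refine Eq.trans ?_ h4.symm
      exact Finset.sum_congr rfl fun j _ => (sq _).symm
    have hk := hK.dotProduct_mulVec_nonneg (⇑(h1.eigenvectorBasis i))
    rw [add_mulVec, dotProduct_add, one_mulVec, hn]
    simp only [RCLike.re_to_real]
    linarith
  calc (1 : ℝ) = ∏ _i : n, (1 : ℝ) := by rw [Finset.prod_const_one]
    _ ≤ ∏ i : n, h1.eigenvalues i :=
        Finset.prod_le_prod (fun i _ => zero_le_one) (fun i _ => h2 i)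
    _ = _ := by simp

/-- determinant estimates -/
theorem det_mono {n : Type} [Fintype n] [DecidableEq n] (P S : Matrix n n ℝ) (hP : P.PosSemidef)
    (hS : (S - P).PosSemidef) : 0 ≤ P.det ∧ P.det ≤ S.det := by
  refine ⟨hP.det_nonneg, ?_⟩
  by_cases hdet : P.det = 0
  · rw [hdet]
    have : S = P + (S - P) := by abel
    rw [this]
    exact (hP.add hS).det_nonneg
  · obtain ⟨B, hB⟩ := det_mono_fac P hP
    have hBdet : B.det ≠ 0 := by
      intro h
      apply hdet
      rw [hB, det_mul, h, mul_zero]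
    have hBu : IsUnit B.det := isUnit_iff_ne_zero.2 hBdet
    have hK := det_mono_conj (S - P) B⁻¹ hS
    have h1 := det_mono_one _ hK
    have h2 : S = Bᵀ * (1 + (B⁻¹)ᵀ * (S - P) * B⁻¹) * B := by
      have e1 : Bᵀ * (B⁻¹)ᵀ = 1 := by
        rw [← transpose_mul, nonsing_inv_mul B hBu, transpose_one]
      have e2 : B⁻¹ * B = 1 := nonsing_inv_mul B hBu
      calc S = P + (S - P) := by abel
        _ = Bᵀ * B + (Bᵀ * (B⁻¹)ᵀ) * (S - P) * (B⁻¹ * B) := by
            rw [e1, e2, Matrix.one_mul, Matrix.mul_one, ← hB]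
        _ = Bᵀ * (1 + (B⁻¹)ᵀ * (S - P) * B⁻¹) * B := by
            rw [Matrix.mul_add, Matrix.mul_one, Matrix.add_mul]
            simp only [Matrix.mul_assoc]
    have h3 : S.det = B.det ^ 2 * (1 + (B⁻¹)ᵀ * (S - P) * B⁻¹).det := by
      conv_lhs => rw [h2]
      rw [det_mul, det_mul, det_transpose]
      ring
    have h4 : P.det = B.det ^ 2 := by
      rw [hB, det_mul, det_transpose]
      ring
    rw [h3, h4]
    have : 0 ≤ B.det ^ 2 := sq_nonneg _
    nlinarith

theorem det_kernel_syl {n : Type} [Fintype n] [DecidableEq n] (N : Matrix n n ℝ) (s : ℝ)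
    (hs : 0 < s) : (s ^ 2 • (1 : Matrix n n ℝ) + Nᵀ * N).det =
      (s ^ 2 • (1 : Matrix n n ℝ) + N * Nᵀ).det := by
  have h1 : ∀ A B : Matrix n n ℝ, s ^ 2 • (1 : Matrix n n ℝ) + A * B =
      s ^ 2 • (1 + (s⁻¹ • A) * (s⁻¹ • B)) := by
    intro A B
    rw [smul_add, smul_mul_smul_comm, smul_smul]
    have : s ^ 2 * (s⁻¹ * s⁻¹) = 1 := by field_simp
    rw [this, one_smul]
  rw [h1, h1, det_smul, det_smul, det_one_add_mul_comm]

theorem det_kernel_vdet {n : Type} [Fintype n] [DecidableEq n] (V : n → ℝ)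
    (hV : V ⬝ᵥ V = 1) (c : ℝ) : (1 - c • vecMulVec V V : Matrix n n ℝ).det = 1 - c := by
  have h1 : (1 - c • vecMulVec V V : Matrix n n ℝ) =
      1 + replicateCol Unit ((-c) • V) * replicateRow Unit V := by
    rw [← vecMulVec_eq, smul_vecMulVec, neg_smul, sub_eq_add_neg]
  rw [h1, det_one_add_replicateCol_mul_replicateRow, dotProduct_smul, hV, smul_eq_mul]
  ring

theorem det_kernel {n : Type} [Fintype n] [DecidableEq n] (N : Matrix n n ℝ) (V : n → ℝ)
    (hV : V ⬝ᵥ V = 1) (hN : V ᵥ* N = 0) (s : ℝ) (hs : 0 < s) (hs1 : s ≤ 1) :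
    (s ^ 2 • (1 : Matrix n n ℝ) + Nᵀ * N).det ≤ s ^ 2 * (1 + Nᵀ * N).det := by
  rw [det_kernel_syl N s hs, det_one_add_mul_comm]
  have hz : (N * Nᵀ) * vecMulVec V V = 0 := by
    rw [Matrix.mul_vecMulVec, ← mulVec_mulVec, mulVec_transpose, hN, mulVec_zero, zero_vecMulVec]
  have hT : (1 + N * Nᵀ) * (1 - (1 - s ^ 2) • vecMulVec V V) =
      1 + N * Nᵀ - (1 - s ^ 2) • vecMulVec V V := by
    rw [Matrix.mul_sub, Matrix.mul_one, Matrix.mul_smul, Matrix.add_mul, Matrix.one_mul, hz,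
      add_zero]
  have hdT : (1 + N * Nᵀ - (1 - s ^ 2) • vecMulVec V V).det = s ^ 2 * (1 + N * Nᵀ).det := by
    rw [← hT, det_mul, det_kernel_vdet V hV]
    ring
  rw [← hdT]
  have hNN : (N * Nᵀ).PosSemidef := by
    have := det_mono_tmul Nᵀ
    rw [transpose_transpose] at this
    exact this
  have hP : (s ^ 2 • (1 : Matrix n n ℝ) + N * Nᵀ).PosSemidef := by
    apply PosSemidef.add _ hNN
    exact PosSemidef.one.smul (sq_nonneg s)
  refine (det_mono _ _ hP ?_).2
  have hQ : (1 - vecMulVec V V : Matrix n n ℝ).PosSemidef := by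
    have hid : (1 - vecMulVec V V : Matrix n n ℝ) =
        (1 - vecMulVec V V)ᵀ * (1 - vecMulVec V V) := by
      have ht : (1 - vecMulVec V V : Matrix n n ℝ)ᵀ = 1 - vecMulVec V V := by
        rw [transpose_sub, transpose_one, transpose_vecMulVec]
      have hvv : (vecMulVec V V : Matrix n n ℝ) * vecMulVec V V = vecMulVec V V := by
        rw [vecMulVec_mul_vecMulVec, hV, one_smul]
      rw [ht, Matrix.mul_sub, Matrix.mul_one, Matrix.sub_mul, Matrix.one_mul, hvv, sub_self,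
        sub_zero]
    rw [hid]
    exact det_mono_tmul _
  have hdiff : 1 + N * Nᵀ - (1 - s ^ 2) • vecMulVec V V - (s ^ 2 • (1 : Matrix n n ℝ) + N * Nᵀ) =
      (1 - s ^ 2) • (1 - vecMulVec V V) := by
    rw [smul_sub, sub_smul, sub_smul, one_smul, one_smul]
    abel
  rw [hdiff]
  exact hQ.smul (by nlinarith)

theorem det_pert {n : Type} [Fintype n] [DecidableEq n] (N B R' : Matrix n n ℝ)
    (hB : (1 - B * Bᵀ).PosSemidef) (hR : (1 - R'ᵀ * R').PosSemidef) :
    (1 + (N * B + R')ᵀ * (N * B + R')).det ≤ 3 ^ (Fintype.card n) * (1 + Nᵀ * N).det := by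
  obtain ⟨X, hX⟩ : ∃ X, X = N * B := ⟨_, rfl⟩
  rw [← hX]
  have h1 : (1 + (X + R')ᵀ * (X + R')).det ≤ ((3 : ℝ) • (1 + Xᵀ * X)).det := by
    refine (det_mono _ _ (PosSemidef.one.add (det_mono_tmul _)) ?_).2
    have hdiff : (3 : ℝ) • (1 + Xᵀ * X) - (1 + (X + R')ᵀ * (X + R')) =
        ((2 : ℝ) • (1 - R'ᵀ * R') + Xᵀ * X) + (X - R')ᵀ * (X - R') := by
      rw [transpose_add, transpose_sub]
      simp only [Matrix.mul_add, Matrix.add_mul, Matrix.mul_sub, Matrix.sub_mul]
      module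
    rw [hdiff]
    exact ((hR.smul (by norm_num)).add (det_mono_tmul _)).add (det_mono_tmul _)
  refine h1.trans ?_
  rw [det_smul, det_one_add_mul_comm]
  apply mul_le_mul_of_nonneg_left _ (by positivity)
  rw [det_one_add_mul_comm Nᵀ N]
  have hXX : (X * Xᵀ).PosSemidef := by
    have := det_mono_tmul Xᵀ
    rw [transpose_transpose] at this
    exact this
  refine (det_mono _ _ (PosSemidef.one.add hXX) ?_).2
  have hdiff : 1 + N * Nᵀ - (1 + X * Xᵀ) = (Nᵀ)ᵀ * (1 - B * Bᵀ) * Nᵀ := by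
    rw [hX, transpose_transpose, transpose_mul]
    simp only [Matrix.mul_sub, Matrix.sub_mul, Matrix.mul_one, Matrix.mul_assoc]
    abel
  rw [hdiff]
  exact det_mono_conj _ _ hB

end Pool.Agent.Helper608.VF
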