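import Pool.Agent.Helper608.VF.XDefs
import Pool.Agent.Helper608.VF.J_a_det
set_option autoImplicit false
open Matrix MeasureTheory
open scoped ENNReal ContDiff
open Filter Topology
namespace Pool.Agent.Helper608.VF


theorem dens_scale_cs {n : Type} [Fintype n] (x y : n → ℝ) :
    (x ⬝ᵥ y) ^ 2 ≤ (x ⬝ᵥ x) * (y ⬝ᵥ y) := by
  have := Finset.sum_mul_sq_le_sq_mul_sq Finset.univ x y
  simpa [dotProduct, sq] using this

theorem dens_scale_psd {n : Type} [Fintype n] [DecidableEq n] (M : Matrix n n ℝ)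
    (h : ∀ u : n → ℝ, (M *ᵥ u) ⬝ᵥ (M *ᵥ u) ≤ u ⬝ᵥ u) : (1 - Mᵀ * M).PosSemidef := by
  apply PosSemidef.of_dotProduct_mulVec_nonneg
  · unfold Matrix.IsHermitian
    simp [Matrix.conjTranspose_eq_transpose_of_trivial, Matrix.transpose_mul]
  · intro u
    have e1 : u ⬝ᵥ ((Mᵀ * M) *ᵥ u) = (M *ᵥ u) ⬝ᵥ (M *ᵥ u) := by
      rw [← Matrix.mulVec_mulVec, Matrix.dotProduct_mulVec, Matrix.vecMul_transpose]
    have := h u
    simp only [star_trivial]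
    rw [Matrix.sub_mulVec, dotProduct_sub, Matrix.one_mulVec, e1]
    linarith

theorem dens_scale_vm {n : Type} [Fintype n] (z V u : n → ℝ) :
    vecMulVec z V *ᵥ u = (V ⬝ᵥ u) • z := by
  ext i
  simp only [mulVec, dotProduct, vecMulVec_apply, Pi.smul_apply, smul_eq_mul, Finset.sum_mul]
  exact Finset.sum_congr rfl fun j _ => by ring

/-- the matrix c -/
noncomputable def dens_scale_c {n : Type} [Fintype n] [DecidableEq n] (z V : n → ℝ) : Matrix n n ℝ :=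
  -(z ⬝ᵥ V) • (1 : Matrix n n ℝ) + vecMulVec z V

theorem dens_scale_c_mulVec {n : Type} [Fintype n] [DecidableEq n] (z V u : n → ℝ) :
    dens_scale_c z V *ᵥ u = -(z ⬝ᵥ V) • u + (V ⬝ᵥ u) • z := by
  unfold dens_scale_c
  rw [Matrix.add_mulVec, dens_scale_vm, Matrix.smul_mulVec, Matrix.one_mulVec]

theorem dens_scale_c_bound {n : Type} [Fintype n] [DecidableEq n] (z V : n → ℝ)
    (hV : V ⬝ᵥ V = 1) (u : n → ℝ) :
    (dens_scale_c z V *ᵥ u) ⬝ᵥ (dens_scale_c z V *ᵥ u) ≤ 4 * (z ⬝ᵥ z) * (u ⬝ᵥ u) := by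
  rw [dens_scale_c_mulVec]
  have e : (-(z ⬝ᵥ V) • u + (V ⬝ᵥ u) • z) ⬝ᵥ (-(z ⬝ᵥ V) • u + (V ⬝ᵥ u) • z)
      = (z ⬝ᵥ V) ^ 2 * (u ⬝ᵥ u) - 2 * (z ⬝ᵥ V) * (V ⬝ᵥ u) * (z ⬝ᵥ u)
        + (V ⬝ᵥ u) ^ 2 * (z ⬝ᵥ z) := by
    simp only [add_dotProduct, dotProduct_add, smul_dotProduct, dotProduct_smul, smul_eq_mul,
      dotProduct_comm u z]
    ring
  rw [e]
  have h1 := dens_scale_cs z V
  have h2 := dens_scale_cs V u
  have h3 := dens_scale_cs z u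
  rw [hV, mul_one] at h1
  rw [hV, one_mul] at h2
  have hz0 : 0 ≤ z ⬝ᵥ z := by
    simp only [dotProduct]; exact Finset.sum_nonneg fun i _ => mul_self_nonneg _
  have hu0 : 0 ≤ u ⬝ᵥ u := by
    simp only [dotProduct]; exact Finset.sum_nonneg fun i _ => mul_self_nonneg _
  generalize z ⬝ᵥ V = p at *
  generalize V ⬝ᵥ u = q at *
  generalize z ⬝ᵥ u = w at *
  generalize z ⬝ᵥ z = r at *
  generalize u ⬝ᵥ u = U at *
  have a1 : p ^ 2 * U ≤ r * U := mul_le_mul_of_nonneg_right h1 hu0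
  have a2 : q ^ 2 * r ≤ U * r := mul_le_mul_of_nonneg_right h2 hz0
  have a3 : p ^ 2 * q ^ 2 ≤ r * U := mul_le_mul h1 h2 (sq_nonneg _) hz0
  nlinarith [sq_nonneg (p * q + w)]

theorem dens_scale_key {k : ℕ} (z V : I k → ℝ) (hV : V ⬝ᵥ V = 1) (A : Matrix (I k) (I k) ℝ)
    (hA : V ᵥ* A = 0) (s : ℝ) (hs : 0 < s) (hs1 : s ≤ 1) (hz : 1 ≤ z ⬝ᵥ z) :
    ((s ^ 2 • (1 : Matrix (I k) (I k) ℝ) +
      (((s ^ 2 + z ⬝ᵥ z) / 2) • (A * (1 - (z ⬝ᵥ z)⁻¹ • vecMulVec z z)) + dens_scale_c z V)ᵀ *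
      (((s ^ 2 + z ⬝ᵥ z) / 2) • (A * (1 - (z ⬝ᵥ z)⁻¹ • vecMulVec z z)) + dens_scale_c z V))).det
      ≤ s ^ 2 * (3 ^ (2 * k + 2) * (1 + (((1 + z ⬝ᵥ z) / 2) • A + dens_scale_c z V)ᵀ *
        (((1 + z ⬝ᵥ z) / 2) • A + dens_scale_c z V)).det) := by
  have hr0 : 0 < z ⬝ᵥ z := by linarith
  have hVA : V ᵥ* (((s ^ 2 + z ⬝ᵥ z) / 2) • (A * (1 - (z ⬝ᵥ z)⁻¹ • vecMulVec z z))
      + dens_scale_c z V) = 0 := by
    rw [Matrix.vecMul_add, Matrix.vecMul_smul, ← Matrix.vecMul_vecMul, hA, Matrix.zero_vecMul,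
      smul_zero, zero_add]
    unfold dens_scale_c
    rw [Matrix.vecMul_add, Matrix.vecMul_smul, Matrix.vecMul_one]
    ext j
    have : (V ᵥ* vecMulVec z V) j = (z ⬝ᵥ V) * V j := by
      simp only [vecMul, dotProduct, vecMulVec_apply, Finset.sum_mul]
      exact Finset.sum_congr rfl fun i _ => by ring
    simp only [Pi.add_apply, Pi.smul_apply, smul_eq_mul, this, Pi.zero_apply]
    ring
  refine (det_kernel _ V hV hVA s hs hs1).trans ?_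
  refine mul_le_mul_of_nonneg_left ?_ (sq_nonneg s)
  set r := z ⬝ᵥ z with hr
  set th : ℝ := (s ^ 2 + r) / (1 + r) with hth
  set P : Matrix (I k) (I k) ℝ := 1 - r⁻¹ • vecMulVec z z with hP
  have hth0 : 0 < th := by positivity
  have hs2 : s ^ 2 ≤ 1 := by nlinarith
  have hth1 : th ≤ 1 := by
    rw [hth, div_le_one (by linarith)]
    linarith
  have h1r : (1 + r) ≠ 0 := by linarith
  have hcP : dens_scale_c z V * P = dens_scale_c z V := by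
    rw [hP, Matrix.mul_sub, Matrix.mul_one, Matrix.mul_smul, Matrix.mul_vecMulVec,
      dens_scale_c_mulVec, dotProduct_comm V z]
    have : -(z ⬝ᵥ V) • z + (z ⬝ᵥ V) • z = 0 := by
      rw [neg_smul]; simp
    rw [this]
    simp
  have hdec : ((s ^ 2 + r) / 2) • (A * P) + dens_scale_c z V
      = (((1 + r) / 2) • A + dens_scale_c z V) * (th • P) + (1 - th) • dens_scale_c z V := by
    rw [Matrix.mul_smul, Matrix.add_mul, hcP, Matrix.smul_mul, smul_add, smul_smul, sub_smul, one_smul]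
    have : th * ((1 + r) / 2) = (s ^ 2 + r) / 2 := by
      rw [hth]; field_simp
    rw [this]
    abel
  rw [hdec]
  have hcard : Fintype.card (I k) = 2 * k + 2 := by simp [I]
  rw [← hcard]
  apply det_pert
  · have hPT : Pᵀ = P := by
      rw [hP, Matrix.transpose_sub, Matrix.transpose_one, Matrix.transpose_smul]
      congr 2
      ext i j
      simp [vecMulVec_apply, mul_comm]
    have := dens_scale_psd ((th • P)ᵀ) (by
      intro u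
      rw [Matrix.transpose_smul, hPT, Matrix.smul_mulVec, hP, Matrix.sub_mulVec, Matrix.one_mulVec,
        Matrix.smul_mulVec, dens_scale_vm]
      have e : (th • (u - r⁻¹ • ((z ⬝ᵥ u) • z))) ⬝ᵥ (th • (u - r⁻¹ • ((z ⬝ᵥ u) • z)))
          = th ^ 2 * (u ⬝ᵥ u - r⁻¹ * (z ⬝ᵥ u) ^ 2) := by
        simp only [smul_dotProduct, dotProduct_smul, smul_eq_mul, sub_dotProduct, dotProduct_sub,
          dotProduct_comm u z, ← hr]
        field_simp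
        ring
      rw [e]
      have hu0 : 0 ≤ u ⬝ᵥ u := by
        simp only [dotProduct]; exact Finset.sum_nonneg fun i _ => mul_self_nonneg _
      have h1 : 0 ≤ r⁻¹ * (z ⬝ᵥ u) ^ 2 := by positivity
      have h2 : th ^ 2 ≤ 1 := by nlinarith
      calc th ^ 2 * (u ⬝ᵥ u - r⁻¹ * (z ⬝ᵥ u) ^ 2) ≤ th ^ 2 * (u ⬝ᵥ u) :=
            mul_le_mul_of_nonneg_left (by linarith) (sq_nonneg _)
        _ ≤ 1 * (u ⬝ᵥ u) := mul_le_mul_of_nonneg_right h2 hu0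
        _ = _ := one_mul _)
    rwa [Matrix.transpose_transpose] at this
  · apply dens_scale_psd
    intro u
    rw [Matrix.smul_mulVec, smul_dotProduct, dotProduct_smul, smul_eq_mul, smul_eq_mul]
    have hb := dens_scale_c_bound z V hV u
    rw [← hr] at hb
    have hu0 : 0 ≤ u ⬝ᵥ u := by
      simp only [dotProduct]; exact Finset.sum_nonneg fun i _ => mul_self_nonneg _
    have h1 : (1 - th) * (1 + r) = 1 - s ^ 2 := by
      rw [hth]; field_simp; ring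
    have h0 : 0 ≤ 1 - th := by linarith
    have h2 : (1 - th) ^ 2 * (4 * r) ≤ 1 := by
      have : (1 - th) ^ 2 * (4 * r) ≤ (1 - th) ^ 2 * (1 + r) ^ 2 :=
        mul_le_mul_of_nonneg_left (by nlinarith [sq_nonneg (1 - r)]) (sq_nonneg _)
      have h3 : (1 - th) ^ 2 * (1 + r) ^ 2 = (1 - s ^ 2) ^ 2 := by
        rw [← mul_pow, h1]
      rw [h3] at this
      have h4 : (1 - s ^ 2) ^ 2 ≤ 1 := by nlinarith [sq_nonneg s]
      linarith
    calc (1 - th) * ((1 - th) * ((dens_scale_c z V *ᵥ u) ⬝ᵥ (dens_scale_c z V *ᵥ u)))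
        = (1 - th) ^ 2 * ((dens_scale_c z V *ᵥ u) ⬝ᵥ (dens_scale_c z V *ᵥ u)) := by ring
      _ ≤ (1 - th) ^ 2 * (4 * r * (u ⬝ᵥ u)) := mul_le_mul_of_nonneg_left hb (sq_nonneg _)
      _ = ((1 - th) ^ 2 * (4 * r)) * (u ⬝ᵥ u) := by ring
      _ ≤ 1 * (u ⬝ᵥ u) := mul_le_mul_of_nonneg_right h2 hu0
      _ = _ := one_mul _

theorem dens_scale {k : ℕ} (z V : I k → ℝ) (hV : V ⬝ᵥ V = 1) (A : Matrix (I k) (I k) ℝ) (hA : V ᵥ* A = 0)
    (s : ℝ) (hs : 0 < s) (hs1 : s ≤ 1) (hz : 1 ≤ z ⬝ᵥ z) :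
    (s⁻¹) ^ (2 * k + 2) * dens (s⁻¹ • z) V (s • (A * (1 - (z ⬝ᵥ z)⁻¹ • vecMulVec z z)))
      ≤ s * (2 ^ (2 * k + 2) * 3 ^ (k + 1) * dens z V A) := by
  have hr0 : 0 < z ⬝ᵥ z := by linarith
  have hs0 : s ≠ 0 := hs.ne'
  have key := dens_scale_key z V hV A hA s hs hs1 hz
  have hcard : Fintype.card (I k) = 2 * k + 2 := by simp [I]
  -- Mm at z
  have hM1 : Mm z V A = ((1 + z ⬝ᵥ z) / 2) • A + dens_scale_c z V := by
    unfold Mm dens_scale_c lam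
    rw [neg_smul]
    have : (1 / 2 + z ⬝ᵥ z / 2 : ℝ) = (1 + z ⬝ᵥ z) / 2 := by ring
    rw [this]
    abel
  have hMs : Mm (s⁻¹ • z) V (s • (A * (1 - (z ⬝ᵥ z)⁻¹ • vecMulVec z z)))
      = s⁻¹ • (((s ^ 2 + z ⬝ᵥ z) / 2) • (A * (1 - (z ⬝ᵥ z)⁻¹ • vecMulVec z z))
        + dens_scale_c z V) := by
    unfold Mm dens_scale_c lam
    rw [smul_dotProduct, smul_dotProduct, dotProduct_smul, smul_eq_mul, smul_eq_mul, smul_eq_mul,
      smul_smul, smul_add, smul_smul, smul_add, smul_smul, mul_neg, neg_smul]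
    have e1 : (1 / 2 + s⁻¹ * (s⁻¹ * z ⬝ᵥ z) / 2) * s = s⁻¹ * ((s ^ 2 + z ⬝ᵥ z) / 2) := by
      field_simp
    have e2 : vecMulVec (s⁻¹ • z) V = s⁻¹ • vecMulVec z V := by
      ext i j
      simp [vecMulVec_apply, mul_assoc]
    rw [e1, e2]

    abel
  unfold dens
  rw [hM1, hMs]
  set N := ((s ^ 2 + z ⬝ᵥ z) / 2) • (A * (1 - (z ⬝ᵥ z)⁻¹ • vecMulVec z z)) + dens_scale_c z V with hN
  set N1 := ((1 + z ⬝ᵥ z) / 2) • A + dens_scale_c z V with hN1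
  have hl1 : lam ((z ⬝ᵥ z) / 2) = (1 + z ⬝ᵥ z) / 2 := by unfold lam; ring
  have hls : lam (((s⁻¹ • z) ⬝ᵥ (s⁻¹ • z)) / 2) = (s ^ 2 + z ⬝ᵥ z) / (2 * s ^ 2) := by
    unfold lam
    rw [smul_dotProduct, dotProduct_smul, smul_eq_mul, smul_eq_mul]
    field_simp
  rw [hl1, hls]
  have hdet : (1 + (s⁻¹ • N)ᵀ * (s⁻¹ • N)).det
      = (s⁻¹ ^ (2 * k + 2)) ^ 2 * (s ^ 2 • (1 : Matrix (I k) (I k) ℝ) + Nᵀ * N).det := by
    have : (1 + (s⁻¹ • N)ᵀ * (s⁻¹ • N))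
        = (s⁻¹ ^ 2) • (s ^ 2 • (1 : Matrix (I k) (I k) ℝ) + Nᵀ * N) := by
      rw [Matrix.transpose_smul, Matrix.smul_mul, Matrix.mul_smul, smul_add, smul_smul, smul_smul]
      have e : s⁻¹ ^ 2 * s ^ 2 = 1 := by field_simp
      rw [e, one_smul, ← sq]
    rw [this, Matrix.det_smul, hcard]
    ring
  rw [hdet]
  have hp0 : 0 ≤ s⁻¹ ^ (2 * k + 2) := by positivity
  rw [Real.sqrt_mul (sq_nonneg _), Real.sqrt_sq hp0]
  have hsq : Real.sqrt (s ^ 2 • (1 : Matrix (I k) (I k) ℝ) + Nᵀ * N).det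
      ≤ s * (3 ^ (k + 1) * Real.sqrt (1 + N1ᵀ * N1).det) := by
    refine (Real.sqrt_le_sqrt key).trans ?_
    rw [Real.sqrt_mul (sq_nonneg _), Real.sqrt_sq hs.le]
    refine mul_le_mul_of_nonneg_left (le_of_eq ?_) hs.le
    have : (3 : ℝ) ^ (2 * k + 2) = (3 ^ (k + 1)) ^ 2 := by rw [← pow_mul]; congr 1; ring
    rw [this, Real.sqrt_mul (sq_nonneg _), Real.sqrt_sq (by positivity)]
  have hS0 : 0 ≤ Real.sqrt (1 + N1ᵀ * N1).det := Real.sqrt_nonneg _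
  -- the power estimate
  have hpow : s⁻¹ ^ (2 * k + 2) * (s⁻¹ ^ (2 * k + 2)
      / ((s ^ 2 + z ⬝ᵥ z) / (2 * s ^ 2)) ^ (2 * k + 2)) ≤ 2 ^ (2 * k + 2) / ((1 + z ⬝ᵥ z) / 2) ^ (2 * k + 2) := by
    rw [← div_pow, ← mul_pow, ← div_pow]
    apply pow_le_pow_left₀
    · positivity
    · have e : s⁻¹ * (s⁻¹ / ((s ^ 2 + z ⬝ᵥ z) / (2 * s ^ 2))) = 2 / (s ^ 2 + z ⬝ᵥ z) := by
        have : s ^ 2 + z ⬝ᵥ z ≠ 0 := by positivity
        field_simp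
      rw [e, div_le_div_iff₀ (by positivity) (by positivity)]
      nlinarith [sq_nonneg s]
  calc s⁻¹ ^ (2 * k + 2) * (s⁻¹ ^ (2 * k + 2) *
        Real.sqrt (s ^ 2 • (1 : Matrix (I k) (I k) ℝ) + Nᵀ * N).det
        / ((s ^ 2 + z ⬝ᵥ z) / (2 * s ^ 2)) ^ (2 * k + 2))
      = (s⁻¹ ^ (2 * k + 2) * (s⁻¹ ^ (2 * k + 2)
      / ((s ^ 2 + z ⬝ᵥ z) / (2 * s ^ 2)) ^ (2 * k + 2))) *
        Real.sqrt (s ^ 2 • (1 : Matrix (I k) (I k) ℝ) + Nᵀ * N).det := by ring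
    _ ≤ (2 ^ (2 * k + 2) / ((1 + z ⬝ᵥ z) / 2) ^ (2 * k + 2)) *
        (s * (3 ^ (k + 1) * Real.sqrt (1 + N1ᵀ * N1).det)) := by
        apply mul_le_mul hpow hsq (Real.sqrt_nonneg _)
        positivity
    _ = _ := by ring

end Pool.Agent.Helper608.VF
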