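import Pool.Agent.Helper608.VF.XDefs
set_option autoImplicit false
open Matrix MeasureTheory
open scoped ENNReal ContDiff
namespace Pool.Agent.Helper608.VF


theorem frame_inner {k : ℕ} (x y : I k → ℝ) :
    inner ℝ (WithLp.toLp 2 x : E k) (WithLp.toLp 2 y) = x ⬝ᵥ y := by
  rw [EuclideanSpace.inner_eq_star_dotProduct]
  simp [dotProduct_comm]

theorem frame_basis {k : ℕ} (x V : E k) (hV : inner ℝ V V = (1 : ℝ)) :
    ∃ (b : OrthonormalBasis (I k) ℝ (E k)) (ζ : ℝ), 0 ≤ ζ ∧ b (Sum.inr 0) = V ∧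
      x = (inner ℝ x V : ℝ) • b (Sum.inr 0) + ζ • b (Sum.inr 1) := by
  have card : Module.finrank ℝ (E k) = Fintype.card (I k) := finrank_euclideanSpace
  have h10 : ¬ (Sum.inr 1 : I k) = Sum.inr 0 := by
    intro h
    have h2 : (1 : Fin 2) = 0 := Sum.inr_injective h
    exact absurd h2 (by decide)
  set w : E k := x - (inner ℝ x V : ℝ) • V with hw
  have hwV : inner ℝ w V = (0 : ℝ) := by
    rw [hw, inner_sub_left, real_inner_smul_left, hV]; ring
  by_cases h0 : w = 0
  · have ho : Orthonormal ℝ (({Sum.inr 0} : Set (I k)).domRestrict (fun _ => V)) := by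
      rw [orthonormal_iff_ite]
      rintro ⟨i, hi⟩ ⟨j, hj⟩
      have e : i = j := by
        rw [Set.mem_singleton_iff] at hi hj
        rw [hi, hj]
      subst e
      change inner ℝ V V = _
      rw [hV, if_pos rfl]
    obtain ⟨b, hb⟩ := ho.exists_orthonormalBasis_extension_of_card_eq card
    refine ⟨b, 0, le_refl _, hb _ rfl, ?_⟩
    rw [hb _ rfl, zero_smul, add_zero]
    exact sub_eq_zero.1 h0
  · have hn : ‖w‖ ≠ 0 := norm_ne_zero_iff.2 h0
    have hww : inner ℝ w w = ‖w‖ ^ 2 := real_inner_self_eq_norm_sq w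
    let v : I k → E k := fun i => if i = Sum.inr 0 then V else ‖w‖⁻¹ • w
    have ho : Orthonormal ℝ (({Sum.inr 0, Sum.inr 1} : Set (I k)).domRestrict v) := by
      have v0 : v (Sum.inr 0) = V := if_pos rfl
      have v1 : v (Sum.inr 1) = ‖w‖⁻¹ • w := if_neg h10
      rw [orthonormal_iff_ite]
      rintro ⟨i, hi⟩ ⟨j, hj⟩
      change inner ℝ (v i) (v j) = _
      rcases hi with rfl | rfl <;> rcases hj with rfl | rfl
      · rw [v0, hV, if_pos rfl]
      · rw [v0, v1, real_inner_smul_right, real_inner_comm, hwV, mul_zero, if_neg]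
        intro h
        exact h10 (congrArg Subtype.val h).symm
      · rw [v0, v1, real_inner_smul_left, hwV, mul_zero, if_neg]
        intro h
        exact h10 (congrArg Subtype.val h)
      · rw [v1, real_inner_smul_left, real_inner_smul_right, hww, if_pos rfl]
        field_simp
    obtain ⟨b, hb⟩ := ho.exists_orthonormalBasis_extension_of_card_eq card
    have hb0 : b (Sum.inr 0) = V := by
      rw [hb _ (Set.mem_insert _ _)]
      exact if_pos rfl
    have hb1 : b (Sum.inr 1) = ‖w‖⁻¹ • w := by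
      rw [hb _ (Set.mem_insert_of_mem _ rfl)]
      exact if_neg h10
    refine ⟨b, ‖w‖, norm_nonneg _, hb0, ?_⟩
    rw [hb0, hb1, smul_smul, mul_inv_cancel₀ hn, one_smul, hw]
    abel

theorem frame {k : ℕ} (x V : I k → ℝ) (hV : V ⬝ᵥ V = 1) :
    ∃ O : Matrix (I k) (I k) ℝ, Oᵀ * O = 1 ∧ O *ᵥ V = Vn k ∧ ∃ ζ : ℝ, 0 ≤ ζ ∧ O *ᵥ x = xn k (x ⬝ᵥ V) ζ := by
  obtain ⟨b, ζ, hζ, h0, hx⟩ := frame_basis (WithLp.toLp 2 x : E k) (WithLp.toLp 2 V)
    (by rw [frame_inner]; exact hV)
  rw [frame_inner] at hx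
  let O : Matrix (I k) (I k) ℝ := Matrix.of fun i j => (b i).ofLp j
  have hO : ∀ (y : I k → ℝ) (i : I k), (O *ᵥ y) i = inner ℝ (b i) (WithLp.toLp 2 y : E k) := by
    intro y i
    exact (frame_inner (b i).ofLp y).symm
  have hb : ∀ i j, inner ℝ (b i) (b j) = if i = j then (1 : ℝ) else 0 := fun i j =>
    orthonormal_iff_ite.1 b.orthonormal i j
  refine ⟨O, ?_, ?_, ζ, hζ, ?_⟩
  · rw [mul_eq_one_comm]
    ext i j
    have h1 : (O * Oᵀ) i j = inner ℝ (b i) (b j) := (frame_inner (b i).ofLp (b j).ofLp).symm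
    rw [h1, hb, Matrix.one_apply]
  · funext i
    rw [hO, ← h0, hb]
    unfold Vn
    rw [Pi.single_apply]
  · funext i
    rw [hO, hx, inner_add_right, real_inner_smul_right, real_inner_smul_right, hb, hb]
    unfold xn
    simp only [Pi.add_apply, Pi.smul_apply, Pi.single_apply, smul_eq_mul]

end Pool.Agent.Helper608.VF
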