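import Pool.Agent.Helper608.VF.XDefs
set_option autoImplicit false
open Matrix MeasureTheory
open scoped ENNReal ContDiff
namespace Pool.Agent.Helper608.VF


theorem cls_mul_rw' {c : Type} [Fintype c] (B : Matrix c c ℝ) : ∀ (n : ℕ) (X : Fin n → c → ℝ) (z z' : c → ℝ)
    (i : Fin (n + 2)),
    rw' n (fun i => X i ᵥ* B) (z ᵥ* B) (z' ᵥ* B) i = rw' n X z z' i ᵥ* B
  | 0, X, z, z', i => by
      fin_cases i <;> simp [rw']
  | (n + 1), X, z, z', i => by
      refine Fin.cases ?_ (fun i => ?_) i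
      · simp [rw']
      · simp only [rw', Fin.cons_succ]
        exact cls_mul_rw' B n (fun i => X i.succ) z z' i

theorem cls_mul {ι : Type} [Fintype ι] (n : ℕ) (α β : ι → ℝ) (g : ι → Fin 3 → ℝ)
    (X Y : Matrix (Fin n) (Fin (n + 2)) ℝ) (Z : Matrix (Fin 3) (Fin (n + 2)) ℝ)
    (B : Matrix (Fin (n + 2)) (Fin (n + 2)) ℝ) :
    cls n α β g (X * B) (Y * B) (Z * B) = B.det * cls n α β g X Y Z := by
  unfold cls
  rw [Finset.mul_sum]
  refine Finset.sum_congr rfl (fun m _ => ?_)
  rw [Finset.mul_sum]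
  refine Finset.sum_congr rfl (fun i _ => ?_)
  have key : (Matrix.of (rw' n (fun j => α m • (X * B) j + β m • (Y * B) j) ((Z * B) (i + 1))
      ((Z * B) (i + 2)))) =
      (Matrix.of (rw' n (fun j => α m • X j + β m • Y j) (Z (i + 1)) (Z (i + 2)))) * B := by
    have h1 : (fun j => α m • (X * B) j + β m • (Y * B) j) =
        (fun j => (α m • X j + β m • Y j) ᵥ* B) := by
      funext j
      rw [Matrix.add_vecMul, Matrix.smul_vecMul, Matrix.smul_vecMul]
      rfl
    rw [h1]
    ext a b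
    have h2 := congrFun (cls_mul_rw' B n (fun j => α m • X j + β m • Y j) (Z (i + 1)) (Z (i + 2)) a) b
    exact h2
  rw [key, Matrix.det_mul]
  ring

theorem cls_left_castAdd {c : Type} : ∀ (n : ℕ) (X : Fin n → c → ℝ) (z z' : c → ℝ)
    (i : Fin n), rw' n X z z' (Fin.castAdd 2 i) = X i
  | 0, X, z, z', i => i.elim0
  | (n + 1), X, z, z', i => by
      refine Fin.cases ?_ (fun i => ?_) i
      · rfl
      · exact cls_left_castAdd n (fun i => X i.succ) z z' i

theorem cls_left_natAdd {c : Type} : ∀ (n : ℕ) (X : Fin n → c → ℝ) (z z' : c → ℝ)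
    (i : Fin 2), rw' n X z z' (Fin.natAdd n i) = (![z, z'] : Fin 2 → c → ℝ) i
  | 0, X, z, z', i => by
      have : Fin.natAdd 0 i = i := by
        ext; simp
      rw [this]; rfl
  | (n + 1), X, z, z', i => by
      have : Fin.natAdd (n + 1) i = (Fin.natAdd n i).succ := by
        ext; simp; omega
      rw [this]
      exact cls_left_natAdd n (fun i => X i.succ) z z' i

theorem cls_left {ι : Type} [Fintype ι] (n : ℕ) (α β : ι → ℝ) (g : ι → Fin 3 → ℝ)
    (X Y : Matrix (Fin n) (Fin (n + 2)) ℝ) (Z : Matrix (Fin 3) (Fin (n + 2)) ℝ)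
    (O : Matrix (Fin n) (Fin n) ℝ) :
    cls n α β g (O * X) (O * Y) Z = O.det * cls n α β g X Y Z := by
  unfold cls
  rw [Finset.mul_sum]
  refine Finset.sum_congr rfl (fun m _ => ?_)
  rw [Finset.mul_sum]
  refine Finset.sum_congr rfl (fun i _ => ?_)
  set W : Matrix (Fin n) (Fin (n + 2)) ℝ := α m • X + β m • Y with hW
  set M : Matrix (Fin (n + 2)) (Fin (n + 2)) ℝ :=
    Matrix.of (rw' n (fun j => α m • X j + β m • Y j) (Z (i + 1)) (Z (i + 2))) with hM
  set D : Matrix (Fin (n + 2)) (Fin (n + 2)) ℝ :=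
    Matrix.reindex finSumFinEquiv finSumFinEquiv (Matrix.fromBlocks O 0 0 (1 : Matrix (Fin 2) (Fin 2) ℝ)) with hD
  have hDdet : D.det = O.det := by
    rw [hD, Matrix.det_reindex_self, Matrix.det_fromBlocks_zero₂₁, Matrix.det_one, mul_one]
  have key : (Matrix.of (rw' n (fun j => α m • (O * X) j + β m • (O * Y) j) (Z (i + 1))
      (Z (i + 2)))) = D * M := by
    have h1 : (fun j => α m • (O * X) j + β m • (O * Y) j) = (O * W) := by
      rw [hW, Matrix.mul_add, Matrix.mul_smul, Matrix.mul_smul]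
      rfl
    rw [h1]
    ext a b
    obtain ⟨a, rfl⟩ := (finSumFinEquiv (m := n) (n := 2)).surjective a
    rw [Matrix.mul_apply, ← (finSumFinEquiv (m := n) (n := 2)).sum_comp, Fintype.sum_sum_type]
    rcases a with a | a
    · have e1 : (Matrix.of (rw' n (O * W) (Z (i + 1)) (Z (i + 2))))
          (finSumFinEquiv (Sum.inl a)) b = (O * W) a b := by
        have := congrFun (cls_left_castAdd n (O * W) (Z (i + 1)) (Z (i + 2)) a) b
        exact this
      rw [e1, Matrix.mul_apply]
      have e2 : ∀ x : Fin n, D (finSumFinEquiv (Sum.inl a)) (finSumFinEquiv (Sum.inl x)) = O a x := by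
        intro x
        simp [hD, -finSumFinEquiv_apply_left]
      have e3 : ∀ x : Fin 2, D (finSumFinEquiv (Sum.inl a)) (finSumFinEquiv (Sum.inr x)) = 0 := by
        intro x
        simp [hD, -finSumFinEquiv_apply_left, -finSumFinEquiv_apply_right]
      have e4 : ∀ x : Fin n, M (finSumFinEquiv (Sum.inl x)) b = W x b := by
        intro x
        have := congrFun (cls_left_castAdd n (fun j => α m • X j + β m • Y j) (Z (i + 1)) (Z (i + 2)) x) b
        exact this
      simp only [e2, e3, e4, zero_mul, Finset.sum_const_zero, add_zero]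
    · have e1 : (Matrix.of (rw' n (O * W) (Z (i + 1)) (Z (i + 2))))
          (finSumFinEquiv (Sum.inr a)) b = (![Z (i + 1), Z (i + 2)] : Fin 2 → _ → ℝ) a b := by
        have := congrFun (cls_left_natAdd n (O * W) (Z (i + 1)) (Z (i + 2)) a) b
        exact this
      rw [e1]
      have e2 : ∀ x : Fin n, D (finSumFinEquiv (Sum.inr a)) (finSumFinEquiv (Sum.inl x)) = 0 := by
        intro x
        simp [hD, -finSumFinEquiv_apply_left, -finSumFinEquiv_apply_right]
      have e3 : ∀ x : Fin 2, D (finSumFinEquiv (Sum.inr a)) (finSumFinEquiv (Sum.inr x)) =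
          (1 : Matrix (Fin 2) (Fin 2) ℝ) a x := by
        intro x
        simp [hD, -finSumFinEquiv_apply_left, -finSumFinEquiv_apply_right]
      have e4 : ∀ x : Fin 2, M (finSumFinEquiv (Sum.inr x)) b =
          (![Z (i + 1), Z (i + 2)] : Fin 2 → _ → ℝ) x b := by
        intro x
        have := congrFun (cls_left_natAdd n (fun j => α m • X j + β m • Y j) (Z (i + 1)) (Z (i + 2)) x) b
        exact this
      simp only [e2, e3, e4, zero_mul, Finset.sum_const_zero, zero_add, Matrix.one_apply, ite_mul,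
        one_mul, Finset.sum_ite_eq, Finset.mem_univ, if_true]
  rw [key, Matrix.det_mul, hDdet]
  ring

theorem cls_rot {ι : Type} [Fintype ι] (n : ℕ) (α β : ι → ℝ) (g : ι → Fin 3 → ℝ)
    (X Y : Matrix (Fin n) (Fin (n + 2)) ℝ) (Z : Matrix (Fin 3) (Fin (n + 2)) ℝ)
    (c s : ℝ) (hcs : c ^ 2 + s ^ 2 = 1) :
    cls n (fun m => c * α m + s * β m) (fun m => -s * α m + c * β m) g
      (c • X + s • Y) (-s • X + c • Y) Z = cls n α β g X Y Z := by
  unfold cls
  refine Finset.sum_congr rfl (fun m _ => ?_)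
  refine Finset.sum_congr rfl (fun i _ => ?_)
  have h1 : (fun j => (c * α m + s * β m) • (c • X + s • Y) j + (-s * α m + c * β m) • (-s • X + c • Y) j)
      = (fun j => α m • X j + β m • Y j) := by
    funext j k
    simp only [Pi.add_apply, Pi.smul_apply, smul_eq_mul, Matrix.add_apply, Matrix.smul_apply]
    linear_combination (α m * X j k + β m * Y j k) * hcs
  rw [h1]

theorem MB_rot {ι : Type} [Fintype ι] (n : ℕ) (α β : ι → ℝ) (g : ι → Fin 3 → ℝ)
    (c s : ℝ) (hcs : c ^ 2 + s ^ 2 = 1) (h : MB n α β g) :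
    MB n (fun m => c * α m + s * β m) (fun m => -s * α m + c * β m) g := by
  intro v hv
  have h1 := h (fun j => (c * (v j).1 - s * (v j).2, s * (v j).1 + c * (v j).2)) (by
    intro j
    have := hv j
    simp only
    linear_combination ((v j).1 ^ 2 + (v j).2 ^ 2) * hcs + this)
  have h2 : ∀ m (j : Fin n), (c * α m + s * β m) * (v j).1 + (-s * α m + c * β m) * (v j).2 =
      α m * (c * (v j).1 - s * (v j).2) + β m * (s * (v j).1 + c * (v j).2) := by
    intro m j; ring
  simp only [h2]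
  exact h1

/-- contraction with `e_0 ⊗ v`, `e_1 ⊗ w` for unit `v, w` preserves the bound -/
theorem MB_contract {ι : Type} [Fintype ι] (n : ℕ) (α β : ι → ℝ) (g : ι → Fin 3 → ℝ)
    (h : MB (n + 2) α β g) (v w : ℝ × ℝ) (hv : v.1 ^ 2 + v.2 ^ 2 = 1) (hw : w.1 ^ 2 + w.2 ^ 2 = 1) :
    MB n α β (fun m i => g m i * ((α m * v.1 + β m * v.2) * (α m * w.1 + β m * w.2))) := by
  intro u hu
  have h1 := h (Fin.cons v (Fin.cons w u)) (by
    intro j
    refine Fin.cases ?_ (fun j => ?_) j
    · simpa using hv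
    · refine Fin.cases ?_ (fun j => ?_) j
      · simpa using hw
      · simpa using hu j)
  refine le_trans (le_of_eq ?_) h1
  refine Finset.sum_congr rfl (fun i _ => ?_)
  congr 1
  refine Finset.sum_congr rfl (fun m _ => ?_)
  rw [Fin.prod_univ_succ, Fin.prod_univ_succ]
  simp only [Fin.cons_zero, Fin.cons_succ]
  ring

end Pool.Agent.Helper608.VF
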