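import Pool.Agent.Helper608.VF.XDefs
import Pool.Agent.Helper608.VF.J_cls_alg
set_option autoImplicit false
open Matrix MeasureTheory
open scoped ENNReal ContDiff
namespace Pool.Agent.Helper608.VF


theorem cls_gram_rw {c : Type} [Fintype c] (n : ℕ) (z z' u : c → ℝ) (hz : z ⬝ᵥ u = 0)
    (hz' : z' ⬝ᵥ u = 0) : ∀ (X : Fin n → c → ℝ), (∀ j, X j ⬝ᵥ u = 0) →
    ∀ i, rw' n X z z' i ⬝ᵥ u = 0 := by
  induction n with
  | zero =>
    intro X _ i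
    fin_cases i
    · exact hz
    · exact hz'
  | succ n ih =>
    intro X hX i
    refine Fin.cases ?_ (fun i => ?_) i
    · exact hX 0
    · exact ih (fun i => X i.succ) (fun j => hX j.succ) i

theorem cls_gram_zero {ι : Type} [Fintype ι] (n : ℕ) (α β : ι → ℝ) (g : ι → Fin 3 → ℝ)
    (X Y : Matrix (Fin n) (Fin (n + 2)) ℝ) (Z : Matrix (Fin 3) (Fin (n + 2)) ℝ)
    (u : Fin (n + 2) → ℝ) (hu : u ≠ 0) (hX : X *ᵥ u = 0) (hY : Y *ᵥ u = 0) (hZ : Z *ᵥ u = 0) :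
    cls n α β g X Y Z = 0 := by
  unfold cls
  apply Finset.sum_eq_zero
  intro m _
  apply Finset.sum_eq_zero
  intro i _
  have hdet : (Matrix.of (rw' n (fun j => α m • X j + β m • Y j) (Z (i + 1)) (Z (i + 2)))).det
      = 0 := by
    rw [← Matrix.exists_mulVec_eq_zero_iff]
    refine ⟨u, hu, ?_⟩
    funext k
    show rw' n (fun j => α m • X j + β m • Y j) (Z (i + 1)) (Z (i + 2)) k ⬝ᵥ u = 0
    apply cls_gram_rw
    · exact congrFun hZ (i + 1)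
    · exact congrFun hZ (i + 2)
    · intro j
      have h1 : X j ⬝ᵥ u = 0 := congrFun hX j
      have h2 : Y j ⬝ᵥ u = 0 := congrFun hY j
      rw [add_dotProduct, smul_dotProduct, smul_dotProduct, h1, h2]
      simp
  rw [hdet, mul_zero]

theorem cls_gram_psd {p q : ℕ} (X : Matrix (Fin p) (Fin q) ℝ) : (Xᵀ * X).PosSemidef := by
  have := Matrix.posSemidef_conjTranspose_mul_self X
  rwa [Matrix.conjTranspose_eq_transpose_of_trivial] at this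

theorem cls_gram_quad {p q : ℕ} (X : Matrix (Fin p) (Fin q) ℝ) (u : Fin q → ℝ) :
    u ⬝ᵥ ((Xᵀ * X) *ᵥ u) = (X *ᵥ u) ⬝ᵥ (X *ᵥ u) := by
  rw [← Matrix.mulVec_mulVec, Matrix.dotProduct_mulVec, Matrix.vecMul_transpose]

open scoped MatrixOrder in
theorem cls_gram_sqrt {q : ℕ} {G : Matrix (Fin q) (Fin q) ℝ} (hG : G.PosSemidef) :
    ∃ B : Matrix (Fin q) (Fin q) ℝ, G = Bᵀ * B := by
  obtain ⟨B, hB⟩ := CStarAlgebra.nonneg_iff_eq_star_mul_self.mp hG.nonneg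
  refine ⟨B, ?_⟩
  rw [hB, Matrix.star_eq_conjTranspose, Matrix.conjTranspose_eq_transpose_of_trivial]

theorem cls_gram_self_nonneg {q : ℕ} (v : Fin q → ℝ) : 0 ≤ v ⬝ᵥ v := by
  unfold dotProduct
  exact Finset.sum_nonneg (fun i _ => mul_self_nonneg _)

/-- from orthonormal frames to all frames -/
theorem cls_gram {ι : Type} [Fintype ι] (n : ℕ) (α β : ι → ℝ) (g : ι → Fin 3 → ℝ)
    (h : ∀ (X Y : Matrix (Fin n) (Fin (n + 2)) ℝ) (Z : Matrix (Fin 3) (Fin (n + 2)) ℝ),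
      Xᵀ * X + Yᵀ * Y + Zᵀ * Z = 1 → |cls n α β g X Y Z| ≤ 1)
    (X Y : Matrix (Fin n) (Fin (n + 2)) ℝ) (Z : Matrix (Fin 3) (Fin (n + 2)) ℝ) :
    cls n α β g X Y Z ^ 2 ≤ (Xᵀ * X + Yᵀ * Y + Zᵀ * Z).det := by
  set G := Xᵀ * X + Yᵀ * Y + Zᵀ * Z with hG
  have hpsd : G.PosSemidef := ((cls_gram_psd X).add (cls_gram_psd Y)).add (cls_gram_psd Z)
  by_cases hdet : G.det = 0
  · obtain ⟨u, hu, hGu⟩ := Matrix.exists_mulVec_eq_zero_iff.2 hdet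
    have hq : (X *ᵥ u) ⬝ᵥ (X *ᵥ u) + (Y *ᵥ u) ⬝ᵥ (Y *ᵥ u) + (Z *ᵥ u) ⬝ᵥ (Z *ᵥ u) = 0 := by
      rw [← cls_gram_quad, ← cls_gram_quad, ← cls_gram_quad, ← dotProduct_add, ← dotProduct_add,
        ← Matrix.add_mulVec, ← Matrix.add_mulVec, ← hG, hGu, dotProduct_zero]
    have h1 : 0 ≤ (X *ᵥ u) ⬝ᵥ (X *ᵥ u) := cls_gram_self_nonneg _
    have h2 : 0 ≤ (Y *ᵥ u) ⬝ᵥ (Y *ᵥ u) := cls_gram_self_nonneg _
    have h3 : 0 ≤ (Z *ᵥ u) ⬝ᵥ (Z *ᵥ u) := cls_gram_self_nonneg _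
    have hX : X *ᵥ u = 0 := dotProduct_self_eq_zero.1 (by linarith)
    have hY : Y *ᵥ u = 0 := dotProduct_self_eq_zero.1 (by linarith)
    have hZ : Z *ᵥ u = 0 := dotProduct_self_eq_zero.1 (by linarith)
    rw [hdet, cls_gram_zero n α β g X Y Z u hu hX hY hZ]
    norm_num
  · obtain ⟨B, hB⟩ := cls_gram_sqrt hpsd
    have hBd : B.det ^ 2 = G.det := by
      rw [hB, Matrix.det_mul, Matrix.det_transpose]
      ring
    have hB0 : B.det ≠ 0 := by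
      intro h0
      rw [h0] at hBd
      apply hdet
      rw [← hBd]
      norm_num
    have hBu : IsUnit B.det := isUnit_iff_ne_zero.2 hB0
    have h1 := h (X * B⁻¹) (Y * B⁻¹) (Z * B⁻¹) (by
      have e : (X * B⁻¹)ᵀ * (X * B⁻¹) + (Y * B⁻¹)ᵀ * (Y * B⁻¹) + (Z * B⁻¹)ᵀ * (Z * B⁻¹) =
          (B⁻¹)ᵀ * G * B⁻¹ := by
        rw [hG]
        simp only [Matrix.transpose_mul, Matrix.mul_add, Matrix.add_mul, Matrix.mul_assoc]
      rw [e, hB]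
      calc (B⁻¹)ᵀ * (Bᵀ * B) * B⁻¹ = ((B⁻¹)ᵀ * Bᵀ) * (B * B⁻¹) := by
            simp only [Matrix.mul_assoc]
        _ = 1 := by
            rw [← Matrix.transpose_mul, Matrix.mul_nonsing_inv B hBu, Matrix.transpose_one,
              Matrix.one_mul])
    rw [cls_mul, Matrix.det_nonsing_inv, abs_mul, Ring.inverse_eq_inv', abs_inv,
      inv_mul_le_iff₀ (abs_pos.2 hB0), mul_one] at h1
    rw [← hBd]
    exact sq_le_sq.2 h1

end Pool.Agent.Helper608.VF
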