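import Pool.Agent.Helper608.VF.XDefs
set_option autoImplicit false
open Matrix MeasureTheory
open scoped ENNReal ContDiff
namespace Pool.Agent.Helper608.VF


theorem cls_zero_alg (G c a b : Fin 3 → ℝ) (hG : G 0 ^ 2 + G 1 ^ 2 + G 2 ^ 2 ≤ 1)
    (ha : a 0 * a 0 + a 1 * a 1 + a 2 * a 2 = 1) (hb : b 0 * b 0 + b 1 * b 1 + b 2 * b 2 = 1)
    (hab : a 0 * b 0 + a 1 * b 1 + a 2 * b 2 = 0)
    (h0 : c 0 = a 1 * b 2 - b 1 * a 2) (h1 : c 1 = a 2 * b 0 - b 2 * a 0)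
    (h2 : c 2 = a 0 * b 1 - b 0 * a 1) :
    |G 0 * c 0 + G 1 * c 1 + G 2 * c 2| ≤ 1 := by
  have hc : c 0 ^ 2 + c 1 ^ 2 + c 2 ^ 2 = 1 := by
    have h3 : c 0 ^ 2 + c 1 ^ 2 + c 2 ^ 2 =
        (a 0 * a 0 + a 1 * a 1 + a 2 * a 2) * (b 0 * b 0 + b 1 * b 1 + b 2 * b 2) -
        (a 0 * b 0 + a 1 * b 1 + a 2 * b 2) ^ 2 := by
      rw [h0, h1, h2]; ring
    rw [h3, ha, hb, hab]; ring
  rw [← abs_one, ← sq_le_sq]
  have h4 : (G 0 * c 0 + G 1 * c 1 + G 2 * c 2) ^ 2 ≤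
      (G 0 ^ 2 + G 1 ^ 2 + G 2 ^ 2) * (c 0 ^ 2 + c 1 ^ 2 + c 2 ^ 2) := by
    nlinarith [sq_nonneg (G 0 * c 1 - G 1 * c 0), sq_nonneg (G 0 * c 2 - G 2 * c 0),
      sq_nonneg (G 1 * c 2 - G 2 * c 1)]
  rw [hc] at h4
  linarith

theorem cls_zero_det (W : Fin 0 → Fin 2 → ℝ) (z z' : Fin 2 → ℝ) :
    (Matrix.of (rw' 0 W z z')).det = z 0 * z' 1 - z 1 * z' 0 := by
  refine (Matrix.det_fin_two (Matrix.of ![z, z'])).trans ?_
  simp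

theorem cls_zero {ι : Type} [Fintype ι] (α β : ι → ℝ) (g : ι → Fin 3 → ℝ) (h : MB 0 α β g)
    (X Y : Matrix (Fin 0) (Fin 2) ℝ) (Z : Matrix (Fin 3) (Fin 2) ℝ)
    (hG : Xᵀ * X + Yᵀ * Y + Zᵀ * Z = 1) :
    |cls 0 α β g X Y Z| ≤ 1 := by
  have h1 := h (fun _ => 0) (fun j => j.elim0)
  simp only [Finset.univ_eq_empty, Finset.prod_empty, mul_one, Fin.sum_univ_three] at h1
  have e : ∀ i j : Fin 2, Z 0 i * Z 0 j + Z 1 i * Z 1 j + Z 2 i * Z 2 j =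
      (1 : Matrix (Fin 2) (Fin 2) ℝ) i j := by
    intro i j
    have h2 := congrFun (congrFun hG i) j
    rw [Matrix.add_apply, Matrix.add_apply, Matrix.mul_apply, Matrix.mul_apply, Matrix.mul_apply] at h2
    simpa [Fin.sum_univ_three] using h2
  have e00 := e 0 0
  have e11 := e 1 1
  have e01 := e 0 1
  simp only [Matrix.one_apply_eq] at e00 e11
  rw [Matrix.one_apply_ne (by decide)] at e01
  have h5 := cls_zero_alg (fun i => ∑ m, g m i)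
    (fun i => Z (i + 1) 0 * Z (i + 2) 1 - Z (i + 1) 1 * Z (i + 2) 0) (fun i => Z i 0) (fun i => Z i 1)
    h1 e00 e11 e01 rfl rfl rfl
  have h6 : cls 0 α β g X Y Z = (∑ m, g m 0) * (Z (0 + 1) 0 * Z (0 + 2) 1 - Z (0 + 1) 1 * Z (0 + 2) 0) +
      (∑ m, g m 1) * (Z (1 + 1) 0 * Z (1 + 2) 1 - Z (1 + 1) 1 * Z (1 + 2) 0) +
      (∑ m, g m 2) * (Z (2 + 1) 0 * Z (2 + 2) 1 - Z (2 + 1) 1 * Z (2 + 2) 0) := by
    unfold cls
    rw [Finset.sum_mul, Finset.sum_mul, Finset.sum_mul, ← Finset.sum_add_distrib,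
      ← Finset.sum_add_distrib]
    refine Finset.sum_congr rfl fun m _ => ?_
    rw [Fin.sum_univ_three]
    rw [cls_zero_det, cls_zero_det, cls_zero_det]
  rw [h6]
  exact h5

end Pool.Agent.Helper608.VF
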