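import Pool.Agent.Helper608.VF.XDefs
set_option autoImplicit false
open Matrix MeasureTheory
open scoped ENNReal ContDiff
namespace Pool.Agent.Helper608.VF


theorem cls_expand_comp {c d : Type} (f : d → c) : ∀ (n : ℕ) (W : Fin n → c → ℝ) (z z' : c → ℝ)
    (i : Fin (n + 2)) (k : d),
    rw' n (fun l k => W l (f k)) (fun k => z (f k)) (fun k => z' (f k)) i k = rw' n W z z' i (f k)
  | 0, W, z, z', i, k => by
    fin_cases i <;> rfl
  | n + 1, W, z, z', i, k => by
    refine Fin.cases ?_ (fun i => ?_) i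
    · rfl
    · exact cls_expand_comp f n (fun i => W i.succ) z z' i k

theorem cls_expand_zero {c : Type} (k : c) : ∀ (n : ℕ) (W : Fin n → c → ℝ) (z z' : c → ℝ)
    (_ : ∀ l, W l k = 0) (_ : z k = 0) (_ : z' k = 0) (i : Fin (n + 2)), rw' n W z z' i k = 0
  | 0, W, z, z', _, hz, hz', i => by
    fin_cases i
    · exact hz
    · exact hz'
  | n + 1, W, z, z', hW, hz, hz', i => by
    refine Fin.cases ?_ (fun i => ?_) i
    · exact hW 0
    · exact cls_expand_zero k n (fun i => W i.succ) z z' (fun l => hW l.succ) hz hz' i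

theorem cls_expand_det (n : ℕ) (a b : ℝ) (X Y : Matrix (Fin (n + 2)) (Fin (n + 4)) ℝ)
    (z z' : Fin (n + 4) → ℝ) (μ ν : ℝ)
    (hX : ∀ i, X i 0 = if i = 0 then μ else 0) (hY : ∀ i, Y i 0 = if i = 1 then ν else 0)
    (hz : z 0 = 0) (hz' : z' 0 = 0) :
    (Matrix.of (rw' (n + 2) (fun j => a • X j + b • Y j) z z')).det =
      ∑ j : Fin (n + 3), (-1 : ℝ) ^ (j : ℕ) *
        (μ * X 1 j.succ * (a * a) - ν * Y 0 j.succ * (b * b) +
          (μ * Y 1 j.succ - ν * X 0 j.succ) * (a * b)) *
        (Matrix.of (rw' n (fun l => a • (fun k => X l.succ.succ (j.succAbove k).succ) +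
          b • (fun k => Y l.succ.succ (j.succAbove k).succ))
          (fun k => z (j.succAbove k).succ) (fun k => z' (j.succAbove k).succ))).det := by
  set W : Fin (n + 2) → Fin (n + 4) → ℝ := fun j => a • X j + b • Y j with hW
  set A : Matrix (Fin (n + 4)) (Fin (n + 4)) ℝ := Matrix.of (rw' (n + 2) W z z') with hA
  have hA0 : ∀ k, A 0 k = W 0 k := fun k => rfl
  have hA1 : ∀ k, A 1 k = W 1 k := fun k => rfl
  have hA2 : ∀ (i : Fin (n + 2)) k, A i.succ.succ k = rw' n (fun l => W l.succ.succ) z z' i k :=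
    fun i k => rfl
  have h00 : A 0 0 = μ * a := by
    rw [hA0, hW]
    show a * X 0 0 + b * Y 0 0 = μ * a
    rw [hX, hY, if_pos rfl, if_neg (by simp)]
    ring
  have h10 : A 1 0 = ν * b := by
    rw [hA1, hW]
    show a * X 1 0 + b * Y 1 0 = ν * b
    rw [hX, hY, if_pos rfl, if_neg (by simp)]
    ring
  have h20 : ∀ i : Fin (n + 2), A i.succ.succ 0 = 0 := by
    intro i
    rw [hA2]
    refine cls_expand_zero 0 n _ z z' (fun l => ?_) hz hz' i
    show a * X l.succ.succ 0 + b * Y l.succ.succ 0 = 0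
    rw [hX, hY, if_neg (Fin.succ_ne_zero _), if_neg, mul_zero, mul_zero, add_zero]
    intro h
    have h3 : (l.succ : Fin (n + 1)).succ = (0 : Fin (n + 1)).succ := h
    exact Fin.succ_ne_zero l (Fin.succ_injective _ h3)
  -- the common minors
  have hD : ∀ j : Fin (n + 3), (Matrix.of (rw' n (fun l => a • (fun k => X l.succ.succ (j.succAbove k).succ) +
          b • (fun k => Y l.succ.succ (j.succAbove k).succ))
          (fun k => z (j.succAbove k).succ) (fun k => z' (j.succAbove k).succ))).det =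
      (Matrix.of (fun (i k : Fin (n + 2)) => A i.succ.succ (j.succAbove k).succ)).det := by
    intro j
    congr 1
    ext i k
    exact cls_expand_comp (fun k => (j.succAbove k).succ) n (fun l => W l.succ.succ) z z' i k
  simp_rw [hD]
  rw [Matrix.det_succ_column_zero, Fin.sum_univ_succ, Fin.sum_univ_succ]
  have h3 : ∀ i : Fin (n + 2), (-1 : ℝ) ^ ((i.succ.succ : Fin (n + 4)) : ℕ) * A i.succ.succ 0 *
      (A.submatrix (i.succ.succ).succAbove Fin.succ).det = 0 := fun i => by
    rw [h20, mul_zero, zero_mul]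
  rw [Finset.sum_eq_zero (fun i _ => h3 i), add_zero, h00]
  have h11 : A (Fin.succ 0) 0 = ν * b := h10
  rw [h11, Matrix.det_succ_row_zero (A.submatrix (Fin.succAbove 0) Fin.succ),
    Matrix.det_succ_row_zero (A.submatrix (Fin.succAbove (Fin.succ 0)) Fin.succ),
    Finset.mul_sum, Finset.mul_sum, ← Finset.sum_add_distrib]
  refine Finset.sum_congr rfl fun j _ => ?_
  have m0 : (A.submatrix (Fin.succAbove 0) Fin.succ).submatrix Fin.succ j.succAbove =
      Matrix.of (fun (i k : Fin (n + 2)) => A i.succ.succ (j.succAbove k).succ) := by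
    ext i k
    rfl
  have m1 : (A.submatrix (Fin.succAbove (Fin.succ 0)) Fin.succ).submatrix Fin.succ j.succAbove =
      Matrix.of (fun (i k : Fin (n + 2)) => A i.succ.succ (j.succAbove k).succ) := by
    ext i k
    show A ((Fin.succAbove (Fin.succ 0)) i.succ) (j.succAbove k).succ =
      A i.succ.succ (j.succAbove k).succ
    rw [Fin.succ_succAbove_succ]
    rfl
  have r0 : (A.submatrix (Fin.succAbove 0) Fin.succ) 0 j = a * X 1 j.succ + b * Y 1 j.succ := rfl
  have r1 : (A.submatrix (Fin.succAbove (Fin.succ 0)) Fin.succ) 0 j =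
      a * X 0 j.succ + b * Y 0 j.succ := by
    show A ((Fin.succAbove (Fin.succ 0)) 0) j.succ = _
    rw [Fin.succ_succAbove_zero]
    rfl
  rw [m0, m1, r0, r1]
  have s0 : (-1 : ℝ) ^ ((0 : Fin (n + 4)) : ℕ) = 1 := by simp
  have s1 : (-1 : ℝ) ^ ((Fin.succ 0 : Fin (n + 4)) : ℕ) = -1 := by simp
  rw [s0, s1]
  ring

/-- Laplace expansion along the first column and then along the remaining special row -/
theorem cls_expand {ι : Type} [Fintype ι] (n : ℕ) (α β : ι → ℝ) (g : ι → Fin 3 → ℝ)
    (X Y : Matrix (Fin (n + 2)) (Fin (n + 4)) ℝ) (Z : Matrix (Fin 3) (Fin (n + 4)) ℝ) (μ ν : ℝ)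
    (hX : ∀ i, X i 0 = if i = 0 then μ else 0) (hY : ∀ i, Y i 0 = if i = 1 then ν else 0)
    (hZ : ∀ i, Z i 0 = 0) :
    cls (n + 2) α β g X Y Z =
      ∑ j : Fin (n + 3), (-1 : ℝ) ^ (j : ℕ) *
        (μ * X 1 j.succ * Acol n α β (fun m i => g m i * (α m * α m))
            (X.submatrix (fun i => i.succ.succ) Fin.succ) (Y.submatrix (fun i => i.succ.succ) Fin.succ)
            (Z.submatrix id Fin.succ) j
         - ν * Y 0 j.succ * Acol n α β (fun m i => g m i * (β m * β m))
            (X.submatrix (fun i => i.succ.succ) Fin.succ) (Y.submatrix (fun i => i.succ.succ) Fin.succ)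
            (Z.submatrix id Fin.succ) j
         + (μ * Y 1 j.succ - ν * X 0 j.succ) * Acol n α β (fun m i => g m i * (α m * β m))
            (X.submatrix (fun i => i.succ.succ) Fin.succ) (Y.submatrix (fun i => i.succ.succ) Fin.succ)
            (Z.submatrix id Fin.succ) j) := by
  unfold cls
  have h1 : ∀ (m : ι) (i : Fin 3), g m i * (Matrix.of (rw' (n + 2) (fun j => α m • X j + β m • Y j)
      (Z (i + 1)) (Z (i + 2)))).det = ∑ j : Fin (n + 3), g m i * ((-1 : ℝ) ^ (j : ℕ) *
        (μ * X 1 j.succ * (α m * α m) - ν * Y 0 j.succ * (β m * β m) +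
          (μ * Y 1 j.succ - ν * X 0 j.succ) * (α m * β m)) *
        (Matrix.of (rw' n (fun l => α m • (fun k => X l.succ.succ (j.succAbove k).succ) +
          β m • (fun k => Y l.succ.succ (j.succAbove k).succ))
          (fun k => Z (i + 1) (j.succAbove k).succ) (fun k => Z (i + 2) (j.succAbove k).succ))).det) := by
    intro m i
    rw [cls_expand_det n (α m) (β m) X Y (Z (i + 1)) (Z (i + 2)) μ ν hX hY (hZ _) (hZ _),
      Finset.mul_sum]
  have h2 : ∀ m : ι, ∑ i : Fin 3, g m i * (Matrix.of (rw' (n + 2) (fun j => α m • X j + β m • Y j)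
      (Z (i + 1)) (Z (i + 2)))).det = ∑ j : Fin (n + 3), ∑ i : Fin 3, g m i * ((-1 : ℝ) ^ (j : ℕ) *
        (μ * X 1 j.succ * (α m * α m) - ν * Y 0 j.succ * (β m * β m) +
          (μ * Y 1 j.succ - ν * X 0 j.succ) * (α m * β m)) *
        (Matrix.of (rw' n (fun l => α m • (fun k => X l.succ.succ (j.succAbove k).succ) +
          β m • (fun k => Y l.succ.succ (j.succAbove k).succ))
          (fun k => Z (i + 1) (j.succAbove k).succ) (fun k => Z (i + 2) (j.succAbove k).succ))).det) := by
    intro m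
    rw [Finset.sum_comm]
    exact Finset.sum_congr rfl fun i _ => h1 m i
  rw [Finset.sum_congr rfl fun m _ => h2 m, Finset.sum_comm]
  refine Finset.sum_congr rfl fun j _ => ?_
  unfold Acol cls
  simp only [Finset.mul_sum, ← Finset.sum_add_distrib, ← Finset.sum_sub_distrib]
  refine Finset.sum_congr rfl fun m _ => Finset.sum_congr rfl fun i _ => ?_
  have h3 : (Matrix.of (rw' n (fun l => α m • ((X.submatrix (fun i => i.succ.succ) Fin.succ).submatrix
        id j.succAbove) l + β m • ((Y.submatrix (fun i => i.succ.succ) Fin.succ).submatrix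
        id j.succAbove) l) (((Z.submatrix id Fin.succ).submatrix id j.succAbove) (i + 1))
        (((Z.submatrix id Fin.succ).submatrix id j.succAbove) (i + 2)))).det =
      (Matrix.of (rw' n (fun l => α m • (fun k => X l.succ.succ (j.succAbove k).succ) +
          β m • (fun k => Y l.succ.succ (j.succAbove k).succ))
          (fun k => Z (i + 1) (j.succAbove k).succ)
          (fun k => Z (i + 2) (j.succAbove k).succ))).det := rfl
  rw [h3]
  ring

end Pool.Agent.Helper608.VF
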