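import Pool.Agent.Helper608.VF.XDefs
set_option autoImplicit false
open Matrix MeasureTheory
open scoped ENNReal ContDiff
namespace Pool.Agent.Helper608.VF


theorem final_ineq_amgm (x y z : ℝ) (hx : 0 ≤ x) (hy : 0 ≤ y) (hz : 0 ≤ z)
    (h : x + y + z = 3) : x * y * z ≤ 1 := by
  have h1 : 0 ≤ z * (x - y) ^ 2 := mul_nonneg hz (sq_nonneg _)
  have h2 : 0 ≤ (x + y + 1) * (x + y - 2) ^ 2 := mul_nonneg (by linarith) (sq_nonneg _)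
  have h3 : z = 3 - x - y := by linarith
  subst h3
  nlinarith

theorem final_ineq_aux (a b c Ta Tb Tc : ℝ) (ha : 0 ≤ a) (hb : 0 ≤ b) (hc : c ≤ 1)
    (hac : a ≤ c) (hbc : b ≤ c) (hTa : Ta ≤ 1) (hTb : Tb ≤ 1) (hT : Ta + Tb + Tc ≤ 2) :
    (3 - a - b - c) * (b * c * Ta + a * c * Tb + a * b * Tc) ≤ 1 := by
  have h1 : b * c * Ta + a * c * Tb + a * b * Tc ≤ c * (a + b) := by
    have e1 : 0 ≤ b * (c - a) * (1 - Ta) :=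
      mul_nonneg (mul_nonneg hb (by linarith)) (by linarith)
    have e2 : 0 ≤ a * (c - b) * (1 - Tb) :=
      mul_nonneg (mul_nonneg ha (by linarith)) (by linarith)
    have e3 : 0 ≤ a * b * (2 - Ta - Tb - Tc) := mul_nonneg (mul_nonneg ha hb) (by linarith)
    nlinarith
  have h2 : 0 ≤ 3 - a - b - c := by linarith
  have h3 := final_ineq_amgm (3 - a - b - c) c (a + b) h2 (by linarith) (by linarith) (by ring)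
  have h4 := mul_le_mul_of_nonneg_left h1 h2
  linarith

theorem final_ineq_core (a b c Ta Tb Tc : ℝ) (ha : 0 ≤ a) (hb : 0 ≤ b) (hc : 0 ≤ c)
    (ha1 : a ≤ 1) (hb1 : b ≤ 1) (hc1 : c ≤ 1)
    (hTa : Ta ≤ 1) (hTb : Tb ≤ 1) (hTc : Tc ≤ 1) (hT : Ta + Tb + Tc ≤ 2) :
    (3 - a - b - c) * (b * c * Ta + a * c * Tb + a * b * Tc) ≤ 1 := by
  rcases le_total a b with hab | hab
  · rcases le_total b c with hbc | hbc
    · exact final_ineq_aux a b c Ta Tb Tc ha hb hc1 (hab.trans hbc) hbc hTa hTb hT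
    · have := final_ineq_aux a c b Ta Tc Tb ha hc hb1 hab hbc hTa hTc (by linarith)
      linarith
  · rcases le_total a c with hac | hac
    · exact final_ineq_aux a b c Ta Tb Tc ha hb hc1 hac (hab.trans hac) hTa hTb hT
    · have := final_ineq_aux c b a Tc Tb Ta hc hb ha1 hac hab hTc hTb (by linarith)
      linarith

/-- the final real inequality. `κ i j`: the `i`-th coordinate of the `j`-th small vector. -/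
theorem final_ineq (μ ν : ℝ) (hμν : μ ^ 2 + ν ^ 2 = 1) (κ : Fin 3 → Fin 3 → ℝ) (ρ : Fin 3 → ℝ)
    (hρ : ∀ j, 0 ≤ ρ j) (hk : ∀ j, κ 0 j ^ 2 + κ 1 j ^ 2 + κ 2 j ^ 2 + ρ j ^ 2 = 1)
    (A B C : Fin 3 → ℝ)
    (hAC : ∀ j, A j ^ 2 + C j ^ 2 ≤ 1) (hBC : ∀ j, B j ^ 2 + C j ^ 2 ≤ 1)
    (hA : ∑ j, A j ^ 2 ≤ 1) (hB : ∑ j, B j ^ 2 ≤ 1) (hC : ∑ j, C j ^ 2 ≤ 1) :
    |∑ j : Fin 3, ρ (j + 1) * ρ (j + 2) * (μ * κ 0 j * A j - ν * κ 1 j * B j + κ 2 j * C j)| ≤ 1 := by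
  have hμ : 0 ≤ μ ^ 2 := sq_nonneg _
  have hν : 0 ≤ ν ^ 2 := sq_nonneg _
  have hT1 : ∀ j, μ ^ 2 * A j ^ 2 + ν ^ 2 * B j ^ 2 + C j ^ 2 ≤ 1 := by
    intro j
    have h1 := mul_le_mul_of_nonneg_left (hAC j) hμ
    have h2 := mul_le_mul_of_nonneg_left (hBC j) hν
    have h3 : C j ^ 2 = μ ^ 2 * C j ^ 2 + ν ^ 2 * C j ^ 2 := by rw [← add_mul, hμν, one_mul]
    nlinarith
  have hT2 : (μ ^ 2 * A 0 ^ 2 + ν ^ 2 * B 0 ^ 2 + C 0 ^ 2) +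
      (μ ^ 2 * A 1 ^ 2 + ν ^ 2 * B 1 ^ 2 + C 1 ^ 2) +
      (μ ^ 2 * A 2 ^ 2 + ν ^ 2 * B 2 ^ 2 + C 2 ^ 2) ≤ 2 := by
    have h1 := mul_le_mul_of_nonneg_left hA hμ
    have h2 := mul_le_mul_of_nonneg_left hB hν
    rw [Fin.sum_univ_three] at h1 h2 hC
    nlinarith
  have hr1 : ∀ j, ρ j ^ 2 ≤ 1 := by
    intro j
    have := hk j
    nlinarith [sq_nonneg (κ 0 j), sq_nonneg (κ 1 j), sq_nonneg (κ 2 j)]
  have hcore := final_ineq_core (ρ 0 ^ 2) (ρ 1 ^ 2) (ρ 2 ^ 2)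
    (μ ^ 2 * A 0 ^ 2 + ν ^ 2 * B 0 ^ 2 + C 0 ^ 2) (μ ^ 2 * A 1 ^ 2 + ν ^ 2 * B 1 ^ 2 + C 1 ^ 2)
    (μ ^ 2 * A 2 ^ 2 + ν ^ 2 * B 2 ^ 2 + C 2 ^ 2) (sq_nonneg _) (sq_nonneg _) (sq_nonneg _)
    (hr1 0) (hr1 1) (hr1 2) (hT1 0) (hT1 1) (hT1 2) hT2
  have hcs := Finset.sum_mul_sq_le_sq_mul_sq (Finset.univ : Finset (Fin 3 × Fin 3))
    (fun p => κ p.1 p.2)
    (fun p => ρ (p.2 + 1) * ρ (p.2 + 2) * (![μ * A p.2, -ν * B p.2, C p.2] p.1))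
  rw [← sq_le_one_iff_abs_le_one]
  have e1 : ∑ p : Fin 3 × Fin 3, κ p.1 p.2 *
      (ρ (p.2 + 1) * ρ (p.2 + 2) * (![μ * A p.2, -ν * B p.2, C p.2] p.1)) =
      ∑ j : Fin 3, ρ (j + 1) * ρ (j + 2) * (μ * κ 0 j * A j - ν * κ 1 j * B j + κ 2 j * C j) := by
    rw [Fintype.sum_prod_type_right]
    refine Finset.sum_congr rfl fun j _ => ?_
    rw [Fin.sum_univ_three]
    simp
    ring
  have e2 : ∑ p : Fin 3 × Fin 3, κ p.1 p.2 ^ 2 = 3 - ρ 0 ^ 2 - ρ 1 ^ 2 - ρ 2 ^ 2 := by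
    rw [Fintype.sum_prod_type_right]
    simp only [Fin.sum_univ_three]
    have h0 := hk 0
    have h1 := hk 1
    have h2 := hk 2
    linarith
  have e3 : ∑ p : Fin 3 × Fin 3,
      (ρ (p.2 + 1) * ρ (p.2 + 2) * (![μ * A p.2, -ν * B p.2, C p.2] p.1)) ^ 2 =
      ρ 1 ^ 2 * ρ 2 ^ 2 * (μ ^ 2 * A 0 ^ 2 + ν ^ 2 * B 0 ^ 2 + C 0 ^ 2) +
      ρ 0 ^ 2 * ρ 2 ^ 2 * (μ ^ 2 * A 1 ^ 2 + ν ^ 2 * B 1 ^ 2 + C 1 ^ 2) +
      ρ 0 ^ 2 * ρ 1 ^ 2 * (μ ^ 2 * A 2 ^ 2 + ν ^ 2 * B 2 ^ 2 + C 2 ^ 2) := by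
    rw [Fintype.sum_prod_type_right]
    simp only [Fin.sum_univ_three]
    have f1 : (0 : Fin 3) + 1 = 1 := rfl
    have f2 : (0 : Fin 3) + 2 = 2 := rfl
    have f3 : (1 : Fin 3) + 1 = 2 := rfl
    have f4 : (1 : Fin 3) + 2 = 0 := rfl
    have f5 : (2 : Fin 3) + 1 = 0 := rfl
    have f6 : (2 : Fin 3) + 2 = 1 := rfl
    rw [f1, f2, f3, f4, f5, f6]
    simp
    ring
  rw [← e1]
  rw [e2, e3] at hcs
  exact hcs.trans hcore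

end Pool.Agent.Helper608.VF
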