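import Pool.Agent.Helper608.VF.XDefs
set_option autoImplicit false
open Matrix MeasureTheory
open scoped ENNReal ContDiff
namespace Pool.Agent.Helper608.VF


/-- extension of an orthonormal family to an orthogonal matrix -/
theorem first_col_ext (k : ℕ) (v : Fin k → EuclideanSpace ℝ (Fin k)) (s : Set (Fin k))
    (h : Orthonormal ℝ (s.restrict v)) :
    ∃ M : Matrix (Fin k) (Fin k) ℝ, Mᵀ * M = 1 ∧ ∀ j ∈ s, ∀ i, M i j = v j i := by
  obtain ⟨b, hb⟩ := h.exists_orthonormalBasis_extension_of_card_eq (by simp)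
  refine ⟨Matrix.of fun i j => b j i, ?_, ?_⟩
  · ext j l
    have h1 := (orthonormal_iff_ite.1 b.orthonormal) j l
    rw [PiLp.inner_apply] at h1
    rw [Matrix.mul_apply, Matrix.one_apply, ← h1]
    refine Finset.sum_congr rfl fun i _ => ?_
    simp [mul_comm]
  · intro j hj i
    rw [Matrix.of_apply, hb j hj]

/-- rotation making two vectors orthogonal -/
theorem first_col_rot (a b : ℝ) : ∃ c s : ℝ, c ^ 2 + s ^ 2 = 1 ∧ (c ^ 2 - s ^ 2) * a + c * s * b = 0 := by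
  by_cases ha : a = 0
  · exact ⟨1, 0, by norm_num, by rw [ha]; ring⟩
  · obtain ⟨D, hD⟩ : ∃ D, D = b ^ 2 + 4 * a ^ 2 := ⟨_, rfl⟩
    have hD0 : 0 ≤ D := by rw [hD]; positivity
    obtain ⟨t, ht⟩ : ∃ t, t = (b + √D) / (2 * a) := ⟨_, rfl⟩
    have ht2 : a * (1 - t ^ 2) + t * b = 0 := by
      have h1 : √D ^ 2 = D := Real.sq_sqrt hD0
      rw [ht]
      field_simp
      rw [show (b + √D) ^ 2 = b ^ 2 + 2 * b * √D + √D ^ 2 by ring, h1, hD]
      ring
    have hp : 0 < 1 + t ^ 2 := by positivity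
    refine ⟨1 / √(1 + t ^ 2), t / √(1 + t ^ 2), ?_, ?_⟩
    · rw [div_pow, div_pow, Real.sq_sqrt hp.le]
      field_simp
    · rw [div_pow, div_pow, Real.sq_sqrt hp.le]
      have h2 : 1 / √(1 + t ^ 2) * (t / √(1 + t ^ 2)) = t / (1 + t ^ 2) := by
        rw [div_mul_div_comm, Real.mul_self_sqrt hp.le, one_mul]
      rw [h2]
      have h3 : (1 ^ 2 / (1 + t ^ 2) - t ^ 2 / (1 + t ^ 2)) * a + t / (1 + t ^ 2) * b =
          (a * (1 - t ^ 2) + t * b) / (1 + t ^ 2) := by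
        field_simp
      rw [h3, ht2, zero_div]

/-- two orthogonal vectors in the first two coordinate directions -/
theorem first_col_two (n : ℕ) (p q : EuclideanSpace ℝ (Fin (n + 2))) (h : inner ℝ p q = (0 : ℝ)) :
    ∃ (O : Matrix (Fin (n + 2)) (Fin (n + 2)) ℝ) (μ ν : ℝ), Oᵀ * O = 1 ∧
      (∀ i, (O.mulVec p.ofLp) i = if i = 0 then μ else 0) ∧
      (∀ i, (O.mulVec q.ofLp) i = if i = 1 then ν else 0) := by
  let v : Fin (n + 2) → EuclideanSpace ℝ (Fin (n + 2)) :=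
    fun i => if i = 0 then ‖p‖⁻¹ • p else ‖q‖⁻¹ • q
  let s : Set (Fin (n + 2)) := {i | (i = 0 ∧ p ≠ 0) ∨ (i = 1 ∧ q ≠ 0)}
  have h10 : (1 : Fin (n + 2)) ≠ 0 := by
    intro h0
    have := congrArg Fin.val h0
    simp at this
  have h' : inner ℝ q p = (0 : ℝ) := by rw [real_inner_comm]; exact h
  have hv0 : v 0 = ‖p‖⁻¹ • p := if_pos rfl
  have hv1 : v 1 = ‖q‖⁻¹ • q := if_neg h10
  have hv : Orthonormal ℝ (s.restrict v) := by
    constructor
    · rintro ⟨i, (⟨rfl, hp⟩ | ⟨rfl, hq⟩)⟩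
      · show ‖v 0‖ = 1
        rw [hv0, norm_smul, norm_inv, norm_norm]
        exact inv_mul_cancel₀ (norm_ne_zero_iff.2 hp)
      · show ‖v 1‖ = 1
        rw [hv1, norm_smul, norm_inv, norm_norm]
        exact inv_mul_cancel₀ (norm_ne_zero_iff.2 hq)
    · rintro ⟨i, (⟨rfl, hp⟩ | ⟨rfl, hq⟩)⟩ ⟨j, (⟨rfl, hp'⟩ | ⟨rfl, hq'⟩)⟩ hij
      · exact absurd rfl hij
      · show inner ℝ (v 0) (v 1) = 0
        rw [hv0, hv1, inner_smul_left, inner_smul_right, h, mul_zero, mul_zero]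
      · show inner ℝ (v 1) (v 0) = 0
        rw [hv0, hv1, inner_smul_left, inner_smul_right, h', mul_zero, mul_zero]
      · exact absurd rfl hij
  obtain ⟨M, hM, hMv⟩ := first_col_ext (n + 2) v s hv
  have hMi : ∀ j l, ∑ i, M i j * M i l = if j = l then (1 : ℝ) else 0 := by
    intro j l
    have h1 := congrFun (congrFun hM j) l
    rw [Matrix.mul_apply, Matrix.one_apply] at h1
    exact h1
  refine ⟨Mᵀ, ‖p‖, ‖q‖, ?_, ?_, ?_⟩
  · rw [Matrix.transpose_transpose]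
    exact mul_eq_one_comm.1 hM
  · intro i
    have hcol : ∀ k, p k = ‖p‖ * M k 0 := by
      intro k
      by_cases hp : p = 0
      · rw [hp]
        simp
      · rw [hMv 0 (Or.inl ⟨rfl, hp⟩) k]
        simp only [v, if_true, PiLp.smul_apply, smul_eq_mul]
        rw [← mul_assoc, mul_inv_cancel₀ (norm_ne_zero_iff.2 hp), one_mul]
    have h2 : (Mᵀ.mulVec p.ofLp) i = ‖p‖ * ∑ k, M k i * M k 0 := by
      have h3 : (Mᵀ.mulVec p.ofLp) i = ∑ k, M k i * p k := rfl
      rw [h3, Finset.mul_sum]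
      refine Finset.sum_congr rfl fun k _ => ?_
      rw [hcol k]
      ring
    rw [h2, hMi]
    by_cases hi : i = 0
    · rw [if_pos hi, if_pos hi, mul_one]
    · rw [if_neg hi, if_neg hi, mul_zero]
  · intro i
    have hcol : ∀ k, q k = ‖q‖ * M k 1 := by
      intro k
      by_cases hq : q = 0
      · rw [hq]
        simp
      · rw [hMv 1 (Or.inr ⟨rfl, hq⟩) k]
        simp only [v, if_neg h10, PiLp.smul_apply, smul_eq_mul]
        rw [← mul_assoc, mul_inv_cancel₀ (norm_ne_zero_iff.2 hq), one_mul]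
    have h2 : (Mᵀ.mulVec q.ofLp) i = ‖q‖ * ∑ k, M k i * M k 1 := by
      have h3 : (Mᵀ.mulVec q.ofLp) i = ∑ k, M k i * q k := rfl
      rw [h3, Finset.mul_sum]
      refine Finset.sum_congr rfl fun k _ => ?_
      rw [hcol k]
      ring
    rw [h2, hMi]
    by_cases hi : i = 1
    · rw [if_pos hi, if_pos hi, mul_one]
    · rw [if_neg hi, if_neg hi, mul_zero]

/-- normal form of the first column -/
theorem first_col (n : ℕ) (X Y : Matrix (Fin (n + 2)) (Fin (n + 4)) ℝ) (Z : Matrix (Fin 3) (Fin (n + 4)) ℝ) :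
    ∃ (B : Matrix (Fin (n + 4)) (Fin (n + 4)) ℝ) (O : Matrix (Fin (n + 2)) (Fin (n + 2)) ℝ) (c s μ ν : ℝ),
      Bᵀ * B = 1 ∧ Oᵀ * O = 1 ∧ c ^ 2 + s ^ 2 = 1 ∧
      (∀ i, (O * ((c • X + s • Y) * B)) i 0 = if i = 0 then μ else 0) ∧
      (∀ i, (O * ((-s • X + c • Y) * B)) i 0 = if i = 1 then ν else 0) ∧
      (∀ i, (Z * B) i 0 = 0) := by
  -- a unit vector in the kernel of `Z`
  have hker : LinearMap.ker Z.mulVecLin ≠ ⊥ := by
    apply LinearMap.ker_ne_bot_of_finrank_lt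
    simp
  obtain ⟨u0, hu0, hu0n⟩ := (Submodule.ne_bot_iff _).1 hker
  have hu0' : Z.mulVec u0 = 0 := hu0
  let U0 : EuclideanSpace ℝ (Fin (n + 4)) := WithLp.toLp 2 u0
  have hU0 : U0 ≠ 0 := by
    intro h
    apply hu0n
    funext i
    exact congrFun (congrArg WithLp.ofLp h) i
  let U : EuclideanSpace ℝ (Fin (n + 4)) := ‖U0‖⁻¹ • U0
  have hU : ‖U‖ = 1 := by
    simp only [U, norm_smul, norm_inv, norm_norm]
    exact inv_mul_cancel₀ (norm_ne_zero_iff.2 hU0)
  have hZU : Z.mulVec U.ofLp = 0 := by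
    have h1 : U.ofLp = ‖U0‖⁻¹ • u0 := rfl
    rw [h1, Matrix.mulVec_smul, hu0', smul_zero]
  have hv : Orthonormal ℝ (({0} : Set (Fin (n + 4))).restrict (fun _ : Fin (n + 4) => U)) := by
    constructor
    · intro i
      exact hU
    · rintro ⟨i, hi⟩ ⟨j, hj⟩ hij
      exfalso
      apply hij
      apply Subtype.ext
      rw [Set.mem_singleton_iff] at hi hj
      show i = j
      rw [hi, hj]
  obtain ⟨B, hB, hBv⟩ := first_col_ext (n + 4) (fun _ => U) {0} hv
  have hB0 : (fun k => B k 0) = U.ofLp := by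
    funext k
    exact hBv 0 rfl k
  let p : EuclideanSpace ℝ (Fin (n + 2)) := WithLp.toLp 2 (X.mulVec U.ofLp)
  let q : EuclideanSpace ℝ (Fin (n + 2)) := WithLp.toLp 2 (Y.mulVec U.ofLp)
  obtain ⟨c, s, hcs, hrot⟩ := first_col_rot (inner ℝ p q) (inner ℝ q q - inner ℝ p p)
  have hin : inner ℝ (c • p + s • q) ((-s) • p + c • q) = (0 : ℝ) := by
    simp only [inner_add_left, inner_add_right, inner_smul_left, inner_smul_right, conj_trivial]
    rw [real_inner_comm p q] at *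
    linear_combination hrot
  obtain ⟨O, μ, ν, hO, h1, h2⟩ := first_col_two n _ _ hin
  have key : ∀ (a b : ℝ) (i : Fin (n + 2)), (O * ((a • X + b • Y) * B)) i 0 =
      (O.mulVec (a • p + b • q : EuclideanSpace ℝ (Fin (n + 2))).ofLp) i := by
    intro a b i
    have h3 : (O * ((a • X + b • Y) * B)) i 0 =
        (O.mulVec ((a • X + b • Y).mulVec (fun k => B k 0))) i := rfl
    rw [h3, hB0, Matrix.add_mulVec, Matrix.smul_mulVec, Matrix.smul_mulVec]
    rfl
  refine ⟨B, O, c, s, μ, ν, hB, hO, hcs, ?_, ?_, ?_⟩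
  · intro i
    rw [key, h1]
  · intro i
    rw [key, h2]
  · intro i
    have h3 : (Z * B) i 0 = (Z.mulVec (fun k => B k 0)) i := rfl
    rw [h3, hB0, hZU]
    rfl

end Pool.Agent.Helper608.VF
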