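import Pool.Agent.Helper608.VF.XDefs
import Pool.Agent.Helper608.VF.J_cls_alg
set_option autoImplicit false
open Matrix MeasureTheory
open scoped ENNReal ContDiff
namespace Pool.Agent.Helper608.VF


theorem row_bound_one_map {c c' : Type} (f : (c → ℝ) → (c' → ℝ)) : ∀ (n : ℕ) (X : Fin n → c → ℝ)
    (z z' : c → ℝ) (i : Fin (n + 2)),
    rw' n (fun j => f (X j)) (f z) (f z') i = f (rw' n X z z' i)
  | 0, X, z, z', i => by
      fin_cases i
      · rfl
      · rfl
  | (n + 1), X, z, z', i => by
      refine Fin.cases ?_ (fun k => ?_) i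
      · rfl
      · simp only [rw', Fin.cons_succ]
        exact row_bound_one_map f n (fun i => X i.succ) z z' k

theorem row_bound_one_orth {k : ℕ} (c : Fin (k + 1) → ℝ) (hc : ∑ j, c j ^ 2 = 1) :
    ∃ O : Matrix (Fin (k + 1)) (Fin (k + 1)) ℝ, Oᵀ * O = 1 ∧ ∀ j, O j 0 = c j := by
  classical
  let v : Fin (k + 1) → EuclideanSpace ℝ (Fin (k + 1)) := fun _ => WithLp.toLp 2 c
  have hv : Orthonormal ℝ (({0} : Set (Fin (k + 1))).restrict v) := by
    rw [orthonormal_iff_ite]
    intro a b
    have hab : a = b := Subsingleton.elim a b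
    subst hab
    simp only [if_true]
    have e : (({0} : Set (Fin (k + 1))).restrict v) a = WithLp.toLp 2 c := rfl
    rw [e]
    simp only [PiLp.inner_apply, RCLike.inner_apply, conj_trivial]
    rw [← hc]
    exact Finset.sum_congr rfl (fun j _ => by ring)
  obtain ⟨b, hb⟩ := hv.exists_orthonormalBasis_extension_of_card_eq (by simp)
  refine ⟨Matrix.of (fun i j => b j i), ?_, ?_⟩
  · ext i j
    have h1 := (orthonormal_iff_ite.mp b.orthonormal) i j
    simp only [PiLp.inner_apply, RCLike.inner_apply, conj_trivial] at h1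
    simp only [Matrix.mul_apply, Matrix.transpose_apply, Matrix.of_apply, Matrix.one_apply]
    rw [← h1]
    exact Finset.sum_congr rfl (fun j _ => by ring)
  · intro j
    have := hb 0 rfl
    simp only [Matrix.of_apply, this, v]

theorem row_bound_one_det {k : ℕ} (L : Matrix (Fin k) (Fin (k + 1)) ℝ)
    (O : Matrix (Fin (k + 1)) (Fin (k + 1)) ℝ) (hO : Oᵀ * O = 1) :
    (L * O.submatrix id Fin.succ).det =
      O.det * ∑ j : Fin (k + 1), (-1) ^ (j : ℕ) * O j 0 * (L.submatrix id j.succAbove).det := by
  classical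
  let M : Matrix (Fin (k + 1)) (Fin (k + 1)) ℝ := Matrix.of (Fin.cons (fun j => O j 0) L)
  have h0 : ∀ j, M 0 j = O j 0 := fun j => rfl
  have hs : ∀ i j, M (Fin.succ i) j = L i j := fun i j => rfl
  have hM : M.det = ∑ j : Fin (k + 1), (-1) ^ (j : ℕ) * O j 0 * (L.submatrix id j.succAbove).det := by
    rw [Matrix.det_succ_row_zero]
    refine Finset.sum_congr rfl (fun j _ => ?_)
    rfl
  have hMO : (M * O).det = (L * O.submatrix id Fin.succ).det := by
    rw [Matrix.det_succ_row_zero]
    have hrow : ∀ j, (M * O) 0 j = if j = 0 then 1 else 0 := by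
      intro j
      have := congrFun (congrFun hO 0) j
      simp only [Matrix.mul_apply, Matrix.transpose_apply, Matrix.one_apply] at this
      simp only [Matrix.mul_apply, h0]
      rw [this]
      by_cases hj : j = 0
      · simp [hj]
      · simp [hj, Ne.symm hj]
    rw [Finset.sum_eq_single 0]
    · rw [hrow]
      simp only [Fin.val_zero, pow_zero, if_true, one_mul, mul_one]
      congr 1
    · intro j _ hj
      rw [hrow]
      simp [hj]
    · simp
  rw [← hMO, ← hM, Matrix.det_mul, mul_comm]

/-- removing one of `n+3` orthonormal columns: the vector of values has norm at most one -/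
theorem row_bound_one {ι : Type} [Fintype ι] (n : ℕ) (α β : ι → ℝ) (g : ι → Fin 3 → ℝ)
    (h : ∀ (X Y : Matrix (Fin n) (Fin (n + 2)) ℝ) (Z : Matrix (Fin 3) (Fin (n + 2)) ℝ),
      Xᵀ * X + Yᵀ * Y + Zᵀ * Z = 1 → |cls n α β g X Y Z| ≤ 1)
    (X Y : Matrix (Fin n) (Fin (n + 3)) ℝ) (Z : Matrix (Fin 3) (Fin (n + 3)) ℝ)
    (hG : Xᵀ * X + Yᵀ * Y + Zᵀ * Z = 1) :
    ∑ j, Acol n α β g X Y Z j ^ 2 ≤ 1 := by
  classical
  -- key inequality
  have key : ∀ c : Fin (n + 3) → ℝ, ∑ j, c j ^ 2 = 1 →
      |∑ j : Fin (n + 3), (-1) ^ (j : ℕ) * c j * Acol n α β g X Y Z j| ≤ 1 := by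
    intro c hc
    obtain ⟨O, hO, hOc⟩ := row_bound_one_orth (k := n + 2) c hc
    set O' : Matrix (Fin (n + 3)) (Fin (n + 2)) ℝ := O.submatrix id Fin.succ with hO'
    have horth : (X * O')ᵀ * (X * O') + (Y * O')ᵀ * (Y * O') + (Z * O')ᵀ * (Z * O') = 1 := by
      have e1 : (X * O')ᵀ * (X * O') + (Y * O')ᵀ * (Y * O') + (Z * O')ᵀ * (Z * O')
          = O'ᵀ * (Xᵀ * X + Yᵀ * Y + Zᵀ * Z) * O' := by
        simp only [Matrix.transpose_mul, Matrix.mul_add, Matrix.add_mul, Matrix.mul_assoc]
      rw [e1, hG, Matrix.mul_one]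
      ext i j
      have := congrFun (congrFun hO (Fin.succ i)) (Fin.succ j)
      simp only [Matrix.mul_apply, Matrix.transpose_apply, Matrix.one_apply] at this
      simp only [hO', Matrix.mul_apply, Matrix.transpose_apply, Matrix.one_apply,
        Matrix.submatrix_apply, id]
      rw [this]
      simp [Fin.succ_inj]
    have h1 := h (X * O') (Y * O') (Z * O') horth
    have hcls : cls n α β g (X * O') (Y * O') (Z * O')
        = O.det * ∑ j : Fin (n + 3), (-1) ^ (j : ℕ) * c j * Acol n α β g X Y Z j := by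
      have hL : ∀ (m : ι) (i : Fin 3),
          (Matrix.of (rw' n (fun j => α m • (X * O') j + β m • (Y * O') j)
            ((Z * O') (i + 1)) ((Z * O') (i + 2)))).det
          = O.det * ∑ j : Fin (n + 3), (-1) ^ (j : ℕ) * c j *
            (Matrix.of (rw' n (fun k => α m • (X.submatrix id j.succAbove) k
              + β m • (Y.submatrix id j.succAbove) k)
              ((Z.submatrix id j.succAbove) (i + 1)) ((Z.submatrix id j.succAbove) (i + 2)))).det := by
        intro m i
        set L : Matrix (Fin (n + 2)) (Fin (n + 3)) ℝ :=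
          Matrix.of (rw' n (fun j => α m • X j + β m • Y j) (Z (i + 1)) (Z (i + 2))) with hLdef
        have hA : Matrix.of (rw' n (fun j => α m • (X * O') j + β m • (Y * O') j)
            ((Z * O') (i + 1)) ((Z * O') (i + 2))) = L * O' := by
          have := row_bound_one_map (fun r : Fin (n + 3) → ℝ => r ᵥ* O') n
            (fun j => α m • X j + β m • Y j) (Z (i + 1)) (Z (i + 2))
          have e2 : (fun j => α m • (X * O') j + β m • (Y * O') j)
              = (fun j => (fun r : Fin (n + 3) → ℝ => r ᵥ* O') (α m • X j + β m • Y j)) := by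
            funext j
            simp only [Matrix.add_vecMul, Matrix.smul_vecMul]
            rfl
          ext a b
          rw [Matrix.of_apply, e2]
          exact congrFun (this a) b
        have hB : ∀ j : Fin (n + 3), Matrix.of (rw' n (fun k => α m • (X.submatrix id j.succAbove) k
              + β m • (Y.submatrix id j.succAbove) k)
              ((Z.submatrix id j.succAbove) (i + 1)) ((Z.submatrix id j.succAbove) (i + 2)))
            = L.submatrix id j.succAbove := by
          intro j
          have := row_bound_one_map (fun r : Fin (n + 3) → ℝ => r ∘ j.succAbove) n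
            (fun j => α m • X j + β m • Y j) (Z (i + 1)) (Z (i + 2))
          ext a b
          exact congrFun (this a) b
        rw [hA, row_bound_one_det L O hO]
        congr 1
        refine Finset.sum_congr rfl (fun j _ => ?_)
        rw [hB j, hOc j]
      unfold Acol cls
      simp only [hL]
      simp only [Finset.mul_sum]
      rw [Finset.sum_congr rfl (fun m _ => Finset.sum_comm), Finset.sum_comm]
      refine Finset.sum_congr rfl (fun j _ => ?_)
      refine Finset.sum_congr rfl (fun m _ => ?_)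
      refine Finset.sum_congr rfl (fun i _ => ?_)
      ring
    rw [hcls, abs_mul] at h1
    have hdet : |O.det| = 1 := by
      have : (Oᵀ * O).det = 1 := by rw [hO, Matrix.det_one]
      rw [Matrix.det_mul, Matrix.det_transpose] at this
      have h2 : |O.det| * |O.det| = 1 := by rw [← abs_mul, this, abs_one]
      nlinarith [abs_nonneg O.det]
    rw [hdet, one_mul] at h1
    exact h1
  set A := Acol n α β g X Y Z with hA
  by_contra hcon
  push_neg at hcon
  set S := ∑ j, A j ^ 2 with hS
  have hSpos : 0 < S := by linarith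
  have hsq : Real.sqrt S * Real.sqrt S = S := Real.mul_self_sqrt hSpos.le
  have hsp : 0 < Real.sqrt S := Real.sqrt_pos.mpr hSpos
  have h2 := key (fun j => (-1) ^ (j : ℕ) * A j / Real.sqrt S) (by
    have : ∀ j : Fin (n + 3), ((-1) ^ (j : ℕ) * A j / Real.sqrt S) ^ 2 = A j ^ 2 / S := by
      intro j
      rw [div_pow, mul_pow, ← pow_mul, mul_comm (j : ℕ) 2, pow_mul, neg_one_sq, one_pow, one_mul,
        Real.sq_sqrt hSpos.le]
    simp only [this]
    rw [← Finset.sum_div, ← hS]
    exact div_self hSpos.ne')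
  have h3 : ∑ j : Fin (n + 3), (-1) ^ (j : ℕ) * ((-1) ^ (j : ℕ) * A j / Real.sqrt S) * A j
      = S / Real.sqrt S := by
    rw [hS, Finset.sum_div]
    refine Finset.sum_congr rfl (fun j _ => ?_)
    have : ((-1 : ℝ) ^ (j : ℕ)) * ((-1) ^ (j : ℕ)) = 1 := by
      rw [← mul_pow]; simp
    calc (-1 : ℝ) ^ (j : ℕ) * ((-1) ^ (j : ℕ) * A j / Real.sqrt S) * A j
        = ((-1 : ℝ) ^ (j : ℕ) * ((-1) ^ (j : ℕ))) * A j ^ 2 / Real.sqrt S := by ring
      _ = A j ^ 2 / Real.sqrt S := by rw [this, one_mul]
  rw [h3] at h2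
  have h4 : S / Real.sqrt S = Real.sqrt S := by
    rw [div_eq_iff hsp.ne']; exact hsq.symm
  rw [h4, abs_of_pos hsp] at h2
  nlinarith

end Pool.Agent.Helper608.VF
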