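import Pool.Agent.Helper608.VF.XDefs
import Pool.Agent.Helper608.VF.J_cls_alg
import Pool.Agent.Helper608.VF.J_cls_gram
import Pool.Agent.Helper608.VF.J_row_bound_one
set_option autoImplicit false
open Matrix MeasureTheory
open scoped ENNReal ContDiff
namespace Pool.Agent.Helper608.VF


theorem col_bound_prod {n : ℕ} (f : Fin (n + 3) → ℝ) (j : Fin (n + 3)) :
    ∏ l ∈ Finset.univ.erase j, f l = ∏ i : Fin (n + 2), f (j.succAbove i) := by
  have h1 : Finset.univ.erase j = Finset.univ.image j.succAbove := by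
    ext l
    simp only [Finset.mem_erase, Finset.mem_univ, and_true, Finset.mem_image, true_and]
    constructor
    · intro hl
      exact Fin.exists_succAbove_eq hl
    · rintro ⟨i, rfl⟩
      exact Fin.succAbove_ne j i
  rw [h1, Finset.prod_image (fun a _ b _ hab => Fin.succAbove_right_injective hab)]

theorem col_bound_gram {n k : ℕ} (X : Matrix (Fin k) (Fin (n + 3)) ℝ) (j : Fin (n + 3)) :
    (X.submatrix id j.succAbove)ᵀ * X.submatrix id j.succAbove =
      (Xᵀ * X).submatrix j.succAbove j.succAbove := by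
  ext a b
  simp [Matrix.mul_apply]

theorem row_bound_scale {n k : ℕ} (X : Matrix (Fin k) (Fin (n + 3)) ℝ) (f : Fin (n + 3) → ℝ)
    (j : Fin (n + 3)) :
    (X * Matrix.diagonal f).submatrix id j.succAbove =
      X.submatrix id j.succAbove * Matrix.diagonal (fun i => f (j.succAbove i)) := by
  ext a b
  simp [Matrix.mul_diagonal]

/-- each value is bounded by the product of the other norms -/
theorem col_bound {ι : Type} [Fintype ι] (n : ℕ) (α β : ι → ℝ) (g : ι → Fin 3 → ℝ)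
    (h : ∀ (X Y : Matrix (Fin n) (Fin (n + 2)) ℝ) (Z : Matrix (Fin 3) (Fin (n + 2)) ℝ),
      Xᵀ * X + Yᵀ * Y + Zᵀ * Z = 1 → |cls n α β g X Y Z| ≤ 1)
    (X Y : Matrix (Fin n) (Fin (n + 3)) ℝ) (Z : Matrix (Fin 3) (Fin (n + 3)) ℝ)
    (ρ : Fin (n + 3) → ℝ)
    (hG : Xᵀ * X + Yᵀ * Y + Zᵀ * Z = Matrix.diagonal (fun j => ρ j ^ 2)) (j : Fin (n + 3)) :
    Acol n α β g X Y Z j ^ 2 ≤ (∏ l ∈ Finset.univ.erase j, ρ l) ^ 2 := by
  have h1 := cls_gram n α β g h (X.submatrix id j.succAbove) (Y.submatrix id j.succAbove)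
    (Z.submatrix id j.succAbove)
  have h2 : (X.submatrix id j.succAbove)ᵀ * X.submatrix id j.succAbove +
      (Y.submatrix id j.succAbove)ᵀ * Y.submatrix id j.succAbove +
      (Z.submatrix id j.succAbove)ᵀ * Z.submatrix id j.succAbove =
      Matrix.diagonal (fun i => ρ (j.succAbove i) ^ 2) := by
    rw [col_bound_gram, col_bound_gram, col_bound_gram]
    show (Xᵀ * X + Yᵀ * Y + Zᵀ * Z).submatrix j.succAbove j.succAbove = _
    rw [hG, Matrix.submatrix_diagonal _ _ Fin.succAbove_right_injective]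
    rfl
  rw [h2, Matrix.det_diagonal, Finset.prod_pow] at h1
  rw [col_bound_prod]
  exact h1

/-- the same for orthogonal columns of norms `ρ_j ≥ 0` -/
theorem row_bound {ι : Type} [Fintype ι] (n : ℕ) (α β : ι → ℝ) (g : ι → Fin 3 → ℝ)
    (h : ∀ (X Y : Matrix (Fin n) (Fin (n + 2)) ℝ) (Z : Matrix (Fin 3) (Fin (n + 2)) ℝ),
      Xᵀ * X + Yᵀ * Y + Zᵀ * Z = 1 → |cls n α β g X Y Z| ≤ 1)
    (X Y : Matrix (Fin n) (Fin (n + 3)) ℝ) (Z : Matrix (Fin 3) (Fin (n + 3)) ℝ)
    (ρ : Fin (n + 3) → ℝ) (hρ : ∀ j, 0 ≤ ρ j)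
    (hG : Xᵀ * X + Yᵀ * Y + Zᵀ * Z = Matrix.diagonal (fun j => ρ j ^ 2)) :
    ∑ j, (Acol n α β g X Y Z j / ∏ l ∈ Finset.univ.erase j, ρ l) ^ 2 ≤ 1 := by
  by_cases hz : ∀ j, ρ j ≠ 0
  · have hS : ∀ k : ℕ, ∀ A : Matrix (Fin k) (Fin (n + 3)) ℝ,
        (A * Matrix.diagonal (fun j => (ρ j)⁻¹))ᵀ * (A * Matrix.diagonal (fun j => (ρ j)⁻¹)) =
        Matrix.diagonal (fun j => (ρ j)⁻¹) * (Aᵀ * A) * Matrix.diagonal (fun j => (ρ j)⁻¹) := by
      intro k A
      rw [Matrix.transpose_mul, Matrix.diagonal_transpose]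
      simp only [Matrix.mul_assoc]
    have hG' : (X * Matrix.diagonal (fun j => (ρ j)⁻¹))ᵀ * (X * Matrix.diagonal (fun j => (ρ j)⁻¹)) +
        (Y * Matrix.diagonal (fun j => (ρ j)⁻¹))ᵀ * (Y * Matrix.diagonal (fun j => (ρ j)⁻¹)) +
        (Z * Matrix.diagonal (fun j => (ρ j)⁻¹))ᵀ * (Z * Matrix.diagonal (fun j => (ρ j)⁻¹)) = 1 := by
      rw [hS, hS, hS, ← Matrix.add_mul, ← Matrix.add_mul, ← Matrix.mul_add, ← Matrix.mul_add, hG,
        Matrix.diagonal_mul_diagonal, Matrix.diagonal_mul_diagonal, ← Matrix.diagonal_one]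
      congr 1
      funext j
      have := hz j
      field_simp
    have h1 := row_bound_one n α β g h _ _ _ hG'
    refine le_trans (le_of_eq ?_) h1
    refine Finset.sum_congr rfl fun j _ => ?_
    congr 1
    unfold Acol
    rw [row_bound_scale, row_bound_scale, row_bound_scale, cls_mul, Matrix.det_diagonal,
      Finset.prod_inv_distrib, col_bound_prod, div_eq_inv_mul]
  · push Not at hz
    obtain ⟨j0, hj0⟩ := hz
    rw [Finset.sum_eq_single j0]
    · have h1 := col_bound n α β g h X Y Z ρ hG j0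
      rw [div_pow]
      exact div_le_one_of_le₀ h1 (by positivity)
    · intro j _ hj
      have h2 : ∏ l ∈ Finset.univ.erase j, ρ l = 0 :=
        Finset.prod_eq_zero (Finset.mem_erase.mpr ⟨hj.symm, Finset.mem_univ _⟩) hj0
      rw [h2, div_zero]
      norm_num
    · intro h3
      exact absurd (Finset.mem_univ _) h3

end Pool.Agent.Helper608.VF
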