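import Pool.Agent.Helper608.VF.XDefs
set_option autoImplicit false
open Matrix MeasureTheory
open scoped ENNReal ContDiff
namespace Pool.Agent.Helper608.VF


/-- singular value decomposition of a `3 × (n+3)` matrix -/
theorem svd3 (n : ℕ) (K : Matrix (Fin 3) (Fin (n + 3)) ℝ) :
    ∃ B : Matrix (Fin (n + 3)) (Fin (n + 3)) ℝ, Bᵀ * B = 1 ∧
      (∀ j l, j ≠ l → ((K * B)ᵀ * (K * B)) j l = 0) ∧
      (∀ (i : Fin 3) (j : Fin (n + 3)), 3 ≤ (j : ℕ) → (K * B) i j = 0) := by
  classical
  have hS : (Kᵀ * K).IsHermitian := by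
    have h := Matrix.isHermitian_conjTranspose_mul_self K
    rwa [Matrix.conjTranspose_eq_transpose_of_trivial] at h
  have hrank : Fintype.card {i // hS.eigenvalues i ≠ 0} ≤ 3 := by
    rw [← hS.rank_eq_card_non_zero_eigs]
    refine (Matrix.rank_mul_le_left _ _).trans ?_
    simpa using Matrix.rank_le_card_width (Kᵀ)
  have hcard : Fintype.card {j : Fin (n + 3) // (j : ℕ) < Fintype.card {i // hS.eigenvalues i ≠ 0}} =
      Fintype.card {i // hS.eigenvalues i ≠ 0} := by
    have h1 : ∀ k : ℕ, k ≤ n + 3 → Fintype.card {j : Fin (n + 3) // (j : ℕ) < k} = k := by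
      intro k hk
      rw [Fintype.card_subtype]
      have : (Finset.univ.filter (fun j : Fin (n + 3) => (j : ℕ) < k)) =
          (Finset.univ : Finset (Fin k)).map (Fin.castLEEmb hk) := by
        ext j
        simp only [Finset.mem_filter, Finset.mem_univ, true_and, Finset.mem_map, Fin.castLEEmb_apply]
        constructor
        · intro h
          exact ⟨⟨j, h⟩, rfl⟩
        · rintro ⟨a, rfl⟩
          exact a.2
      rw [this, Finset.card_map, Finset.card_univ, Fintype.card_fin]
    exact h1 _ (hrank.trans (by omega))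
  obtain ⟨e'⟩ := Fintype.card_eq.1 hcard
  have he : ∀ j : Fin (n + 3), 3 ≤ (j : ℕ) → hS.eigenvalues (e'.extendSubtype j) = 0 := by
    intro j hj
    have h := Equiv.extendSubtype_not_mem e' j (by omega)
    exact not_not.1 h
  set e : Fin (n + 3) ≃ Fin (n + 3) := e'.extendSubtype with hedef
  set U : Matrix (Fin (n + 3)) (Fin (n + 3)) ℝ := (hS.eigenvectorUnitary : Matrix (Fin (n + 3)) (Fin (n + 3)) ℝ) with hU
  have hUU : Uᵀ * U = 1 := by
    have h := Matrix.mem_unitaryGroup_iff'.1 hS.eigenvectorUnitary.2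
    rwa [Matrix.star_eq_conjTranspose, Matrix.conjTranspose_eq_transpose_of_trivial] at h
  have hdiag : Uᵀ * (Kᵀ * K) * U = Matrix.diagonal hS.eigenvalues := by
    have h := hS.conjStarAlgAut_star_eigenvectorUnitary
    rw [Unitary.conjStarAlgAut_apply] at h
    simp only [Unitary.coe_star, star_star] at h
    rw [Matrix.star_eq_conjTranspose, Matrix.conjTranspose_eq_transpose_of_trivial] at h
    rw [hU, h]
    rfl
  have hB : ∀ j l, ((K * U.submatrix id e)ᵀ * (K * U.submatrix id e)) j l =
      (Matrix.diagonal hS.eigenvalues) (e j) (e l) := by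
    intro j l
    rw [← hdiag]
    have h1 : (K * U.submatrix id e)ᵀ * (K * U.submatrix id e) =
        (Uᵀ * (Kᵀ * K) * U).submatrix e e := by
      have h2 : K * U.submatrix id e = (K * U).submatrix id e := by
        ext a b; rfl
      rw [h2, Matrix.transpose_submatrix]
      have h3 : Uᵀ * (Kᵀ * K) * U = (K * U)ᵀ * (K * U) := by
        rw [Matrix.transpose_mul]
        simp only [Matrix.mul_assoc]
      rw [h3]
      ext a b; rfl
    rw [h1]
    rfl
  refine ⟨U.submatrix id e, ?_, ?_, ?_⟩
  · have h1 : (U.submatrix id e)ᵀ * U.submatrix id e = (Uᵀ * U).submatrix e e := by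
      ext a b; rfl
    rw [h1, hUU]
    exact Matrix.submatrix_one_equiv e
  · intro j l hjl
    rw [hB]
    exact Matrix.diagonal_apply_ne _ (fun h => hjl (e.injective h))
  · intro i j hj
    have h1 := hB j j
    rw [Matrix.diagonal_apply_eq, he j hj, Matrix.mul_apply] at h1
    simp only [Matrix.transpose_apply] at h1
    have h2 := (Finset.sum_eq_zero_iff_of_nonneg (fun i _ => mul_self_nonneg _)).1 h1 i
      (Finset.mem_univ i)
    exact mul_self_eq_zero.1 h2

end Pool.Agent.Helper608.VF
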