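import Pool.Agent.Helper608.VF.XDefs
import Pool.Agent.Helper608.VF.J_cls_alg
import Pool.Agent.Helper608.VF.J_cls_expand
import Pool.Agent.Helper608.VF.J_cls_gram
import Pool.Agent.Helper608.VF.J_final_ineq
import Pool.Agent.Helper608.VF.J_first_col
import Pool.Agent.Helper608.VF.J_row_bound_one
import Pool.Agent.Helper608.VF.J_rowcol_bound
import Pool.Agent.Helper608.VF.J_svd3
set_option autoImplicit false
open Matrix MeasureTheory
open scoped ENNReal ContDiff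
namespace Pool.Agent.Helper608.VF


theorem comass_step_det {k : ℕ} (B : Matrix (Fin k) (Fin k) ℝ) (h : Bᵀ * B = 1) :
    |B.det| = 1 := by
  have h1 := congrArg Matrix.det h
  rw [Matrix.det_mul, Matrix.det_transpose, Matrix.det_one] at h1
  rcases mul_self_eq_one_iff.1 h1 with h | h <;> simp [h]

theorem comass_step_gram {p q : ℕ} (X Y : Matrix (Fin p) (Fin q) ℝ) (Z : Matrix (Fin 3) (Fin q) ℝ)
    (B : Matrix (Fin q) (Fin q) ℝ) (hB : Bᵀ * B = 1) (hG : Xᵀ * X + Yᵀ * Y + Zᵀ * Z = 1) :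
    (X * B)ᵀ * (X * B) + (Y * B)ᵀ * (Y * B) + (Z * B)ᵀ * (Z * B) = 1 := by
  calc (X * B)ᵀ * (X * B) + (Y * B)ᵀ * (Y * B) + (Z * B)ᵀ * (Z * B)
      = Bᵀ * (Xᵀ * X + Yᵀ * Y + Zᵀ * Z) * B := by
        simp only [Matrix.transpose_mul, Matrix.mul_add, Matrix.add_mul, Matrix.mul_assoc]
    _ = 1 := by rw [hG, mul_one, hB]

theorem comass_step_gramO {p q : ℕ} (X : Matrix (Fin p) (Fin q) ℝ)
    (O : Matrix (Fin p) (Fin p) ℝ) (hO : Oᵀ * O = 1) : (O * X)ᵀ * (O * X) = Xᵀ * X := by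
  rw [Matrix.transpose_mul, Matrix.mul_assoc, ← Matrix.mul_assoc Oᵀ, hO, Matrix.one_mul]

theorem comass_step_gramR {p q : ℕ} (X Y : Matrix (Fin p) (Fin q) ℝ) (c s : ℝ)
    (h : c ^ 2 + s ^ 2 = 1) :
    (c • X + s • Y)ᵀ * (c • X + s • Y) + (-s • X + c • Y)ᵀ * (-s • X + c • Y) =
      Xᵀ * X + Yᵀ * Y := by
  have h1 : (c • X + s • Y)ᵀ * (c • X + s • Y) + (-s • X + c • Y)ᵀ * (-s • X + c • Y) =
      (c ^ 2 + s ^ 2) • (Xᵀ * X + Yᵀ * Y) := by
    simp only [Matrix.transpose_add, Matrix.transpose_smul, Matrix.add_mul, Matrix.mul_add,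
      Matrix.smul_mul, Matrix.mul_smul]
    module
  rw [h1, h, one_smul]

/-- the block matrix `diag(1, B)` -/
noncomputable def comass_step_blk {k : ℕ} (B : Matrix (Fin k) (Fin k) ℝ) :
    Matrix (Fin (k + 1)) (Fin (k + 1)) ℝ :=
  fun i j => Fin.cases (Fin.cases 1 (fun _ => 0) j) (fun i' => Fin.cases 0 (fun j' => B i' j') j) i

theorem comass_step_blk_zero {p k : ℕ} (B : Matrix (Fin k) (Fin k) ℝ)
    (X : Matrix (Fin p) (Fin (k + 1)) ℝ) (i : Fin p) : (X * comass_step_blk B) i 0 = X i 0 := by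
  rw [Matrix.mul_apply, Fin.sum_univ_succ]
  simp [comass_step_blk]

theorem comass_step_blk_succ {p k : ℕ} (B : Matrix (Fin k) (Fin k) ℝ)
    (X : Matrix (Fin p) (Fin (k + 1)) ℝ) (i : Fin p) (j : Fin k) :
    (X * comass_step_blk B) i j.succ = ∑ l, X i l.succ * B l j := by
  rw [Matrix.mul_apply, Fin.sum_univ_succ]
  simp [comass_step_blk]

theorem comass_step_blk_orth {k : ℕ} (B : Matrix (Fin k) (Fin k) ℝ) (h : Bᵀ * B = 1) :
    (comass_step_blk B)ᵀ * comass_step_blk B = 1 := by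
  ext i j
  rw [Matrix.mul_apply, Fin.sum_univ_succ]
  refine Fin.cases ?_ (fun i => ?_) i <;> refine Fin.cases ?_ (fun j => ?_) j
  · simp [comass_step_blk]
  · simp [comass_step_blk, Matrix.one_apply, Fin.succ_ne_zero]
    intro h0
    exact absurd h0.symm (Fin.succ_ne_zero j)
  · simp [comass_step_blk, Matrix.one_apply, Fin.succ_ne_zero]
  · have h1 := congrFun (congrFun h i) j
    rw [Matrix.mul_apply] at h1
    simp only [Matrix.transpose_apply] at h1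
    simp only [comass_step_blk, Matrix.transpose_apply, Fin.cases_zero, Fin.cases_succ, zero_mul,
      zero_add, h1, Matrix.one_apply, Fin.succ_inj]

theorem comass_step_cls_lin {ι : Type} [Fintype ι] (n : ℕ) (α β : ι → ℝ) (g1 g2 g3 : ι → Fin 3 → ℝ)
    (a c : ℝ) (hg : ∀ m i, g3 m i = a * g1 m i + c * g2 m i)
    (X Y : Matrix (Fin n) (Fin (n + 2)) ℝ) (Z : Matrix (Fin 3) (Fin (n + 2)) ℝ) :
    cls n α β g3 X Y Z = a * cls n α β g1 X Y Z + c * cls n α β g2 X Y Z := by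
  unfold cls
  simp only [hg, add_mul, Finset.sum_add_distrib, Finset.mul_sum, mul_assoc]

theorem comass_step_Acol_lin {ι : Type} [Fintype ι] (n : ℕ) (α β : ι → ℝ)
    (g1 g2 g3 : ι → Fin 3 → ℝ)
    (a c : ℝ) (hg : ∀ m i, g3 m i = a * g1 m i + c * g2 m i)
    (X Y : Matrix (Fin n) (Fin (n + 3)) ℝ) (Z : Matrix (Fin 3) (Fin (n + 3)) ℝ) (j : Fin (n + 3)) :
    Acol n α β g3 X Y Z j = a * Acol n α β g1 X Y Z j + c * Acol n α β g2 X Y Z j :=
  comass_step_cls_lin n α β g1 g2 g3 a c hg _ _ _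

theorem comass_step_unit (A C P : ℝ) (h : ∀ a c : ℝ, a ^ 2 + c ^ 2 = 1 → (a * A + c * C) ^ 2 ≤ P ^ 2) :
    A ^ 2 + C ^ 2 ≤ P ^ 2 := by
  by_cases h0 : A ^ 2 + C ^ 2 = 0
  · rw [h0]; positivity
  have hpos : 0 < A ^ 2 + C ^ 2 := lt_of_le_of_ne (by positivity) (Ne.symm h0)
  have hs := Real.sq_sqrt hpos.le
  have hs0 : 0 < √(A ^ 2 + C ^ 2) := Real.sqrt_pos.2 hpos
  have h1 := h (A / √(A ^ 2 + C ^ 2)) (C / √(A ^ 2 + C ^ 2)) (by
    rw [div_pow, div_pow, hs, ← add_div, div_self h0])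
  have h2 : (A / √(A ^ 2 + C ^ 2) * A + C / √(A ^ 2 + C ^ 2) * C) ^ 2 = A ^ 2 + C ^ 2 := by
    have h3 : A / √(A ^ 2 + C ^ 2) * A + C / √(A ^ 2 + C ^ 2) * C =
        (A ^ 2 + C ^ 2) / √(A ^ 2 + C ^ 2) := by ring
    rw [h3, div_pow, hs, sq, mul_div_assoc, div_self h0, mul_one]
  rw [h2] at h1
  exact h1

theorem comass_step_sum {n : ℕ} (F : Fin (n + 3) → ℝ) (hF : ∀ j : Fin (n + 3), 3 ≤ (j : ℕ) → F j = 0) :
    ∑ j, F j = ∑ j : Fin 3, F (Fin.castLE (by omega) j) := by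
  symm
  refine Fintype.sum_of_injective (Fin.castLE (by omega : 3 ≤ n + 3)) (Fin.castLE_injective _) _ _
    (fun j hj => hF j ?_) (fun j => rfl)
  by_contra hc
  push Not at hc
  exact hj ⟨⟨j, hc⟩, Fin.ext rfl⟩

theorem comass_step_prod {n : ℕ} (F : Fin (n + 3) → ℝ) (hF : ∀ j : Fin (n + 3), 3 ≤ (j : ℕ) → F j = 1) :
    ∏ j, F j = ∏ j : Fin 3, F (Fin.castLE (by omega) j) := by
  symm
  refine Fintype.prod_of_injective (Fin.castLE (by omega : 3 ≤ n + 3)) (Fin.castLE_injective _) _ _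
    (fun j hj => hF j ?_) (fun j => rfl)
  by_contra hc
  push Not at hc
  exact hj ⟨⟨j, hc⟩, Fin.ext rfl⟩

theorem comass_step_prod_erase {n : ℕ} (ρ : Fin (n + 3) → ℝ) (hρ : ∀ j : Fin (n + 3), 3 ≤ (j : ℕ) → ρ j = 1)
    (j : Fin 3) :
    ∏ l ∈ Finset.univ.erase (Fin.castLE (by omega : 3 ≤ n + 3) j), ρ l =
      ρ (Fin.castLE (by omega) (j + 1)) * ρ (Fin.castLE (by omega) (j + 2)) := by
  have h1 : ∏ l ∈ Finset.univ.erase (Fin.castLE (by omega : 3 ≤ n + 3) j), ρ l =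
      ∏ l, if l = Fin.castLE (by omega : 3 ≤ n + 3) j then 1 else ρ l := by
    rw [← Finset.prod_erase Finset.univ (a := Fin.castLE (by omega : 3 ≤ n + 3) j)
      (f := fun l => if l = Fin.castLE (by omega : 3 ≤ n + 3) j then 1 else ρ l) (by simp)]
    refine Finset.prod_congr rfl fun l hl => ?_
    rw [if_neg (Finset.ne_of_mem_erase hl)]
  rw [h1, comass_step_prod _ (by
    intro l hl
    rw [hρ l hl]
    simp)]
  simp only [(Fin.castLE_injective (by omega : 3 ≤ n + 3)).eq_iff]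
  fin_cases j <;> simp [Fin.prod_univ_three] <;> ring


theorem comass_step_core (n : ℕ)
    (ih : ∀ {ι : Type} [Fintype ι] (α β : ι → ℝ) (g : ι → Fin 3 → ℝ), MB n α β g →
      ∀ (X Y : Matrix (Fin n) (Fin (n + 2)) ℝ) (Z : Matrix (Fin 3) (Fin (n + 2)) ℝ),
        Xᵀ * X + Yᵀ * Y + Zᵀ * Z = 1 → |cls n α β g X Y Z| ≤ 1)
    {ι : Type} [Fintype ι] (α β : ι → ℝ) (g : ι → Fin 3 → ℝ) (h : MB (n + 2) α β g)
    (X Y : Matrix (Fin (n + 2)) (Fin (n + 4)) ℝ) (Z : Matrix (Fin 3) (Fin (n + 4)) ℝ)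
    (hG : Xᵀ * X + Yᵀ * Y + Zᵀ * Z = 1) (μ ν : ℝ)
    (hX : ∀ i, X i 0 = if i = 0 then μ else 0) (hY : ∀ i, Y i 0 = if i = 1 then ν else 0)
    (hZ : ∀ i, Z i 0 = 0)
    (K : Fin 3 → Fin (n + 3) → ℝ) (hK0 : ∀ j, K 0 j = X 1 j.succ) (hK1 : ∀ j, K 1 j = Y 0 j.succ)
    (hK2 : ∀ j, K 2 j = μ * Y 1 j.succ - ν * X 0 j.succ)
    (hKo : ∀ j l, j ≠ l → K 0 j * K 0 l + K 1 j * K 1 l + K 2 j * K 2 l = 0)
    (hK3 : ∀ (i : Fin 3) (j : Fin (n + 3)), 3 ≤ (j : ℕ) → K i j = 0) :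
    |cls (n + 2) α β g X Y Z| ≤ 1 := by
  -- entries of the Gram matrix
  have hGe : ∀ j l, ∑ i, X i j * X i l + ∑ i, Y i j * Y i l + ∑ i, Z i j * Z i l =
      if j = l then 1 else 0 := by
    intro j l
    have h1 := congrFun (congrFun hG j) l
    simp only [Matrix.add_apply, Matrix.mul_apply, Matrix.transpose_apply, Matrix.one_apply] at h1
    exact h1
  have hμν : μ ^ 2 + ν ^ 2 = 1 := by
    have h1 := hGe 0 0
    simp only [hX, hY, hZ] at h1
    simp at h1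
    linarith
  have hort : ∀ j : Fin (n + 3), μ * X 0 j.succ + ν * Y 1 j.succ = 0 := by
    intro j
    have h1 := hGe 0 j.succ
    simp only [hX, hY, hZ] at h1
    simp [Fin.succ_ne_zero] at h1
    rw [if_neg (Fin.succ_ne_zero j).symm] at h1
    linarith
  have hX0 : ∀ j : Fin (n + 3), X 0 j.succ = -ν * K 2 j := by
    intro j
    rw [hK2]
    have h1 := hort j
    linear_combination (-(X 0 j.succ)) * hμν + μ * h1
  have hY1 : ∀ j : Fin (n + 3), Y 1 j.succ = μ * K 2 j := by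
    intro j
    rw [hK2]
    have h1 := hort j
    linear_combination (-(Y 1 j.succ)) * hμν + ν * h1
  set X' := X.submatrix (fun i : Fin n => i.succ.succ) (Fin.succ : Fin (n + 3) → Fin (n + 4)) with hX'
  set Y' := Y.submatrix (fun i : Fin n => i.succ.succ) (Fin.succ : Fin (n + 3) → Fin (n + 4)) with hY'
  set Z' := Z.submatrix (id : Fin 3 → Fin 3) (Fin.succ : Fin (n + 3) → Fin (n + 4)) with hZ'
  have hent : ∀ j l, (X'ᵀ * X' + Y'ᵀ * Y' + Z'ᵀ * Z') j l = (if j = l then 1 else 0) -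
      (K 0 j * K 0 l + K 1 j * K 1 l + K 2 j * K 2 l) := by
    intro j l
    simp only [Matrix.add_apply, Matrix.mul_apply, Matrix.transpose_apply]
    have h1 := hGe j.succ l.succ
    rw [Fin.sum_univ_succ, Fin.sum_univ_succ, Fin.sum_univ_succ (f := fun i => Y i j.succ * Y i l.succ),
      Fin.sum_univ_succ (f := fun i : Fin (n + 1) => Y i.succ j.succ * Y i.succ l.succ)] at h1
    have e1 : (Fin.succ (0 : Fin (n + 1)) : Fin (n + 2)) = 1 := rfl
    rw [e1, hX0, hX0, hY1, hY1, ← hK0, ← hK0, ← hK1, ← hK1] at h1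
    simp only [Fin.succ_inj] at h1
    have e2 : ∑ i, X' i j * X' i l = ∑ i : Fin n, X i.succ.succ j.succ * X i.succ.succ l.succ := rfl
    have e3 : ∑ i, Y' i j * Y' i l = ∑ i : Fin n, Y i.succ.succ j.succ * Y i.succ.succ l.succ := rfl
    have e4 : ∑ i, Z' i j * Z' i l = ∑ i : Fin 3, Z i j.succ * Z i l.succ := rfl
    rw [e2, e3, e4]
    linear_combination h1 - K 2 j * K 2 l * hμν
  set ρ : Fin (n + 3) → ℝ := fun j => √(1 - (K 0 j ^ 2 + K 1 j ^ 2 + K 2 j ^ 2)) with hρ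
  have hnn : ∀ j, 0 ≤ 1 - (K 0 j ^ 2 + K 1 j ^ 2 + K 2 j ^ 2) := by
    intro j
    have h1 := hent j j
    simp only [if_true, Matrix.add_apply, Matrix.mul_apply, Matrix.transpose_apply] at h1
    have h2 : 0 ≤ ∑ i, X' i j * X' i j := Finset.sum_nonneg fun i _ => mul_self_nonneg _
    have h3 : 0 ≤ ∑ i, Y' i j * Y' i j := Finset.sum_nonneg fun i _ => mul_self_nonneg _
    have h4 : 0 ≤ ∑ i, Z' i j * Z' i j := Finset.sum_nonneg fun i _ => mul_self_nonneg _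
    nlinarith
  have hρsq : ∀ j, ρ j ^ 2 = 1 - (K 0 j ^ 2 + K 1 j ^ 2 + K 2 j ^ 2) := fun j =>
    Real.sq_sqrt (hnn j)
  have hρ0 : ∀ j, 0 ≤ ρ j := fun j => Real.sqrt_nonneg _
  have hρ1 : ∀ j : Fin (n + 3), 3 ≤ (j : ℕ) → ρ j = 1 := by
    intro j hj
    simp only [hρ, hK3 _ j hj]
    norm_num
  have hG' : X'ᵀ * X' + Y'ᵀ * Y' + Z'ᵀ * Z' = Matrix.diagonal (fun j => ρ j ^ 2) := by
    ext j l
    rw [hent, Matrix.diagonal_apply]
    by_cases hjl : j = l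
    · subst hjl
      rw [if_pos rfl, if_pos rfl, hρsq]
      ring
    · rw [if_neg hjl, if_neg hjl, hKo j l hjl, sub_zero]
  -- the contracted forms
  have hcon : ∀ v w : ℝ × ℝ, v.1 ^ 2 + v.2 ^ 2 = 1 → w.1 ^ 2 + w.2 ^ 2 = 1 →
      ∀ (X Y : Matrix (Fin n) (Fin (n + 2)) ℝ) (Z : Matrix (Fin 3) (Fin (n + 2)) ℝ),
        Xᵀ * X + Yᵀ * Y + Zᵀ * Z = 1 → |cls n α β (fun m i => g m i *
          ((α m * v.1 + β m * v.2) * (α m * w.1 + β m * w.2))) X Y Z| ≤ 1 :=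
    fun v w hv hw => ih α β _ (MB_contract n α β g h v w hv hw)
  set A : Fin (n + 3) → ℝ := fun j => Acol n α β (fun m i => g m i * (α m * α m)) X' Y' Z' j with hA
  set Bc : Fin (n + 3) → ℝ := fun j => Acol n α β (fun m i => g m i * (β m * β m)) X' Y' Z' j with hBc
  set C : Fin (n + 3) → ℝ := fun j => Acol n α β (fun m i => g m i * (α m * β m)) X' Y' Z' j with hC
  set P : Fin (n + 3) → ℝ := fun j => ∏ l ∈ Finset.univ.erase j, ρ l with hP
  have hAC : ∀ j, A j ^ 2 + C j ^ 2 ≤ P j ^ 2 := by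
    intro j
    refine comass_step_unit _ _ _ fun a c hac => ?_
    have h1 := col_bound n α β _ (hcon (1, 0) (a, c) (by norm_num) hac) X' Y' Z' ρ hG' j
    rw [comass_step_Acol_lin n α β (fun m i => g m i * (α m * α m)) (fun m i => g m i * (α m * β m))
      _ a c (fun m i => by simp only; ring)] at h1
    exact h1
  have hBC : ∀ j, Bc j ^ 2 + C j ^ 2 ≤ P j ^ 2 := by
    intro j
    refine comass_step_unit _ _ _ fun a c hac => ?_
    have h1 := col_bound n α β _ (hcon (0, 1) (c, a) (by norm_num) (by simp only; linarith))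
      X' Y' Z' ρ hG' j
    rw [comass_step_Acol_lin n α β (fun m i => g m i * (β m * β m)) (fun m i => g m i * (α m * β m))
      _ a c (fun m i => by simp only; ring)] at h1
    exact h1
  have hAr : ∑ j, (A j / P j) ^ 2 ≤ 1 := by
    have h1 := row_bound n α β _ (hcon (1, 0) (1, 0) (by norm_num) (by norm_num)) X' Y' Z' ρ hρ0 hG'
    simp only [mul_one, mul_zero, add_zero] at h1
    exact h1
  have hBr : ∑ j, (Bc j / P j) ^ 2 ≤ 1 := by
    have h1 := row_bound n α β _ (hcon (0, 1) (0, 1) (by norm_num) (by norm_num)) X' Y' Z' ρ hρ0 hG'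
    simp only [mul_one, mul_zero, zero_add] at h1
    exact h1
  have hCr : ∑ j, (C j / P j) ^ 2 ≤ 1 := by
    have h1 := row_bound n α β _ (hcon (1, 0) (0, 1) (by norm_num) (by norm_num)) X' Y' Z' ρ hρ0 hG'
    simp only [mul_one, mul_zero, zero_add, add_zero] at h1
    exact h1
  -- expansion
  rw [cls_expand n α β g X Y Z μ ν hX hY hZ]
  have hexp : ∑ j : Fin (n + 3), (-1 : ℝ) ^ (j : ℕ) *
        (μ * X 1 j.succ * A j - ν * Y 0 j.succ * Bc j + (μ * Y 1 j.succ - ν * X 0 j.succ) * C j) =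
      ∑ j : Fin 3, ρ (Fin.castLE (by omega) (j + 1)) * ρ (Fin.castLE (by omega) (j + 2)) *
        (μ * K 0 (Fin.castLE (by omega) j) *
          ((-1 : ℝ) ^ (j : ℕ) * (A (Fin.castLE (by omega) j) / P (Fin.castLE (by omega) j))) -
         ν * K 1 (Fin.castLE (by omega) j) *
          ((-1 : ℝ) ^ (j : ℕ) * (Bc (Fin.castLE (by omega) j) / P (Fin.castLE (by omega) j))) +
         K 2 (Fin.castLE (by omega) j) *
          ((-1 : ℝ) ^ (j : ℕ) * (C (Fin.castLE (by omega) j) / P (Fin.castLE (by omega) j)))) := by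
    simp only [← hK0, ← hK1, ← hK2]
    rw [comass_step_sum _ (by
      intro j hj
      simp only [hK3 _ j hj]
      ring)]
    refine Finset.sum_congr rfl fun j _ => ?_
    rw [← comass_step_prod_erase ρ hρ1 j]
    change _ = P (Fin.castLE (by omega) j) * _
    generalize hj' : (Fin.castLE (by omega : 3 ≤ n + 3) j) = j'
    have hjj : ((j' : Fin (n + 3)) : ℕ) = (j : ℕ) := by rw [← hj']; rfl
    rw [hjj]
    by_cases hP0 : P j' = 0
    · have h1 := hAC j'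
      have h2 := hBC j'
      rw [hP0] at h1 h2
      have hA0 : A j' = 0 := by nlinarith [sq_nonneg (A j'), sq_nonneg (C j')]
      have hB0 : Bc j' = 0 := by nlinarith [sq_nonneg (Bc j'), sq_nonneg (C j')]
      have hC0 : C j' = 0 := by nlinarith [sq_nonneg (A j'), sq_nonneg (C j')]
      rw [hA0, hB0, hC0, hP0]
      ring
    · field_simp
  have hq : ∀ (a b p : ℝ), a ^ 2 + b ^ 2 ≤ p ^ 2 → ∀ k : ℕ,
      ((-1 : ℝ) ^ k * (a / p)) ^ 2 + ((-1 : ℝ) ^ k * (b / p)) ^ 2 ≤ 1 := by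
    intro a b p hab k
    have h1 : ((-1 : ℝ) ^ k) ^ 2 = 1 := by
      rw [← pow_mul, mul_comm, pow_mul]; norm_num
    rw [mul_pow, mul_pow, h1, one_mul, one_mul, div_pow, div_pow, ← add_div]
    exact div_le_one_of_le₀ hab (sq_nonneg p)
  have hr : ∀ a : Fin (n + 3) → ℝ, ∑ j, (a j / P j) ^ 2 ≤ 1 →
      ∑ j : Fin 3, ((-1 : ℝ) ^ (j : ℕ) * (a (Fin.castLE (by omega : 3 ≤ n + 3) j) /
        P (Fin.castLE (by omega) j))) ^ 2 ≤ 1 := by
    intro a ha
    refine le_trans ?_ ha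
    have h1 : ∀ k : ℕ, ((-1 : ℝ) ^ k) ^ 2 = 1 := by
      intro k
      rw [← pow_mul, mul_comm, pow_mul]; norm_num
    simp only [mul_pow, h1, one_mul]
    have h2 : ∑ j : Fin 3, (a (Fin.castLE (by omega : 3 ≤ n + 3) j) /
        P (Fin.castLE (by omega) j)) ^ 2 =
        ∑ j ∈ Finset.univ.map ⟨Fin.castLE (by omega : 3 ≤ n + 3), Fin.castLE_injective _⟩,
          (a j / P j) ^ 2 := by
      rw [Finset.sum_map]
      rfl
    rw [h2]
    exact Finset.sum_le_sum_of_subset_of_nonneg (Finset.subset_univ _) fun _ _ _ => sq_nonneg _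
  have hfin := final_ineq μ ν hμν (fun i j => K i (Fin.castLE (by omega) j))
    (fun j => ρ (Fin.castLE (by omega) j)) (fun j => hρ0 _) (fun j => by
      simp only [hρsq]; ring)
    (fun j => (-1 : ℝ) ^ (j : ℕ) * (A (Fin.castLE (by omega) j) / P (Fin.castLE (by omega) j)))
    (fun j => (-1 : ℝ) ^ (j : ℕ) * (Bc (Fin.castLE (by omega) j) / P (Fin.castLE (by omega) j)))
    (fun j => (-1 : ℝ) ^ (j : ℕ) * (C (Fin.castLE (by omega) j) / P (Fin.castLE (by omega) j)))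
    (fun j => hq _ _ _ (hAC _) _) (fun j => hq _ _ _ (hBC _) _) (hr A hAr) (hr Bc hBr) (hr C hCr)
  rw [← hexp] at hfin
  exact hfin

theorem comass_step (n : ℕ)
    (ih : ∀ {ι : Type} [Fintype ι] (α β : ι → ℝ) (g : ι → Fin 3 → ℝ), MB n α β g →
      ∀ (X Y : Matrix (Fin n) (Fin (n + 2)) ℝ) (Z : Matrix (Fin 3) (Fin (n + 2)) ℝ),
        Xᵀ * X + Yᵀ * Y + Zᵀ * Z = 1 → |cls n α β g X Y Z| ≤ 1)
    {ι : Type} [Fintype ι] (α β : ι → ℝ) (g : ι → Fin 3 → ℝ) (h : MB (n + 2) α β g)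
    (X Y : Matrix (Fin (n + 2)) (Fin (n + 4)) ℝ) (Z : Matrix (Fin 3) (Fin (n + 4)) ℝ)
    (hG : Xᵀ * X + Yᵀ * Y + Zᵀ * Z = 1) : |cls (n + 2) α β g X Y Z| ≤ 1 := by
  obtain ⟨B, O, c, s, μ, ν, hB, hO, hcs, hX0, hY0, hZ0⟩ := first_col n X Y Z
  set X1 := O * ((c • X + s • Y) * B) with hX1
  set Y1 := O * ((-s • X + c • Y) * B) with hY1
  set Z1 := Z * B with hZ1
  have hcls1 : |cls (n + 2) (fun m => c * α m + s * β m) (fun m => -s * α m + c * β m) g X1 Y1 Z1|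
      = |cls (n + 2) α β g X Y Z| := by
    rw [hX1, hY1, hZ1, cls_left, cls_mul, cls_rot _ _ _ _ _ _ _ _ _ hcs, abs_mul, abs_mul,
      comass_step_det O hO, comass_step_det B hB, one_mul, one_mul]
  have hG1 : X1ᵀ * X1 + Y1ᵀ * Y1 + Z1ᵀ * Z1 = 1 := by
    rw [hX1, hY1, hZ1, comass_step_gramO _ O hO, comass_step_gramO _ O hO]
    refine comass_step_gram _ _ _ B hB ?_
    rw [comass_step_gramR X Y c s hcs, hG]
  rw [← hcls1]
  have hM := MB_rot (n + 2) α β g c s hcs h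
  generalize (fun m => c * α m + s * β m) = α1 at hM ⊢
  generalize (fun m => -s * α m + c * β m) = β1 at hM ⊢
  obtain ⟨Kz, hKz⟩ : ∃ Kz : Matrix (Fin 3) (Fin (n + 3)) ℝ, Kz = Matrix.of ![fun j => X1 1 j.succ,
    fun j => Y1 0 j.succ, fun j => μ * Y1 1 j.succ - ν * X1 0 j.succ] := ⟨_, rfl⟩
  obtain ⟨B', hB', hort, hz⟩ := svd3 n Kz
  have hcls2 : |cls (n + 2) α1 β1 g (X1 * comass_step_blk B') (Y1 * comass_step_blk B')
      (Z1 * comass_step_blk B')| = |cls (n + 2) α1 β1 g X1 Y1 Z1| := by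
    rw [cls_mul, abs_mul, comass_step_det _ (comass_step_blk_orth B' hB'), one_mul]
  rw [← hcls2]
  refine comass_step_core n ih α1 β1 g hM _ _ _
    (comass_step_gram _ _ _ _ (comass_step_blk_orth B' hB') hG1) μ ν ?_ ?_ ?_ (Kz * B') ?_ ?_ ?_ ?_ hz
  · intro i
    rw [comass_step_blk_zero]
    exact hX0 i
  · intro i
    rw [comass_step_blk_zero]
    exact hY0 i
  · intro i
    rw [comass_step_blk_zero]
    exact hZ0 i
  · intro j
    rw [comass_step_blk_succ, Matrix.mul_apply, hKz]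
    rfl
  · intro j
    rw [comass_step_blk_succ, Matrix.mul_apply, hKz]
    rfl
  · intro j
    rw [comass_step_blk_succ, comass_step_blk_succ, Matrix.mul_apply, Finset.mul_sum,
      Finset.mul_sum, ← Finset.sum_sub_distrib, hKz]
    refine Finset.sum_congr rfl fun l _ => ?_
    show (μ * Y1 1 l.succ - ν * X1 0 l.succ) * B' l j = _
    ring
  · intro j l hjl
    have h1 := hort j l hjl
    rw [Matrix.mul_apply, Fin.sum_univ_three] at h1
    exact h1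

end Pool.Agent.Helper608.VF
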