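import Pool.Agent.Helper608.VF.XDefs
import Pool.Agent.Helper608.VF.J_cls_zero
import Pool.Agent.Helper608.VF.J_comass_step
set_option autoImplicit false
open Matrix MeasureTheory
open scoped ENNReal ContDiff
namespace Pool.Agent.Helper608.VF

theorem comass_even (h : ℕ) {ι : Type} [Fintype ι] (α β : ι → ℝ) (g : ι → Fin 3 → ℝ)
    (hM : MB (2 * h) α β g)
    (X Y : Matrix (Fin (2 * h)) (Fin (2 * h + 2)) ℝ) (Z : Matrix (Fin 3) (Fin (2 * h + 2)) ℝ)
    (hG : Xᵀ * X + Yᵀ * Y + Zᵀ * Z = 1) : |cls (2 * h) α β g X Y Z| ≤ 1 := by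
  induction h generalizing ι with
  | zero => exact cls_zero α β g hM X Y Z hG
  | succ h ih => exact comass_step (2 * h) (fun α β g hM X Y Z hG => ih α β g hM X Y Z hG) α β g hM X Y Z hG

end Pool.Agent.Helper608.VF
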