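import Pool.Agent.Helper608.VF.XDefs
import Pool.Agent.Helper608.VF.J_MB_of_diag
import Pool.Agent.Helper608.VF.J_cls_alg
import Pool.Agent.Helper608.VF.J_cls_gram
import Pool.Agent.Helper608.VF.J_cls_zero
import Pool.Agent.Helper608.VF.J_comass_even
import Pool.Agent.Helper608.VF.J_comass_step
set_option autoImplicit false
open Matrix MeasureTheory
open scoped ENNReal ContDiff
namespace Pool.Agent.Helper608.VF


theorem comass_rw {c : Type} (n : ℕ) : ∀ (X : Fin n → c → ℝ) (z z' : c → ℝ) (s : Fin n ⊕ Fin 2),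
    rw' n X z z' (finSumFinEquiv s) = Sum.elim X ![z, z'] s := by
  induction n with
  | zero =>
    intro X z z' s
    rcases s with i | j
    · exact i.elim0
    · fin_cases j <;> rfl
  | succ n ih =>
    intro X z z' s
    rcases s with i | j
    · refine Fin.cases ?_ (fun i' => ?_) i
      · rfl
      · have h1 := ih (fun i => X i.succ) z z' (Sum.inl i')
        exact h1
    · have h1 := ih (fun i => X i.succ) z z' (Sum.inr j)
      have h2 : (finSumFinEquiv (Sum.inr j : Fin (n + 1) ⊕ Fin 2) : Fin (n + 1 + 2)) =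
          (Fin.succ (finSumFinEquiv (Sum.inr j : Fin n ⊕ Fin 2)) : Fin (n + 2 + 1)) := by
        apply Fin.ext
        simp
        omega
      rw [h2]
      exact h1

/-- COMASS THEOREM -/
theorem comass {ι : Type} [Fintype ι] (k : ℕ) (α β : ι → ℝ) (g : ι → Fin 3 → ℝ)
    (h : ∀ p q : ℝ, p ^ 2 + q ^ 2 = 1 → ∑ i : Fin 3, (∑ m, g m i * (α m * p + β m * q) ^ (2 * k)) ^ 2 ≤ 1)
    (X Y : Matrix (Fin (2 * k)) (Fin (2 * k) ⊕ Fin 2) ℝ) (Z : Matrix (Fin 3) (Fin (2 * k) ⊕ Fin 2) ℝ) :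
    |∑ m, ∑ i : Fin 3, g m i *
      (Matrix.of (Sum.elim (fun j => α m • X j + β m • Y j) ![Z (i + 1), Z (i + 2)]) :
        Matrix (Fin (2 * k) ⊕ Fin 2) (Fin (2 * k) ⊕ Fin 2) ℝ).det|
    ≤ Real.sqrt (Xᵀ * X + Yᵀ * Y + Zᵀ * Z).det := by
  set e : Fin (2 * k) ⊕ Fin 2 ≃ Fin (2 * k + 2) := finSumFinEquiv with he
  set X' : Matrix (Fin (2 * k)) (Fin (2 * k + 2)) ℝ := X.submatrix id e.symm with hX'
  set Y' : Matrix (Fin (2 * k)) (Fin (2 * k + 2)) ℝ := Y.submatrix id e.symm with hY'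
  set Z' : Matrix (Fin 3) (Fin (2 * k + 2)) ℝ := Z.submatrix id e.symm with hZ'
  have hMB := MB_of_diag (2 * k) α β g h
  have h1 := cls_gram (2 * k) α β g (fun X Y Z hG => comass_even k α β g hMB X Y Z hG) X' Y' Z'
  have h2 : X'ᵀ * X' + Y'ᵀ * Y' + Z'ᵀ * Z' =
      (Xᵀ * X + Yᵀ * Y + Zᵀ * Z).submatrix e.symm e.symm := by
    ext a b
    simp [hX', hY', hZ', Matrix.mul_apply]
  rw [h2, Matrix.det_submatrix_equiv_self] at h1
  have h3 : cls (2 * k) α β g X' Y' Z' = ∑ m, ∑ i : Fin 3, g m i *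
      (Matrix.of (Sum.elim (fun j => α m • X j + β m • Y j) ![Z (i + 1), Z (i + 2)]) :
        Matrix (Fin (2 * k) ⊕ Fin 2) (Fin (2 * k) ⊕ Fin 2) ℝ).det := by
    unfold cls
    refine Finset.sum_congr rfl fun m _ => Finset.sum_congr rfl fun i _ => ?_
    congr 1
    rw [← Matrix.det_submatrix_equiv_self e.symm]
    congr 1
    ext r c
    obtain ⟨s, rfl⟩ := e.surjective r
    rw [Matrix.submatrix_apply, Equiv.symm_apply_apply, Matrix.of_apply, Matrix.of_apply,
      comass_rw]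
    rcases s with a | b
    · simp [hX', hY']
    · fin_cases b <;> simp [hZ']
  rw [← h3]
  exact Real.abs_le_sqrt h1

end Pool.Agent.Helper608.VF
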