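import Pool.Agent.Helper608.VF.XDefs
set_option autoImplicit false
open Matrix MeasureTheory
open scoped ENNReal ContDiff
namespace Pool.Agent.Helper608.VF


theorem F_bound_pos (k : ℕ) : ∀ j : ℕ, j ≤ k → 0 ≤ fc k j := by
  intro j
  induction j with
  | zero => intro _; simp [fc]
  | succ j ih =>
    intro hj
    have h1 := ih (by omega)
    have h2 : (j:ℝ) + 1 ≤ (k:ℝ) := by exact_mod_cast hj
    have hj0 : (0:ℝ) ≤ (j:ℝ) := Nat.cast_nonneg j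
    rw [fc]
    apply div_nonneg
    · apply mul_nonneg h1
      apply mul_nonneg <;> linarith
    · apply mul_nonneg <;> linarith

theorem F_bound_rec (k j : ℕ) (hj : j ≤ k) :
    (2 * (j:ℝ) + 2) * fc k (j+1) = fc k j * ((2 * (j:ℝ) + 1) * (2 * (k:ℝ) - 2 * (j:ℝ))) / (4 * (k:ℝ) + 1 - 2 * (j:ℝ)) := by
  have h2 : (j:ℝ) ≤ (k:ℝ) := by exact_mod_cast hj
  have hj0 : (0:ℝ) ≤ (j:ℝ) := Nat.cast_nonneg j
  have hd : (4 * (k:ℝ) + 1 - 2 * (j:ℝ)) ≠ 0 := by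
    have : 0 < (4 * (k:ℝ) + 1 - 2 * (j:ℝ)) := by linarith
    exact this.ne'
  have hd2 : (2 * (j:ℝ) + 2) ≠ 0 := by
    have : 0 < (2 * (j:ℝ) + 2) := by linarith
    exact this.ne'
  rw [fc]
  field_simp

theorem F_bound_F (k : ℕ) (τ : ℝ) : F k 1 τ = ∑ j ∈ Finset.range (k + 1), fc k j * τ ^ (2 * j) := by
  simp [F]

theorem F_bound_Fs (k : ℕ) (τ : ℝ) : Fs k 1 τ = ∑ j ∈ Finset.range (k + 1), fc k j * (2 * (j:ℝ)) * τ ^ (2 * j - 1) := by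
  simp [Fs]

theorem F_bound_Fs1 (k : ℕ) (τ : ℝ) : Fs k 1 τ = ∑ j ∈ Finset.range (k + 1), fc k (j+1) * (2 * (j:ℝ) + 2) * τ ^ (2 * j + 1) := by
  rw [F_bound_Fs, Finset.sum_range_succ' (fun j => fc k j * (2 * (j:ℝ)) * τ ^ (2 * j - 1)) k,
    Finset.sum_range_succ (fun j => fc k (j+1) * (2 * (j:ℝ) + 2) * τ ^ (2 * j + 1)) k]
  congr 1
  · apply Finset.sum_congr rfl
    intro j _
    have : 2 * (j + 1) - 1 = 2 * j + 1 := by omega
    rw [this]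
    push_cast
    ring
  · have : fc k (k+1) = 0 := by
      rw [fc]; simp
    rw [this]; simp

theorem F_bound_Fs2 (k : ℕ) (τ : ℝ) : τ ^ 2 * Fs k 1 τ = ∑ j ∈ Finset.range (k + 1), fc k j * (2 * (j:ℝ)) * τ ^ (2 * j + 1) := by
  rw [F_bound_Fs, Finset.mul_sum]
  apply Finset.sum_congr rfl
  intro j _
  rcases Nat.eq_zero_or_pos j with h | h
  · subst h; simp
  · have : 2 * j + 1 = (2 * j - 1) + 2 := by omega
    rw [this, pow_add]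
    ring

theorem F_bound_R (k : ℕ) (τ : ℝ) : Rr k τ =
    -∑ j ∈ Finset.range (k + 1), ((2 * (j:ℝ) + 1) / (4 * (k:ℝ) + 1 - 2 * (j:ℝ)) * fc k j) * τ ^ (2 * j + 1) := by
  have hk : (2 * (k:ℝ) + 1) ≠ 0 := by positivity
  have h1 : (1 - τ ^ 2) * Fs k 1 τ - τ * F k 1 τ =
      (2 * (k:ℝ) + 1) * (-∑ j ∈ Finset.range (k + 1), ((2 * (j:ℝ) + 1) / (4 * (k:ℝ) + 1 - 2 * (j:ℝ)) * fc k j) * τ ^ (2 * j + 1)) := by
    have : (1 - τ ^ 2) * Fs k 1 τ - τ * F k 1 τ = Fs k 1 τ - τ ^ 2 * Fs k 1 τ - τ * F k 1 τ := by ring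
    rw [this, F_bound_Fs2, F_bound_Fs1, F_bound_F, Finset.mul_sum, ← Finset.sum_sub_distrib, ← Finset.sum_sub_distrib,
      ← Finset.sum_neg_distrib, Finset.mul_sum]
    apply Finset.sum_congr rfl
    intro j hj
    have hj' : j ≤ k := by simpa [Nat.lt_succ_iff] using hj
    have hr := F_bound_rec k j hj'
    have h2 : (j:ℝ) ≤ (k:ℝ) := by exact_mod_cast hj'
    have hj0 : (0:ℝ) ≤ (j:ℝ) := Nat.cast_nonneg j
    have hd : (4 * (k:ℝ) + 1 - 2 * (j:ℝ)) ≠ 0 := by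
      have : 0 < (4 * (k:ℝ) + 1 - 2 * (j:ℝ)) := by linarith
      exact this.ne'
    have e1 : fc k (j+1) * (2 * (j:ℝ) + 2) = fc k j * ((2 * (j:ℝ) + 1) * (2 * (k:ℝ) - 2 * (j:ℝ))) / (4 * (k:ℝ) + 1 - 2 * (j:ℝ)) := by
      rw [mul_comm]; exact hr
    rw [e1]
    have e2 : τ * (fc k j * τ ^ (2 * j)) = fc k j * τ ^ (2 * j + 1) := by ring
    rw [e2]
    obtain ⟨D, hD⟩ : ∃ D : ℝ, D = 4 * (k:ℝ) + 1 - 2 * (j:ℝ) := ⟨_, rfl⟩
    rw [← hD] at hd ⊢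
    have hk' : (k:ℝ) = (D - 1 + 2 * (j:ℝ)) / 4 := by rw [hD]; ring
    rw [hk']
    generalize τ ^ (2 * j + 1) = X
    generalize fc k j = Y
    field_simp
    ring
  rw [Rr, h1]
  field_simp

theorem F_bound_one (k : ℕ) (τ : ℝ) : 1 ≤ F k 1 τ := by
  rw [F_bound_F, Finset.sum_range_succ']
  have h : 0 ≤ ∑ j ∈ Finset.range k, fc k (j+1) * τ ^ (2 * (j+1)) := by
    apply Finset.sum_nonneg
    intro j hj
    have hj' : j + 1 ≤ k := by simpa [Nat.succ_le_iff] using hj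
    exact mul_nonneg (F_bound_pos k _ hj') (by rw [pow_mul]; positivity)
  have e0 : fc k 0 * τ ^ (2 * 0) = 1 := by simp [fc]
  rw [e0]
  linarith

theorem F_bound_g (k j : ℕ) (hj : j ≤ k) : 0 ≤ (2 * (j:ℝ) + 1) / (4 * (k:ℝ) + 1 - 2 * (j:ℝ)) := by
  have h2 : (j:ℝ) ≤ (k:ℝ) := by exact_mod_cast hj
  have hj0 : (0:ℝ) ≤ (j:ℝ) := Nat.cast_nonneg j
  apply div_nonneg <;> linarith

theorem F_bound_tR (k : ℕ) (τ : ℝ) : τ * Rr k τ ≤ 0 := by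
  rw [F_bound_R, mul_neg, neg_nonpos, Finset.mul_sum]
  apply Finset.sum_nonneg
  intro j hj
  have hj' : j ≤ k := by simpa [Nat.lt_succ_iff] using hj
  have : τ * ((2 * (j:ℝ) + 1) / (4 * (k:ℝ) + 1 - 2 * (j:ℝ)) * fc k j * τ ^ (2 * j + 1))
      = ((2 * (j:ℝ) + 1) / (4 * (k:ℝ) + 1 - 2 * (j:ℝ)) * fc k j) * (τ ^ (j+1)) ^ 2 := by ring
  rw [this]
  exact mul_nonneg (mul_nonneg (F_bound_g k j hj') (F_bound_pos k j hj')) (by positivity)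

theorem F_bound_R_le (k : ℕ) (τ : ℝ) (hτ : 0 ≤ τ) : Rr k τ ≤ - (τ / (4 * (k:ℝ) + 1)) := by
  rw [F_bound_R, Finset.sum_range_succ']
  have h : 0 ≤ ∑ j ∈ Finset.range k, ((2 * ((j+1 : ℕ):ℝ) + 1) / (4 * (k:ℝ) + 1 - 2 * ((j+1:ℕ):ℝ)) * fc k (j+1)) * τ ^ (2 * (j+1) + 1) := by
    apply Finset.sum_nonneg
    intro j hj
    have hj' : j + 1 ≤ k := by simpa [Nat.succ_le_iff] using hj
    exact mul_nonneg (mul_nonneg (F_bound_g k _ hj') (F_bound_pos k _ hj')) (by positivity)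
  have e : ((2 * ((0:ℕ):ℝ) + 1) / (4 * (k:ℝ) + 1 - 2 * ((0:ℕ):ℝ)) * fc k 0) * τ ^ (2 * 0 + 1) = τ / (4 * (k:ℝ) + 1) := by
    simp [fc]; ring
  rw [e]
  linarith

noncomputable def F_bound_D (k : ℕ) (τ : ℝ) : ℝ :=
  -∑ j ∈ Finset.range (k + 1), ((2 * (j:ℝ) + 1) / (4 * (k:ℝ) + 1 - 2 * (j:ℝ)) * fc k j) * ((2 * (j:ℝ) + 1) * τ ^ (2 * j))

theorem F_bound_dR (k : ℕ) (τ : ℝ) : HasDerivAt (fun τ => Rr k τ) (F_bound_D k τ) τ := by
  have : (fun τ => Rr k τ) = fun τ => -∑ j ∈ Finset.range (k + 1), ((2 * (j:ℝ) + 1) / (4 * (k:ℝ) + 1 - 2 * (j:ℝ)) * fc k j) * τ ^ (2 * j + 1) := by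
    funext t; exact F_bound_R k t
  rw [this, F_bound_D]
  apply HasDerivAt.neg
  apply HasDerivAt.fun_sum
  intro j _
  apply HasDerivAt.const_mul
  have := hasDerivAt_pow (2 * j + 1) τ
  simpa using this

theorem F_bound_dF (k : ℕ) (τ : ℝ) : HasDerivAt (fun τ => F k 1 τ) (Fs k 1 τ) τ := by
  have : (fun τ => F k 1 τ) = fun τ => ∑ j ∈ Finset.range (k + 1), fc k j * τ ^ (2 * j) := by
    funext t; exact F_bound_F k t
  rw [this, F_bound_Fs]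
  apply HasDerivAt.fun_sum
  intro j _
  have := (hasDerivAt_pow (2 * j) τ).const_mul (fc k j)
  have e : fc k j * (2 * (j:ℝ)) * τ ^ (2 * j - 1) = fc k j * (((2 * j : ℕ):ℝ) * τ ^ (2 * j - 1)) := by
    push_cast; ring
  rw [e]
  exact this

theorem F_bound_coef (k : ℕ) (τ : ℝ) :
    ((2 * (k:ℝ) + 1) - 1 / (4 * (k:ℝ) + 1)) ≤ (2 * (k:ℝ) + 1) * F k 1 τ + F_bound_D k τ := by
  rw [F_bound_F, F_bound_D, Finset.mul_sum, ← Finset.sum_neg_distrib, ← Finset.sum_add_distrib, Finset.sum_range_succ']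
  have h : 0 ≤ ∑ j ∈ Finset.range k, ((2 * (k:ℝ) + 1) * (fc k (j+1) * τ ^ (2 * (j+1))) + -(((2 * ((j+1 : ℕ):ℝ) + 1) / (4 * (k:ℝ) + 1 - 2 * ((j+1:ℕ):ℝ)) * fc k (j+1)) * ((2 * ((j+1:ℕ):ℝ) + 1) * τ ^ (2 * (j+1))))) := by
    apply Finset.sum_nonneg
    intro j hj
    have hj' : j + 1 ≤ k := by simpa [Nat.succ_le_iff] using hj
    have h2 : ((j+1:ℕ):ℝ) ≤ (k:ℝ) := by exact_mod_cast hj'
    have hj0 : (0:ℝ) ≤ ((j+1:ℕ):ℝ) := Nat.cast_nonneg _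
    set x : ℝ := ((j+1:ℕ):ℝ) with hx
    have hd : 0 < (4 * (k:ℝ) + 1 - 2 * x) := by linarith
    have e : (2 * (k:ℝ) + 1) * (fc k (j+1) * τ ^ (2 * (j+1))) + -(((2 * x + 1) / (4 * (k:ℝ) + 1 - 2 * x) * fc k (j+1)) * ((2 * x + 1) * τ ^ (2 * (j+1))))
        = ((2 * (k:ℝ) + 1) - (2 * x + 1) ^ 2 / (4 * (k:ℝ) + 1 - 2 * x)) * (fc k (j+1) * (τ ^ (j+1)) ^ 2) := by ring
    rw [e]
    apply mul_nonneg
    · rw [sub_nonneg, div_le_iff₀ hd]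
      nlinarith
    · exact mul_nonneg (F_bound_pos k _ hj') (by positivity)
  have e0 : (2 * (k:ℝ) + 1) * (fc k 0 * τ ^ (2 * 0)) + -(((2 * ((0:ℕ):ℝ) + 1) / (4 * (k:ℝ) + 1 - 2 * ((0:ℕ):ℝ)) * fc k 0) * ((2 * ((0:ℕ):ℝ) + 1) * τ ^ (2 * 0)))
      = ((2 * (k:ℝ) + 1) - 1 / (4 * (k:ℝ) + 1)) := by
    simp [fc]; ring
  rw [e0]
  linarith

theorem F_bound_aux (k : ℕ) (τ : ℝ) (h0 : 0 ≤ τ) (h1 : τ ≤ 1) :
    (1 - τ ^ 2) * F k 1 τ ^ 2 + Rr k τ ^ 2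
        ≤ 1 - (((2 * (k:ℝ) + 1) - 1 / (4 * (k:ℝ) + 1)) / (4 * (k:ℝ) + 1)) * τ ^ 2 := by
  set κ : ℝ := (((2 * (k:ℝ) + 1) - 1 / (4 * (k:ℝ) + 1)) / (4 * (k:ℝ) + 1)) with hκ
  set H : ℝ → ℝ := fun τ => (1 - τ ^ 2) * F k 1 τ ^ 2 + Rr k τ ^ 2 + κ * τ ^ 2 with hH
  have hder : ∀ t : ℝ, HasDerivAt H (2 * Rr k t * ((2 * (k:ℝ) + 1) * F k 1 t + F_bound_D k t) + 2 * κ * t) t := by
    intro t
    have a1 : HasDerivAt (fun t : ℝ => (1 - t ^ 2)) (-(2 * t)) t := by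
      have := (hasDerivAt_pow 2 t).const_sub 1
      simpa using this
    have a2 := (F_bound_dF k t).pow 2
    have a3 := (F_bound_dR k t).pow 2
    have a4 := (hasDerivAt_pow 2 t).const_mul κ
    have a5 := ((a1.mul a2).add a3).add a4
    have hRR : (1 - t ^ 2) * Fs k 1 t - t * F k 1 t = (2 * (k:ℝ) + 1) * Rr k t := by
      rw [Rr]
      have hk : (2 * (k:ℝ) + 1) ≠ 0 := by positivity
      field_simp
    refine a5.congr_deriv ?_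
    simp only [Nat.cast_ofNat, Nat.reduceSub, pow_one, Pi.pow_apply]
    linear_combination (2 * F k 1 t) * hRR
  have hanti : AntitoneOn H (Set.Icc 0 1) := by
    apply antitoneOn_of_deriv_nonpos (convex_Icc 0 1)
    · exact fun t _ => (hder t).continuousAt.continuousWithinAt
    · exact fun t _ => (hder t).differentiableAt.differentiableWithinAt
    · intro t ht
      rw [(hder t).deriv]
      have ht' : 0 < t ∧ t < 1 := by simpa using ht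
      have b1 := F_bound_R_le k t ht'.1.le
      have b2 := F_bound_coef k t
      have hk4 : (0:ℝ) < 4 * (k:ℝ) + 1 := by positivity
      have b3 : 0 ≤ ((2 * (k:ℝ) + 1) - 1 / (4 * (k:ℝ) + 1)) := by
        have : 1 / (4 * (k:ℝ) + 1) ≤ 1 := by
          rw [div_le_one hk4]
          have : (0:ℝ) ≤ k := Nat.cast_nonneg k
          linarith
        have : (0:ℝ) ≤ k := Nat.cast_nonneg k
        linarith
      set A := ((2 * (k:ℝ) + 1) - 1 / (4 * (k:ℝ) + 1))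
      set B := (2 * (k:ℝ) + 1) * F k 1 t + F_bound_D k t
      have b4 : κ * t = A * (t / (4 * (k:ℝ) + 1)) := by rw [hκ]; ring
      have b5 : 0 ≤ t / (4 * (k:ℝ) + 1) := div_nonneg ht'.1.le hk4.le
      nlinarith [mul_le_mul b2 (le_neg_of_le_neg b1) b5 (b3.trans b2)]
  have hfin := hanti (Set.left_mem_Icc.mpr zero_le_one) (Set.mem_Icc.mpr ⟨h0, h1⟩) h0
  have hH0 : H 0 = 1 := by
    have c1 : F k 1 0 = 1 := by
      rw [F_bound_F, Finset.sum_range_succ']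
      simp [fc]
    have c2 : Rr k 0 = 0 := by
      rw [F_bound_R]
      simp
    simp [hH, c1, c2]
  rw [hH0] at hfin
  simp only [hH] at hfin
  linarith

/-- the one variable bound -/
theorem F_bound (k : ℕ) (τ : ℝ) (hτ : τ ^ 2 ≤ 1) :
    (1 - τ ^ 2) * F k 1 τ ^ 2 + Rr k τ ^ 2
        ≤ 1 - (((2 * (k:ℝ) + 1) - 1 / (4 * (k:ℝ) + 1)) / (4 * (k:ℝ) + 1)) * τ ^ 2 ∧
      1 ≤ F k 1 τ ∧ τ * Rr k τ ≤ 0 := by
  refine ⟨?_, F_bound_one k τ, F_bound_tR k τ⟩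
  have habs : |τ| ≤ 1 := by
    rw [← sq_abs] at hτ
    nlinarith [abs_nonneg τ]
  have hm := F_bound_aux k |τ| (abs_nonneg τ) habs
  have eF : F k 1 |τ| = F k 1 τ := by
    rw [F_bound_F, F_bound_F]
    apply Finset.sum_congr rfl
    intro j _
    rw [pow_mul, pow_mul, sq_abs]
  have eR : Rr k |τ| ^ 2 = Rr k τ ^ 2 := by
    rcases abs_cases τ with h | h
    · rw [h.1]
    · rw [h.1]
      have : Rr k (-τ) = - Rr k τ := by
        rw [F_bound_R, F_bound_R, neg_neg, ← Finset.sum_neg_distrib]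
        apply Finset.sum_congr rfl
        intro j _
        have : (-τ) ^ (2 * j + 1) = - τ ^ (2 * j + 1) := by
          rw [Odd.neg_pow ⟨j, by ring⟩]
        rw [this]; ring
      rw [this]; ring
  rw [eF, eR, sq_abs] at hm
  exact hm

end Pool.Agent.Helper608.VF
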