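import Pool.Agent.Helper608.VF.XDefs
set_option autoImplicit false
open Matrix MeasureTheory
open scoped ENNReal ContDiff
namespace Pool.Agent.Helper608.VF


/-- the determinant with the last two rows `r`, `r'` -/
noncomputable def om_normal_D {k : ℕ} (f : Fin (2 * k) → I k → ℝ) (r r' : I k → ℝ) : ℝ :=
  (Matrix.of (Sum.elim f ![r, r']) : Matrix (I k) (I k) ℝ).det

theorem om_normal_upd0 {k : ℕ} (f : Fin (2 * k) → I k → ℝ) (s r r' : I k → ℝ) :
    (Matrix.of (Sum.elim f ![s, r']) : Matrix (I k) (I k) ℝ).updateRow (Sum.inr 0) r =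
      Matrix.of (Sum.elim f ![r, r']) := by
  ext i j
  rcases i with i | i
  · rw [Matrix.updateRow_ne (by simp)]
    rfl
  · fin_cases i
    · change (Matrix.of (Sum.elim f ![s, r']) : Matrix (I k) (I k) ℝ).updateRow (Sum.inr 0) r
        (Sum.inr 0) j = _
      rw [Matrix.updateRow_self]
      rfl
    · rw [Matrix.updateRow_ne (by simp)]
      rfl

theorem om_normal_upd1 {k : ℕ} (f : Fin (2 * k) → I k → ℝ) (s r r' : I k → ℝ) :
    (Matrix.of (Sum.elim f ![r, s]) : Matrix (I k) (I k) ℝ).updateRow (Sum.inr 1) r' =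
      Matrix.of (Sum.elim f ![r, r']) := by
  ext i j
  rcases i with i | i
  · rw [Matrix.updateRow_ne (by simp)]
    rfl
  · fin_cases i
    · rw [Matrix.updateRow_ne (by simp)]
      rfl
    · change (Matrix.of (Sum.elim f ![r, s]) : Matrix (I k) (I k) ℝ).updateRow (Sum.inr 1) r'
        (Sum.inr 1) j = _
      rw [Matrix.updateRow_self]
      rfl

theorem om_normal_D_add_left {k : ℕ} (f : Fin (2 * k) → I k → ℝ) (r s r' : I k → ℝ) (c : ℝ) :
    om_normal_D f (r + c • s) r' = om_normal_D f r r' + c * om_normal_D f s r' := by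
  unfold om_normal_D
  rw [← om_normal_upd0 f 0 (r + c • s) r', Matrix.det_updateRow_add, Matrix.det_updateRow_smul,
    om_normal_upd0, om_normal_upd0]

theorem om_normal_D_add_right {k : ℕ} (f : Fin (2 * k) → I k → ℝ) (r r' s : I k → ℝ) (c : ℝ) :
    om_normal_D f r (r' + c • s) = om_normal_D f r r' + c * om_normal_D f r s := by
  unfold om_normal_D
  rw [← om_normal_upd1 f 0 r (r' + c • s), Matrix.det_updateRow_add, Matrix.det_updateRow_smul,
    om_normal_upd1, om_normal_upd1]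

theorem om_normal_D_self {k : ℕ} (f : Fin (2 * k) → I k → ℝ) (r : I k → ℝ) :
    om_normal_D f r r = 0 := by
  unfold om_normal_D
  refine Matrix.det_zero_of_row_eq (i := Sum.inr 0) (j := Sum.inr 1) (by simp) ?_
  rfl

theorem om_normal_D_swap {k : ℕ} (f : Fin (2 * k) → I k → ℝ) (r r' : I k → ℝ) :
    om_normal_D f r' r = - om_normal_D f r r' := by
  have h1 := om_normal_D_self f (r + (1 : ℝ) • r')
  rw [om_normal_D_add_left, om_normal_D_add_right, om_normal_D_add_right, om_normal_D_self,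
    om_normal_D_self] at h1
  linarith

theorem om_normal_row {k : ℕ} (W : Matrix (I k) (I k) ℝ) (i : I k) (r : I k → ℝ) :
    r ⬝ᵥ (W.adjugate *ᵥ Pi.single i 1) = (W.updateRow i r).det := by
  rw [Matrix.det_eq_sum_mul_adjugate_row (W.updateRow i r) i, Matrix.mulVec_single_one]
  unfold dotProduct
  refine Finset.sum_congr rfl fun j _ => ?_
  rw [Matrix.updateRow_self, Matrix.adjugate_apply (W.updateRow i r), Matrix.updateRow_idem,
    ← Matrix.adjugate_apply W]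
  rfl

theorem om_normal_xn0 (k : ℕ) (t ζ : ℝ) : xn k t ζ (Sum.inr 0) = t := by
  simp [xn]

theorem om_normal_xn1 (k : ℕ) (t ζ : ℝ) : xn k t ζ (Sum.inr 1) = ζ := by
  simp [xn]

/-- expansion of the calibration in the normalised frame -/
theorem om_normal {k : ℕ} (C : Coef k) (t ζ : ℝ) (X Y : Matrix (I k) (I k) ℝ) (hY : ∀ j, Y (Sum.inr 0) j = 0) :
    Om C (xn k t ζ) (Vn k) X Y = ∑ m : Fin (2 * k + 2),
      ((C.a m t ((t ^ 2 + ζ ^ 2) / 2) + C.b m t ((t ^ 2 + ζ ^ 2) / 2)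
          + C.c m t ((t ^ 2 + ζ ^ 2) / 2) * (t + (m:ℝ)))
        * (Matrix.of (Sum.elim (fun j => X (Sum.inl j) + (m:ℝ) • Y (Sum.inl j))
            ![X (Sum.inr 0), X (Sum.inr 1)]) : Matrix (I k) (I k) ℝ).det
      + ((m:ℝ) * (C.a m t ((t ^ 2 + ζ ^ 2) / 2) + C.b m t ((t ^ 2 + ζ ^ 2) / 2)
          + C.c m t ((t ^ 2 + ζ ^ 2) / 2) * (t + (m:ℝ))) + ζ ^ 2 * C.c m t ((t ^ 2 + ζ ^ 2) / 2))
        * (Matrix.of (Sum.elim (fun j => X (Sum.inl j) + (m:ℝ) • Y (Sum.inl j))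
            ![X (Sum.inr 0), Y (Sum.inr 1)]) : Matrix (I k) (I k) ℝ).det
      + ζ * (-(C.b m t ((t ^ 2 + ζ ^ 2) / 2) + C.c m t ((t ^ 2 + ζ ^ 2) / 2) * (t + (m:ℝ))))
        * (Matrix.of (Sum.elim (fun j => X (Sum.inl j) + (m:ℝ) • Y (Sum.inl j))
            ![X (Sum.inr 1), Y (Sum.inr 1)]) : Matrix (I k) (I k) ℝ).det) := by
  have hxV : xn k t ζ ⬝ᵥ Vn k = t := by
    unfold Vn
    rw [dotProduct_single_one, om_normal_xn0]
  have hxx : xn k t ζ ⬝ᵥ xn k t ζ = t ^ 2 + ζ ^ 2 := by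
    conv_lhs => rw [show (xn k t ζ ⬝ᵥ xn k t ζ) = xn k t ζ ⬝ᵥ
      (t • Pi.single (Sum.inr 0) 1 + ζ • Pi.single (Sum.inr 1) 1 : I k → ℝ) from rfl]
    rw [dotProduct_add, dotProduct_smul, dotProduct_smul, dotProduct_single_one,
      dotProduct_single_one, om_normal_xn0, om_normal_xn1, smul_eq_mul, smul_eq_mul]
    ring
  have hdt : Vn k ᵥ* X + xn k t ζ ᵥ* Y = X (Sum.inr 0) + ζ • Y (Sum.inr 1) := by
    have hY0 : Y (Sum.inr 0) = 0 := funext hY
    have e1 : Vn k ᵥ* X = X (Sum.inr 0) := by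
      unfold Vn
      exact Matrix.single_one_vecMul _ _
    have e2 : xn k t ζ ᵥ* Y = ζ • Y (Sum.inr 1) := by
      unfold xn
      rw [Matrix.add_vecMul, Matrix.smul_vecMul, Matrix.smul_vecMul, Matrix.single_one_vecMul,
        Matrix.single_one_vecMul]
      change t • Y (Sum.inr 0) + ζ • Y (Sum.inr 1) = _
      rw [hY0, smul_zero, zero_add]
    rw [e1, e2]
  unfold Om
  rw [hxV, hxx, hdt]
  refine Finset.sum_congr rfl fun m _ => ?_
  obtain ⟨a, ha⟩ : ∃ a, a = C.a m t ((t ^ 2 + ζ ^ 2) / 2) := ⟨_, rfl⟩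
  obtain ⟨b, hb⟩ : ∃ b, b = C.b m t ((t ^ 2 + ζ ^ 2) / 2) := ⟨_, rfl⟩
  obtain ⟨c, hc⟩ : ∃ c, c = C.c m t ((t ^ 2 + ζ ^ 2) / 2) := ⟨_, rfl⟩
  rw [← ha, ← hb, ← hc]
  obtain ⟨f, hf⟩ : ∃ f : Fin (2 * k) → I k → ℝ,
    f = fun j => X (Sum.inl j) + (m:ℝ) • Y (Sum.inl j) := ⟨_, rfl⟩
  have hW : X + (m : ℝ) • Y = Matrix.of (Sum.elim f ![X (Sum.inr 0),
      X (Sum.inr 1) + (m : ℝ) • Y (Sum.inr 1)]) := by
    ext i j
    rcases i with i | i
    · rw [hf]
      rfl
    · fin_cases i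
      · change X (Sum.inr 0) j + (m : ℝ) * Y (Sum.inr 0) j = X (Sum.inr 0) j
        rw [hY]
        ring
      · rfl
  have hy : b • Vn k + c • (xn k t ζ + (m : ℝ) • Vn k) =
      (b + c * (t + m)) • (Pi.single (Sum.inr 0) 1 : I k → ℝ) +
        (c * ζ) • (Pi.single (Sum.inr 1) 1 : I k → ℝ) := by
    unfold Vn xn
    module
  rw [hy, Matrix.mulVec_add, Matrix.mulVec_smul, Matrix.mulVec_smul, dotProduct_add,
    dotProduct_smul, dotProduct_smul, om_normal_row, om_normal_row, hW, om_normal_upd0,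
    om_normal_upd1, ← hf]
  have hD : ∀ r r' : I k → ℝ, (Matrix.of (Sum.elim f ![r, r']) : Matrix (I k) (I k) ℝ).det =
      om_normal_D f r r' := fun r r' => rfl
  simp only [hD, smul_eq_mul]
  rw [om_normal_D_add_right, om_normal_D_add_left, om_normal_D_add_right, om_normal_D_add_right,
    om_normal_D_add_right, om_normal_D_self, om_normal_D_self,
    om_normal_D_swap f (X (Sum.inr 1)) (Y (Sum.inr 1))]
  ring

end Pool.Agent.Helper608.VF
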