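import Pool.Agent.Helper608.VF.XDefs
import Pool.Agent.Helper608.VF.J_p_normal
set_option autoImplicit false
open Matrix MeasureTheory
open scoped ENNReal ContDiff
namespace Pool.Agent.Helper608.VF


/-- determinant with two free rows -/
noncomputable def om_cls_D {k : ℕ} (R : Fin (2 * k) → I k → ℝ) (u v : I k → ℝ) : ℝ :=
  (Matrix.of (Sum.elim R ![u, v]) : Matrix (I k) (I k) ℝ).det

theorem om_cls_up0 {k : ℕ} (R : Fin (2 * k) → I k → ℝ) (u v w : I k → ℝ) :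
    om_cls_D R u v = ((Matrix.of (Sum.elim R ![w, v]) : Matrix (I k) (I k) ℝ).updateRow
      (Sum.inr 0) u).det := by
  unfold om_cls_D
  congr 1
  ext i j
  rcases i with i | i
  · rw [Matrix.updateRow_ne (by simp)]
    rfl
  · fin_cases i
    · rw [Matrix.updateRow_apply]
      simp
    · rw [Matrix.updateRow_apply]
      simp

theorem om_cls_up1 {k : ℕ} (R : Fin (2 * k) → I k → ℝ) (u v w : I k → ℝ) :
    om_cls_D R u v = ((Matrix.of (Sum.elim R ![u, w]) : Matrix (I k) (I k) ℝ).updateRow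
      (Sum.inr 1) v).det := by
  unfold om_cls_D
  congr 1
  ext i j
  rcases i with i | i
  · rw [Matrix.updateRow_ne (by simp)]
    rfl
  · fin_cases i
    · rw [Matrix.updateRow_apply]
      simp
    · rw [Matrix.updateRow_apply]
      simp

theorem om_cls_add0 {k : ℕ} (R : Fin (2 * k) → I k → ℝ) (u u' v : I k → ℝ) :
    om_cls_D R (u + u') v = om_cls_D R u v + om_cls_D R u' v := by
  rw [om_cls_up0 R (u + u') v 0, om_cls_up0 R u v 0, om_cls_up0 R u' v 0, Matrix.det_updateRow_add]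

theorem om_cls_smul0 {k : ℕ} (R : Fin (2 * k) → I k → ℝ) (c : ℝ) (u v : I k → ℝ) :
    om_cls_D R (c • u) v = c * om_cls_D R u v := by
  rw [om_cls_up0 R (c • u) v 0, om_cls_up0 R u v 0, Matrix.det_updateRow_smul]

theorem om_cls_add1 {k : ℕ} (R : Fin (2 * k) → I k → ℝ) (u v v' : I k → ℝ) :
    om_cls_D R u (v + v') = om_cls_D R u v + om_cls_D R u v' := by
  rw [om_cls_up1 R u (v + v') 0, om_cls_up1 R u v 0, om_cls_up1 R u v' 0, Matrix.det_updateRow_add]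

theorem om_cls_smul1 {k : ℕ} (R : Fin (2 * k) → I k → ℝ) (c : ℝ) (u v : I k → ℝ) :
    om_cls_D R u (c • v) = c * om_cls_D R u v := by
  rw [om_cls_up1 R u (c • v) 0, om_cls_up1 R u v 0, Matrix.det_updateRow_smul]

theorem om_cls_self {k : ℕ} (R : Fin (2 * k) → I k → ℝ) (u : I k → ℝ) :
    om_cls_D R u u = 0 := by
  unfold om_cls_D
  refine Matrix.det_zero_of_row_eq (i := Sum.inr 0) (j := Sum.inr 1) (by simp) ?_
  funext j
  rfl

theorem om_cls_anti {k : ℕ} (R : Fin (2 * k) → I k → ℝ) (u v : I k → ℝ) :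
    om_cls_D R u v = - om_cls_D R v u := by
  have h := om_cls_self R (u + v)
  rw [om_cls_add0, om_cls_add1, om_cls_add1, om_cls_self, om_cls_self] at h
  linarith

theorem om_cls_xV {k : ℕ} (t ζ : ℝ) : xn k t ζ ⬝ᵥ Vn k = t := by
  unfold Vn
  rw [dotProduct_single]
  simp [xn]

theorem om_cls_xx {k : ℕ} (t ζ : ℝ) : xn k t ζ ⬝ᵥ xn k t ζ = t ^ 2 + ζ ^ 2 := by
  have h : xn k t ζ ⬝ᵥ xn k t ζ = t * xn k t ζ (Sum.inr 0) + ζ * xn k t ζ (Sum.inr 1) := by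
    conv_lhs => rw [show xn k t ζ ⬝ᵥ xn k t ζ = xn k t ζ ⬝ᵥ (t • Pi.single (Sum.inr 0) 1 + ζ • Pi.single (Sum.inr 1) 1 : I k → ℝ) from rfl]
    rw [dotProduct_add, dotProduct_smul, dotProduct_smul, dotProduct_single, dotProduct_single]
    simp
  rw [h]
  simp [xn]
  ring

theorem om_cls_row {k : ℕ} (t ζ : ℝ) (A : Matrix (I k) (I k) ℝ) (i j : I k) :
    Mm (xn k t ζ) (Vn k) A i j = lam ((t ^ 2 + ζ ^ 2) / 2) * A i j -
      t * (1 : Matrix (I k) (I k) ℝ) i j + xn k t ζ i * (1 : Matrix (I k) (I k) ℝ) (Sum.inr 0) j := by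
  unfold Mm
  rw [om_cls_xx, om_cls_xV]
  simp only [Matrix.add_apply, Matrix.sub_apply, Matrix.smul_apply, smul_eq_mul, vecMulVec_apply]
  congr 2
  unfold Vn
  rw [Matrix.one_apply, Pi.single_apply]
  by_cases h : j = Sum.inr 0
  · subst h; simp
  · rw [if_neg h, if_neg (fun h' => h h'.symm)]

/-- the same in isometric coordinates -/
theorem om_cls {k : ℕ} (C : Coef k) (t ζ : ℝ) (A : Matrix (I k) (I k) ℝ) (hA : ∀ j, A (Sum.inr 0) j = 0)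
    (l : ℝ) (hl : l = lam ((t ^ 2 + ζ ^ 2) / 2)) (M : Matrix (I k) (I k) ℝ) (hM : M = Mm (xn k t ζ) (Vn k) A) :
    Om C (xn k t ζ) (Vn k) 1 A = ∑ m : Fin (2 * k + 2), ∑ i : Fin 3, gg C t ζ m i *
      (Matrix.of (Sum.elim (fun j => (l + (m:ℝ) * t) • (l⁻¹ • (1 : Matrix (I k) (I k) ℝ) (Sum.inl j))
            + (m:ℝ) • (l⁻¹ • M (Sum.inl j)))
          ![(![l⁻¹ • (1 : Matrix (I k) (I k) ℝ) (Sum.inr 0), l⁻¹ • (1 : Matrix (I k) (I k) ℝ) (Sum.inr 1),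
              l⁻¹ • M (Sum.inr 1)] : Fin 3 → I k → ℝ) (i + 1),
            (![l⁻¹ • (1 : Matrix (I k) (I k) ℝ) (Sum.inr 0), l⁻¹ • (1 : Matrix (I k) (I k) ℝ) (Sum.inr 1),
              l⁻¹ • M (Sum.inr 1)] : Fin 3 → I k → ℝ) (i + 2)]) : Matrix (I k) (I k) ℝ).det := by
  have hl0 : 0 < l := by
    rw [hl]; unfold lam; positivity
  have hl1 : l ≠ 0 := hl0.ne'
  rw [om_normal C t ζ 1 A hA]
  refine Finset.sum_congr rfl fun m _ => ?_
  have hrow : (fun j : Fin (2 * k) => (l + (m:ℝ) * t) • (l⁻¹ • (1 : Matrix (I k) (I k) ℝ) (Sum.inl j))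
            + (m:ℝ) • (l⁻¹ • M (Sum.inl j))) =
      fun j => (1 : Matrix (I k) (I k) ℝ) (Sum.inl j) + (m:ℝ) • A (Sum.inl j) := by
    funext j i
    simp only [Pi.add_apply, Pi.smul_apply, smul_eq_mul]
    rw [hM, om_cls_row, ← hl]
    have hx : xn k t ζ (Sum.inl j) = 0 := by simp [xn]
    rw [hx]
    field_simp
    ring
  rw [hrow]
  set R : Fin (2 * k) → I k → ℝ := fun j => (1 : Matrix (I k) (I k) ℝ) (Sum.inl j) + (m:ℝ) • A (Sum.inl j)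
    with hR
  set e0 : I k → ℝ := (1 : Matrix (I k) (I k) ℝ) (Sum.inr 0) with he0
  set e1 : I k → ℝ := (1 : Matrix (I k) (I k) ℝ) (Sum.inr 1) with he1
  set A1 : I k → ℝ := A (Sum.inr 1) with hA1
  have hM1 : M (Sum.inr 1) = l • A1 + ((-t) • e1 + ζ • e0) := by
    funext i
    simp only [Pi.add_apply, Pi.smul_apply, smul_eq_mul]
    rw [hM, om_cls_row, ← hl]
    have hx : xn k t ζ (Sum.inr 1) = ζ := by simp [xn]
    rw [hx, he0, he1, hA1]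
    ring
  rw [Fin.sum_univ_three]
  show _ = gg C t ζ m 0 * om_cls_D R (l⁻¹ • e1) (l⁻¹ • M (Sum.inr 1)) +
    gg C t ζ m 1 * om_cls_D R (l⁻¹ • M (Sum.inr 1)) (l⁻¹ • e0) +
    gg C t ζ m 2 * om_cls_D R (l⁻¹ • e0) (l⁻¹ • e1)
  have hD01 : (Matrix.of (Sum.elim R ![e0, e1]) : Matrix (I k) (I k) ℝ).det = om_cls_D R e0 e1 := rfl
  have hD0A : (Matrix.of (Sum.elim R ![e0, A1]) : Matrix (I k) (I k) ℝ).det = om_cls_D R e0 A1 := rfl
  have hD1A : (Matrix.of (Sum.elim R ![e1, A1]) : Matrix (I k) (I k) ℝ).det = om_cls_D R e1 A1 := rfl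
  rw [hD01, hD0A, hD1A, hM1]
  simp only [om_cls_smul0, om_cls_smul1, om_cls_add0, om_cls_add1, om_cls_self]
  rw [om_cls_anti R e1 e0, om_cls_anti R A1 e0]
  have g0 : gg C t ζ m 0 = lam ((t ^ 2 + ζ ^ 2) / 2) * ζ * (-(C.b m t ((t ^ 2 + ζ ^ 2) / 2) + C.c m t ((t ^ 2 + ζ ^ 2) / 2) * (t + (m:ℝ)))) := rfl
  have g1 : gg C t ζ m 1 = -(lam ((t ^ 2 + ζ ^ 2) / 2) * ((m:ℝ) * (C.a m t ((t ^ 2 + ζ ^ 2) / 2) + C.b m t ((t ^ 2 + ζ ^ 2) / 2)
        + C.c m t ((t ^ 2 + ζ ^ 2) / 2) * (t + (m:ℝ))) + ζ ^ 2 * C.c m t ((t ^ 2 + ζ ^ 2) / 2))) := rfl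
  have g2 : gg C t ζ m 2 = lam ((t ^ 2 + ζ ^ 2) / 2) ^ 2 * (C.a m t ((t ^ 2 + ζ ^ 2) / 2) + C.b m t ((t ^ 2 + ζ ^ 2) / 2)
        + C.c m t ((t ^ 2 + ζ ^ 2) / 2) * (t + (m:ℝ)))
      + lam ((t ^ 2 + ζ ^ 2) / 2) * t * ((m:ℝ) * (C.a m t ((t ^ 2 + ζ ^ 2) / 2) + C.b m t ((t ^ 2 + ζ ^ 2) / 2)
        + C.c m t ((t ^ 2 + ζ ^ 2) / 2) * (t + (m:ℝ))) + ζ ^ 2 * C.c m t ((t ^ 2 + ζ ^ 2) / 2))
      + lam ((t ^ 2 + ζ ^ 2) / 2) * ζ ^ 2 * (-(C.b m t ((t ^ 2 + ζ ^ 2) / 2) + C.c m t ((t ^ 2 + ζ ^ 2) / 2) * (t + (m:ℝ)))) := rfl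
  rw [g0, g1, g2, ← hl]
  field_simp
  ring

end Pool.Agent.Helper608.VF
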