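import Pool.Agent.Helper608.VF.XDefs
set_option autoImplicit false
open Matrix MeasureTheory
open scoped ENNReal ContDiff
namespace Pool.Agent.Helper608.VF



theorem gg_diag_euler (k : ℕ) (τ : ℝ) : 2 * Fq k 1 τ + τ * Fs k 1 τ = 2 * (k:ℝ) * F k 1 τ := by
  unfold Fq Fs F
  rw [Finset.mul_sum, Finset.mul_sum, Finset.mul_sum, ← Finset.sum_add_distrib]
  apply Finset.sum_congr rfl
  intro j hj
  have hjk : j ≤ k := by
    have := Finset.mem_range.mp hj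
    omega
  rw [Nat.cast_sub hjk]
  simp only [one_pow, mul_one]
  rcases j with _ | j
  · simp
    ring
  · have e1 : 2 * (j + 1) - 1 = 2 * j + 1 := by omega
    have e2 : 2 * (j + 1) = (2 * j + 1) + 1 := by ring
    rw [e1, e2, pow_succ τ (2 * j + 1)]
    push_cast
    ring

/-- the diagonal values of the calibration -/
theorem gg_diag {k : ℕ} (C : Coef k) (t ζ p q : ℝ) (h : p ^ 2 + q ^ 2 = 1) (l e : ℝ)
    (hl : l = lam ((t ^ 2 + ζ ^ 2) / 2)) (he : e = ell ((t ^ 2 + ζ ^ 2) / 2)) :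
    ∑ m : Fin (2 * k + 2), gg C t ζ m 0 * ((l + (m:ℝ) * t) * p + (m:ℝ) * q) ^ (2 * k)
      = -(ζ * e * F k 1 (e * (t * p + q))) ∧
    ∑ m : Fin (2 * k + 2), gg C t ζ m 1 * ((l + (m:ℝ) * t) * p + (m:ℝ) * q) ^ (2 * k)
      = -(q * (e * (p - t * q)) * F k 1 (e * (t * p + q)) + p * Rr k (e * (t * p + q))) ∧
    ∑ m : Fin (2 * k + 2), gg C t ζ m 2 * ((l + (m:ℝ) * t) * p + (m:ℝ) * q) ^ (2 * k)
      = p * (e * (p - t * q)) * F k 1 (e * (t * p + q)) - q * Rr k (e * (t * p + q)) := by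
  have hR : -1 / 2 < (t ^ 2 + ζ ^ 2) / 2 := by nlinarith [sq_nonneg t, sq_nonneg ζ]
  have hl2 : 2 * l = 1 + t ^ 2 + ζ ^ 2 := by rw [hl]; unfold lam; ring
  have hlpos : 0 < l := by nlinarith [sq_nonneg t, sq_nonneg ζ]
  have hlne : l ≠ 0 := ne_of_gt hlpos
  have he2 : e ^ 2 * (1 + t ^ 2 + ζ ^ 2) = 1 := by
    rw [he]
    unfold ell
    rw [← hl, inv_pow, Real.sq_sqrt (by positivity), hl2]
    have : (1 + t ^ 2 + ζ ^ 2) ≠ 0 := by positivity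
    field_simp
  have hX : ∀ m : Fin (2 * k + 2), ((l + (m:ℝ) * t) * p + (m:ℝ) * q) ^ (2 * k) =
      (l * p + (m:ℝ) * (t * p + q)) ^ (2 * k) := by
    intro m
    congr 1
    ring
  have hRt : 2 * ((t ^ 2 + ζ ^ 2) / 2) - t ^ 2 = ζ ^ 2 := by ring
  have hE := C.pE t _ hR (l * p) (t * p + q)
  have hF := C.pF t _ hR (l * p) (t * p + q)
  have hH := C.pH t _ hR (l * p) (t * p + q)
  rw [hRt] at hE hF
  have hQ : Q t ((t ^ 2 + ζ ^ 2) / 2) (l * p) (t * p + q) = 1 := by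
    unfold Q
    rw [← hl]
    field_simp
    linear_combination h
  have hQa : Qa t ((t ^ 2 + ζ ^ 2) / 2) (l * p) (t * p + q) = 2 / l * (p - t * q) := by
    unfold Qa
    rw [← hl]
    field_simp
    ring
  have hQb : Qb t ((t ^ 2 + ζ ^ 2) / 2) (l * p) (t * p + q) = 2 * q := by
    unfold Qb
    rw [← hl]
    field_simp
    ring
  have hKa : Kaf k t ((t ^ 2 + ζ ^ 2) / 2) (l * p) (t * p + q) =
      e / (2 * (2 * k + 1)) * (Fq k 1 (e * (t * p + q)) * (2 / l * (p - t * q)) ^ 2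
        + F k 1 (e * (t * p + q)) * (2 * (1 + t ^ 2) / l ^ 2)) := by
    unfold Kaf
    rw [hQ, hQa, ← hl, ← he]
  have hKb : Kbf k t ((t ^ 2 + ζ ^ 2) / 2) (l * p) (t * p + q) =
      e / (2 * (2 * k + 1)) * ((Fq k 1 (e * (t * p + q)) * (2 * q)
        + e * Fs k 1 (e * (t * p + q))) * (2 / l * (p - t * q))
        - F k 1 (e * (t * p + q)) * (2 * t / l)) := by
    unfold Kbf
    rw [hQ, hQa, hQb, ← hl, ← he]
  have hEf : Ef k t ((t ^ 2 + ζ ^ 2) / 2) (l * p) (t * p + q) =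
      e * F k 1 (e * (t * p + q)) / l ^ 2
        - e ^ 2 * (t * p + q) * Fs k 1 (e * (t * p + q)) / ((2 * k + 1) * l ^ 2) := by
    unfold Ef
    rw [hQ, ← hl, ← he]
  have hFf : Ff k t ((t ^ 2 + ζ ^ 2) / 2) (l * p) (t * p + q) =
      e ^ 2 * (l * p) * Fs k 1 (e * (t * p + q)) / ((2 * k + 1) * l ^ 2) := by
    unfold Ff
    rw [hQ, ← hl, ← he]
  have hHf : Hf k t ((t ^ 2 + ζ ^ 2) / 2) (l * p) (t * p + q) =
      -(e / l) * F k 1 (e * (t * p + q)) := by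
    unfold Hf
    rw [hQ, ← hl, ← he]
  rw [hKa, hEf] at hE
  rw [hKb, hFf] at hF
  rw [hHf] at hH
  have hEu := gg_diag_euler k (e * (t * p + q))
  have hN : (2 * (k:ℝ) + 1) ≠ 0 := by positivity
  have e0 : ∑ m : Fin (2 * k + 2), gg C t ζ m 0 * ((l + (m:ℝ) * t) * p + (m:ℝ) * q) ^ (2 * k)
      = l * ζ * (-(e / l) * F k 1 (e * (t * p + q))) := by
    rw [← hH, Finset.mul_sum]
    apply Finset.sum_congr rfl
    intro m _
    rw [hX m]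
    have : gg C t ζ m 0 = lam ((t ^ 2 + ζ ^ 2) / 2) * ζ * (-(C.b m t ((t ^ 2 + ζ ^ 2) / 2) + C.c m t ((t ^ 2 + ζ ^ 2) / 2) * (t + (m:ℝ)))) := rfl
    rw [this, ← hl]
    ring
  have e1 : ∑ m : Fin (2 * k + 2), gg C t ζ m 1 * ((l + (m:ℝ) * t) * p + (m:ℝ) * q) ^ (2 * k)
      = -l * (e / (2 * (2 * k + 1)) * ((Fq k 1 (e * (t * p + q)) * (2 * q)
        + e * Fs k 1 (e * (t * p + q))) * (2 / l * (p - t * q))
        - F k 1 (e * (t * p + q)) * (2 * t / l)) + ζ ^ 2 * (e ^ 2 * (l * p) * Fs k 1 (e * (t * p + q)) / ((2 * k + 1) * l ^ 2))) := by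
    rw [← hF, Finset.mul_sum]
    apply Finset.sum_congr rfl
    intro m _
    rw [hX m]
    have : gg C t ζ m 1 = -(lam ((t ^ 2 + ζ ^ 2) / 2) * ((m:ℝ) * (C.a m t ((t ^ 2 + ζ ^ 2) / 2) + C.b m t ((t ^ 2 + ζ ^ 2) / 2)
        + C.c m t ((t ^ 2 + ζ ^ 2) / 2) * (t + (m:ℝ))) + ζ ^ 2 * C.c m t ((t ^ 2 + ζ ^ 2) / 2))) := rfl
    rw [this, ← hl]
    ring
  have e2 : ∑ m : Fin (2 * k + 2), gg C t ζ m 2 * ((l + (m:ℝ) * t) * p + (m:ℝ) * q) ^ (2 * k)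
      = l ^ 2 * (e / (2 * (2 * k + 1)) * (Fq k 1 (e * (t * p + q)) * (2 / l * (p - t * q)) ^ 2
        + F k 1 (e * (t * p + q)) * (2 * (1 + t ^ 2) / l ^ 2)) + ζ ^ 2 * (e * F k 1 (e * (t * p + q)) / l ^ 2
        - e ^ 2 * (t * p + q) * Fs k 1 (e * (t * p + q)) / ((2 * k + 1) * l ^ 2)))
        + l * t * (e / (2 * (2 * k + 1)) * ((Fq k 1 (e * (t * p + q)) * (2 * q)
        + e * Fs k 1 (e * (t * p + q))) * (2 / l * (p - t * q))
        - F k 1 (e * (t * p + q)) * (2 * t / l)) + ζ ^ 2 * (e ^ 2 * (l * p) * Fs k 1 (e * (t * p + q)) / ((2 * k + 1) * l ^ 2)))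
        + l * ζ ^ 2 * (-(e / l) * F k 1 (e * (t * p + q))) := by
    rw [← hE, ← hF, ← hH, Finset.mul_sum, Finset.mul_sum, Finset.mul_sum,
      ← Finset.sum_add_distrib, ← Finset.sum_add_distrib]
    apply Finset.sum_congr rfl
    intro m _
    rw [hX m]
    have : gg C t ζ m 2 = lam ((t ^ 2 + ζ ^ 2) / 2) ^ 2 * (C.a m t ((t ^ 2 + ζ ^ 2) / 2) + C.b m t ((t ^ 2 + ζ ^ 2) / 2)
        + C.c m t ((t ^ 2 + ζ ^ 2) / 2) * (t + (m:ℝ)))
      + lam ((t ^ 2 + ζ ^ 2) / 2) * t * ((m:ℝ) * (C.a m t ((t ^ 2 + ζ ^ 2) / 2) + C.b m t ((t ^ 2 + ζ ^ 2) / 2)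
        + C.c m t ((t ^ 2 + ζ ^ 2) / 2) * (t + (m:ℝ))) + ζ ^ 2 * C.c m t ((t ^ 2 + ζ ^ 2) / 2))
      + lam ((t ^ 2 + ζ ^ 2) / 2) * ζ ^ 2 * (-(C.b m t ((t ^ 2 + ζ ^ 2) / 2) + C.c m t ((t ^ 2 + ζ ^ 2) / 2) * (t + (m:ℝ)))) := rfl
    rw [this, ← hl]
    ring
  rw [e0, e1, e2]
  unfold Rr
  generalize F k 1 (e * (t * p + q)) = Fv at hEu ⊢
  generalize Fs k 1 (e * (t * p + q)) = Fsv at hEu ⊢
  generalize Fq k 1 (e * (t * p + q)) = Fqv at hEu ⊢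
  refine ⟨?_, ?_, ?_⟩
  · field_simp
  · have g1 : -l * (e / (2 * (2 * (k:ℝ) + 1)) * ((Fqv * (2 * q) + e * Fsv) * (2 / l * (p - t * q))
        - Fv * (2 * t / l)) + ζ ^ 2 * (e ^ 2 * (l * p) * Fsv / ((2 * k + 1) * l ^ 2))) =
        -(e * (2 * q * Fqv + e * Fsv) * (p - t * q) - e * t * Fv + ζ ^ 2 * e ^ 2 * p * Fsv) / (2 * k + 1) := by
      field_simp
    rw [g1]
    rw [div_eq_iff hN]
    have g2 : -(q * (e * (p - t * q)) * Fv + p * (((1 - (e * (t * p + q)) ^ 2) * Fsv - e * (t * p + q) * Fv) / (2 * (k:ℝ) + 1))) * (2 * k + 1) =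
        -((2 * (k:ℝ) + 1) * (q * (e * (p - t * q)) * Fv) + p * ((1 - (e * (t * p + q)) ^ 2) * Fsv - e * (t * p + q) * Fv)) := by
      field_simp
    rw [g2]
    linear_combination (-(e * q * (p - t * q))) * hEu - (e * t * Fv + Fsv * e ^ 2 * (t * p + q) * t) * h - Fsv * p * he2
  · have g1 : l ^ 2 * (e / (2 * (2 * (k:ℝ) + 1)) * (Fqv * (2 / l * (p - t * q)) ^ 2
        + Fv * (2 * (1 + t ^ 2) / l ^ 2)) + ζ ^ 2 * (e * Fv / l ^ 2
        - e ^ 2 * (t * p + q) * Fsv / ((2 * k + 1) * l ^ 2)))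
        + l * t * (e / (2 * (2 * k + 1)) * ((Fqv * (2 * q)
        + e * Fsv) * (2 / l * (p - t * q))
        - Fv * (2 * t / l)) + ζ ^ 2 * (e ^ 2 * (l * p) * Fsv / ((2 * k + 1) * l ^ 2)))
        + l * ζ ^ 2 * (-(e / l) * Fv) =
        (2 * e * Fqv * p * (p - t * q) + e * Fv + t * e ^ 2 * Fsv * (p - t * q) - ζ ^ 2 * e ^ 2 * q * Fsv) / (2 * k + 1) := by
      field_simp
      ring
    rw [g1]
    rw [div_eq_iff hN]
    have g2 : (p * (e * (p - t * q)) * Fv - q * (((1 - (e * (t * p + q)) ^ 2) * Fsv - e * (t * p + q) * Fv) / (2 * (k:ℝ) + 1))) * (2 * k + 1) =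
        (2 * (k:ℝ) + 1) * (p * (e * (p - t * q)) * Fv) - q * ((1 - (e * (t * p + q)) ^ 2) * Fsv - e * (t * p + q) * Fv) := by
      field_simp
    rw [g2]
    linear_combination (e * p * (p - t * q)) * hEu - (e * Fv + Fsv * e ^ 2 * (t * p + q)) * h - Fsv * q * he2

end Pool.Agent.Helper608.VF
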