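import Pool.Agent.Helper608.VF.XDefs
set_option autoImplicit false
open Matrix MeasureTheory
open scoped ENNReal ContDiff
namespace Pool.Agent.Helper608.VF


theorem gram_normal_xx {k : ℕ} (t ζ : ℝ) : xn k t ζ ⬝ᵥ xn k t ζ = t ^ 2 + ζ ^ 2 := by
  simp only [dotProduct, Fintype.sum_sum_type, Fin.sum_univ_two]
  simp [xn, Pi.single_apply]
  ring

theorem gram_normal_xv {k : ℕ} (t ζ : ℝ) : xn k t ζ ⬝ᵥ Vn k = t := by
  simp only [dotProduct, Fintype.sum_sum_type, Fin.sum_univ_two]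
  simp [xn, Vn, Pi.single_apply]

theorem gram_normal_pos {n : Type*} [Fintype n] [DecidableEq n] (M : Matrix n n ℝ) :
    0 < (1 + Mᵀ * M).det := by
  have h1 : (Mᵀ * M).PosSemidef := by
    have := Matrix.posSemidef_conjTranspose_mul_self M
    rwa [Matrix.conjTranspose_eq_transpose_of_trivial] at this
  have h2 : (1 + Mᵀ * M).PosDef := Matrix.PosDef.one.add_posSemidef h1
  exact h2.det_pos

/-- the Gram matrix in isometric coordinates -/
theorem gram_normal {k : ℕ} (t ζ : ℝ) (A : Matrix (I k) (I k) ℝ) (hA : ∀ j, A (Sum.inr 0) j = 0)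
    (l : ℝ) (hl : l = lam ((t ^ 2 + ζ ^ 2) / 2)) (M : Matrix (I k) (I k) ℝ) (hM : M = Mm (xn k t ζ) (Vn k) A)
    (X Y : Matrix (Fin (2 * k)) (I k) ℝ) (Z : Matrix (Fin 3) (I k) ℝ)
    (hX : X = fun j => l⁻¹ • (1 : Matrix (I k) (I k) ℝ) (Sum.inl j))
    (hY : Y = fun j => l⁻¹ • M (Sum.inl j))
    (hZ : Z = ![l⁻¹ • (1 : Matrix (I k) (I k) ℝ) (Sum.inr 0), l⁻¹ • (1 : Matrix (I k) (I k) ℝ) (Sum.inr 1),
              l⁻¹ • M (Sum.inr 1)]) :
    Real.sqrt (Xᵀ * X + Yᵀ * Y + Zᵀ * Z).det = dens (xn k t ζ) (Vn k) A ∧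
      0 < (Xᵀ * X + Yᵀ * Y + Zᵀ * Z).det := by
  have hl0 : 0 < l := by rw [hl, lam]; positivity
  have hM0 : ∀ j, M (Sum.inr 0) j = 0 := by
    intro j
    rw [hM, Mm, gram_normal_xv]
    simp only [Matrix.add_apply, Matrix.sub_apply, Matrix.smul_apply, smul_eq_mul, hA j,
      Matrix.vecMulVec_apply, mul_zero, zero_sub]
    have hx0 : xn k t ζ (Sum.inr 0) = t := by simp [xn, Pi.single_apply]
    rw [hx0, Vn, Matrix.one_apply, Pi.single_apply]
    by_cases h : j = Sum.inr 0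
    · rw [if_pos h, if_pos h.symm]; ring
    · rw [if_neg h, if_neg (Ne.symm h)]; ring
  have hG : Xᵀ * X + Yᵀ * Y + Zᵀ * Z = (l⁻¹ ^ 2) • (1 + Mᵀ * M) := by
    ext i j
    have h1 : (1 : Matrix (I k) (I k) ℝ) i j =
        ∑ r : I k, (1 : Matrix (I k) (I k) ℝ) r i * (1 : Matrix (I k) (I k) ℝ) r j := by
      have : (1 : Matrix (I k) (I k) ℝ) = (1 : Matrix (I k) (I k) ℝ)ᵀ * 1 := by simp
      conv_lhs => rw [this]
      rw [Matrix.mul_apply]
      rfl
    simp only [Matrix.add_apply, Matrix.smul_apply, Matrix.mul_apply, Matrix.transpose_apply,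
      smul_eq_mul]
    rw [h1]
    simp only [Fintype.sum_sum_type, Fin.sum_univ_two, Fin.sum_univ_three, hM0, hX, hY, hZ,
      Pi.smul_apply, smul_eq_mul, Matrix.cons_val_zero, Matrix.cons_val_one, Matrix.cons_val]
    have e1 : ∀ f g : Fin (2 * k) → ℝ, ∑ x, l⁻¹ * f x * (l⁻¹ * g x) = l⁻¹ ^ 2 * ∑ x, f x * g x := by
      intro f g
      rw [Finset.mul_sum]
      exact Finset.sum_congr rfl fun x _ => by ring
    rw [e1, e1]
    ring
  have hcard : Fintype.card (I k) = 2 * k + 2 := by simp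
  have hdet : (Xᵀ * X + Yᵀ * Y + Zᵀ * Z).det = (l⁻¹ ^ (2 * k + 2)) ^ 2 * (1 + Mᵀ * M).det := by
    rw [hG, Matrix.det_smul, hcard]
    ring
  have hpos := gram_normal_pos M
  constructor
  · rw [hdet, Real.sqrt_mul (by positivity), Real.sqrt_sq (by positivity), dens, gram_normal_xx, ← hl,
      ← hM]
    rw [inv_pow]
    field_simp
  · rw [hdet]
    positivity

end Pool.Agent.Helper608.VF
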