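import Pool.Agent.Helper608.VF.XDefs
import Pool.Agent.Helper608.VF.J_comass_top
import Pool.Agent.Helper608.VF.J_p_Fb
import Pool.Agent.Helper608.VF.J_p_cls
import Pool.Agent.Helper608.VF.J_p_diag
import Pool.Agent.Helper608.VF.J_p_gram
set_option autoImplicit false
open Matrix MeasureTheory
open scoped ENNReal ContDiff
namespace Pool.Agent.Helper608.VF


theorem om_le_normal_diag {k : ℕ} (C : Coef k) (t ζ : ℝ) (p q : ℝ) (h : p ^ 2 + q ^ 2 = 1) :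
    ∑ i : Fin 3, (∑ m : Fin (2 * k + 2), gg C t ζ m i *
      ((lam ((t ^ 2 + ζ ^ 2) / 2) + (m:ℝ) * t) * p + (m:ℝ) * q) ^ (2 * k)) ^ 2 ≤ 1 := by
  obtain ⟨e, he⟩ : ∃ e, e = ell ((t ^ 2 + ζ ^ 2) / 2) := ⟨_, rfl⟩
  obtain ⟨h0, h1, h2⟩ := gg_diag C t ζ p q h _ e rfl he
  rw [Fin.sum_univ_three, h0, h1, h2]
  have hD : 0 < 1 + t ^ 2 + ζ ^ 2 := by positivity
  have he2 : e ^ 2 * (1 + t ^ 2 + ζ ^ 2) = 1 := by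
    rw [he]
    unfold ell lam
    have e1 : 2 * (1 / 2 + (t ^ 2 + ζ ^ 2) / 2) = 1 + t ^ 2 + ζ ^ 2 := by ring
    rw [e1, inv_pow, Real.sq_sqrt hD.le]
    exact inv_mul_cancel₀ hD.ne'
  obtain ⟨τ, hτ⟩ : ∃ τ, τ = e * (t * p + q) := ⟨_, rfl⟩
  obtain ⟨g, hg⟩ : ∃ g, g = e * (p - t * q) := ⟨_, rfl⟩
  rw [← hτ, ← hg]
  have hk : g ^ 2 + ζ ^ 2 * e ^ 2 = 1 - τ ^ 2 := by
    rw [hτ, hg]
    linear_combination he2 + e ^ 2 * (1 + t ^ 2) * h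
  have hτ1 : τ ^ 2 ≤ 1 := by
    have : 0 ≤ g ^ 2 + ζ ^ 2 * e ^ 2 := by positivity
    linarith
  obtain ⟨hF, -, -⟩ := F_bound k τ hτ1
  have hkap : 0 ≤ ((2 * (k:ℝ) + 1) - 1 / (4 * (k:ℝ) + 1)) / (4 * (k:ℝ) + 1) := by
    have hk0 : (0:ℝ) ≤ k := Nat.cast_nonneg k
    have h3 : 1 / (4 * (k:ℝ) + 1) ≤ 1 := by
      rw [div_le_one (by positivity)]
      linarith
    apply div_nonneg _ (by positivity)
    linarith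
  have hle : 1 - (((2 * (k:ℝ) + 1) - 1 / (4 * (k:ℝ) + 1)) / (4 * (k:ℝ) + 1)) * τ ^ 2 ≤ 1 := by
    have := mul_nonneg hkap (sq_nonneg τ)
    linarith
  refine le_trans (le_of_eq ?_) (hF.trans hle)
  rw [← hk]
  linear_combination (g ^ 2 * F k 1 τ ^ 2 + Rr k τ ^ 2) * h

theorem om_le_normal {k : ℕ} (C : Coef k) (t ζ : ℝ) (A : Matrix (I k) (I k) ℝ) (hA : ∀ j, A (Sum.inr 0) j = 0) :
    |Om C (xn k t ζ) (Vn k) 1 A| ≤ dens (xn k t ζ) (Vn k) A := by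
  have hcl := om_cls C t ζ A hA _ rfl _ rfl
  have hgram := gram_normal t ζ A hA _ rfl _ rfl _ _ _ rfl rfl rfl
  rw [hcl, ← hgram.1]
  exact comass k (fun m : Fin (2 * k + 2) => lam ((t ^ 2 + ζ ^ 2) / 2) + (m:ℝ) * t)
    (fun m => (m:ℝ)) (gg C t ζ) (fun p q h => om_le_normal_diag C t ζ p q h)
    (fun j => (lam ((t ^ 2 + ζ ^ 2) / 2))⁻¹ • (1 : Matrix (I k) (I k) ℝ) (Sum.inl j))
    (fun j => (lam ((t ^ 2 + ζ ^ 2) / 2))⁻¹ • (Mm (xn k t ζ) (Vn k) A) (Sum.inl j))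
    ![(lam ((t ^ 2 + ζ ^ 2) / 2))⁻¹ • (1 : Matrix (I k) (I k) ℝ) (Sum.inr 0),
      (lam ((t ^ 2 + ζ ^ 2) / 2))⁻¹ • (1 : Matrix (I k) (I k) ℝ) (Sum.inr 1),
      (lam ((t ^ 2 + ζ ^ 2) / 2))⁻¹ • (Mm (xn k t ζ) (Vn k) A) (Sum.inr 1)]

end Pool.Agent.Helper608.VF
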