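import Pool.Agent.Helper608.VF.XDefs
import Pool.Agent.Helper608.VF.J_p_alg
import Pool.Agent.Helper608.VF.J_p_frame
import Pool.Agent.Helper608.VF.J_p_len
set_option autoImplicit false
open Matrix MeasureTheory
open scoped ENNReal ContDiff
namespace Pool.Agent.Helper608.VF


/-- CALIBRATION INEQUALITY -/
theorem om_le {k : ℕ} (C : Coef k) (x V : I k → ℝ) (hV : V ⬝ᵥ V = 1) (A : Matrix (I k) (I k) ℝ) (hA : V ᵥ* A = 0) :
    |Om C x V 1 A| ≤ dens x V A := by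
  obtain ⟨O, hO, hOV, ζ, hζ, hOx⟩ := frame x V hV
  rw [← om_equiv C x V A O hO, ← dens_equiv x V A O hO, hOV, hOx]
  apply om_le_normal
  intro j
  have h1 : Vn k ᵥ* (O * A * Oᵀ) = 0 := by
    rw [← hOV, ← Matrix.vecMul_transpose, Matrix.vecMul_vecMul]
    have h2 : Oᵀ * (O * A * Oᵀ) = A * Oᵀ := by
      rw [← Matrix.mul_assoc, ← Matrix.mul_assoc, hO, Matrix.one_mul]
    rw [h2, ← Matrix.vecMul_vecMul, hA, Matrix.zero_vecMul]
  have h3 : (Vn k ᵥ* (O * A * Oᵀ)) j = (O * A * Oᵀ) (Sum.inr 0) j := by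
    unfold Vn
    rw [Matrix.single_one_vecMul]
    rfl
  rw [← h3, h1]
  rfl

end Pool.Agent.Helper608.VF
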