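import Pool.Agent.Helper608.VF.XDefs
import Pool.Agent.Helper608.VF.J_a_flux
import Pool.Agent.Helper608.VF.J_a_jm
import Pool.Agent.Helper608.VF.J_a_scale
import Pool.Agent.Helper608.VF.J_p_le
set_option autoImplicit false
open Matrix MeasureTheory
open scoped ENNReal ContDiff
open Filter Topology
namespace Pool.Agent.Helper608.VF


theorem J_bound_dot {k : ℕ} (x : E k) : x.ofLp ⬝ᵥ x.ofLp = ‖x‖ ^ 2 := by
  rw [EuclideanSpace.norm_sq_eq]
  unfold dotProduct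
  refine Finset.sum_congr rfl fun i _ => ?_
  rw [Real.norm_eq_abs, sq_abs]
  ring

theorem J_bound_dE_nonneg {k : ℕ} (v : E k → E k) (z : E k) : 0 ≤ dE v z := by
  unfold dE dens lam
  have : 0 ≤ z.ofLp ⬝ᵥ z.ofLp := by rw [J_bound_dot]; positivity
  positivity

theorem J_bound {k : ℕ} (C : Coef k) (v : E k → E k) (hv : ContDiff ℝ ∞ v) (h1 : ∀ z, ‖v z‖ = 1)
    (hI : Integrable (dE v)) (B L : ℝ) (ρ : E k → ℝ) (hρ0 : Continuous ρ)
    (hρ : ∀ z, |ρ z| * ‖z‖ ^ 2 ≤ B / L) (hρ1 : ∀ z, ρ z ≠ 0 → 1 ≤ ‖z‖) (s : ℝ) (hs : 0 < s) (hs1 : s ≤ 1) :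
    |∫ z, ρ z * ∑ j, z j * Fx C v s j z| ≤ B / L * (2 ^ (2 * k + 2) * 3 ^ (k + 1)) * ∫ z, dE v z := by
  have key : ∀ z, ‖ρ z * ∑ j, z j * Fx C v s j z‖ ≤
      B / L * (2 ^ (2 * k + 2) * 3 ^ (k + 1)) * dE v z := by
    intro z
    have hBL : 0 ≤ B / L := le_trans (by positivity) (hρ z)
    have hd := J_bound_dE_nonneg v z
    by_cases h0 : ρ z = 0
    · rw [h0, zero_mul, norm_zero]; positivity
    · have hz1 := hρ1 z h0
      have hz : z ≠ 0 := by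
        rintro rfl
        rw [norm_zero] at hz1
        linarith
      rw [flux_radial C v s hs z hz]
      have hV : (v z).ofLp ⬝ᵥ (v z).ofLp = 1 := by rw [J_bound_dot, h1]; norm_num
      have hA : (v z).ofLp ᵥ* Jm v z = 0 := Jm_perp v hv h1 z
      have hA' : (v z).ofLp ᵥ*
          (s • (Jm v z * (1 - (z.ofLp ⬝ᵥ z.ofLp)⁻¹ • vecMulVec z.ofLp z.ofLp))) = 0 := by
        rw [Matrix.vecMul_smul, ← Matrix.vecMul_vecMul, hA, Matrix.zero_vecMul, smul_zero]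
      have h2 := om_le C (s⁻¹ • z.ofLp) (v z).ofLp hV _ hA'
      have h3 := dens_scale z.ofLp (v z).ofLp hV (Jm v z) hA s hs hs1 (by
        rw [J_bound_dot]; nlinarith)
      rw [norm_mul, norm_mul, Real.norm_eq_abs, norm_neg, Real.norm_eq_abs, Real.norm_eq_abs,
        abs_mul (((s⁻¹) ^ (2 * k + 2) : ℝ))]
      have hp : 0 ≤ (s⁻¹) ^ (2 * k + 2) := by positivity
      rw [abs_of_nonneg hp, abs_of_nonneg (show 0 ≤ ‖z‖ ^ 2 / s by positivity)]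
      have h4 : (s⁻¹) ^ (2 * k + 2) * |Om C (s⁻¹ • z.ofLp) (v z).ofLp 1
          (s • (Jm v z * (1 - (z.ofLp ⬝ᵥ z.ofLp)⁻¹ • vecMulVec z.ofLp z.ofLp)))| ≤
          s * (2 ^ (2 * k + 2) * 3 ^ (k + 1) * dE v z) :=
        le_trans (mul_le_mul_of_nonneg_left h2 hp) h3
      have h5 : ‖z‖ ^ 2 / s * ((s⁻¹) ^ (2 * k + 2) * |Om C (s⁻¹ • z.ofLp) (v z).ofLp 1
          (s • (Jm v z * (1 - (z.ofLp ⬝ᵥ z.ofLp)⁻¹ • vecMulVec z.ofLp z.ofLp)))|) ≤
          ‖z‖ ^ 2 * (2 ^ (2 * k + 2) * 3 ^ (k + 1) * dE v z) := by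
        refine le_trans (mul_le_mul_of_nonneg_left h4 (by positivity)) (le_of_eq ?_)
        field_simp
      refine le_trans (mul_le_mul_of_nonneg_left h5 (abs_nonneg _)) ?_
      have h6 := mul_le_mul_of_nonneg_right (hρ z)
        (show 0 ≤ 2 ^ (2 * k + 2) * 3 ^ (k + 1) * dE v z by positivity)
      calc |ρ z| * (‖z‖ ^ 2 * (2 ^ (2 * k + 2) * 3 ^ (k + 1) * dE v z))
          = |ρ z| * ‖z‖ ^ 2 * (2 ^ (2 * k + 2) * 3 ^ (k + 1) * dE v z) := by ring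
        _ ≤ _ := h6
        _ = _ := by ring
  have h := norm_integral_le_of_norm_le (hI.const_mul (B / L * (2 ^ (2 * k + 2) * 3 ^ (k + 1))))
    (Filter.Eventually.of_forall key)
  rw [integral_const_mul] at h
  exact h

end Pool.Agent.Helper608.VF
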