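import Pool.Agent.Helper608.VF.XDefs
set_option autoImplicit false
open Matrix MeasureTheory
open scoped ENNReal ContDiff
open Filter Topology
namespace Pool.Agent.Helper608.VF


/-- derivative of a parametric integral -/
theorem param_deriv {k : ℕ} (χ : E k → ℝ) (hχ : Continuous χ) (hc : HasCompactSupport χ)
    (f : ℝ → E k → ℝ) (hf : ContDiffOn ℝ ∞ (fun p : ℝ × E k => f p.1 p.2) {p | 0 < p.1}) (s : ℝ) (hs : 0 < s) :
    HasDerivAt (fun s => ∫ z, χ z * f s z) (∫ z, χ z * deriv (fun s => f s z) s) s := by
  have hopen : IsOpen {p : ℝ × E k | 0 < p.1} := isOpen_lt continuous_const continuous_fst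
  have hD : ∀ (r : ℝ), 0 < r → ∀ z : E k, HasDerivAt (fun s => f s z)
      (fderiv ℝ (fun p : ℝ × E k => f p.1 p.2) (r, z) ((1:ℝ), (0 : E k))) r := by
    intro r hr z
    have h1 : DifferentiableAt ℝ (fun p : ℝ × E k => f p.1 p.2) (r, z) :=
      (hf.contDiffAt (hopen.mem_nhds hr)).differentiableAt (by simp)
    have h2 : HasDerivAt (fun s : ℝ => ((s, z) : ℝ × E k)) ((1:ℝ), (0 : E k)) r :=
      (hasDerivAt_id r).prodMk (hasDerivAt_const r z)
    exact h1.hasFDerivAt.comp_hasDerivAt r h2
  have hcD : ContinuousOn (fun p : ℝ × E k => fderiv ℝ (fun p : ℝ × E k => f p.1 p.2) p ((1:ℝ), (0 : E k)))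
      {p | 0 < p.1} :=
    (hf.continuousOn_fderiv_of_isOpen hopen (by simp)).clm_apply continuousOn_const
  have hcf : ∀ r, 0 < r → Continuous (fun z => f r z) := by
    intro r hr
    have h3 : ContinuousOn ((fun p : ℝ × E k => f p.1 p.2) ∘ fun z : E k => ((r, z) : ℝ × E k)) Set.univ :=
      hf.continuousOn.comp (by fun_prop) (fun z _ => hr)
    exact continuousOn_univ.mp h3
  have hcDr : ∀ r, 0 < r → Continuous (fun z => deriv (fun s => f s z) r) := by
    intro r hr
    have h3 : ContinuousOn ((fun p : ℝ × E k => fderiv ℝ (fun p : ℝ × E k => f p.1 p.2) p ((1:ℝ), (0 : E k))) ∘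
        fun z : E k => ((r, z) : ℝ × E k)) Set.univ :=
      hcD.comp (by fun_prop) (fun z _ => hr)
    have e : (fun z => deriv (fun s => f s z) r) =
        fun z => fderiv ℝ (fun p : ℝ × E k => f p.1 p.2) (r, z) ((1:ℝ), (0 : E k)) := by
      funext z; exact (hD r hr z).deriv
    rw [e]
    exact continuousOn_univ.mp h3
  have hK : IsCompact (Set.Icc (s/2) (3*s/2) ×ˢ tsupport χ) := isCompact_Icc.prod hc
  obtain ⟨C, hC⟩ := hK.exists_bound_of_continuousOn
    (f := fun p : ℝ × E k => χ p.2 * fderiv ℝ (fun p : ℝ × E k => f p.1 p.2) p ((1:ℝ), (0 : E k)))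
    ((hχ.comp continuous_snd).continuousOn.mul (hcD.mono (fun p hp => by
      have := hp.1.1
      show 0 < p.1
      linarith)))
  have hbd : Integrable ((tsupport χ).indicator (fun _ => C)) (volume : Measure (E k)) := by
    rw [integrable_indicator_iff hc.measurableSet]
    exact integrableOn_const hc.measure_lt_top.ne
  have hpos : ∀ r ∈ Metric.ball s (s/2), 0 < r ∧ r ∈ Set.Icc (s/2) (3*s/2) := by
    intro r hr
    rw [Metric.mem_ball, Real.dist_eq, abs_lt] at hr
    refine ⟨by linarith [hr.1], by linarith [hr.1], by linarith [hr.2]⟩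
  have key := hasDerivAt_integral_of_dominated_loc_of_deriv_le (s := Metric.ball s (s/2)) (x₀ := s)
    (F := fun r z => χ z * f r z) (F' := fun r z => χ z * deriv (fun s => f s z) r)
    (bound := (tsupport χ).indicator (fun _ => C)) (μ := (volume : Measure (E k)))
    (Metric.ball_mem_nhds s (by linarith))
    (by
      filter_upwards [Metric.ball_mem_nhds s (show (0:ℝ) < s/2 by linarith)] with r hr
      exact (hχ.mul (hcf r (hpos r hr).1)).aestronglyMeasurable)
    ((hχ.mul (hcf s hs)).integrable_of_hasCompactSupport hc.mul_right)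
    (hχ.mul (hcDr s hs)).aestronglyMeasurable
    (by
      refine Filter.Eventually.of_forall (fun z r hr => ?_)
      by_cases hz : z ∈ tsupport χ
      · rw [Set.indicator_of_mem hz]
        have h4 := hC (r, z) ⟨(hpos r hr).2, hz⟩
        have e : deriv (fun s => f s z) r =
            fderiv ℝ (fun p : ℝ × E k => f p.1 p.2) (r, z) ((1:ℝ), (0 : E k)) := (hD r (hpos r hr).1 z).deriv
        rw [e]
        exact h4
      · rw [Set.indicator_of_notMem hz, image_eq_zero_of_notMem_tsupport hz]
        simp)
    hbd
    (by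
      refine Filter.Eventually.of_forall (fun z r hr => ?_)
      have h5 := hD r (hpos r hr).1 z
      have h6 : HasDerivAt (fun s => f s z) (deriv (fun s => f s z) r) r := by
        rw [h5.deriv]; exact h5
      exact h6.const_mul (χ z))
  exact key.2

/-- integration by parts -/
theorem int_parts {k : ℕ} (χ : E k → ℝ) (hχ : ContDiff ℝ ∞ χ) (hc : HasCompactSupport χ)
    (f : I k → E k → ℝ) (hf : ∀ j, ContDiff ℝ ∞ (f j)) :
    ∫ z, χ z * ∑ j, fderiv ℝ (f j) z (EuclideanSpace.single j 1)
      = -∫ z, ∑ j, fderiv ℝ χ z (EuclideanSpace.single j 1) * f j z := by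
  have hT : ∀ j : I k, ∫ z, χ z * fderiv ℝ (f j) z (EuclideanSpace.single j 1)
      = -∫ z, fderiv ℝ χ z (EuclideanSpace.single j 1) * f j z := by
    intro j
    have hχ' : Continuous (fun z => fderiv ℝ χ z (EuclideanSpace.single j 1)) :=
      (hχ.continuous_fderiv (by simp)).clm_apply continuous_const
    have hf' : Continuous (fun z => fderiv ℝ (f j) z (EuclideanSpace.single j 1)) :=
      ((hf j).continuous_fderiv (by simp)).clm_apply continuous_const
    have hc' : HasCompactSupport (fun z => fderiv ℝ χ z (EuclideanSpace.single j 1)) :=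
      (hc.fderiv (𝕜 := ℝ)).mono (fun z hz => by
        rw [Function.mem_support] at hz ⊢
        intro h0
        exact hz (by rw [h0]; rfl))
    refine integral_mul_fderiv_eq_neg_fderiv_mul_of_integrable ?_ ?_ ?_ ?_ ?_
    · exact (hχ'.mul (hf j).continuous).integrable_of_hasCompactSupport hc'.mul_right
    · exact (hχ.continuous.mul hf').integrable_of_hasCompactSupport hc.mul_right
    · exact (hχ.continuous.mul (hf j).continuous).integrable_of_hasCompactSupport hc.mul_right
    · intro x _; exact (hχ.differentiable (by simp)) x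
    · intro x _; exact ((hf j).differentiable (by simp)) x
  have hI1 : ∀ j ∈ (Finset.univ : Finset (I k)),
      Integrable (fun z => χ z * fderiv ℝ (f j) z (EuclideanSpace.single j 1)) (volume : Measure (E k)) := by
    intro j _
    have hf' : Continuous (fun z => fderiv ℝ (f j) z (EuclideanSpace.single j 1)) :=
      ((hf j).continuous_fderiv (by simp)).clm_apply continuous_const
    exact (hχ.continuous.mul hf').integrable_of_hasCompactSupport hc.mul_right
  have hI2 : ∀ j ∈ (Finset.univ : Finset (I k)),
      Integrable (fun z => fderiv ℝ χ z (EuclideanSpace.single j 1) * f j z) (volume : Measure (E k)) := by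
    intro j _
    have hχ' : Continuous (fun z => fderiv ℝ χ z (EuclideanSpace.single j 1)) :=
      (hχ.continuous_fderiv (by simp)).clm_apply continuous_const
    have hc' : HasCompactSupport (fun z => fderiv ℝ χ z (EuclideanSpace.single j 1)) :=
      (hc.fderiv (𝕜 := ℝ)).mono (fun z hz => by
        rw [Function.mem_support] at hz ⊢
        intro h0
        exact hz (by rw [h0]; rfl))
    exact (hχ'.mul (hf j).continuous).integrable_of_hasCompactSupport hc'.mul_right
  simp only [Finset.mul_sum]
  rw [integral_finset_sum _ hI1, integral_finset_sum _ hI2, ← Finset.sum_neg_distrib]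
  exact Finset.sum_congr rfl (fun j _ => hT j)

end Pool.Agent.Helper608.VF
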