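import Pool.Agent.Helper608.VF.XDefs
set_option autoImplicit false
open Matrix MeasureTheory
open scoped ENNReal ContDiff
namespace Pool.Agent.Helper608.VF


theorem e_poly_deg {ι : Type} [Fintype ι] [DecidableEq ι] (P : Matrix ι ι (Polynomial ℝ))
    (d : ι → ℕ) (hd : ∀ i j, (P i j).natDegree ≤ d i) : P.det.natDegree ≤ ∑ i, d i := by
  rw [Matrix.det_apply]
  apply Polynomial.natDegree_sum_le_of_forall_le
  intro σ _
  refine (Polynomial.natDegree_smul_le _ _).trans ?_
  refine (Polynomial.natDegree_prod_le _ _).trans ?_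
  calc ∑ i, (P (σ i) i).natDegree ≤ ∑ i, d (σ i) := Finset.sum_le_sum (fun i _ => hd _ _)
    _ = ∑ i, d i := Equiv.sum_comp σ d

theorem e_poly_vecMul {k : ℕ} (V : I k → ℝ) (X : Matrix (I k) (Unit ⊕ I k) ℝ)
    (β : Unit ⊕ I k) : (V ᵥ* X) β = ∑ i, V i * X i β := rfl

/-- first two row operations -/
theorem e_poly_M2 {k : ℕ} (x V : I k → ℝ) (X Y : Matrix (I k) (Unit ⊕ I k) ℝ)
    (hY : V ᵥ* Y = 0) (u : ℝ) (i0 : I k) :
    Matrix.det (fun α β => Sum.elim (fun _ => (x ᵥ* Y) β)
      (fun i => if i = i0 then (V ᵥ* X) β else X i β + u * Y i β) α :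
        Matrix (Unit ⊕ I k) (Unit ⊕ I k) ℝ) = V i0 * (Xi x V X Y u).det := by
  set M0 := Xi x V X Y u with hM0
  set c : Unit ⊕ I k → ℝ := Sum.elim (fun _ => 0) V with hc
  have h1 := Matrix.det_updateRow_sum M0 (Sum.inr i0) c
  set M1 := M0.updateRow (Sum.inr i0) (∑ k, c k • M0 k) with hM1
  have hrow : (∑ k, c k • M0 k) = V ᵥ* X := by
    funext β
    rw [Finset.sum_apply, Fintype.sum_sum_type]
    simp only [hc, hM0, Sum.elim_inl, Sum.elim_inr, Pi.smul_apply, smul_eq_mul, zero_mul,
      Finset.sum_const_zero, zero_add, Xi]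
    have h2 : ∑ i, V i * Y i β = 0 := by
      rw [← e_poly_vecMul, hY]
      rfl
    rw [e_poly_vecMul]
    calc ∑ i, V i * (X i β + u * Y i β) = ∑ i, V i * X i β + u * ∑ i, V i * Y i β := by
          rw [Finset.mul_sum, ← Finset.sum_add_distrib]
          exact Finset.sum_congr rfl (fun i _ => by ring)
      _ = _ := by rw [h2, mul_zero, add_zero]
  have h3 := Matrix.det_updateRow_add_smul_self M1
    (i := (Sum.inl () : Unit ⊕ I k)) (j := Sum.inr i0) (by simp) (-1)
  have hval : c (Sum.inr i0) = V i0 := rfl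
  rw [hval, smul_eq_mul] at h1
  rw [← h1, ← h3]
  congr 1
  ext α β
  rcases α with α | i
  · rw [Matrix.updateRow_apply, if_pos (by cases α; rfl)]
    simp only [hM1, hrow, Pi.add_apply, Pi.smul_apply, Matrix.updateRow_self, smul_eq_mul]
    rw [Matrix.updateRow_ne (by simp)]
    simp only [hM0, Xi, Sum.elim_inl, Pi.add_apply]
    ring
  · rw [Matrix.updateRow_ne (by simp)]
    simp only [hM1, hrow, Matrix.updateRow_apply, Sum.inr.injEq, Sum.elim_inr]
    rfl

/-- all row operations -/
theorem e_poly_M3 {k : ℕ} (x V ξ : I k → ℝ) (X Y : Matrix (I k) (Unit ⊕ I k) ℝ)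
    (hY : V ᵥ* Y = 0) (u : ℝ) (i0 i1 : I k) (hξ0 : ξ i0 = 0) (hξ : ξ ᵥ* Y = x ᵥ* Y) :
    Matrix.det (fun α β => Sum.elim (fun _ => (x ᵥ* Y) β)
      (fun i => if i = i1 then (ξ ᵥ* X) β else
        if i = i0 then (V ᵥ* X) β else X i β + u * Y i β) α :
        Matrix (Unit ⊕ I k) (Unit ⊕ I k) ℝ) = ξ i1 * (V i0 * (Xi x V X Y u).det) := by
  rw [← e_poly_M2 x V X Y hY u i0]
  set M2 : Matrix (Unit ⊕ I k) (Unit ⊕ I k) ℝ := (fun α β => Sum.elim (fun _ => (x ᵥ* Y) β)
      (fun i => if i = i0 then (V ᵥ* X) β else X i β + u * Y i β) α) with hM2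
  set c : Unit ⊕ I k → ℝ := Sum.elim (fun _ => -u) ξ with hc
  have h1 := Matrix.det_updateRow_sum M2 (Sum.inr i1) c
  have hval : c (Sum.inr i1) = ξ i1 := rfl
  rw [hval, smul_eq_mul] at h1
  rw [← h1]
  congr 1
  have hrow : (∑ k, c k • M2 k) = ξ ᵥ* X := by
    funext β
    rw [Finset.sum_apply, Fintype.sum_sum_type]
    simp only [hc, hM2, Sum.elim_inl, Sum.elim_inr, Pi.smul_apply, smul_eq_mul]
    have h2 : ∑ i, ξ i * Y i β = (x ᵥ* Y) β := by
      rw [← e_poly_vecMul, hξ]
    have h4 : ∀ i, ξ i * (if i = i0 then (V ᵥ* X) β else X i β + u * Y i β) =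
        ξ i * X i β + u * (ξ i * Y i β) := by
      intro i
      split_ifs with h
      · rw [h, hξ0]; ring
      · ring
    simp only [h4]
    have h5 : ∑ i, (ξ i * X i β + u * (ξ i * Y i β)) = ∑ i, ξ i * X i β + u * (x ᵥ* Y) β := by
      rw [Finset.sum_add_distrib, ← Finset.mul_sum, h2]
    rw [h5, e_poly_vecMul ξ X]
    simp
  rw [hrow]
  ext α β
  rcases α with α | i
  · rw [Matrix.updateRow_ne (by simp)]
    rfl
  · simp only [Matrix.updateRow_apply, Sum.inr.injEq, Sum.elim_inr]
    rfl

theorem e_poly {k : ℕ} (x V : I k → ℝ) (hV : V ⬝ᵥ V = 1) (X Y : Matrix (I k) (Unit ⊕ I k) ℝ)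
    (hY : V ᵥ* Y = 0) :
    ∃ e : Polynomial ℝ, e.natDegree ≤ 2 * k ∧ ∀ u : ℝ, e.eval u = (Xi x V X Y u).det := by
  obtain ⟨i0, hi0⟩ : ∃ i0, V i0 ≠ 0 := by
    by_contra hcon
    push Not at hcon
    have : V = 0 := funext hcon
    rw [this] at hV
    simp at hV
  set ξ : I k → ℝ := fun i => x i - x i0 / V i0 * V i with hξdef
  have hξ0 : ξ i0 = 0 := by
    simp only [hξdef]
    field_simp
    ring
  have hξ : ξ ᵥ* Y = x ᵥ* Y := by
    funext β
    have h2 : ∑ i, V i * Y i β = 0 := by
      rw [← e_poly_vecMul, hY]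
      rfl
    rw [e_poly_vecMul, e_poly_vecMul]
    calc ∑ i, ξ i * Y i β = ∑ i, x i * Y i β - x i0 / V i0 * ∑ i, V i * Y i β := by
          rw [Finset.mul_sum, ← Finset.sum_sub_distrib]
          exact Finset.sum_congr rfl (fun i _ => by simp only [hξdef]; ring)
      _ = _ := by rw [h2, mul_zero, sub_zero]
  by_cases hall : ∀ i, ξ i = 0
  · refine ⟨0, by simp, fun u => ?_⟩
    have h1 := e_poly_M2 x V X Y hY u i0
    have h2 : x ᵥ* Y = 0 := by
      rw [← hξ]
      have : ξ = 0 := funext hall
      rw [this, Matrix.zero_vecMul]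
    have h3 : V i0 * (Xi x V X Y u).det = 0 := by
      rw [← h1]
      exact Matrix.det_eq_zero_of_row_eq_zero (Sum.inl ()) (fun β => by
        show (x ᵥ* Y) β = 0
        rw [h2]; rfl)
    rw [Polynomial.eval_zero]
    exact ((mul_eq_zero.1 h3).resolve_left hi0).symm
  · push Not at hall
    obtain ⟨i1, hi1⟩ := hall
    have hne : i1 ≠ i0 := by
      intro h
      apply hi1
      rw [h, hξ0]
    set P : Matrix (Unit ⊕ I k) (Unit ⊕ I k) (Polynomial ℝ) := fun α β =>
      Sum.elim (fun _ => Polynomial.C ((x ᵥ* Y) β))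
        (fun i => if i = i1 then Polynomial.C ((ξ ᵥ* X) β) else
          if i = i0 then Polynomial.C ((V ᵥ* X) β) else
            Polynomial.C (X i β) + Polynomial.X * Polynomial.C (Y i β)) α with hP
    set d : Unit ⊕ I k → ℕ := Sum.elim (fun _ => 0)
      (fun i => if i = i1 then 0 else if i = i0 then 0 else 1) with hd
    have hdeg : P.det.natDegree ≤ 2 * k := by
      refine (e_poly_deg P d ?_).trans ?_
      · intro α β
        rcases α with α | i
        · simp only [hP, hd, Sum.elim_inl, Polynomial.natDegree_C, le_refl]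
        · simp only [hP, hd, Sum.elim_inr]
          split_ifs
          · simp
          · simp
          · refine (Polynomial.natDegree_add_le _ _).trans ?_
            simp only [Polynomial.natDegree_C, zero_le, sup_of_le_right]
            refine (Polynomial.natDegree_mul_le).trans ?_
            simp
      · have e1 : ∑ α, d α = ∑ i : I k, (if i = i1 then 0 else if i = i0 then 0 else 1) := by
          rw [Fintype.sum_sum_type]
          simp [hd]
        have e2 : (∑ i : I k, (if i = i1 then 0 else if i = i0 then 0 else 1)) +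
            (∑ i : I k, (if i = i1 then 1 else 0)) + (∑ i : I k, (if i = i0 then 1 else 0)) =
            Fintype.card (I k) := by
          rw [← Finset.sum_add_distrib, ← Finset.sum_add_distrib]
          rw [Fintype.card_eq_sum_ones]
          apply Finset.sum_congr rfl
          intro i _
          by_cases h1 : i = i1
          · subst h1
            simp [hne]
          · by_cases h2 : i = i0
            · simp [h2, Ne.symm hne]
            · simp [h1, h2]
        have e3 : Fintype.card (I k) = 2 * k + 2 := by simp [I]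
        rw [e3, Finset.sum_ite_eq', Finset.sum_ite_eq'] at e2
        simp only [Finset.mem_univ, if_true] at e2
        rw [e1]
        omega
    refine ⟨Polynomial.C ((ξ i1 * V i0)⁻¹) * P.det, ?_, fun u => ?_⟩
    · refine (Polynomial.natDegree_C_mul_le _ _).trans hdeg
    · have h1 := e_poly_M3 x V ξ X Y hY u i0 i1 hξ0 hξ
      have h2 : P.det.eval u = Matrix.det (fun α β => Sum.elim (fun _ => (x ᵥ* Y) β)
          (fun i => if i = i1 then (ξ ᵥ* X) β else
          if i = i0 then (V ᵥ* X) β else X i β + u * Y i β) α :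
          Matrix (Unit ⊕ I k) (Unit ⊕ I k) ℝ) := by
        have h3 := RingHom.map_det (Polynomial.evalRingHom u) P
        rw [Polynomial.coe_evalRingHom] at h3
        rw [h3]
        congr 1
        ext α β
        rcases α with α | i
        · show Polynomial.eval u (Polynomial.C ((x ᵥ* Y) β)) = (x ᵥ* Y) β
          simp
        · show Polynomial.eval u (if i = i1 then Polynomial.C ((ξ ᵥ* X) β) else
            if i = i0 then Polynomial.C ((V ᵥ* X) β) else
            Polynomial.C (X i β) + Polynomial.X * Polynomial.C (Y i β)) =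
            (if i = i1 then (ξ ᵥ* X) β else
              if i = i0 then (V ᵥ* X) β else X i β + u * Y i β)
          split_ifs
          · simp
          · simp
          · rw [Polynomial.eval_add, Polynomial.eval_mul, Polynomial.eval_X, Polynomial.eval_C,
              Polynomial.eval_C]
      rw [Polynomial.eval_mul, Polynomial.eval_C, h2, h1]
      field_simp

end Pool.Agent.Helper608.VF
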