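import Pool.Agent.Helper608.VF.XDefs
import Pool.Agent.Helper608.VF.J_h_epoly
set_option autoImplicit false
open Matrix MeasureTheory
open scoped ENNReal ContDiff
namespace Pool.Agent.Helper608.VF


theorem alg_closed_tr {n : Type*} [Fintype n] [DecidableEq n] (M D : Matrix n n ℝ) :
    ∑ β, (M.updateCol β (fun α => D α β)).det = (M.adjugate * D).trace := by
  rw [Matrix.trace]
  refine Finset.sum_congr rfl fun β _ => ?_
  rw [← Matrix.cramer_apply, Matrix.cramer_eq_adjugate_mulVec]
  rfl

theorem alg_closed_PM {n : Type*} [Fintype n] [DecidableEq n] (M P : Matrix n n ℝ) :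
    (M.adjugate * (P * M)).trace = P.trace * M.det := by
  rw [← Matrix.mul_assoc, Matrix.trace_mul_comm, ← Matrix.mul_assoc, Matrix.mul_adjugate,
    Matrix.smul_mul, Matrix.one_mul, Matrix.trace_smul, smul_eq_mul, mul_comm]

theorem alg_closed_jacobi {n : Type*} [Fintype n] [DecidableEq n] (M : ℝ → Matrix n n ℝ)
    (M' : Matrix n n ℝ) (u : ℝ) (h : ∀ α β, HasDerivAt (fun u => M u α β) (M' α β) u) :
    HasDerivAt (fun u => (M u).det) (((M u).adjugate * M').trace) u := by
  rw [← alg_closed_tr]
  have h1 : (fun u => (M u).det) = fun u => ∑ σ : Equiv.Perm n,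
      ((Equiv.Perm.sign σ : ℤ) : ℝ) * ∏ i, M u (σ i) i := by
    funext u
    rw [Matrix.det_apply']
  have h2 : ∑ β, ((M u).updateCol β (fun α => M' α β)).det =
      ∑ σ : Equiv.Perm n, ((Equiv.Perm.sign σ : ℤ) : ℝ) *
        ∑ β, (∏ j ∈ Finset.univ.erase β, M u (σ j) j) • M' (σ β) β := by
    simp only [Matrix.det_apply', Finset.mul_sum]
    rw [Finset.sum_comm]
    refine Finset.sum_congr rfl fun σ _ => Finset.sum_congr rfl fun β _ => ?_
    congr 1
    rw [← Finset.mul_prod_erase Finset.univ _ (Finset.mem_univ β), smul_eq_mul, mul_comm]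
    congr 1
    · refine Finset.prod_congr rfl fun j hj => ?_
      rw [Matrix.updateCol_ne (Finset.ne_of_mem_erase hj)]
    · rw [Matrix.updateCol_self]
  rw [h1, h2]
  refine HasDerivAt.fun_sum fun σ _ => ?_
  refine HasDerivAt.const_mul _ ?_
  exact HasDerivAt.fun_finsetProd fun i _ => h (σ i) i

/-- the algebraic closedness identity -/
theorem alg_closed {k : ℕ} (C : Coef k) (x V : I k → ℝ) (hV : V ⬝ᵥ V = 1)
    (X Y : Matrix (I k) (Unit ⊕ I k) ℝ) (hY : V ᵥ* Y = 0) (t R : ℝ) (ht : t = x ⬝ᵥ V)
    (hR : R = (x ⬝ᵥ x) / 2) (T Rh : Unit ⊕ I k → ℝ) (hT : T = V ᵥ* X + x ᵥ* Y) (hRh : Rh = x ᵥ* X) :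
    ∑ m : Fin (2 * k + 2), ∑ β : Unit ⊕ I k,
      ((Xi x V X Y (m:ℝ)).updateCol β (fun α => Sum.elim
        (fun _ => deriv (fun t => C.a m t R) t * T β + deriv (fun R => C.a m t R) R * Rh β)
        (fun i => -((deriv (fun t => C.b m t R) t * T β + deriv (fun R => C.b m t R) R * Rh β) * V i
            + C.b m t R * Y i β
            + (deriv (fun t => C.c m t R) t * T β + deriv (fun R => C.c m t R) R * Rh β)
              * (x i + (m:ℝ) * V i)
            + C.c m t R * (X i β + (m:ℝ) * Y i β))) α)).det = 0 := by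
  obtain ⟨e, hedeg, he⟩ := e_poly x V hV X Y hY
  have hRpos : -1 / 2 < R := by
    have h0 : 0 ≤ x ⬝ᵥ x := by
      rw [dotProduct]
      exact Finset.sum_nonneg fun i _ => mul_self_nonneg (x i)
    rw [hR]; linarith
  have hcl := C.cl t R hRpos e hedeg
  rw [← hcl]
  refine Finset.sum_congr rfl fun m _ => ?_
  set at' := deriv (fun t => C.a m t R) t with hat
  set aR := deriv (fun R => C.a m t R) R with haR
  set bt := deriv (fun t => C.b m t R) t with hbt
  set bR := deriv (fun R => C.b m t R) R with hbR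
  set ct := deriv (fun t => C.c m t R) t with hct
  set cR := deriv (fun R => C.c m t R) R with hcR
  set b := C.b m t R with hb
  set c := C.c m t R with hc
  set μ : ℝ := ((m : ℕ) : ℝ) with hμ
  set Ξ := Xi x V X Y μ with hΞ
  set D : Matrix (Unit ⊕ I k) (Unit ⊕ I k) ℝ := fun α β => Sum.elim
        (fun _ => at' * T β + aR * Rh β)
        (fun i => -((bt * T β + bR * Rh β) * V i + b * Y i β
            + (ct * T β + cR * Rh β) * (x i + μ * V i)
            + c * (X i β + μ * Y i β))) α with hD
  set Y0 : Matrix (Unit ⊕ I k) (Unit ⊕ I k) ℝ :=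
    fun α β => Sum.elim (fun _ => (0 : ℝ)) (fun i => Y i β) α with hY0
  set w : I k → ℝ := fun i => x i + μ * V i with hw
  set P : Matrix (Unit ⊕ I k) (Unit ⊕ I k) ℝ := fun α γ => Sum.elim
    (fun _ => Sum.elim (fun _ => at' - μ * aR) (fun j => aR * w j) γ)
    (fun i => Sum.elim (fun _ => -(V i * (bt - μ * bR) + w i * (ct - μ * cR)))
      (fun j => -(bR * V i * w j + cR * w i * w j + if i = j then c else 0)) γ) α with hP
  have hwX : ∀ β, ∑ j, w j * (X j β + μ * Y j β) = Rh β + μ * T β := by
    intro β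
    have h1 : ∑ j, V j * Y j β = 0 := by
      have h2 := congrFun hY β
      simpa [Matrix.vecMul, dotProduct] using h2
    have h3 : Rh β = ∑ j, x j * X j β := by rw [hRh]; rfl
    have h4 : T β = ∑ j, V j * X j β + ∑ j, x j * Y j β := by rw [hT]; rfl
    have h5 : ∑ j, w j * (X j β + μ * Y j β) = ∑ j, x j * X j β +
        μ * (∑ j, V j * X j β + ∑ j, x j * Y j β) + μ ^ 2 * ∑ j, V j * Y j β := by
      simp only [Finset.mul_sum, mul_add, ← Finset.sum_add_distrib]
      exact Finset.sum_congr rfl fun j _ => by rw [hw]; ring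
    rw [h5, h1, h3, h4]; ring
  have hDP : D = P * Ξ - b • Y0 := by
    funext α β
    rw [Matrix.sub_apply, Matrix.smul_apply, Matrix.mul_apply, Fintype.sum_sum_type]
    rcases α with α | i
    · have h1 : ∑ j, P (Sum.inl α) (Sum.inr j) * Ξ (Sum.inr j) β = aR * (Rh β + μ * T β) := by
        rw [← hwX, Finset.mul_sum]
        refine Finset.sum_congr rfl fun j _ => ?_
        show aR * w j * (X j β + μ * Y j β) = _
        ring
      have h2 : ∑ j, P (Sum.inl α) (Sum.inl j) * Ξ (Sum.inl j) β = (at' - μ * aR) * T β := by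
        rw [Fintype.sum_unique]
        show (at' - μ * aR) * (V ᵥ* X + x ᵥ* Y) β = _
        rw [hT]
      rw [h1, h2]
      show at' * T β + aR * Rh β = _ - b • (0 : ℝ)
      rw [smul_zero]; ring
    · have h1 : ∑ j, P (Sum.inr i) (Sum.inr j) * Ξ (Sum.inr j) β =
          -((bR * V i + cR * w i) * (Rh β + μ * T β)) - c * (X i β + μ * Y i β) := by
        have h3 : ∀ j, P (Sum.inr i) (Sum.inr j) * Ξ (Sum.inr j) β =
            -((bR * V i + cR * w i) * (w j * (X j β + μ * Y j β))) -
              (if i = j then c * (X j β + μ * Y j β) else 0) := by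
          intro j
          show -(bR * V i * w j + cR * w i * w j + if i = j then c else 0) * (X j β + μ * Y j β) = _
          split_ifs <;> ring
        rw [Finset.sum_congr rfl (fun j _ => h3 j), Finset.sum_sub_distrib,
          Finset.sum_neg_distrib, ← Finset.mul_sum, hwX, Finset.sum_ite_eq,
          if_pos (Finset.mem_univ _)]
      have h2 : ∑ j, P (Sum.inr i) (Sum.inl j) * Ξ (Sum.inl j) β =
          -(V i * (bt - μ * bR) + w i * (ct - μ * cR)) * T β := by
        rw [Fintype.sum_unique]
        show -(V i * (bt - μ * bR) + w i * (ct - μ * cR)) * (V ᵥ* X + x ᵥ* Y) β = _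
        rw [hT]
      rw [h1, h2]
      show -((bt * T β + bR * Rh β) * V i + b * Y i β
            + (ct * T β + cR * Rh β) * (x i + μ * V i)
            + c * (X i β + μ * Y i β)) = _ - b • Y i β
      rw [smul_eq_mul, hw]
      ring
  have hsum : ∑ β : Unit ⊕ I k, (Ξ.updateCol β (fun α => D α β)).det =
      P.trace * Ξ.det - b * (Ξ.adjugate * Y0).trace := by
    rw [alg_closed_tr, hDP, Matrix.mul_sub, Matrix.trace_sub, alg_closed_PM, Matrix.mul_smul,
      Matrix.trace_smul, smul_eq_mul]
  have hder : e.derivative.eval μ = (Ξ.adjugate * Y0).trace := by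
    have h1 : HasDerivAt (fun u => (Xi x V X Y u).det) ((Ξ.adjugate * Y0).trace) μ := by
      refine alg_closed_jacobi (fun u => Xi x V X Y u) Y0 μ ?_
      intro α β
      rcases α with α | i
      · exact hasDerivAt_const μ _
      · show HasDerivAt (fun u => X i β + u * Y i β) (Y i β) μ
        have h2 := ((hasDerivAt_id μ).mul_const (Y i β)).const_add (X i β)
        rw [one_mul] at h2
        exact h2
    have h3 : (fun u => (Xi x V X Y u).det) = fun u => e.eval u := by
      funext u; exact (he u).symm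
    rw [h3] at h1
    exact (e.hasDerivAt μ).unique h1
  have htr : P.trace = at' - μ * aR - (t + μ) * bR - (2 * R + 2 * μ * t + μ ^ 2) * cR
      - (2 * (k:ℝ) + 2) * c := by
    rw [Matrix.trace, Fintype.sum_sum_type, Fintype.sum_unique]
    have h1 : ∑ i : I k, V i * V i = 1 := hV
    have h2 : ∑ i : I k, x i * V i = t := ht.symm
    have h3 : ∑ i : I k, x i * x i = 2 * R := by
      rw [hR]
      have : ∑ i : I k, x i * x i = x ⬝ᵥ x := rfl
      rw [this]; ring
    have h4 : ∑ i : I k, Matrix.diag P (Sum.inr i) =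
        -(bR * (∑ i : I k, x i * V i + μ * ∑ i : I k, V i * V i) +
          cR * (∑ i : I k, x i * x i + 2 * μ * ∑ i : I k, x i * V i +
            μ ^ 2 * ∑ i : I k, V i * V i) + ∑ _i : I k, c) := by
      simp only [Finset.mul_sum, ← Finset.sum_add_distrib, ← Finset.sum_neg_distrib]
      refine Finset.sum_congr rfl fun i _ => ?_
      show -(bR * V i * w i + cR * w i * w i + if i = i then c else 0) = _
      rw [if_pos rfl, hw]
      ring
    have h5 : ∑ _i : I k, c = (2 * (k:ℝ) + 2) * c := by
      rw [Finset.sum_const, Finset.card_univ, Fintype.card_sum, Fintype.card_fin, Fintype.card_fin,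
        nsmul_eq_mul]
      push_cast
      ring
    have h6 : Matrix.diag P (Sum.inl default) = at' - μ * aR := rfl
    rw [h4, h5, h6, h1, h2, h3]
    ring
  show ∑ β : Unit ⊕ I k, (Ξ.updateCol β (fun α => D α β)).det = _
  rw [hsum, htr, hder, he μ]

end Pool.Agent.Helper608.VF
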