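import Pool.Agent.Helper608.VF.XDefs
set_option autoImplicit false
open Matrix MeasureTheory
open scoped ENNReal ContDiff
namespace Pool.Agent.Helper608.VF


/-- determinant as a continuous multilinear map -/
noncomputable def bM_diff_D (n : Type) [Fintype n] [DecidableEq n] :
    ContinuousMultilinearMap ℝ (fun _ : n => n → ℝ) ℝ :=
  ⟨(Matrix.detRowAlternating (n := n) (R := ℝ)).toMultilinearMap, by
    exact (continuous_id.matrix_det : Continuous fun v : Matrix n n ℝ => v.det)⟩

theorem bM_diff_D_eq (n : Type) [Fintype n] [DecidableEq n] (v : n → n → ℝ) :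
    bM_diff_D n v = Matrix.detRowAlternating (n := n) (R := ℝ) v := rfl

theorem bM_diff_D_swap (n : Type) [Fintype n] [DecidableEq n] (c : n → n → ℝ) {i j : n}
    (hij : i ≠ j) (a b : n → ℝ) :
    bM_diff_D n (Function.update (Function.update c i a) j b) =
      - bM_diff_D n (Function.update (Function.update c j a) i b) := by
  have h := (Matrix.detRowAlternating (n := n) (R := ℝ)).map_swap
    (Function.update (Function.update c i a) j b) hij
  have h2 : (Function.update (Function.update c i a) j b) ∘ (Equiv.swap i j) =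
      Function.update (Function.update c j a) i b := by
    funext k
    rw [Function.comp_apply]
    by_cases hki : k = i
    · subst hki
      rw [Equiv.swap_apply_left, Function.update_self, Function.update_self]
    · by_cases hkj : k = j
      · subst hkj
        rw [Equiv.swap_apply_right, Function.update_of_ne hij, Function.update_self,
          Function.update_of_ne hki, Function.update_self]
      · rw [Equiv.swap_apply_of_ne_of_ne hki hkj, Function.update_of_ne hkj,
          Function.update_of_ne hki, Function.update_of_ne hki, Function.update_of_ne hkj]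
  rw [h2] at h
  rw [bM_diff_D_eq, bM_diff_D_eq, h, neg_neg]

theorem bM_diff_der {n P : Type} [Fintype n] [DecidableEq n] [NormedAddCommGroup P]
    [NormedSpace ℝ P]
    (φ : n → P → (n → ℝ)) (φ' : n → P →L[ℝ] (n → ℝ)) (p : P)
    (h : ∀ β, HasFDerivAt (φ β) (φ' β) p) :
    DifferentiableAt ℝ (fun q => bM_diff_D n (fun β => φ β q)) p ∧
    ∀ v, fderiv ℝ (fun q => bM_diff_D n (fun β => φ β q)) p v =
      ∑ β, bM_diff_D n (Function.update (fun γ => φ γ p) β (φ' β v)) := by
  have h1 : HasFDerivAt (fun q β => φ β q) (ContinuousLinearMap.pi φ') p := hasFDerivAt_pi.2 h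
  have h2 : HasFDerivAt (fun q => bM_diff_D n (fun β => φ β q))
      (((bM_diff_D n).linearDeriv (fun β => φ β p)).comp (ContinuousLinearMap.pi φ')) p :=
    ((bM_diff_D n).hasFDerivAt (fun β => φ β p)).comp p h1
  refine ⟨h2.differentiableAt, fun v => ?_⟩
  rw [h2.fderiv, ContinuousLinearMap.comp_apply, ContinuousMultilinearMap.linearDeriv_apply]
  rfl

section
variable {ι : Type} [Fintype ι] [DecidableEq ι]
    (w Y : ℝ × EuclideanSpace ℝ ι → (Unit ⊕ ι → ℝ))

/-- columns of `bM` -/
noncomputable def bM_diff_c (β : Unit ⊕ ι) (q : ℝ × EuclideanSpace ℝ ι) : Unit ⊕ ι → ℝ :=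
  Sum.elim (fun _ => Y q) (fun j => fderiv ℝ w q (eb (Sum.inr j))) β

/-- derivatives of columns of `bM` -/
noncomputable def bM_diff_c' (p : ℝ × EuclideanSpace ℝ ι) (β : Unit ⊕ ι) :
    ℝ × EuclideanSpace ℝ ι →L[ℝ] (Unit ⊕ ι → ℝ) :=
  Sum.elim (fun _ => fderiv ℝ Y p) (fun j =>
    (ContinuousLinearMap.apply ℝ (Unit ⊕ ι → ℝ) (eb (Sum.inr j))).comp
      (fderiv ℝ (fderiv ℝ w) p)) β

theorem bM_diff_e1 (q : ℝ × EuclideanSpace ℝ ι) :
    (bM w Y q).det = bM_diff_D (Unit ⊕ ι) (fun β => bM_diff_c w Y β q) := by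
  rw [← Matrix.det_transpose]
  show Matrix.det _ = Matrix.det _
  congr 1
  ext β α
  cases β <;> rfl

theorem bM_diff_e2 (q : ℝ × EuclideanSpace ℝ ι) (j : ι) (v : Unit ⊕ ι → ℝ) :
    ((bM w Y q).updateCol (Sum.inr j) v).det =
      bM_diff_D (Unit ⊕ ι) (Function.update (fun β => bM_diff_c w Y β q) (Sum.inr j) v) := by
  rw [← Matrix.det_transpose, ← Matrix.updateRow_transpose]
  show Matrix.det _ = Matrix.det _
  congr 1
  ext β α
  rw [Matrix.updateRow_apply, Function.update_apply]
  split_ifs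
  · rfl
  · cases β <;> rfl

variable {w Y}

theorem bM_diff_w {p : ℝ × EuclideanSpace ℝ ι} (hw : ContDiffAt ℝ 2 w p)
    (v : ℝ × EuclideanSpace ℝ ι) :
    HasFDerivAt (fun q => fderiv ℝ w q v)
      ((ContinuousLinearMap.apply ℝ (Unit ⊕ ι → ℝ) v).comp (fderiv ℝ (fderiv ℝ w) p)) p := by
  have h1 : ContDiffAt ℝ 1 (fderiv ℝ w) p := hw.fderiv_right (by norm_num)
  have h2 : DifferentiableAt ℝ (fderiv ℝ w) p := h1.differentiableAt (by norm_num)
  exact (ContinuousLinearMap.apply ℝ (Unit ⊕ ι → ℝ) v).hasFDerivAt.comp p h2.hasFDerivAt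

theorem bM_diff_cd {p : ℝ × EuclideanSpace ℝ ι} (hw : ContDiffAt ℝ 2 w p)
    (hY : ContDiffAt ℝ 1 Y p) (β : Unit ⊕ ι) :
    HasFDerivAt (bM_diff_c w Y β) (bM_diff_c' w Y p β) p := by
  cases β with
  | inl u => exact (hY.differentiableAt (by norm_num)).hasFDerivAt
  | inr j => exact bM_diff_w hw (eb (Sum.inr j))

theorem bM_diff_dd {p : ℝ × EuclideanSpace ℝ ι} (hw : ContDiffAt ℝ 2 w p)
    (hY : ContDiffAt ℝ 1 Y p) (j : ι) (β : Unit ⊕ ι) :
    HasFDerivAt (fun q => Function.update (fun γ => bM_diff_c w Y γ q) (Sum.inr j)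
        (fderiv ℝ w q (eb (Sum.inl ()))) β)
      (Function.update (bM_diff_c' w Y p) (Sum.inr j)
        ((ContinuousLinearMap.apply ℝ (Unit ⊕ ι → ℝ) (eb (Sum.inl ()))).comp
          (fderiv ℝ (fderiv ℝ w) p)) β) p := by
  by_cases h : β = Sum.inr j
  · subst h
    simp only [Function.update_self]
    exact bM_diff_w hw (eb (Sum.inl ()))
  · simp only [Function.update_of_ne h]
    exact bM_diff_cd hw hY β

end

theorem bM_diff {ι : Type} [Fintype ι] [DecidableEq ι]
    (w Y : ℝ × EuclideanSpace ℝ ι → (Unit ⊕ ι → ℝ)) (p : ℝ × EuclideanSpace ℝ ι)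
    (hw : ContDiffAt ℝ 2 w p) (hY : ContDiffAt ℝ 1 Y p) :
    DifferentiableAt ℝ (fun p => (bM w Y p).det) p ∧
    ∀ j, DifferentiableAt ℝ
      (fun p => ((bM w Y p).updateCol (Sum.inr j) (fun α => fderiv ℝ w p (eb (Sum.inl ())) α)).det) p := by
  constructor
  · have h := (bM_diff_der (fun β => bM_diff_c w Y β) (bM_diff_c' w Y p) p
      (bM_diff_cd hw hY)).1
    have e : (fun p => (bM w Y p).det) =
        fun q => bM_diff_D (Unit ⊕ ι) (fun β => bM_diff_c w Y β q) := by
      funext q
      exact bM_diff_e1 w Y q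
    rw [e]
    exact h
  · intro j
    have h := (bM_diff_der _ _ p (bM_diff_dd hw hY j)).1
    have e : (fun p => ((bM w Y p).updateCol (Sum.inr j)
        (fun α => fderiv ℝ w p (eb (Sum.inl ())) α)).det) =
        fun q => bM_diff_D (Unit ⊕ ι) (fun β => Function.update (fun γ => bM_diff_c w Y γ q)
          (Sum.inr j) (fderiv ℝ w q (eb (Sum.inl ()))) β) := by
      funext q
      exact bM_diff_e2 w Y q j _
    rw [e]
    exact h

/-- Piola identity for bordered Jacobians -/
theorem piola {ι : Type} [Fintype ι] [DecidableEq ι]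
    (w Y : ℝ × EuclideanSpace ℝ ι → (Unit ⊕ ι → ℝ)) (p : ℝ × EuclideanSpace ℝ ι)
    (hw : ContDiffAt ℝ 2 w p) (hY : ContDiffAt ℝ 1 Y p) :
    fderiv ℝ (fun p => (bM w Y p).det) p (eb (Sum.inl ()))
      - ∑ j : ι, fderiv ℝ (fun p => ((bM w Y p).updateCol (Sum.inr j)
          (fun α => fderiv ℝ w p (eb (Sum.inl ())) α)).det) p (eb (Sum.inr j))
    = ∑ β : Unit ⊕ ι, ((Matrix.of (fun α β => fderiv ℝ w p (eb β) α) :
        Matrix (Unit ⊕ ι) (Unit ⊕ ι) ℝ).updateCol β (fun α => fderiv ℝ Y p (eb β) α)).det := by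
  set D := bM_diff_D (Unit ⊕ ι) with hD
  set c : Unit ⊕ ι → Unit ⊕ ι → ℝ := fun β => bM_diff_c w Y β p with hc
  set W := fderiv ℝ (fderiv ℝ w) p with hW
  set w0 : Unit ⊕ ι → ℝ := fderiv ℝ w p (eb (Sum.inl ())) with hw0
  have hsym : ∀ u v, W u v = W v u := by
    intro u v
    have h := hw.isSymmSndFDerivAt (by simp)
    exact h.eq u v
  -- first term
  have t1 : fderiv ℝ (fun p => (bM w Y p).det) p (eb (Sum.inl ())) =
      D (Function.update c (Sum.inl ()) (fderiv ℝ Y p (eb (Sum.inl ())))) +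
      ∑ i : ι, D (Function.update c (Sum.inr i) (W (eb (Sum.inl ())) (eb (Sum.inr i)))) := by
    have h := (bM_diff_der (fun β => bM_diff_c w Y β) (bM_diff_c' w Y p) p
      (bM_diff_cd hw hY)).2 (eb (Sum.inl ()))
    have e : (fun p => (bM w Y p).det) =
        fun q => bM_diff_D (Unit ⊕ ι) (fun β => bM_diff_c w Y β q) := by
      funext q
      exact bM_diff_e1 w Y q
    rw [e, h, Fintype.sum_sum_type, Fintype.sum_unique]
    rfl
  -- second terms
  have t2 : ∀ j : ι, fderiv ℝ (fun p => ((bM w Y p).updateCol (Sum.inr j)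
          (fun α => fderiv ℝ w p (eb (Sum.inl ())) α)).det) p (eb (Sum.inr j)) =
      D (Function.update (Function.update c (Sum.inr j) w0) (Sum.inl ())
        (fderiv ℝ Y p (eb (Sum.inr j)))) +
      (D (Function.update c (Sum.inr j) (W (eb (Sum.inr j)) (eb (Sum.inl ())))) +
      ∑ i : ι, if i = j then 0 else D (Function.update (Function.update c (Sum.inr j) w0)
        (Sum.inr i) (W (eb (Sum.inr j)) (eb (Sum.inr i))))) := by
    intro j
    have h := (bM_diff_der _ _ p (bM_diff_dd hw hY j)).2 (eb (Sum.inr j))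
    have e : (fun p => ((bM w Y p).updateCol (Sum.inr j)
        (fun α => fderiv ℝ w p (eb (Sum.inl ())) α)).det) =
        fun q => bM_diff_D (Unit ⊕ ι) (fun β => Function.update (fun γ => bM_diff_c w Y γ q)
          (Sum.inr j) (fderiv ℝ w q (eb (Sum.inl ()))) β) := by
      funext q
      exact bM_diff_e2 w Y q j _
    rw [e, h, Fintype.sum_sum_type, Fintype.sum_unique]
    congr 1
    have h3 : D (Function.update c (Sum.inr j) (W (eb (Sum.inr j)) (eb (Sum.inl ())))) =
        ∑ i : ι, if i = j then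
          D (Function.update c (Sum.inr j) (W (eb (Sum.inr j)) (eb (Sum.inl ())))) else 0 := by
      rw [Finset.sum_ite_eq' Finset.univ j]
      simp
    rw [h3, ← Finset.sum_add_distrib]
    refine Finset.sum_congr rfl fun i _ => ?_
    by_cases hij : i = j
    · subst hij
      rw [if_pos rfl, if_pos rfl, add_zero, Function.update_self]
      have : Function.update (fun γ => Function.update (fun γ => bM_diff_c w Y γ p) (Sum.inr i)
          (fderiv ℝ w p (eb (Sum.inl ()))) γ) (Sum.inr i)
          (((ContinuousLinearMap.apply ℝ (Unit ⊕ ι → ℝ) (eb (Sum.inl ()))).comp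
          (fderiv ℝ (fderiv ℝ w) p)) (eb (Sum.inr i))) =
          Function.update c (Sum.inr i) (W (eb (Sum.inr i)) (eb (Sum.inl ()))) := by
        exact Function.update_idem _ _ _
      rw [this]
    · have hne : (Sum.inr i : Unit ⊕ ι) ≠ Sum.inr j := fun h => hij (Sum.inr_injective h)
      rw [if_neg hij, if_neg hij, zero_add, Function.update_of_ne hne]
      rfl
  -- right hand side
  have t3 : ∑ β : Unit ⊕ ι, ((Matrix.of (fun α β => fderiv ℝ w p (eb β) α) :
        Matrix (Unit ⊕ ι) (Unit ⊕ ι) ℝ).updateCol β (fun α => fderiv ℝ Y p (eb β) α)).det =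
      D (Function.update c (Sum.inl ()) (fderiv ℝ Y p (eb (Sum.inl ())))) +
      ∑ j : ι, D (Function.update (Function.update c (Sum.inl ()) w0) (Sum.inr j)
        (fderiv ℝ Y p (eb (Sum.inr j)))) := by
    have e : ∀ β : Unit ⊕ ι, ∀ v, ((Matrix.of (fun α β => fderiv ℝ w p (eb β) α) :
        Matrix (Unit ⊕ ι) (Unit ⊕ ι) ℝ).updateCol β v).det =
        D (Function.update (Function.update c (Sum.inl ()) w0) β v) := by
      intro β v
      rw [← Matrix.det_transpose, ← Matrix.updateRow_transpose]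
      show Matrix.det _ = Matrix.det _
      congr 1
      ext γ α
      rw [Matrix.updateRow_apply, Function.update_apply]
      split_ifs with h
      · rfl
      · cases γ with
        | inl u => rfl
        | inr i => rw [Function.update_of_ne (by simp)]; rfl
    rw [Fintype.sum_sum_type, Fintype.sum_unique]
    congr 1
    · rw [e]
      congr 1
      exact Function.update_idem _ _ _
    · exact Finset.sum_congr rfl fun j _ => e _ _
  rw [t1, t3, Finset.sum_congr rfl fun j _ => t2 j]
  rw [Finset.sum_add_distrib, Finset.sum_add_distrib]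
  have c1 : ∑ i : ι, D (Function.update c (Sum.inr i) (W (eb (Sum.inl ())) (eb (Sum.inr i)))) =
      ∑ j : ι, D (Function.update c (Sum.inr j) (W (eb (Sum.inr j)) (eb (Sum.inl ())))) :=
    Finset.sum_congr rfl fun i _ => by rw [hsym]
  have c2 : ∑ j : ι, D (Function.update (Function.update c (Sum.inl ()) w0) (Sum.inr j)
        (fderiv ℝ Y p (eb (Sum.inr j)))) =
      - ∑ j : ι, D (Function.update (Function.update c (Sum.inr j) w0) (Sum.inl ())
        (fderiv ℝ Y p (eb (Sum.inr j)))) := by
    rw [← Finset.sum_neg_distrib]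
    exact Finset.sum_congr rfl fun j _ => bM_diff_D_swap _ c (by simp) _ _
  have c3 : ∑ j : ι, ∑ i : ι, (if i = j then 0 else
      D (Function.update (Function.update c (Sum.inr j) w0)
        (Sum.inr i) (W (eb (Sum.inr j)) (eb (Sum.inr i))))) = 0 := by
    have h : ∑ j : ι, ∑ i : ι, (if i = j then 0 else
      D (Function.update (Function.update c (Sum.inr j) w0)
        (Sum.inr i) (W (eb (Sum.inr j)) (eb (Sum.inr i))))) =
        - ∑ j : ι, ∑ i : ι, (if i = j then 0 else
      D (Function.update (Function.update c (Sum.inr j) w0)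
        (Sum.inr i) (W (eb (Sum.inr j)) (eb (Sum.inr i))))) := by
      conv_rhs => rw [Finset.sum_comm]
      rw [← Finset.sum_neg_distrib]
      refine Finset.sum_congr rfl fun j _ => ?_
      rw [← Finset.sum_neg_distrib]
      refine Finset.sum_congr rfl fun i _ => ?_
      by_cases hij : i = j
      · rw [if_pos hij, if_pos hij.symm, neg_zero]
      · rw [if_neg hij, if_neg (Ne.symm hij)]
        rw [bM_diff_D_swap _ c (fun h => hij (Sum.inr_injective h).symm), hsym]
    linarith
  rw [c1, c2, c3]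
  ring

end Pool.Agent.Helper608.VF
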