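import Pool.Agent.Helper608.VF.XDefs
set_option autoImplicit false
open Matrix MeasureTheory
open scoped ENNReal ContDiff
namespace Pool.Agent.Helper608.VF


theorem Lm_smooth_det {M ι : Type*} [NormedAddCommGroup M] [NormedSpace ℝ M] [Fintype ι]
    [DecidableEq ι] {S : Set M} (A : M → Matrix ι ι ℝ)
    (hA : ∀ i j, ContDiffOn ℝ ∞ (fun p => A p i j) S) :
    ContDiffOn ℝ ∞ (fun p => (A p).det) S := by
  simp only [Matrix.det_apply]
  refine ContDiffOn.sum fun σ _ => ?_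
  refine ContDiffOn.const_smul _ ?_
  exact contDiffOn_prod fun i _ => hA _ _

theorem Lm_smooth_adj {M ι : Type*} [NormedAddCommGroup M] [NormedSpace ℝ M] [Fintype ι]
    [DecidableEq ι] {S : Set M} (A : M → Matrix ι ι ℝ)
    (hA : ∀ i j, ContDiffOn ℝ ∞ (fun p => A p i j) S) (i j : ι) :
    ContDiffOn ℝ ∞ (fun p => (A p).adjugate i j) S := by
  simp only [Matrix.adjugate_apply]
  refine Lm_smooth_det _ fun a b => ?_
  simp only [Matrix.updateRow_apply]
  by_cases h : a = j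
  · simp only [h, if_true]; exact contDiffOn_const
  · simp only [h, if_false]; exact hA _ _

theorem Lm_smooth_dot {M ι : Type*} [NormedAddCommGroup M] [NormedSpace ℝ M] [Fintype ι]
    {S : Set M} (x y : M → ι → ℝ)
    (hx : ∀ i, ContDiffOn ℝ ∞ (fun p => x p i) S) (hy : ∀ i, ContDiffOn ℝ ∞ (fun p => y p i) S) :
    ContDiffOn ℝ ∞ (fun p => x p ⬝ᵥ y p) S := by
  simp only [dotProduct]
  exact ContDiffOn.sum fun i _ => (hx i).mul (hy i)

theorem Lm_smooth_Om {k : ℕ} (C : Coef k) {M : Type*} [NormedAddCommGroup M] [NormedSpace ℝ M]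
    {S : Set M} (x V : M → I k → ℝ) (X Y : M → Matrix (I k) (I k) ℝ)
    (hx : ∀ i, ContDiffOn ℝ ∞ (fun p => x p i) S)
    (hV : ∀ i, ContDiffOn ℝ ∞ (fun p => V p i) S)
    (hX : ∀ i j, ContDiffOn ℝ ∞ (fun p => X p i j) S)
    (hY : ∀ i j, ContDiffOn ℝ ∞ (fun p => Y p i j) S) :
    ContDiffOn ℝ ∞ (fun p => Om C (x p) (V p) (X p) (Y p)) S := by
  have hp : ContDiffOn ℝ ∞ (fun p => ((x p ⬝ᵥ V p), (x p ⬝ᵥ x p) / 2)) S :=
    (Lm_smooth_dot x V hx hV).prodMk ((Lm_smooth_dot x x hx hx).div_const 2)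
  have hm : Set.MapsTo (fun p => ((x p ⬝ᵥ V p), (x p ⬝ᵥ x p) / 2)) S
      {q : ℝ × ℝ | -1 / 2 < q.2} := by
    intro p _
    have : 0 ≤ x p ⬝ᵥ x p := by
      simp only [dotProduct]
      exact Finset.sum_nonneg fun i _ => mul_self_nonneg _
    simp only [Set.mem_setOf_eq]
    linarith
  have ha := fun m => (C.sma m).comp hp hm
  have hb := fun m => (C.smb m).comp hp hm
  have hc := fun m => (C.smc m).comp hp hm
  simp only [Function.comp_def] at ha hb hc
  have hXY : ∀ (m : Fin (2 * k + 2)) i j, ContDiffOn ℝ ∞ (fun p => (X p + (m:ℝ) • Y p) i j) S := by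
    intro m i j
    simp only [Matrix.add_apply, Matrix.smul_apply, smul_eq_mul]
    exact (hX i j).add (contDiffOn_const.mul (hY i j))
  unfold Om
  refine ContDiffOn.sum fun m _ => ?_
  refine ContDiffOn.add ((ha m).mul (Lm_smooth_det _ (hXY m))) ?_
  refine Lm_smooth_dot _ _ (fun i => ?_) (fun i => ?_)
  · simp only [Pi.add_apply, vecMul]
    exact (Lm_smooth_dot _ _ hV fun j => hX j i).add (Lm_smooth_dot _ _ hx fun j => hY j i)
  · simp only [mulVec]
    refine Lm_smooth_dot _ _ (fun j => Lm_smooth_adj _ (hXY m) i j) fun j => ?_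
    simp only [Pi.add_apply, Pi.smul_apply, smul_eq_mul]
    exact ((hb m).mul (hV j)).add ((hc m).mul ((hx j).add (contDiffOn_const.mul (hV j))))

theorem Lm_smooth_coord {k : ℕ} (i : I k) : ContDiff ℝ ∞ (fun z : E k => z i) :=
  (EuclideanSpace.proj (𝕜 := ℝ) i).contDiff

theorem Lm_smooth_Jm {k : ℕ} (v : E k → E k) (hv : ContDiff ℝ ∞ v) (i j : I k) :
    ContDiff ℝ ∞ (fun p : ℝ × E k => Jm v p.2 i j) := by
  unfold Jm
  have h1 : ContDiff ℝ ∞ (fun z : E k => fderiv ℝ v z (EuclideanSpace.single j 1)) :=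
    (hv.fderiv_right (m := ∞) (by simp)).clm_apply contDiff_const
  exact ((Lm_smooth_coord i).comp h1).comp contDiff_snd

theorem Lm_smooth_v {k : ℕ} (v : E k → E k) (hv : ContDiff ℝ ∞ v) (i : I k) :
    ContDiff ℝ ∞ (fun p : ℝ × E k => (v p.2).ofLp i) :=
  ((Lm_smooth_coord i).comp hv).comp contDiff_snd

theorem Lm_smooth_inv {k : ℕ} : ContDiffOn ℝ ∞ (fun p : ℝ × E k => p.1⁻¹) {p | 0 < p.1} :=
  contDiff_fst.contDiffOn.inv fun p hp => ne_of_gt hp

theorem Lm_smooth_z {k : ℕ} (i : I k) : ContDiff ℝ ∞ (fun p : ℝ × E k => p.2.ofLp i) :=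
  (Lm_smooth_coord i).comp contDiff_snd

theorem Lm_smooth_x {k : ℕ} (i : I k) :
    ContDiffOn ℝ ∞ (fun p : ℝ × E k => (p.1⁻¹ • p.2.ofLp) i) {p | 0 < p.1} := by
  simp only [Pi.smul_apply, smul_eq_mul]
  exact Lm_smooth_inv.mul (Lm_smooth_z i).contDiffOn

theorem Lm_smooth_X {k : ℕ} (i j : I k) :
    ContDiffOn ℝ ∞ (fun p : ℝ × E k => (p.1⁻¹ • (1 : Matrix (I k) (I k) ℝ)) i j) {p | 0 < p.1} := by
  simp only [Matrix.smul_apply, smul_eq_mul]
  exact Lm_smooth_inv.mul contDiffOn_const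

theorem Lm_smooth {k : ℕ} (C : Coef k) (v : E k → E k) (hv : ContDiff ℝ ∞ v) :
    ContDiffOn ℝ ∞ (fun p : ℝ × E k => Lm C v p.1 p.2) {p | 0 < p.1} := by
  unfold Lm
  exact Lm_smooth_Om C _ _ _ _ Lm_smooth_x (fun i => (Lm_smooth_v v hv i).contDiffOn)
    Lm_smooth_X (fun i j => (Lm_smooth_Jm v hv i j).contDiffOn)

theorem Fx_smooth {k : ℕ} (C : Coef k) (v : E k → E k) (hv : ContDiff ℝ ∞ v) (j : I k) :
    ContDiffOn ℝ ∞ (fun p : ℝ × E k => Fx C v p.1 j p.2) {p | 0 < p.1} := by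
  unfold Fx
  refine Lm_smooth_Om C _ _ _ _ Lm_smooth_x (fun i => (Lm_smooth_v v hv i).contDiffOn)
    (fun a b => ?_) (fun a b => ?_)
  · simp only [Matrix.updateCol_apply]
    by_cases h : b = j
    · simp only [h, if_true]
      exact (Lm_smooth_z a).contDiffOn.neg.div (contDiff_fst.contDiffOn.pow 2)
        fun p hp => pow_ne_zero 2 (ne_of_gt hp)
    · simp only [h, if_false]
      exact Lm_smooth_X a b
  · simp only [Matrix.updateCol_apply]
    by_cases h : b = j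
    · simp only [h, if_true]
      exact contDiffOn_const
    · simp only [h, if_false]
      exact (Lm_smooth_Jm v hv a b).contDiffOn

end Pool.Agent.Helper608.VF
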