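import Pool.Agent.Helper608.VF.XDefs
import Pool.Agent.Helper608.VF.J_h_alg
import Pool.Agent.Helper608.VF.J_h_block
import Pool.Agent.Helper608.VF.J_h_piola
import Pool.Agent.Helper608.VF.J_h_smooth
set_option autoImplicit false
open Matrix MeasureTheory
open scoped ENNReal ContDiff
namespace Pool.Agent.Helper608.VF



noncomputable def hom_id_x {k : ℕ} (p : ℝ × E k) (i : I k) : ℝ := p.1⁻¹ * p.2.ofLp i
noncomputable def hom_id_V {k : ℕ} (v : E k → E k) (p : ℝ × E k) (i : I k) : ℝ := (v p.2).ofLp i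
noncomputable def hom_id_t {k : ℕ} (v : E k → E k) (p : ℝ × E k) : ℝ :=
  hom_id_x p ⬝ᵥ hom_id_V v p
noncomputable def hom_id_R {k : ℕ} (p : ℝ × E k) : ℝ := (hom_id_x p ⬝ᵥ hom_id_x p) / 2
noncomputable def hom_id_dx {k : ℕ} (p : ℝ × E k) (i : I k) : (ℝ × E k) →L[ℝ] ℝ :=
  p.1⁻¹ • ((EuclideanSpace.proj i : E k →L[ℝ] ℝ).comp (ContinuousLinearMap.snd ℝ ℝ (E k)))
    - (p.2.ofLp i / p.1 ^ 2) • ContinuousLinearMap.fst ℝ ℝ (E k)
noncomputable def hom_id_dv {k : ℕ} (v : E k → E k) (p : ℝ × E k) (i : I k) :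
    (ℝ × E k) →L[ℝ] ℝ :=
  ((EuclideanSpace.proj i : E k →L[ℝ] ℝ).comp (fderiv ℝ v p.2)).comp
    (ContinuousLinearMap.snd ℝ ℝ (E k))
noncomputable def hom_id_dt {k : ℕ} (v : E k → E k) (p : ℝ × E k) : (ℝ × E k) →L[ℝ] ℝ :=
  ∑ i, (hom_id_x p i • hom_id_dv v p i + hom_id_V v p i • hom_id_dx p i)
noncomputable def hom_id_dR {k : ℕ} (p : ℝ × E k) : (ℝ × E k) →L[ℝ] ℝ :=
  ∑ i, hom_id_x p i • hom_id_dx p i

theorem hom_id_hx {k : ℕ} (p : ℝ × E k) (hp : p.1 ≠ 0) (i : I k) :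
    HasFDerivAt (fun p : ℝ × E k => hom_id_x p i) (hom_id_dx p i) p := by
  have h1 : HasFDerivAt (fun p : ℝ × E k => p.1⁻¹)
      ((-(p.1 ^ 2)⁻¹) • ContinuousLinearMap.fst ℝ ℝ (E k)) p :=
    (hasDerivAt_inv hp).comp_hasFDerivAt p hasFDerivAt_fst
  have h2 : HasFDerivAt (fun p : ℝ × E k => p.2.ofLp i)
      ((EuclideanSpace.proj i : E k →L[ℝ] ℝ).comp (ContinuousLinearMap.snd ℝ ℝ (E k))) p :=
    ((EuclideanSpace.proj i : E k →L[ℝ] ℝ).comp
      (ContinuousLinearMap.snd ℝ ℝ (E k))).hasFDerivAt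
  have h3 := h1.mul h2
  refine h3.congr_fderiv ?_
  unfold hom_id_dx
  ext q
  · simp
    field_simp
  · simp

theorem hom_id_hV {k : ℕ} (v : E k → E k) (hv : ContDiff ℝ ∞ v) (p : ℝ × E k) (i : I k) :
    HasFDerivAt (fun p : ℝ × E k => hom_id_V v p i) (hom_id_dv v p i) p := by
  have h1 : HasFDerivAt v (fderiv ℝ v p.2) p.2 :=
    ((hv.differentiable (by simp)) p.2).hasFDerivAt
  have h2 : HasFDerivAt (fun y : E k => y.ofLp i) (EuclideanSpace.proj i : E k →L[ℝ] ℝ) (v p.2) :=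
    (EuclideanSpace.proj i : E k →L[ℝ] ℝ).hasFDerivAt
  have h3 : HasFDerivAt (fun p : ℝ × E k => p.2) (ContinuousLinearMap.snd ℝ ℝ (E k)) p :=
    hasFDerivAt_snd
  have h4 := (h2.comp p.2 h1).comp p h3
  exact h4

theorem hom_id_ht {k : ℕ} (v : E k → E k) (hv : ContDiff ℝ ∞ v) (p : ℝ × E k) (hp : p.1 ≠ 0) :
    HasFDerivAt (hom_id_t v) (hom_id_dt v p) p := by
  unfold hom_id_t hom_id_dt dotProduct
  exact HasFDerivAt.fun_sum (fun i _ => (hom_id_hx p hp i).mul (hom_id_hV v hv p i))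

theorem hom_id_hR {k : ℕ} (p : ℝ × E k) (hp : p.1 ≠ 0) :
    HasFDerivAt (hom_id_R (k := k)) (hom_id_dR p) p := by
  unfold hom_id_R hom_id_dR dotProduct
  have h1 : HasFDerivAt (fun p : ℝ × E k => ∑ i, hom_id_x p i * hom_id_x p i)
      (∑ i, (hom_id_x p i • hom_id_dx p i + hom_id_x p i • hom_id_dx p i)) p :=
    HasFDerivAt.fun_sum (fun i _ => (hom_id_hx p hp i).mul (hom_id_hx p hp i))
  have h2 := h1.mul_const (2⁻¹ : ℝ)
  have e1 : (fun p : ℝ × E k => (∑ i, hom_id_x p i * hom_id_x p i) / 2) =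
      fun p : ℝ × E k => (∑ i, hom_id_x p i * hom_id_x p i) * 2⁻¹ := by
    funext p
    rw [div_eq_mul_inv]
  rw [e1]
  refine h2.congr_fderiv ?_
  rw [Finset.smul_sum]
  refine Finset.sum_congr rfl (fun i _ => ?_)
  module

theorem hom_id_Rnn {k : ℕ} (p : ℝ × E k) : -1 / 2 < hom_id_R p := by
  have h : 0 ≤ hom_id_x p ⬝ᵥ hom_id_x p := by
    unfold dotProduct
    exact Finset.sum_nonneg (fun i _ => mul_self_nonneg _)
  unfold hom_id_R
  linarith

/-- chain rule -/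
theorem hom_id_chain {k : ℕ} (g : ℝ → ℝ → ℝ)
    (hg : ContDiffOn ℝ ∞ (fun p : ℝ × ℝ => g p.1 p.2) {p | -1 / 2 < p.2})
    (v : E k → E k) (hv : ContDiff ℝ ∞ v) (p : ℝ × E k) (hp : p.1 ≠ 0) :
    HasFDerivAt (fun p => g (hom_id_t v p) (hom_id_R p))
      (deriv (fun t => g t (hom_id_R p)) (hom_id_t v p) • hom_id_dt v p
        + deriv (fun R => g (hom_id_t v p) R) (hom_id_R p) • hom_id_dR p) p := by
  have hopen : IsOpen {p : ℝ × ℝ | -1 / 2 < p.2} := isOpen_lt continuous_const continuous_snd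
  have hmem : ((hom_id_t v p, hom_id_R p) : ℝ × ℝ) ∈ {p : ℝ × ℝ | -1 / 2 < p.2} :=
    hom_id_Rnn p
  have hd : DifferentiableAt ℝ (fun p : ℝ × ℝ => g p.1 p.2) (hom_id_t v p, hom_id_R p) :=
    (hg.contDiffAt (hopen.mem_nhds hmem)).differentiableAt (by simp)
  set G : ℝ × ℝ → ℝ := fun p => g p.1 p.2 with hG
  have hG' := hd.hasFDerivAt
  set L := fderiv ℝ G (hom_id_t v p, hom_id_R p) with hL
  have h1 : HasFDerivAt (fun p => ((hom_id_t v p, hom_id_R p) : ℝ × ℝ))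
      ((hom_id_dt v p).prod (hom_id_dR p)) p := (hom_id_ht v hv p hp).prodMk (hom_id_hR p hp)
  have h2 : HasFDerivAt (fun p => G (hom_id_t v p, hom_id_R p))
      (L.comp ((hom_id_dt v p).prod (hom_id_dR p))) p :=
    HasFDerivAt.comp (g := G) (f := fun p => ((hom_id_t v p, hom_id_R p) : ℝ × ℝ)) p hG' h1
  have h3 : HasDerivAt (fun t => g t (hom_id_R p)) (L (1, 0)) (hom_id_t v p) := by
    have h4 : HasDerivAt (fun t : ℝ => ((t, hom_id_R p) : ℝ × ℝ)) (1, 0) (hom_id_t v p) :=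
      (hasDerivAt_id _).prodMk (hasDerivAt_const _ _)
    exact hG'.comp_hasDerivAt (hom_id_t v p) h4
  have h3' : HasDerivAt (fun R => g (hom_id_t v p) R) (L (0, 1)) (hom_id_R p) := by
    have h4 : HasDerivAt (fun R : ℝ => ((hom_id_t v p, R) : ℝ × ℝ)) (0, 1) (hom_id_R p) :=
      (hasDerivAt_const _ _).prodMk (hasDerivAt_id _)
    exact hG'.comp_hasDerivAt (hom_id_R p) h4
  rw [h3.deriv, h3'.deriv]
  refine HasFDerivAt.congr_fderiv (f := fun p => g (hom_id_t v p) (hom_id_R p)) h2 ?_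
  apply ContinuousLinearMap.ext
  intro q
  have e1 : ((hom_id_dt v p q, hom_id_dR p q) : ℝ × ℝ) =
      (hom_id_dt v p q) • ((1, 0) : ℝ × ℝ) + (hom_id_dR p q) • ((0, 1) : ℝ × ℝ) := by
    simp
  show L (hom_id_dt v p q, hom_id_dR p q) = L (1, 0) * hom_id_dt v p q + L (0, 1) * hom_id_dR p q
  rw [e1, map_add, map_smul, map_smul, smul_eq_mul, smul_eq_mul]
  ring

noncomputable def hom_id_w {k : ℕ} (v : E k → E k) (m : ℝ) (p : ℝ × E k) : Unit ⊕ I k → ℝ :=
  fun α => Sum.elim (fun _ => hom_id_t v p) (fun i => hom_id_x p i + m * hom_id_V v p i) α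

noncomputable def hom_id_Y {k : ℕ} (C : Coef k) (v : E k → E k) (m : Fin (2 * k + 2))
    (p : ℝ × E k) : Unit ⊕ I k → ℝ :=
  fun α => Sum.elim (fun _ => C.a m (hom_id_t v p) (hom_id_R p))
    (fun i => -(C.b m (hom_id_t v p) (hom_id_R p) * hom_id_V v p i +
      C.c m (hom_id_t v p) (hom_id_R p) * (hom_id_x p i + (m : ℝ) * hom_id_V v p i))) α

theorem hom_id_dw {k : ℕ} (v : E k → E k) (hv : ContDiff ℝ ∞ v) (m : ℝ) (p : ℝ × E k)
    (hp : p.1 ≠ 0) (q : ℝ × E k) (α : Unit ⊕ I k) :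
    fderiv ℝ (hom_id_w v m) p q α =
      Sum.elim (fun _ => hom_id_dt v p q)
        (fun i => hom_id_dx p i q + m * hom_id_dv v p i q) α := by
  have h : HasFDerivAt (hom_id_w v m) (ContinuousLinearMap.pi (fun α : Unit ⊕ I k =>
      (Sum.elim (fun _ => hom_id_dt v p) (fun i => hom_id_dx p i + m • hom_id_dv v p i) α :
        (ℝ × E k) →L[ℝ] ℝ))) p := by
    rw [hasFDerivAt_pi]
    rintro (_ | i)
    · exact hom_id_ht v hv p hp
    · exact (hom_id_hx p hp i).add ((hom_id_hV v hv p i).const_mul m)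
  rw [h.fderiv]
  rcases α with _ | i
  · rfl
  · rfl

theorem hom_id_dY {k : ℕ} (C : Coef k) (v : E k → E k) (hv : ContDiff ℝ ∞ v)
    (m : Fin (2 * k + 2)) (p : ℝ × E k) (hp : p.1 ≠ 0) (q : ℝ × E k) (α : Unit ⊕ I k) :
    fderiv ℝ (hom_id_Y C v m) p q α =
      Sum.elim
        (fun _ => deriv (fun t => C.a m t (hom_id_R p)) (hom_id_t v p) * hom_id_dt v p q +
          deriv (fun R => C.a m (hom_id_t v p) R) (hom_id_R p) * hom_id_dR p q)
        (fun i => -((deriv (fun t => C.b m t (hom_id_R p)) (hom_id_t v p) * hom_id_dt v p q +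
            deriv (fun R => C.b m (hom_id_t v p) R) (hom_id_R p) * hom_id_dR p q) * hom_id_V v p i
            + C.b m (hom_id_t v p) (hom_id_R p) * hom_id_dv v p i q
            + (deriv (fun t => C.c m t (hom_id_R p)) (hom_id_t v p) * hom_id_dt v p q +
              deriv (fun R => C.c m (hom_id_t v p) R) (hom_id_R p) * hom_id_dR p q)
              * (hom_id_x p i + (m:ℝ) * hom_id_V v p i)
            + C.c m (hom_id_t v p) (hom_id_R p) *
              (hom_id_dx p i q + (m:ℝ) * hom_id_dv v p i q))) α := by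
  have ha := hom_id_chain (C.a m) (C.sma m) v hv p hp
  have hb := hom_id_chain (C.b m) (C.smb m) v hv p hp
  have hc := hom_id_chain (C.c m) (C.smc m) v hv p hp
  have hi : ∀ i, HasFDerivAt (fun p => -(C.b m (hom_id_t v p) (hom_id_R p) * hom_id_V v p i +
      C.c m (hom_id_t v p) (hom_id_R p) * (hom_id_x p i + (m : ℝ) * hom_id_V v p i))) _ p :=
    fun i => ((hb.mul (hom_id_hV v hv p i)).add
      (hc.mul ((hom_id_hx p hp i).add ((hom_id_hV v hv p i).const_mul (m : ℝ))))).neg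
  have hdiff : DifferentiableAt ℝ (hom_id_Y C v m) p := by
    rw [differentiableAt_pi]
    rintro (_ | i)
    · exact ha.differentiableAt
    · exact (hi i).differentiableAt
  have hproj : ∀ α, fderiv ℝ (hom_id_Y C v m) p q α =
      fderiv ℝ (fun p => hom_id_Y C v m p α) p q := by
    intro α
    have h := (hasFDerivAt_pi'.mp hdiff.hasFDerivAt) α
    rw [h.fderiv]
    rfl
  rw [hproj]
  rcases α with _ | i
  · have : (fun p => hom_id_Y C v m p (Sum.inl ())) =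
        fun p => C.a m (hom_id_t v p) (hom_id_R p) := rfl
    show fderiv ℝ (fun p => hom_id_Y C v m p (Sum.inl ())) p q = _
    rw [this, ha.fderiv]
    rfl
  · have : (fun p => hom_id_Y C v m p (Sum.inr i)) = fun p =>
        -(C.b m (hom_id_t v p) (hom_id_R p) * hom_id_V v p i +
      C.c m (hom_id_t v p) (hom_id_R p) * (hom_id_x p i + (m : ℝ) * hom_id_V v p i)) := rfl
    rw [this, (hi i).fderiv]
    have hbeta : ((fun p => hom_id_x p i) + fun y => (m : ℝ) * hom_id_V v y i) p =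
        hom_id_x p i + (m : ℝ) * hom_id_V v p i := rfl
    rw [hbeta]
    simp only [_root_.neg_apply, _root_.add_apply, _root_.smul_apply, smul_eq_mul, Sum.elim_inr]
    ring

theorem hom_id_smx {k : ℕ} (p : ℝ × E k) (hp : p.1 ≠ 0) (i : I k) :
    ContDiffAt ℝ ∞ (fun p : ℝ × E k => hom_id_x p i) p := by
  unfold hom_id_x
  have h1 : ContDiffAt ℝ ∞ (fun p : ℝ × E k => p.1⁻¹) p := contDiffAt_fst.inv hp
  have h2 : ContDiffAt ℝ ∞ (fun p : ℝ × E k => p.2.ofLp i) p :=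
    ((EuclideanSpace.proj i : E k →L[ℝ] ℝ).comp
      (ContinuousLinearMap.snd ℝ ℝ (E k))).contDiff.contDiffAt
  exact h1.mul h2

theorem hom_id_smV {k : ℕ} (v : E k → E k) (hv : ContDiff ℝ ∞ v) (p : ℝ × E k) (i : I k) :
    ContDiffAt ℝ ∞ (fun p : ℝ × E k => hom_id_V v p i) p := by
  have h1 : ContDiff ℝ ∞ (fun p : ℝ × E k => v p.2) := hv.comp contDiff_snd
  have h2 : ContDiff ℝ ∞ (fun p : ℝ × E k => (EuclideanSpace.proj i : E k →L[ℝ] ℝ) (v p.2)) :=
    (EuclideanSpace.proj i : E k →L[ℝ] ℝ).contDiff.comp h1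
  exact h2.contDiffAt

theorem hom_id_smt {k : ℕ} (v : E k → E k) (hv : ContDiff ℝ ∞ v) (p : ℝ × E k)
    (hp : p.1 ≠ 0) : ContDiffAt ℝ ∞ (hom_id_t v) p := by
  unfold hom_id_t dotProduct
  exact ContDiffAt.sum (fun i _ => (hom_id_smx p hp i).mul (hom_id_smV v hv p i))

theorem hom_id_smR {k : ℕ} (p : ℝ × E k)
    (hp : p.1 ≠ 0) : ContDiffAt ℝ ∞ (hom_id_R (k := k)) p := by
  unfold hom_id_R dotProduct
  exact (ContDiffAt.sum (fun i _ => (hom_id_smx p hp i).mul (hom_id_smx p hp i))).div_const 2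

theorem hom_id_smg {k : ℕ} (g : ℝ → ℝ → ℝ)
    (hg : ContDiffOn ℝ ∞ (fun p : ℝ × ℝ => g p.1 p.2) {p | -1 / 2 < p.2})
    (v : E k → E k) (hv : ContDiff ℝ ∞ v) (p : ℝ × E k) (hp : p.1 ≠ 0) :
    ContDiffAt ℝ ∞ (fun p => g (hom_id_t v p) (hom_id_R p)) p := by
  have hopen : IsOpen {p : ℝ × ℝ | -1 / 2 < p.2} := isOpen_lt continuous_const continuous_snd
  have hmem : ((hom_id_t v p, hom_id_R p) : ℝ × ℝ) ∈ {p : ℝ × ℝ | -1 / 2 < p.2} :=
    hom_id_Rnn p
  have hd := hg.contDiffAt (hopen.mem_nhds hmem)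
  have h1 : ContDiffAt ℝ ∞ (fun p => ((hom_id_t v p, hom_id_R p) : ℝ × ℝ)) p :=
    (hom_id_smt v hv p hp).prodMk (hom_id_smR p hp)
  set G : ℝ × ℝ → ℝ := fun p => g p.1 p.2 with hG
  have h2 : ContDiffAt ℝ ∞ (fun p => G (hom_id_t v p, hom_id_R p)) p :=
    ContDiffAt.comp (g := G) (f := fun p => ((hom_id_t v p, hom_id_R p) : ℝ × ℝ)) p hd h1
  exact h2

theorem hom_id_smw {k : ℕ} (v : E k → E k) (hv : ContDiff ℝ ∞ v) (m : ℝ) (p : ℝ × E k)
    (hp : p.1 ≠ 0) : ContDiffAt ℝ ∞ (hom_id_w v m) p := by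
  rw [contDiffAt_pi]
  rintro (_ | i)
  · exact hom_id_smt v hv p hp
  · exact (hom_id_smx p hp i).add (contDiffAt_const.mul (hom_id_smV v hv p i))

theorem hom_id_smY {k : ℕ} (C : Coef k) (v : E k → E k) (hv : ContDiff ℝ ∞ v)
    (m : Fin (2 * k + 2)) (p : ℝ × E k) (hp : p.1 ≠ 0) :
    ContDiffAt ℝ ∞ (hom_id_Y C v m) p := by
  rw [contDiffAt_pi]
  rintro (_ | i)
  · exact hom_id_smg (C.a m) (C.sma m) v hv p hp
  · exact (((hom_id_smg (C.b m) (C.smb m) v hv p hp).mul (hom_id_smV v hv p i)).add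
      ((hom_id_smg (C.c m) (C.smc m) v hv p hp).mul
        ((hom_id_smx p hp i).add (contDiffAt_const.mul (hom_id_smV v hv p i))))).neg

theorem hom_id_det {k : ℕ} (C : Coef k) (v : E k → E k) (hv : ContDiff ℝ ∞ v)
    (p : ℝ × E k) (hp : p.1 ≠ 0) (q : I k → ℝ × E k) :
    ∑ m : Fin (2 * k + 2), (Matrix.of (fun α β => Sum.elim (fun _ => hom_id_Y C v m p α)
      (fun j => fderiv ℝ (hom_id_w v (m : ℝ)) p (q j) α) β) :
        Matrix (Unit ⊕ I k) (Unit ⊕ I k) ℝ).det =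
    Om C (hom_id_x p) (hom_id_V v p) (fun i j => hom_id_dx p i (q j))
      (fun i j => hom_id_dv v p i (q j)) := by
  unfold Om
  refine Finset.sum_congr rfl (fun m _ => ?_)
  rw [← block_det]
  congr 1
  ext α β
  rcases α with _ | i <;> rcases β with _ | j
  · rfl
  · simp only [Matrix.of_apply, Sum.elim_inl, Sum.elim_inr]
    rw [hom_id_dw v hv _ p hp, Sum.elim_inl]
    unfold hom_id_dt Matrix.vecMul dotProduct
    rw [_root_.sum_apply, Pi.add_apply, ← Finset.sum_add_distrib]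
    refine Finset.sum_congr rfl (fun i _ => ?_)
    simp only [_root_.add_apply, _root_.smul_apply, smul_eq_mul]
    ring
  · rfl
  · simp only [Matrix.of_apply, Sum.elim_inl, Sum.elim_inr]
    rw [hom_id_dw v hv _ p hp, Sum.elim_inr]
    rfl

theorem hom_id_Lm {k : ℕ} (C : Coef k) (v : E k → E k) (hv : ContDiff ℝ ∞ v)
    (p : ℝ × E k) (hp : p.1 ≠ 0) :
    ∑ m : Fin (2 * k + 2), (bM (hom_id_w v (m : ℝ)) (hom_id_Y C v m) p).det =
      Lm C v p.1 p.2 := by
  have h := hom_id_det C v hv p hp (fun j => eb (Sum.inr j))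
  unfold Lm
  have e1 : (fun i j => hom_id_dx p i (eb (Sum.inr j)) : Matrix (I k) (I k) ℝ) =
      p.1⁻¹ • (1 : Matrix (I k) (I k) ℝ) := by
    ext i j
    unfold hom_id_dx eb
    simp [Matrix.one_apply, Pi.single_apply]
  have e2 : (fun i j => hom_id_dv v p i (eb (Sum.inr j)) : Matrix (I k) (I k) ℝ) =
      Jm v p.2 := by
    ext i j
    rfl
  rw [e1, e2] at h
  exact h

theorem hom_id_Fx {k : ℕ} (C : Coef k) (v : E k → E k) (hv : ContDiff ℝ ∞ v)
    (p : ℝ × E k) (hp : p.1 ≠ 0) (j : I k) :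
    ∑ m : Fin (2 * k + 2), ((bM (hom_id_w v (m : ℝ)) (hom_id_Y C v m) p).updateCol (Sum.inr j)
      (fun α => fderiv ℝ (hom_id_w v (m : ℝ)) p (eb (Sum.inl ())) α)).det =
      Fx C v p.1 j p.2 := by
  have h := hom_id_det C v hv p hp
    (Function.update (fun j => eb (Sum.inr j)) j (eb (Sum.inl ())))
  unfold Fx
  have e1 : (fun i j' => hom_id_dx p i (Function.update (fun j => eb (Sum.inr j)) j
      (eb (Sum.inl ())) j') : Matrix (I k) (I k) ℝ) =
      (p.1⁻¹ • (1 : Matrix (I k) (I k) ℝ)).updateCol j (fun i => -(p.2 i) / p.1 ^ 2) := by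
    ext i j'
    by_cases hj : j' = j
    · subst hj
      rw [Function.update_self, Matrix.updateCol_self]
      unfold hom_id_dx eb
      simp
      ring
    · rw [Function.update_of_ne hj, Matrix.updateCol_ne hj]
      unfold hom_id_dx eb
      simp [Matrix.one_apply, Pi.single_apply]
  have e2 : (fun i j' => hom_id_dv v p i (Function.update (fun j => eb (Sum.inr j)) j
      (eb (Sum.inl ())) j') : Matrix (I k) (I k) ℝ) =
      (Jm v p.2).updateCol j (fun _ => 0) := by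
    ext i j'
    by_cases hj : j' = j
    · subst hj
      rw [Function.update_self, Matrix.updateCol_self]
      unfold hom_id_dv eb
      simp
    · rw [Function.update_of_ne hj, Matrix.updateCol_ne hj]
      rfl
  rw [e1, e2] at h
  refine Eq.trans (Finset.sum_congr rfl (fun m _ => ?_)) h
  congr 1
  ext α β
  rcases β with _ | j'
  · rw [Matrix.updateCol_ne (by simp)]
    rfl
  · by_cases hj : j' = j
    · subst hj
      rw [Matrix.updateCol_self]
      simp only [Matrix.of_apply, Sum.elim_inr, Function.update_self]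
    · rw [Matrix.updateCol_ne (by simpa using hj)]
      simp only [Matrix.of_apply, Sum.elim_inr, Function.update_of_ne hj]
      rfl

theorem hom_id_alg {k : ℕ} (C : Coef k) (v : E k → E k) (hv : ContDiff ℝ ∞ v)
    (h1 : ∀ z, ‖v z‖ = 1) (p : ℝ × E k) (hp : p.1 ≠ 0) :
    ∑ m : Fin (2 * k + 2), ∑ β : Unit ⊕ I k,
      ((Matrix.of (fun α β => fderiv ℝ (hom_id_w v (m : ℝ)) p (eb β) α) :
        Matrix (Unit ⊕ I k) (Unit ⊕ I k) ℝ).updateCol β
          (fun α => fderiv ℝ (hom_id_Y C v m) p (eb β) α)).det = 0 := by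
  have hVV : ∀ p : ℝ × E k, hom_id_V v p ⬝ᵥ hom_id_V v p = 1 := by
    intro p
    have h2 := h1 p.2
    have h3 : ‖v p.2‖ ^ 2 = 1 := by rw [h2]; norm_num
    rw [EuclideanSpace.real_norm_sq_eq] at h3
    rw [← h3]
    unfold dotProduct hom_id_V
    exact Finset.sum_congr rfl (fun i _ => by ring)
  set X : Matrix (I k) (Unit ⊕ I k) ℝ := fun i β => hom_id_dx p i (eb β) with hX
  set Y : Matrix (I k) (Unit ⊕ I k) ℝ := fun i β => hom_id_dv v p i (eb β) with hY
  have hVY : hom_id_V v p ᵥ* Y = 0 := by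
    have h2 : HasFDerivAt (fun p : ℝ × E k => ∑ i, hom_id_V v p i * hom_id_V v p i)
        (∑ i, (hom_id_V v p i • hom_id_dv v p i + hom_id_V v p i • hom_id_dv v p i)) p :=
      HasFDerivAt.fun_sum (fun i _ => (hom_id_hV v hv p i).mul (hom_id_hV v hv p i))
    have h3 : (fun p : ℝ × E k => ∑ i, hom_id_V v p i * hom_id_V v p i) = fun _ => 1 := by
      funext p
      exact hVV p
    rw [h3] at h2
    have h4 := h2.unique (hasFDerivAt_const (1 : ℝ) p)
    funext β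
    have h5 := congrArg (fun L => L (eb β)) h4
    simp only [_root_.sum_apply, _root_.add_apply, _root_.smul_apply, smul_eq_mul, _root_.zero_apply,
      Finset.sum_add_distrib] at h5
    show ∑ i, hom_id_V v p i * hom_id_dv v p i (eb β) = 0
    linarith
  have hT : hom_id_V v p ᵥ* X + hom_id_x p ᵥ* Y = fun β => hom_id_dt v p (eb β) := by
    funext β
    unfold hom_id_dt
    rw [_root_.sum_apply, Pi.add_apply]
    show (∑ i, hom_id_V v p i * hom_id_dx p i (eb β)) +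
      (∑ i, hom_id_x p i * hom_id_dv v p i (eb β)) = _
    rw [← Finset.sum_add_distrib]
    refine Finset.sum_congr rfl (fun i _ => ?_)
    simp only [_root_.add_apply, _root_.smul_apply, smul_eq_mul]
    ring
  have hRh : hom_id_x p ᵥ* X = fun β => hom_id_dR p (eb β) := by
    funext β
    unfold hom_id_dR
    rw [_root_.sum_apply]
    show (∑ i, hom_id_x p i * hom_id_dx p i (eb β)) = _
    refine Finset.sum_congr rfl (fun i _ => ?_)
    simp only [_root_.smul_apply, smul_eq_mul]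
  have h := alg_closed C (hom_id_x p) (hom_id_V v p) (hVV p) X Y hVY (hom_id_t v p) (hom_id_R p)
    rfl rfl _ _ hT.symm hRh.symm
  refine Eq.trans (Finset.sum_congr rfl (fun m _ => Finset.sum_congr rfl (fun β _ => ?_))) h
  have e1 : (Matrix.of (fun α β => fderiv ℝ (hom_id_w v (m : ℝ)) p (eb β) α) :
        Matrix (Unit ⊕ I k) (Unit ⊕ I k) ℝ) = Xi (hom_id_x p) (hom_id_V v p) X Y (m : ℝ) := by
    ext α β'
    rw [Matrix.of_apply, hom_id_dw v hv _ p hp]
    unfold Xi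
    rw [hT]
  rw [e1]
  congr 2
  funext α
  rw [hom_id_dY C v hv m p hp]

/-- HOMOTOPY IDENTITY -/
theorem hom_id {k : ℕ} (C : Coef k) (v : E k → E k) (hv : ContDiff ℝ ∞ v) (h1 : ∀ z, ‖v z‖ = 1)
    (s : ℝ) (hs : 0 < s) (z : E k) :
    HasDerivAt (fun s => Lm C v s z)
      (∑ j : I k, fderiv ℝ (fun z => Fx C v s j z) z (EuclideanSpace.single j 1)) s := by
  have hp : ((s, z) : ℝ × E k).1 ≠ 0 := hs.ne'
  have hopen : IsOpen {p : ℝ × E k | 0 < p.1} := isOpen_lt continuous_const continuous_fst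
  have hmem : ((s, z) : ℝ × E k) ∈ {p : ℝ × E k | 0 < p.1} := hs
  have hev : ∀ᶠ p : ℝ × E k in nhds (s, z), p.1 ≠ 0 :=
    Filter.eventually_of_mem (hopen.mem_nhds hmem) (fun p hp => ne_of_gt hp)
  have hw2 : ∀ m : Fin (2 * k + 2), ContDiffAt ℝ 2 (hom_id_w v (m : ℝ)) (s, z) := fun m =>
    (hom_id_smw v hv (m : ℝ) (s, z) hp).of_le (by norm_cast)
  have hY1 : ∀ m : Fin (2 * k + 2), ContDiffAt ℝ 1 (hom_id_Y C v m) (s, z) := fun m =>
    (hom_id_smY C v hv m (s, z) hp).of_le (by norm_cast)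
  -- Lm
  set FL : ℝ × E k → ℝ := fun p => Lm C v p.1 p.2 with hFL
  have hFLd : DifferentiableAt ℝ FL (s, z) :=
    ((Lm_smooth C v hv).contDiffAt (hopen.mem_nhds hmem)).differentiableAt (by simp)
  have hFLev : FL =ᶠ[nhds (s, z)] fun p => ∑ m : Fin (2 * k + 2),
      (bM (hom_id_w v (m : ℝ)) (hom_id_Y C v m) p).det :=
    hev.mono (fun p hp => (hom_id_Lm C v hv p hp).symm)
  have hL1 : fderiv ℝ FL (s, z) (eb (Sum.inl ())) = ∑ m : Fin (2 * k + 2),
      fderiv ℝ (fun p => (bM (hom_id_w v (m : ℝ)) (hom_id_Y C v m) p).det) (s, z)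
        (eb (Sum.inl ())) := by
    rw [hFLev.fderiv_eq, fderiv_fun_sum (fun m _ => (bM_diff _ _ _ (hw2 m) (hY1 m)).1), _root_.sum_apply]
  have hL2 : HasDerivAt (fun s => Lm C v s z) (fderiv ℝ FL (s, z) (eb (Sum.inl ()))) s := by
    have h4 : HasDerivAt (fun s : ℝ => ((s, z) : ℝ × E k)) (1, 0) s :=
      (hasDerivAt_id _).prodMk (hasDerivAt_const _ _)
    exact hFLd.hasFDerivAt.comp_hasDerivAt s h4
  -- Fx
  have hF : ∀ j : I k, fderiv ℝ (fun z => Fx C v s j z) z (EuclideanSpace.single j 1) =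
      ∑ m : Fin (2 * k + 2), fderiv ℝ (fun p =>
        ((bM (hom_id_w v (m : ℝ)) (hom_id_Y C v m) p).updateCol (Sum.inr j)
          (fun α => fderiv ℝ (hom_id_w v (m : ℝ)) p (eb (Sum.inl ())) α)).det) (s, z)
            (eb (Sum.inr j)) := by
    intro j
    set FF : ℝ × E k → ℝ := fun p => Fx C v p.1 j p.2 with hFF
    have hFFd : DifferentiableAt ℝ FF (s, z) :=
      ((Fx_smooth C v hv j).contDiffAt (hopen.mem_nhds hmem)).differentiableAt (by simp)
    have hFFev : FF =ᶠ[nhds (s, z)] fun p => ∑ m : Fin (2 * k + 2),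
        ((bM (hom_id_w v (m : ℝ)) (hom_id_Y C v m) p).updateCol (Sum.inr j)
          (fun α => fderiv ℝ (hom_id_w v (m : ℝ)) p (eb (Sum.inl ())) α)).det :=
      hev.mono (fun p hp => (hom_id_Fx C v hv p hp j).symm)
    have h5 : HasFDerivAt (fun z : E k => ((s, z) : ℝ × E k))
        ((0 : E k →L[ℝ] ℝ).prod (ContinuousLinearMap.id ℝ (E k))) z :=
      (hasFDerivAt_const s z).prodMk (hasFDerivAt_id z)
    have h6 : HasFDerivAt (fun z => FF (s, z))
        ((fderiv ℝ FF (s, z)).comp ((0 : E k →L[ℝ] ℝ).prod (ContinuousLinearMap.id ℝ (E k)))) z :=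
      HasFDerivAt.comp (g := FF) (f := fun z : E k => ((s, z) : ℝ × E k)) z hFFd.hasFDerivAt h5
    have h7 : fderiv ℝ (fun z => Fx C v s j z) z (EuclideanSpace.single j 1) =
        fderiv ℝ FF (s, z) (eb (Sum.inr j)) := by
      have h8 : fderiv ℝ (fun z => Fx C v s j z) z = _ := h6.fderiv
      rw [h8]
      rfl
    rw [h7, hFFev.fderiv_eq,
      fderiv_fun_sum (fun m _ => (bM_diff _ _ _ (hw2 m) (hY1 m)).2 j), _root_.sum_apply]
  have hpi := fun m : Fin (2 * k + 2) => piola (hom_id_w v (m : ℝ)) (hom_id_Y C v m) (s, z)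
    (hw2 m) (hY1 m)
  have halg := hom_id_alg C v hv h1 (s, z) hp
  have hsum : fderiv ℝ FL (s, z) (eb (Sum.inl ())) =
      ∑ j : I k, fderiv ℝ (fun z => Fx C v s j z) z (EuclideanSpace.single j 1) := by
    rw [hL1, Finset.sum_congr rfl (fun j _ => hF j), Finset.sum_comm, ← sub_eq_zero,
      ← Finset.sum_sub_distrib, Finset.sum_congr rfl (fun m _ => hpi m), halg]
  rw [← hsum]
  exact hL2

end Pool.Agent.Helper608.VF
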