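import Pool.Agent.Helper608.VF.XDefs
import Pool.Agent.Helper608.VF.J_a_param
import Pool.Agent.Helper608.VF.J_h_hom
import Pool.Agent.Helper608.VF.J_h_smooth
set_option autoImplicit false
open Matrix MeasureTheory
open scoped ENNReal ContDiff
open Filter Topology
namespace Pool.Agent.Helper608.VF


lemma J_deriv_aux {k : ℕ} (f : ℝ × E k → ℝ) (hf : ContDiffOn ℝ ∞ f {p | 0 < p.1}) (s : ℝ)
    (hs : 0 < s) : ContDiff ℝ ∞ (fun z => f (s, z)) := by
  have h2 : ContDiff ℝ ∞ (fun z : E k => ((s, z) : ℝ × E k)) := contDiff_const.prodMk contDiff_id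
  have h3 : ∀ z : E k, ((s, z) : ℝ × E k) ∈ {p : ℝ × E k | 0 < p.1} := fun z => hs
  exact hf.comp_contDiff h2 h3

theorem J_deriv {k : ℕ} (C : Coef k) (v : E k → E k) (hv : ContDiff ℝ ∞ v) (h1 : ∀ z, ‖v z‖ = 1)
    (χ ρ : E k → ℝ) (hχ : ContDiff ℝ ∞ χ) (hc : HasCompactSupport χ)
    (hρ : ∀ z h, fderiv ℝ χ z h = ρ z * inner ℝ z h) (s : ℝ) (hs : 0 < s) :
    HasDerivAt (fun s => ∫ z, χ z * Lm C v s z) (-∫ z, ρ z * ∑ j, z j * Fx C v s j z) s := by
  have hd := param_deriv χ hχ.continuous hc (fun s z => Lm C v s z) (Lm_smooth C v hv) s hs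
  have hfx : ∀ j, ContDiff ℝ ∞ (fun z => Fx C v s j z) := by
    intro j
    exact J_deriv_aux (fun p : ℝ × E k => Fx C v p.1 j p.2) (Fx_smooth C v hv j) s hs
  have h2 : (∫ z, χ z * deriv (fun s => Lm C v s z) s) = -∫ z, ρ z * ∑ j, z j * Fx C v s j z := by
    have h3 : ∀ z, deriv (fun s => Lm C v s z) s =
        ∑ j : I k, fderiv ℝ (fun z => Fx C v s j z) z (EuclideanSpace.single j 1) :=
      fun z => (hom_id C v hv h1 s hs z).deriv
    simp_rw [h3]
    rw [int_parts χ hχ hc (fun j z => Fx C v s j z) hfx]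
    congr 1
    congr 1
    funext z
    rw [Finset.mul_sum]
    refine Finset.sum_congr rfl fun j _ => ?_
    rw [hρ, EuclideanSpace.inner_single_right]
    simp
    ring
  rw [← h2]
  exact hd

end Pool.Agent.Helper608.VF
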