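import Pool.Agent.Helper608.VF.XDefs
import Pool.Agent.Helper608.VF.J_a_det
set_option autoImplicit false
open Matrix MeasureTheory
open scoped ENNReal ContDiff
open Filter Topology
namespace Pool.Agent.Helper608.VF


theorem dens_bound_cs {n : Type} [Fintype n] (M : Matrix n n ℝ) (m : ℝ)
    (hM : ∀ i j, |M i j| ≤ m) (u : n → ℝ) :
    (u ᵥ* M) ⬝ᵥ (u ᵥ* M) ≤ ((Fintype.card n : ℝ) * m) ^ 2 * (u ⬝ᵥ u) := by
  have h1 : ∀ j, (u ᵥ* M) j * (u ᵥ* M) j ≤ (u ⬝ᵥ u) * ((Fintype.card n : ℝ) * m ^ 2) := by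
    intro j
    have h2 := Finset.sum_mul_sq_le_sq_mul_sq Finset.univ u (fun i => M i j)
    have h3 : (u ᵥ* M) j = ∑ i, u i * M i j := rfl
    have h4 : ∑ i, u i ^ 2 = u ⬝ᵥ u := by
      simp only [dotProduct, sq]
    have h5 : ∑ i, M i j ^ 2 ≤ (Fintype.card n : ℝ) * m ^ 2 := by
      calc ∑ i, M i j ^ 2 ≤ ∑ _i : n, m ^ 2 := Finset.sum_le_sum fun i _ => by
            rw [← sq_abs]
            exact pow_le_pow_left₀ (abs_nonneg _) (hM i j) 2
        _ = _ := by simp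
    have h6 : 0 ≤ u ⬝ᵥ u := by
      rw [← h4]; positivity
    calc (u ᵥ* M) j * (u ᵥ* M) j = (∑ i, u i * M i j) ^ 2 := by rw [h3, sq]
      _ ≤ (∑ i, u i ^ 2) * (∑ i, M i j ^ 2) := h2
      _ = (u ⬝ᵥ u) * (∑ i, M i j ^ 2) := by rw [h4]
      _ ≤ _ := mul_le_mul_of_nonneg_left h5 h6
  calc (u ᵥ* M) ⬝ᵥ (u ᵥ* M) = ∑ j, (u ᵥ* M) j * (u ᵥ* M) j := rfl
    _ ≤ ∑ _j : n, (u ⬝ᵥ u) * ((Fintype.card n : ℝ) * m ^ 2) := Finset.sum_le_sum fun j _ => h1 j
    _ = _ := by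
      simp
      ring

theorem dens_bound_det {n : Type} [Fintype n] [DecidableEq n] (M : Matrix n n ℝ) (V : n → ℝ)
    (hV : V ⬝ᵥ V = 1) (hVM : V ᵥ* M = 0) (c : ℝ) (hc : 0 ≤ c)
    (hb : ∀ u : n → ℝ, (u ᵥ* M) ⬝ᵥ (u ᵥ* M) ≤ c * (u ⬝ᵥ u)) :
    0 ≤ (1 + Mᵀ * M).det ∧ (1 + Mᵀ * M).det * (1 + c) ≤ (1 + c) ^ Fintype.card n := by
  have hcomm : (1 + Mᵀ * M).det = (1 + M * Mᵀ).det := Matrix.det_one_add_mul_comm _ _
  set P : Matrix n n ℝ := 1 + M * Mᵀ + c • vecMulVec V V with hP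
  set S : Matrix n n ℝ := (1 + c) • (1 : Matrix n n ℝ) with hS
  have hMV : Mᵀ *ᵥ V = 0 := by rw [Matrix.mulVec_transpose, hVM]
  have hprod : (1 + M * Mᵀ) * (1 + c • vecMulVec V V) = P := by
    have h1 : M * Mᵀ * (c • vecMulVec V V) = 0 := by
      rw [Matrix.mul_assoc, Matrix.mul_smul, Matrix.mul_vecMulVec, hMV]
      simp
    rw [hP, Matrix.mul_add, Matrix.mul_one, Matrix.add_mul, Matrix.one_mul, h1, add_zero]
  have hdet1 : (1 + c • vecMulVec V V).det = 1 + c := by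
    have h1 : c • vecMulVec V V = vecMulVec (c • V) V := by
      rw [Matrix.smul_vecMulVec]
    rw [h1, Matrix.vecMulVec_eq Unit, Matrix.det_one_add_replicateCol_mul_replicateRow,
      dotProduct_smul, hV]
    simp
  have hquad1 : ∀ u : n → ℝ, u ⬝ᵥ ((M * Mᵀ) *ᵥ u) = (u ᵥ* M) ⬝ᵥ (u ᵥ* M) := by
    intro u
    rw [← Matrix.mulVec_mulVec, Matrix.dotProduct_mulVec, Matrix.mulVec_transpose]
  have hquad2 : ∀ u : n → ℝ, u ⬝ᵥ ((vecMulVec V V) *ᵥ u) = (V ⬝ᵥ u) ^ 2 := by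
    intro u
    rw [Matrix.dotProduct_mulVec, Matrix.vecMul_vecMulVec, smul_dotProduct, dotProduct_comm u V]
    simp [sq]
  have hherm1 : (M * Mᵀ).IsHermitian := by
    unfold Matrix.IsHermitian
    rw [Matrix.conjTranspose_eq_transpose_of_trivial, Matrix.transpose_mul, Matrix.transpose_transpose]
  have hherm2 : (vecMulVec V V).IsHermitian := by
    unfold Matrix.IsHermitian
    ext i j
    simp [vecMulVec_apply, mul_comm]
  have hherm3 : (c • vecMulVec V V).IsHermitian := by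
    unfold Matrix.IsHermitian at hherm2 ⊢
    rw [Matrix.conjTranspose_smul, hherm2]
    simp
  have hherm4 : ((1 + c) • (1 : Matrix n n ℝ)).IsHermitian := by
    unfold Matrix.IsHermitian
    rw [Matrix.conjTranspose_smul]
    simp
  have hPpsd : P.PosSemidef := by
    rw [Matrix.posSemidef_iff_dotProduct_mulVec]
    refine ⟨(Matrix.isHermitian_one.add hherm1).add hherm3, fun u => ?_⟩
    rw [star_trivial, hP, Matrix.add_mulVec, Matrix.add_mulVec, Matrix.one_mulVec,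
      Matrix.smul_mulVec, dotProduct_add, dotProduct_add, dotProduct_smul, hquad1, hquad2]
    have h1 : 0 ≤ u ⬝ᵥ u := by
      simp only [dotProduct]
      exact Finset.sum_nonneg fun i _ => mul_self_nonneg _
    have h2 : 0 ≤ (u ᵥ* M) ⬝ᵥ (u ᵥ* M) := by
      simp only [dotProduct]
      exact Finset.sum_nonneg fun i _ => mul_self_nonneg _
    have h3 : 0 ≤ c • (V ⬝ᵥ u) ^ 2 := mul_nonneg hc (sq_nonneg _)
    linarith
  have hSP : (S - P).PosSemidef := by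
    rw [Matrix.posSemidef_iff_dotProduct_mulVec]
    refine ⟨hherm4.sub ((Matrix.isHermitian_one.add hherm1).add hherm3), fun u => ?_⟩
    rw [star_trivial, hS, hP, Matrix.sub_mulVec, Matrix.add_mulVec, Matrix.add_mulVec,
      Matrix.smul_mulVec, Matrix.one_mulVec,
      Matrix.smul_mulVec, dotProduct_sub, dotProduct_add, dotProduct_add, dotProduct_smul,
      dotProduct_smul, hquad1, hquad2]
    set q := V ⬝ᵥ u with hq
    have h1 := hb (u - q • V)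
    have h2 : (u - q • V) ᵥ* M = u ᵥ* M := by
      rw [Matrix.sub_vecMul, Matrix.smul_vecMul, hVM, smul_zero, sub_zero]
    have h3 : (u - q • V) ⬝ᵥ (u - q • V) = u ⬝ᵥ u - q ^ 2 := by
      rw [sub_dotProduct, dotProduct_sub, dotProduct_sub, smul_dotProduct, smul_dotProduct,
        dotProduct_smul, dotProduct_smul, hV, dotProduct_comm u V, ← hq]
      simp only [smul_eq_mul]
      ring
    rw [h2, h3] at h1
    simp only [smul_eq_mul]
    linarith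
  have hdm := det_mono P S hPpsd hSP
  have hSdet : S.det = (1 + c) ^ Fintype.card n := by
    rw [hS, Matrix.det_smul, Matrix.det_one, mul_one]
  have hPdet : P.det = (1 + M * Mᵀ).det * (1 + c) := by
    rw [← hprod, Matrix.det_mul, hdet1]
  have hc1 : 0 < 1 + c := by linarith
  refine ⟨?_, ?_⟩
  · rw [hcomm]
    have h1 := hdm.1
    rw [hPdet] at h1
    exact nonneg_of_mul_nonneg_left h1 hc1
  · rw [hcomm, ← hPdet, ← hSdet]
    exact hdm.2

theorem dens_bound (k : ℕ) (C0 : ℝ) (hC0 : 0 ≤ C0) : ∃ C1 : ℝ, 0 ≤ C1 ∧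
    ∀ (x : E k) (V : I k → ℝ) (B : Matrix (I k) (I k) ℝ), V ⬝ᵥ V = 1 → V ᵥ* B = 0 →
      (∀ i j, |B i j| ≤ C0 / (1 + ‖x‖)) → dens x.ofLp V B ≤ C1 * (1 + ‖x‖) ^ (-((2 * k + 3 : ℕ) : ℝ)) := by
  set K : ℝ := (2 * k + 2 : ℕ) * (C0 / 2 + 2) with hK
  have hK0 : 0 ≤ K := by positivity
  refine ⟨(1 + K) ^ (2 * k + 1) * 4 ^ (2 * k + 2), by positivity, ?_⟩
  intro x V B hV hVB hB
  set r : ℝ := ‖x‖ with hr
  have hr0 : 0 ≤ r := norm_nonneg x
  have hxx : x.ofLp ⬝ᵥ x.ofLp = r ^ 2 := by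
    rw [hr, EuclideanSpace.real_norm_sq_eq]
    simp only [dotProduct, sq]
  set M := Mm x.ofLp V B with hM
  have hlam : lam ((x.ofLp ⬝ᵥ x.ofLp) / 2) = (1 + r ^ 2) / 2 := by
    unfold lam
    rw [hxx]; ring
  have hxV : |x.ofLp ⬝ᵥ V| ≤ r := by
    have h1 := Finset.sum_mul_sq_le_sq_mul_sq Finset.univ x.ofLp V
    have h2 : ∑ i, x.ofLp i ^ 2 = r ^ 2 := by
      rw [← hxx]; simp only [dotProduct, sq]
    have h3 : ∑ i, V i ^ 2 = 1 := by
      rw [← hV]; simp only [dotProduct, sq]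
    rw [h2, h3, mul_one] at h1
    exact abs_le_of_sq_le_sq h1 hr0
  have hxi : ∀ i, |x.ofLp i| ≤ r := by
    intro i
    have h2 : ∑ i, x.ofLp i ^ 2 = r ^ 2 := by
      rw [← hxx]; simp only [dotProduct, sq]
    refine abs_le_of_sq_le_sq ?_ hr0
    rw [← h2]
    exact Finset.single_le_sum (f := fun i => x.ofLp i ^ 2) (fun i _ => sq_nonneg _) (Finset.mem_univ i)
  have hVi : ∀ i, |V i| ≤ 1 := by
    intro i
    have h3 : ∑ i, V i ^ 2 = 1 := by
      rw [← hV]; simp only [dotProduct, sq]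
    refine abs_le_of_sq_le_sq ?_ zero_le_one
    rw [one_pow, ← h3]
    exact Finset.single_le_sum (f := fun i => V i ^ 2) (fun i _ => sq_nonneg _) (Finset.mem_univ i)
  have hVM : V ᵥ* M = 0 := by
    rw [hM]
    unfold Mm
    rw [Matrix.vecMul_add, Matrix.vecMul_sub, Matrix.vecMul_smul, Matrix.vecMul_smul, hVB,
      Matrix.vecMul_one, Matrix.vecMul_vecMulVec, dotProduct_comm V]
    simp
  have hMij : ∀ i j, |M i j| ≤ (C0 / 2 + 2) * (1 + r) := by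
    intro i j
    have h1 : M i j = (1 + r ^ 2) / 2 * B i j - (x.ofLp ⬝ᵥ V) * (1 : Matrix (I k) (I k) ℝ) i j +
        x.ofLp i * V j := by
      rw [hM]
      unfold Mm
      rw [hlam]
      simp [vecMulVec_apply]
    have h2 : |(1 + r ^ 2) / 2 * B i j| ≤ C0 / 2 * (1 + r) := by
      rw [abs_mul, abs_of_nonneg (by positivity : (0 : ℝ) ≤ (1 + r ^ 2) / 2)]
      calc (1 + r ^ 2) / 2 * |B i j| ≤ (1 + r ^ 2) / 2 * (C0 / (1 + r)) := by
            have := hB i j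
            gcongr
        _ ≤ (1 + r) ^ 2 / 2 * (C0 / (1 + r)) := by
            gcongr
            nlinarith
        _ = C0 / 2 * (1 + r) := by field_simp
    have h3 : |(x.ofLp ⬝ᵥ V) * (1 : Matrix (I k) (I k) ℝ) i j| ≤ r := by
      rw [abs_mul]
      have h4 : |(1 : Matrix (I k) (I k) ℝ) i j| ≤ 1 := by
        rw [Matrix.one_apply]
        split_ifs <;> simp
      calc _ ≤ r * 1 := mul_le_mul hxV h4 (abs_nonneg _) hr0
        _ = r := mul_one r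
    have h4 : |x.ofLp i * V j| ≤ r := by
      rw [abs_mul]
      calc _ ≤ r * 1 := mul_le_mul (hxi i) (hVi j) (abs_nonneg _) hr0
        _ = r := mul_one r
    rw [h1]
    calc _ ≤ |(1 + r ^ 2) / 2 * B i j - (x.ofLp ⬝ᵥ V) * (1 : Matrix (I k) (I k) ℝ) i j| +
          |x.ofLp i * V j| := abs_add_le _ _
      _ ≤ (|(1 + r ^ 2) / 2 * B i j| + |(x.ofLp ⬝ᵥ V) * (1 : Matrix (I k) (I k) ℝ) i j|) +
          |x.ofLp i * V j| := by gcongr; exact abs_sub _ _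
      _ ≤ (C0 / 2 * (1 + r) + r) + r := by gcongr
      _ ≤ _ := by nlinarith
  have hcard : Fintype.card (I k) = 2 * k + 2 := by simp [I]
  set c : ℝ := (K * (1 + r)) ^ 2 with hc
  have hc0 : 0 ≤ c := sq_nonneg _
  have hb : ∀ u : I k → ℝ, (u ᵥ* M) ⬝ᵥ (u ᵥ* M) ≤ c * (u ⬝ᵥ u) := by
    intro u
    have h1 := dens_bound_cs M _ hMij u
    rw [hcard] at h1
    refine h1.trans (le_of_eq ?_)
    rw [hc, hK]
    ring
  obtain ⟨hd0, hd1⟩ := dens_bound_det M V hV hVM c hc0 hb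
  rw [hcard] at hd1
  have hc1 : 0 < 1 + c := by linarith
  have hd2 : (1 + Mᵀ * M).det ≤ (1 + c) ^ (2 * k + 1) := by
    have : (1 + Mᵀ * M).det * (1 + c) ≤ (1 + c) ^ (2 * k + 1) * (1 + c) := by
      rw [← pow_succ]; exact hd1
    exact le_of_mul_le_mul_right this hc1
  have hc2 : 1 + c ≤ ((1 + K) * (1 + r)) ^ 2 := by
    rw [hc]
    nlinarith [mul_nonneg hK0 hr0, mul_nonneg hK0 (mul_nonneg hr0 hr0), sq_nonneg r, mul_nonneg hK0 (mul_nonneg hK0 hr0)]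
  have hsq : Real.sqrt (1 + Mᵀ * M).det ≤ ((1 + K) * (1 + r)) ^ (2 * k + 1) := by
    rw [Real.sqrt_le_left (by positivity)]
    calc (1 + Mᵀ * M).det ≤ (1 + c) ^ (2 * k + 1) := hd2
      _ ≤ (((1 + K) * (1 + r)) ^ 2) ^ (2 * k + 1) := pow_le_pow_left₀ hc1.le hc2 _
      _ = _ := by rw [← pow_mul, ← pow_mul]; congr 1; ring
  have hlam2 : (1 + r) ^ 2 / 4 ≤ (1 + r ^ 2) / 2 := by
    nlinarith [sq_nonneg (1 - r)]
  have hpos : (0 : ℝ) < (1 + r) ^ 2 / 4 := by positivity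
  have hrpow : (1 + r) ^ (-((2 * k + 3 : ℕ) : ℝ)) = ((1 + r) ^ (2 * k + 3))⁻¹ := by
    rw [Real.rpow_neg (by positivity), Real.rpow_natCast]
  rw [hrpow]
  unfold dens
  rw [← hM, hlam]
  calc Real.sqrt (1 + Mᵀ * M).det / ((1 + r ^ 2) / 2) ^ (2 * k + 2)
      ≤ ((1 + K) * (1 + r)) ^ (2 * k + 1) / ((1 + r) ^ 2 / 4) ^ (2 * k + 2) := by
        gcongr
    _ = (1 + K) ^ (2 * k + 1) * 4 ^ (2 * k + 2) * ((1 + r) ^ (2 * k + 3))⁻¹ := by
        rw [mul_pow, div_pow, ← pow_mul]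
        have e : (1 + r) ^ (2 * (2 * k + 2)) = (1 + r) ^ (2 * k + 1) * (1 + r) ^ (2 * k + 3) := by
          rw [← pow_add]; congr 1; ring
        rw [e]
        have : (1 + r) ^ (2 * k + 1) ≠ 0 := by positivity
        have : (1 + r) ^ (2 * k + 3) ≠ 0 := by positivity
        field_simp

end Pool.Agent.Helper608.VF
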