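import Pool.Agent.Helper608.VF.XDefs
set_option autoImplicit false
open Matrix MeasureTheory
open scoped ENNReal ContDiff
namespace Pool.Agent.Helper608.VF


theorem dens_zero_det {k : ℕ} (x V : I k → ℝ) (hV : V ⬝ᵥ V = 1) :
    (1 + (Mm x V 0)ᵀ * Mm x V 0).det = ((1 + (x ⬝ᵥ V) ^ 2) ^ k) ^ 2 * (1 + x ⬝ᵥ x) := by
  set t := x ⬝ᵥ V with ht
  set r := x ⬝ᵥ x with hr
  have hs : (1 + t ^ 2) ≠ 0 := by positivity
  let A : Matrix (I k) (Fin 2) ℝ := Matrix.of fun i j => ![V i, x i] j
  let B : Matrix (Fin 2) (I k) ℝ := Matrix.of fun j i =>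
    (1 + t ^ 2)⁻¹ * ![-t * x i + r * V i, -t * V i] j
  have hVx : V ⬝ᵥ x = t := by rw [ht, dotProduct_comm]
  have h1 : (1 + (Mm x V 0)ᵀ * Mm x V 0) = (1 + t ^ 2) • (1 + A * B) := by
    have h0 : Mm x V 0 = -(t • (1 : Matrix (I k) (I k) ℝ)) + vecMulVec x V := by
      unfold Mm
      rw [smul_zero, zero_sub]
    rw [h0, Matrix.transpose_add, Matrix.transpose_neg, Matrix.transpose_smul,
      Matrix.transpose_one, Matrix.transpose_vecMulVec]
    have h2 : (-(t • (1 : Matrix (I k) (I k) ℝ)) + vecMulVec V x) *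
        (-(t • (1 : Matrix (I k) (I k) ℝ)) + vecMulVec x V) =
        (t ^ 2) • (1 : Matrix (I k) (I k) ℝ) - t • vecMulVec x V - t • vecMulVec V x +
          r • vecMulVec V V := by
      have h3 : vecMulVec V x * vecMulVec x V = r • vecMulVec V V := by
        rw [Matrix.vecMulVec_mul_vecMulVec]
        ext i j
        simp only [Matrix.vecMulVec_apply, Matrix.smul_apply, Pi.smul_apply, smul_eq_mul, hr,
          MulOpposite.smul_eq_mul_unop]
        try simp
        try ring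
      rw [add_mul, mul_add, mul_add, h3]
      simp only [neg_mul, mul_neg, neg_neg, smul_mul_assoc, mul_smul_comm, one_mul, mul_one,
        smul_smul]
      ext i j
      simp only [Matrix.add_apply, Matrix.sub_apply, Matrix.neg_apply, Matrix.smul_apply,
        smul_eq_mul]
      ring
    rw [h2]
    ext i j
    simp only [A, B, Matrix.add_apply, Matrix.sub_apply, Matrix.smul_apply, smul_eq_mul,
      Matrix.vecMulVec_apply, Matrix.mul_apply, Fin.sum_univ_two, Matrix.of_apply,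
      Matrix.cons_val_zero, Matrix.cons_val_one]
    field_simp
    ring
  have hcard : Fintype.card (I k) = 2 * k + 2 := by
    simp [I]
  rw [h1, Matrix.det_smul, Matrix.det_one_add_mul_comm, hcard]
  have hBA : ∀ a b, (B * A) a b = (1 + t ^ 2)⁻¹ * ![![r - t ^ 2, 0], ![-t, -t ^ 2]] a b := by
    intro a b
    have e1 : ∑ i, V i * V i = 1 := hV
    have e2 : ∑ i, x i * V i = t := rfl
    have e3 : ∑ i, V i * x i = t := hVx
    have e4 : ∑ i, x i * x i = r := rfl
    have key : ∀ (c d : ℝ) (y : I k → ℝ), ∑ i, (1 + t ^ 2)⁻¹ * (c * x i + d * V i) * y i =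
        (1 + t ^ 2)⁻¹ * (c * ∑ i, x i * y i + d * ∑ i, V i * y i) := by
      intro c d y
      rw [Finset.mul_sum, Finset.mul_sum, ← Finset.sum_add_distrib, Finset.mul_sum]
      refine Finset.sum_congr rfl fun i _ => ?_
      ring
    have key' : ∀ (d : ℝ) (y : I k → ℝ), ∑ i, (1 + t ^ 2)⁻¹ * (d * V i) * y i =
        (1 + t ^ 2)⁻¹ * (d * ∑ i, V i * y i) := by
      intro d y
      rw [Finset.mul_sum, Finset.mul_sum]
      refine Finset.sum_congr rfl fun i _ => ?_
      ring
    simp only [A, B, Matrix.mul_apply, Matrix.of_apply]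
    fin_cases a <;> fin_cases b
    · simp only [Fin.zero_eta, Matrix.cons_val_zero]
      rw [key, e2, e1]
      ring
    · simp only [Fin.zero_eta, Fin.mk_one, Matrix.cons_val_zero, Matrix.cons_val_one]
      rw [key, e4, e3]
      ring
    · simp only [Fin.zero_eta, Fin.mk_one, Matrix.cons_val_zero, Matrix.cons_val_one]
      rw [key', e1]
      ring
    · simp only [Fin.mk_one, Matrix.cons_val_one, Matrix.cons_val_zero]
      rw [key', e3]
      ring
  rw [Matrix.det_fin_two]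
  simp only [Matrix.add_apply, hBA, Matrix.one_apply_eq, Matrix.cons_val_zero,
    Matrix.cons_val_one]
  rw [Matrix.one_apply_ne (by decide), Matrix.one_apply_ne (by decide)]
  field_simp
  ring

theorem dens_zero {k : ℕ} (x V : I k → ℝ) (hV : V ⬝ᵥ V = 1) :
    dens x V 0 = (1 + (x ⬝ᵥ V) ^ 2) ^ k * Real.sqrt (1 + x ⬝ᵥ x) / lam ((x ⬝ᵥ x) / 2) ^ (2 * k + 2) := by
  unfold dens
  rw [dens_zero_det x V hV, Real.sqrt_mul (by positivity), Real.sqrt_sq (by positivity)]

theorem om_zero_F (k : ℕ) (q : ℝ) : F k q 0 = q ^ k := by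
  unfold F
  rw [Finset.sum_eq_single 0]
  · simp [fc]
  · intro j _ hj
    have : (0:ℝ) ^ (2 * j) = 0 := zero_pow (by omega)
    rw [this]
    ring
  · intro h
    exact absurd (Finset.mem_range.mpr (Nat.succ_pos k)) h

theorem om_zero_Fs (k : ℕ) (q : ℝ) : Fs k q 0 = 0 := by
  unfold Fs
  refine Finset.sum_eq_zero fun j _ => ?_
  rcases Nat.eq_zero_or_pos j with hj | hj
  · subst hj
    simp
  · have : (0:ℝ) ^ (2 * j - 1) = 0 := zero_pow (by omega)
    rw [this]
    ring

theorem om_zero_Fq (k : ℕ) (q : ℝ) : Fq k q 0 = k * q ^ (k - 1) := by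
  unfold Fq
  rw [Finset.sum_eq_single 0]
  · simp [fc]
  · intro j _ hj
    have : (0:ℝ) ^ (2 * j) = 0 := zero_pow (by omega)
    rw [this]
    ring
  · intro h
    exact absurd (Finset.mem_range.mpr (Nat.succ_pos k)) h

/-- the calibration equals the density on parallel fields -/
theorem om_zero {k : ℕ} (C : Coef k) (x V : I k → ℝ) (hV : V ⬝ᵥ V = 1) : Om C x V 1 0 = dens x V 0 := by
  rw [dens_zero x V hV]
  set t := x ⬝ᵥ V with ht
  set r := x ⬝ᵥ x with hr
  have hr0 : 0 ≤ r := by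
    rw [hr]
    exact Finset.sum_nonneg fun i _ => mul_self_nonneg _
  have hVx : V ⬝ᵥ x = t := by rw [ht, dotProduct_comm]
  have h1 : Om C x V 1 0 = ∑ m : Fin (2 * k + 2), (C.a m t (r / 2) + C.b m t (r / 2) +
      C.c m t (r / 2) * (t + (m:ℝ))) * (1 + (m:ℝ) * 0) ^ (2 * k) := by
    unfold Om
    refine Finset.sum_congr rfl fun m _ => ?_
    rw [smul_zero, add_zero, Matrix.det_one, Matrix.adjugate_one, Matrix.one_mulVec,
      Matrix.vecMul_one, Matrix.vecMul_zero, add_zero, dotProduct_add, dotProduct_smul,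
      dotProduct_smul, dotProduct_add, dotProduct_smul, hV, hVx]
    simp only [smul_eq_mul, mul_zero, add_zero, one_pow, mul_one]
    ring
  rw [h1, C.pE t (r / 2) (by linarith) 1 0]
  have hlam : lam (r / 2) = (1 + r) / 2 := by
    unfold lam
    ring
  have hlam0 : 0 < lam (r / 2) := by
    rw [hlam]
    positivity
  have h1r : 0 < 1 + r := by linarith
  have hell : ell (r / 2) = (Real.sqrt (1 + r))⁻¹ := by
    unfold ell
    rw [hlam]
    congr 2
    ring
  have hsq : Real.sqrt (1 + r) ≠ 0 := (Real.sqrt_pos.mpr h1r).ne'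
  have hsq2 : Real.sqrt (1 + r) * Real.sqrt (1 + r) = 1 + r := Real.mul_self_sqrt h1r.le
  have hellr : ell (r / 2) * (1 + r) = Real.sqrt (1 + r) := by
    rw [hell]
    field_simp
    rw [sq]
    exact hsq2.symm
  have hQ : Q t (r / 2) 1 0 = (1 + t ^ 2) / lam (r / 2) ^ 2 := by
    unfold Q
    ring
  have hQa : Qa t (r / 2) 1 0 = 2 * ((1 + t ^ 2) / lam (r / 2) ^ 2) := by
    unfold Qa
    ring
  set q := (1 + t ^ 2) / lam (r / 2) ^ 2 with hq
  have hk1 : (2 * (k:ℝ) + 1) ≠ 0 := by positivity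
  have hKa : Kaf k t (r / 2) 1 0 = ell (r / 2) * q ^ (k + 1) := by
    unfold Kaf
    rw [hQ, hQa, mul_zero, om_zero_F, om_zero_Fq]
    have h2 : 2 * (1 + t ^ 2) / lam (r / 2) ^ 2 = 2 * q := by rw [hq]; ring
    rw [h2]
    have h3 : (k:ℝ) * q ^ (k - 1) * (2 * q) ^ 2 = 4 * k * q ^ (k + 1) := by
      rcases Nat.eq_zero_or_pos k with hk | hk
      · subst hk
        simp
      · obtain ⟨j, rfl⟩ : ∃ j, k = j + 1 := ⟨k - 1, by omega⟩
        simp only [Nat.add_sub_cancel]
        ring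
    rw [h3]
    field_simp
    ring
  have hEf : Ef k t (r / 2) 1 0 = ell (r / 2) * q ^ k / lam (r / 2) ^ 2 := by
    unfold Ef
    rw [hQ, mul_zero, om_zero_F]
    ring
  rw [hKa, hEf]
  have h4 : ell (r / 2) * q ^ (k + 1) + (2 * (r / 2) - t ^ 2) *
      (ell (r / 2) * q ^ k / lam (r / 2) ^ 2) = (ell (r / 2) * (1 + r)) * q ^ k /
        lam (r / 2) ^ 2 := by
    have h5 : q ^ (k + 1) = q ^ k * ((1 + t ^ 2) / lam (r / 2) ^ 2) := by rw [pow_succ]
    rw [h5]
    generalize q ^ k = Z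
    field_simp
    ring
  rw [h4, hellr, hq, div_pow]
  field_simp
  rw [← pow_mul, ← pow_add]
  congr 1
  ring

end Pool.Agent.Helper608.VF
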