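import Pool.Agent.Helper608.VF.XDefs
import Pool.Agent.Helper608.VF.J_a_bound
import Pool.Agent.Helper608.VF.J_a_jm
import Pool.Agent.Helper608.VF.J_h_smooth
import Pool.Agent.Helper608.VF.J_p_alg
import Pool.Agent.Helper608.VF.J_p_le
import Pool.Agent.Helper608.VF.J_p_zero
set_option autoImplicit false
open Matrix MeasureTheory
open scoped ENNReal ContDiff
open Filter Topology
namespace Pool.Agent.Helper608.VF


theorem J_limit_om_cont {k : ℕ} (C : Coef k) {T : Type*} [TopologicalSpace T]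
    (x V : T → I k → ℝ) (X Y : T → Matrix (I k) (I k) ℝ) (hx : Continuous x) (hV : Continuous V)
    (hX : Continuous X) (hY : Continuous Y) :
    Continuous (fun t => Om C (x t) (V t) (X t) (Y t)) := by
  have hp : Continuous (fun t => ((x t ⬝ᵥ V t, (x t ⬝ᵥ x t) / 2) : ℝ × ℝ)) :=
    (hx.dotProduct hV).prodMk ((hx.dotProduct hx).div_const 2)
  have hmem : ∀ t, ((x t ⬝ᵥ V t, (x t ⬝ᵥ x t) / 2) : ℝ × ℝ) ∈ {p : ℝ × ℝ | -1 / 2 < p.2} := by
    intro t
    show -1 / 2 < (x t ⬝ᵥ x t) / 2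
    have : 0 ≤ x t ⬝ᵥ x t := by
      unfold dotProduct
      exact Finset.sum_nonneg (fun i _ => mul_self_nonneg _)
    linarith
  have ha : ∀ m, Continuous (fun t => C.a m (x t ⬝ᵥ V t) ((x t ⬝ᵥ x t) / 2)) := fun m =>
    (C.sma m).continuousOn.comp_continuous hp hmem
  have hb : ∀ m, Continuous (fun t => C.b m (x t ⬝ᵥ V t) ((x t ⬝ᵥ x t) / 2)) := fun m =>
    (C.smb m).continuousOn.comp_continuous hp hmem
  have hc : ∀ m, Continuous (fun t => C.c m (x t ⬝ᵥ V t) ((x t ⬝ᵥ x t) / 2)) := fun m =>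
    (C.smc m).continuousOn.comp_continuous hp hmem
  unfold Om
  apply continuous_finset_sum
  intro m _
  have hmY : Continuous (fun t => (m:ℝ) • Y t) := hY.const_smul (m:ℝ)
  have hXY : Continuous (fun t => X t + (m:ℝ) • Y t) := hX.add hmY
  refine ((ha m).mul hXY.matrix_det).add ?_
  refine Continuous.dotProduct ?_ ?_
  · exact (hV.matrix_vecMul hX).add (hx.matrix_vecMul hY)
  · refine hXY.matrix_adjugate.matrix_mulVec ?_
    have hmV : Continuous (fun t => (m:ℝ) • V t) := hV.const_smul (m:ℝ)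
    have hxV : Continuous (fun t => x t + (m:ℝ) • V t) := hx.add hmV
    have h3 : Continuous (fun t => C.b m (x t ⬝ᵥ V t) ((x t ⬝ᵥ x t) / 2) • V t) := (hb m).smul hV
    have h4 : Continuous (fun t => C.c m (x t ⬝ᵥ V t) ((x t ⬝ᵥ x t) / 2) • (x t + (m:ℝ) • V t)) :=
      (hc m).smul hxV
    exact h3.add h4

theorem J_limit_jm_cont {k : ℕ} (v : E k → E k) (hv : ContDiff ℝ ∞ v) : Continuous (Jm v) := by
  have h1 : Continuous (fderiv ℝ v) := hv.continuous_fderiv (by simp)
  refine continuous_matrix ?_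
  intro i j
  have h2 : Continuous (fun z => fderiv ℝ v z (EuclideanSpace.single j 1)) :=
    h1.clm_apply continuous_const
  exact (EuclideanSpace.proj (𝕜 := ℝ) i).continuous.comp h2

theorem J_limit_lm {k : ℕ} (C : Coef k) (v : E k → E k) (s : ℝ) (hs : 0 < s) (z : E k) :
    Lm C v s z = (s⁻¹) ^ (2 * k + 2) * Om C (s⁻¹ • z.ofLp) (v z).ofLp 1 (s • Jm v z) := by
  unfold Lm
  have h := om_right C (s⁻¹ • z.ofLp) (v z).ofLp 1 (s • Jm v z) (s⁻¹ • (1 : Matrix (I k) (I k) ℝ))
  have h2 : (s • Jm v z) * (s⁻¹ • (1 : Matrix (I k) (I k) ℝ)) = Jm v z := by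
    rw [Matrix.mul_smul, Matrix.mul_one, smul_smul, inv_mul_cancel₀ hs.ne', one_smul]
  rw [Matrix.one_mul, h2] at h
  rw [h, Matrix.det_smul, Matrix.det_one, mul_one]
  congr 2
  simp [I]

theorem J_limit_unit {k : ℕ} (v : E k → E k) (h1 : ∀ z, ‖v z‖ = 1) (z : E k) :
    (v z).ofLp ⬝ᵥ (v z).ofLp = 1 := by
  have h := EuclideanSpace.real_norm_sq_eq (v z)
  rw [h1 z] at h
  unfold dotProduct
  rw [one_pow] at h
  rw [h]
  apply Finset.sum_congr rfl
  intro i _
  ring

theorem J_limit {k : ℕ} (C : Coef k) (v : E k → E k) (hv : ContDiff ℝ ∞ v) (h1 : ∀ z, ‖v z‖ = 1)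
    (χ : E k → ℝ) (hχ : ContDiff ℝ ∞ χ) (hc : HasCompactSupport χ) (h01 : ∀ z, 0 ≤ χ z) (h02 : ∀ z, χ z ≤ 1)
    (h03 : χ 0 = 1) :
    Tendsto (fun s => ∫ z, χ z * Lm C v s z) (𝓝[>] 0) (𝓝 (∫ x : E k, dens x.ofLp (v 0).ofLp 0)) := by
  classical
  set g : ℝ → E k → ℝ := fun s x =>
    χ (s • x) * Om C x.ofLp (v (s • x)).ofLp 1 (s • Jm v (s • x)) with hg
  have hJc := J_limit_jm_cont v hv
  -- joint continuity
  have hofLp : Continuous (fun x : E k => x.ofLp) := PiLp.continuous_ofLp 2 _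
  have hgc : Continuous (fun p : ℝ × E k => g p.1 p.2) := by
    have hsm : Continuous (fun p : ℝ × E k => p.1 • p.2) := continuous_fst.smul continuous_snd
    refine (hχ.continuous.comp hsm).mul ?_
    refine J_limit_om_cont C _ _ _ _ (hofLp.comp continuous_snd)
      (hofLp.comp (hv.continuous.comp hsm)) continuous_const ?_
    exact continuous_fst.smul (hJc.comp hsm)
  -- change of variables
  have hcv : ∀ s : ℝ, 0 < s → ∫ z, χ z * Lm C v s z = ∫ x, g s x := by
    intro s hs
    have h := MeasureTheory.Measure.integral_comp_smul (volume : Measure (E k))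
      (fun z => χ z * Om C (s⁻¹ • z.ofLp) (v z).ofLp 1 (s • Jm v z)) s
    have hfr : Module.finrank ℝ (E k) = 2 * k + 2 := by
      simp [E, I]
    rw [hfr] at h
    have e1 : ∀ x : E k, χ (s • x) * Om C (s⁻¹ • (s • x).ofLp) (v (s • x)).ofLp 1 (s • Jm v (s • x))
        = g s x := by
      intro x
      have : s⁻¹ • (s • x).ofLp = x.ofLp := by
        rw [WithLp.ofLp_smul, smul_smul, inv_mul_cancel₀ hs.ne', one_smul]
      rw [this]
    simp only [e1] at h
    rw [h, abs_of_pos (by positivity), smul_eq_mul, ← integral_const_mul]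
    apply integral_congr_ae
    filter_upwards with z
    rw [J_limit_lm C v s hs z, inv_pow]
    ring
  -- bounds
  obtain ⟨ϱ, hϱ⟩ : ∃ ϱ : ℝ, ∀ z ∈ tsupport χ, ‖z‖ ≤ ϱ := hc.isCompact.exists_bound_of_continuousOn
    (f := fun z : E k => z) continuousOn_id
  have hent : ∀ i j, ∃ c : ℝ, ∀ z ∈ tsupport χ, ‖Jm v z i j‖ ≤ c := by
    intro i j
    exact hc.isCompact.exists_bound_of_continuousOn (f := fun z => Jm v z i j)
      ((continuous_apply_apply i j).comp hJc).continuousOn
  choose ca hca using hent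
  set CA : ℝ := ∑ i, ∑ j, |ca i j| with hCA
  have hCA0 : 0 ≤ CA := Finset.sum_nonneg fun i _ => Finset.sum_nonneg fun j _ => abs_nonneg _
  have hCAle : ∀ i j, ∀ z ∈ tsupport χ, |Jm v z i j| ≤ CA := by
    intro i j z hz
    have a1 : |Jm v z i j| ≤ ca i j := hca i j z hz
    have a2 : |ca i j| ≤ ∑ j, |ca i j| :=
      Finset.single_le_sum (f := fun j => |ca i j|) (fun j _ => abs_nonneg _) (Finset.mem_univ j)
    have a3 : ∑ j, |ca i j| ≤ CA :=
      Finset.single_le_sum (f := fun i => ∑ j, |ca i j|)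
        (fun i _ => Finset.sum_nonneg fun j _ => abs_nonneg _) (Finset.mem_univ i)
    linarith [le_abs_self (ca i j)]
  have hϱ0 : 0 ≤ |ϱ| := abs_nonneg _
  obtain ⟨C1, hC10, hC1⟩ := dens_bound k (CA * (1 + |ϱ|)) (by positivity)
  have hfin : (Module.finrank ℝ (E k) : ℝ) < ((2 * k + 3 : ℕ) : ℝ) := by
    have hfr : Module.finrank ℝ (E k) = 2 * k + 2 := by
      simp [E, I]
    rw [hfr]
    exact_mod_cast Nat.lt_succ_self _
  have hint : Integrable (fun x : E k => C1 * (1 + ‖x‖) ^ (-((2 * k + 3 : ℕ) : ℝ))) :=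
    (integrable_one_add_norm hfin).const_mul C1
  have hmain : Tendsto (fun s => ∫ x, g s x) (𝓝[>] 0)
      (𝓝 (∫ x : E k, dens x.ofLp (v 0).ofLp 0)) := by
    refine tendsto_integral_filter_of_dominated_convergence
      (fun x : E k => C1 * (1 + ‖x‖) ^ (-((2 * k + 3 : ℕ) : ℝ))) ?_ ?_ hint ?_
    · filter_upwards with s
      have : Continuous (fun x => g s x) := hgc.comp (continuous_const.prodMk continuous_id)
      exact this.aestronglyMeasurable
    · have hs1 : ∀ᶠ s : ℝ in 𝓝[>] 0, s < 1 :=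
        nhdsWithin_le_nhds (isOpen_Iio.mem_nhds (by norm_num : (0:ℝ) < 1))
      filter_upwards [hs1, self_mem_nhdsWithin] with s hs1 hs0
      have hs0 : 0 < s := hs0
      filter_upwards with x
      by_cases hz : s • x ∈ tsupport χ
      · have hn : s * ‖x‖ ≤ |ϱ| := by
          have := hϱ _ hz
          rw [norm_smul, Real.norm_of_nonneg hs0.le] at this
          exact this.trans (le_abs_self _)
        have hperp : (v (s • x)).ofLp ᵥ* (s • Jm v (s • x)) = 0 := by
          rw [Matrix.vecMul_smul, Jm_perp v hv h1, smul_zero]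
        have hb1 := om_le C x.ofLp (v (s • x)).ofLp (J_limit_unit v h1 _) (s • Jm v (s • x)) hperp
        have hb2 := hC1 x (v (s • x)).ofLp (s • Jm v (s • x)) (J_limit_unit v h1 _) hperp (by
          intro i j
          have hpos : 0 < 1 + ‖x‖ := by positivity
          rw [le_div_iff₀ hpos, Matrix.smul_apply, smul_eq_mul, abs_mul, abs_of_pos hs0]
          have a1 := hCAle i j _ hz
          calc s * |Jm v (s • x) i j| * (1 + ‖x‖) = |Jm v (s • x) i j| * (s + s * ‖x‖) := by ring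
            _ ≤ CA * (1 + |ϱ|) := by
              apply mul_le_mul a1 (by linarith) (by positivity) hCA0)
        rw [Real.norm_eq_abs]
        show |χ (s • x) * Om C x.ofLp (v (s • x)).ofLp 1 (s • Jm v (s • x))| ≤ _
        rw [abs_mul, abs_of_nonneg (h01 _)]
        calc χ (s • x) * |Om C x.ofLp (v (s • x)).ofLp 1 (s • Jm v (s • x))|
            ≤ 1 * |Om C x.ofLp (v (s • x)).ofLp 1 (s • Jm v (s • x))| :=
              mul_le_mul_of_nonneg_right (h02 _) (abs_nonneg _)
          _ ≤ _ := by rw [one_mul]; exact hb1.trans hb2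
      · have h0 : χ (s • x) = 0 := image_eq_zero_of_notMem_tsupport hz
        have : g s x = 0 := by
          show χ (s • x) * _ = 0
          rw [h0, zero_mul]
        rw [this, norm_zero]
        positivity
    · filter_upwards with x
      have hc1 : Continuous (fun s => g s x) := hgc.comp (continuous_id.prodMk continuous_const)
      have hval : g 0 x = dens x.ofLp (v 0).ofLp 0 := by
        show χ ((0:ℝ) • x) * Om C x.ofLp (v ((0:ℝ) • x)).ofLp 1 ((0:ℝ) • Jm v ((0:ℝ) • x)) = _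
        rw [zero_smul, zero_smul, h03, one_mul, om_zero C _ _ (J_limit_unit v h1 _)]
      rw [← hval]
      exact (hc1.tendsto 0).mono_left nhdsWithin_le_nhds
  refine hmain.congr' ?_
  filter_upwards [self_mem_nhdsWithin] with s hs
  exact (hcv s hs).symm

end Pool.Agent.Helper608.VF
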