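import Pool.Agent.Helper608.VF.XDefs
set_option autoImplicit false
open Matrix MeasureTheory
open scoped ENNReal ContDiff
open Filter Topology
namespace Pool.Agent.Helper608.VF


theorem cutoff_psi : ∃ (ψ : ℝ → ℝ) (B0 : ℝ), 0 ≤ B0 ∧ ContDiff ℝ ∞ ψ ∧ (∀ t, 0 ≤ ψ t) ∧
    (∀ t, ψ t ≤ 1) ∧ (∀ t, t ≤ 1 → ψ t = 1) ∧ (∀ t, 2 ≤ t → ψ t = 0) ∧ Continuous (deriv ψ) ∧
    (∀ t, |deriv ψ t| ≤ B0) ∧ (∀ t, t < 1 → deriv ψ t = 0) := by
  set ψ : ℝ → ℝ := fun t => Real.smoothTransition (2 - t) with hψ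
  have hsm : ContDiff ℝ ∞ ψ := Real.smoothTransition.contDiff.comp (contDiff_const.sub contDiff_id)
  have hone : ∀ t, t ≤ 1 → ψ t = 1 := fun t ht =>
    Real.smoothTransition.one_of_one_le (by linarith)
  have hzero : ∀ t, 2 ≤ t → ψ t = 0 := fun t ht =>
    Real.smoothTransition.zero_of_nonpos (by linarith)
  have hdc : Continuous (deriv ψ) := hsm.continuous_deriv (by
    exact_mod_cast le_top)
  have hd1 : ∀ t, t < 1 → deriv ψ t = 0 := by
    intro t ht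
    have h1 : ψ =ᶠ[𝓝 t] fun _ => 1 := by
      filter_upwards [Iio_mem_nhds ht] with s hs
      exact hone s (le_of_lt hs)
    rw [h1.deriv_eq, deriv_const]
  have hd2 : ∀ t, 2 < t → deriv ψ t = 0 := by
    intro t ht
    have h1 : ψ =ᶠ[𝓝 t] fun _ => 0 := by
      filter_upwards [Ioi_mem_nhds ht] with s hs
      exact hzero s (le_of_lt hs)
    rw [h1.deriv_eq, deriv_const]
  obtain ⟨B0, hB0⟩ := (isCompact_Icc (a := (1:ℝ)) (b := 2)).exists_bound_of_continuousOn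
    hdc.continuousOn
  refine ⟨ψ, max B0 0, le_max_right _ _, hsm, fun t => Real.smoothTransition.nonneg _,
    fun t => Real.smoothTransition.le_one _, hone, hzero, hdc, ?_, hd1⟩
  intro t
  rcases lt_or_ge t 1 with h | h
  · rw [hd1 t h, abs_zero]; exact le_max_right _ _
  · rcases lt_or_ge 2 t with h' | h'
    · rw [hd2 t h', abs_zero]; exact le_max_right _ _
    · exact (hB0 t ⟨h, h'⟩).trans (le_max_left _ _)

/-- logarithmic cutoff -/
theorem cutoff (k : ℕ) : ∃ B : ℝ, 0 < B ∧ ∀ L : ℝ, 1 ≤ L → ∃ (χ ρ : E k → ℝ),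
    ContDiff ℝ ∞ χ ∧ HasCompactSupport χ ∧ (∀ z, 0 ≤ χ z) ∧ (∀ z, χ z ≤ 1) ∧
    (∀ z, 1 + ‖z‖ ^ 2 ≤ Real.exp L → χ z = 1) ∧
    (∀ z h, fderiv ℝ χ z h = ρ z * inner ℝ z h) ∧ Continuous ρ ∧
    (∀ z, |ρ z| * ‖z‖ ^ 2 ≤ B / L) ∧ (∀ z, ρ z ≠ 0 → 1 ≤ ‖z‖) := by
  obtain ⟨ψ, B0, hB0, hsm, hnn, hle, hone, hzero, hdc, hdb, hd1⟩ := cutoff_psi
  refine ⟨2 * B0 + 1, by positivity, ?_⟩
  intro L hL
  have hL0 : 0 < L := by linarith
  have hpos : ∀ z : E k, 0 < 1 + ‖z‖ ^ 2 := fun z => by positivity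
  set g : E k → ℝ := fun z => Real.log (1 + ‖z‖ ^ 2) / L with hg
  have hgs : ContDiff ℝ ∞ g :=
    ((contDiff_const.add (contDiff_norm_sq ℝ)).log (fun z => (hpos z).ne')).div_const L
  have hgd : ∀ z : E k, HasFDerivAt g ((2 / ((1 + ‖z‖ ^ 2) * L)) • (innerSL ℝ z)) z := by
    intro z
    have h1 : HasFDerivAt (fun z : E k => 1 + ‖z‖ ^ 2) ((2 : ℝ) • (innerSL ℝ z)) z := by
      have h2 := (hasStrictFDerivAt_norm_sq z).hasFDerivAt
      have h3 := h2.const_add 1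
      refine h3.congr_fderiv ?_
      ext h
      simp
    have h4 := (h1.log (hpos z).ne').mul_const (L⁻¹)
    have h5 : g = fun z => Real.log (1 + ‖z‖ ^ 2) * L⁻¹ := by
      funext w; exact div_eq_mul_inv _ _
    rw [h5]
    refine h4.congr_fderiv ?_
    rw [smul_smul, smul_smul]
    congr 1
    field_simp
  refine ⟨fun z => ψ (g z), fun z => deriv ψ (g z) * (2 / ((1 + ‖z‖ ^ 2) * L)), hsm.comp hgs,
    ?_, fun z => hnn _, fun z => hle _, ?_, ?_, ?_, ?_, ?_⟩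
  · refine HasCompactSupport.intro (isCompact_closedBall (0 : E k) (Real.exp L)) ?_
    intro z hz
    apply hzero
    rw [Metric.mem_closedBall, dist_zero_right, not_le] at hz
    rw [hg]
    simp only
    rw [le_div_iff₀ hL0, Real.le_log_iff_exp_le (hpos z)]
    have h1 : Real.exp (2 * L) = Real.exp L ^ 2 := by
      rw [two_mul, Real.exp_add, sq]
    rw [h1]
    have h2 : 0 < Real.exp L := Real.exp_pos L
    nlinarith
  · intro z hz
    apply hone
    rw [hg]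
    simp only
    rw [div_le_one hL0, Real.log_le_iff_le_exp (hpos z)]
    exact hz
  · intro z h
    have h1 : HasFDerivAt (fun z => ψ (g z)) _ z :=
      ((hsm.differentiable (by simp)) (g z)).hasDerivAt.comp_hasFDerivAt z (hgd z)
    rw [h1.fderiv]
    simp only [_root_.smul_apply, smul_eq_mul, innerSL_apply_apply]
    ring
  · refine (hdc.comp hgs.continuous).mul ?_
    refine continuous_const.div ?_ ?_
    · exact (continuous_const.add (continuous_norm.pow 2)).mul continuous_const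
    · intro z
      exact (mul_pos (hpos z) hL0).ne'
  · intro z
    have h1 := hdb (g z)
    have h2 : 0 < 2 / ((1 + ‖z‖ ^ 2) * L) := div_pos two_pos (mul_pos (hpos z) hL0)
    rw [abs_mul, abs_of_pos h2]
    have h3 : 2 / ((1 + ‖z‖ ^ 2) * L) * ‖z‖ ^ 2 ≤ 2 / L := by
      rw [div_mul_eq_mul_div, div_le_div_iff₀ (mul_pos (hpos z) hL0) hL0]
      nlinarith [sq_nonneg ‖z‖]
    calc |deriv ψ (g z)| * (2 / ((1 + ‖z‖ ^ 2) * L)) * ‖z‖ ^ 2
        = |deriv ψ (g z)| * (2 / ((1 + ‖z‖ ^ 2) * L) * ‖z‖ ^ 2) := by ring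
      _ ≤ B0 * (2 / L) := by
        gcongr
      _ ≤ (2 * B0 + 1) / L := by
        rw [← mul_div_assoc]
        gcongr
        linarith
  · intro z hz
    have h1 : deriv ψ (g z) ≠ 0 := left_ne_zero_of_mul hz
    have h2 : 1 ≤ g z := by
      by_contra h
      exact h1 (hd1 _ (not_le.1 h))
    rw [hg] at h2
    simp only at h2
    rw [le_div_iff₀ hL0, one_mul, Real.le_log_iff_exp_le (hpos z)] at h2
    have h3 : Real.exp 1 ≤ Real.exp L := Real.exp_le_exp.2 hL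
    have h4 : (1:ℝ) + 1 ≤ Real.exp 1 := Real.add_one_le_exp 1
    have h5 : 1 ≤ ‖z‖ ^ 2 := by linarith
    nlinarith [norm_nonneg z]

end Pool.Agent.Helper608.VF
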