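import Pool.Agent.Helper608.VF.XDefs
import Pool.Agent.Helper608.VF.J_a_bound
import Pool.Agent.Helper608.VF.J_p_zero
set_option autoImplicit false
open Matrix MeasureTheory
open scoped ENNReal ContDiff
open Filter Topology
namespace Pool.Agent.Helper608.VF


theorem dens_int_norm {k : ℕ} (e : E k) (he : ‖e‖ = 1) : e.ofLp ⬝ᵥ e.ofLp = 1 := by
  have h := EuclideanSpace.norm_sq_eq e
  rw [he] at h
  simp only [one_pow, Real.norm_eq_abs, sq_abs] at h
  rw [h, dotProduct]
  exact Finset.sum_congr rfl fun i _ => by ring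

theorem dens_int_self {k : ℕ} (e : E k) : e.ofLp ⬝ᵥ e.ofLp = ‖e‖ ^ 2 := by
  rw [EuclideanSpace.norm_sq_eq, dotProduct]
  exact Finset.sum_congr rfl fun i _ => by rw [Real.norm_eq_abs, sq_abs]; ring

theorem dens_int_inner {k : ℕ} (x e : E k) : x.ofLp ⬝ᵥ e.ofLp = inner ℝ x e := by
  rw [dotProduct, PiLp.inner_apply]
  exact Finset.sum_congr rfl fun i _ => by simp [mul_comm]

theorem dens_int_eq {k : ℕ} (x e : E k) (he : ‖e‖ = 1) :
    dens x.ofLp e.ofLp 0 = (1 + (inner ℝ x e) ^ 2) ^ k * Real.sqrt (1 + ‖x‖ ^ 2) /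
      lam (‖x‖ ^ 2 / 2) ^ (2 * k + 2) := by
  rw [dens_zero _ _ (dens_int_norm e he), dens_int_self, dens_int_inner]

theorem dens_int_cont {k : ℕ} (e : E k) (he : ‖e‖ = 1) :
    Continuous (fun x : E k => dens x.ofLp e.ofLp 0) := by
  simp_rw [fun x : E k => dens_int_eq x e he]
  refine Continuous.div (by fun_prop) ?_ ?_
  · unfold lam; fun_prop
  · intro x
    unfold lam
    positivity

theorem dens_int {k : ℕ} (e : E k) (he : ‖e‖ = 1) : Integrable (fun x : E k => dens x.ofLp e.ofLp 0) := by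
  obtain ⟨C1, hC1, hb⟩ := dens_bound k 0 le_rfl
  have hfin : (Module.finrank ℝ (E k) : ℝ) < ((2 * k + 3 : ℕ) : ℝ) := by
    rw [finrank_euclideanSpace]
    simp only [Fintype.card_sum, Fintype.card_fin]
    exact_mod_cast Nat.lt_succ_self _
  have hI := (integrable_one_add_norm (E := E k) (μ := volume) hfin).const_mul C1
  refine hI.mono' (dens_int_cont e he).aestronglyMeasurable (Filter.Eventually.of_forall fun x => ?_)
  have h0 : 0 ≤ dens x.ofLp e.ofLp 0 := by
    rw [dens_int_eq x e he]
    unfold lam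
    positivity
  rw [Real.norm_of_nonneg h0]
  refine hb x e.ofLp 0 (dens_int_norm e he) (by simp) ?_
  intro i j
  simp

theorem dens_rot {k : ℕ} (e f : E k) (he : ‖e‖ = 1) (hf : ‖f‖ = 1) :
    ∫ x : E k, dens x.ofLp e.ofLp 0 = ∫ x : E k, dens x.ofLp f.ofLp 0 := by
  obtain ⟨T, hT⟩ : ∃ T : E k ≃ₗᵢ[ℝ] E k, T e = f :=
    ⟨_, Submodule.reflection_sub (he.trans hf.symm)⟩
  rw [← (LinearIsometryEquiv.measurePreserving T).integral_comp' (f := T.toMeasurableEquiv)
    (fun x : E k => dens x.ofLp f.ofLp 0)]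
  congr 1
  funext x
  change dens x.ofLp e.ofLp 0 = dens (T x).ofLp f.ofLp 0
  rw [dens_int_eq x e he, dens_int_eq (T x) f hf, ← hT, LinearIsometryEquiv.inner_map_map,
    LinearIsometryEquiv.norm_map]

theorem dE_cont {k : ℕ} (v : E k → E k) (hv : ContDiff ℝ ∞ v) : Continuous (dE v) := by
  have hJ : Continuous (fun z => Jm v z) := by
    have h1 : Continuous (fderiv ℝ v) := hv.continuous_fderiv (by simp)
    refine continuous_matrix fun i j => ?_
    unfold Jm
    have h2 : Continuous fun z => (fderiv ℝ v z) (EuclideanSpace.single j 1) :=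
      h1.clm_apply continuous_const
    fun_prop
  have hvc : Continuous v := hv.continuous
  have hz : Continuous (fun z : E k => z.ofLp) := by fun_prop
  have hv2 : Continuous (fun z : E k => (v z).ofLp) := by fun_prop
  have hlam : Continuous (fun z : E k => lam ((z.ofLp ⬝ᵥ z.ofLp) / 2)) := by
    unfold lam
    exact continuous_const.add ((hz.dotProduct hz).div_const 2)
  have hM : Continuous (fun z : E k => Mm z.ofLp (v z).ofLp (Jm v z)) := by
    unfold Mm
    exact ((hlam.smul hJ).sub ((hz.dotProduct hv2).smul continuous_const)).add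
      (hz.matrix_vecMulVec hv2)
  unfold dE dens
  refine Continuous.div ?_ (hlam.pow _) ?_
  · exact Real.continuous_sqrt.comp
      ((continuous_const.add ((hM.matrix_transpose).matrix_mul hM)).matrix_det)
  · intro z
    rw [dens_int_self]
    unfold lam
    positivity

end Pool.Agent.Helper608.VF
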