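import Pool.Agent.Helper608.VF.XDefs
import Pool.Agent.Helper608.VF.J_a_Jb
import Pool.Agent.Helper608.VF.J_a_Jd
import Pool.Agent.Helper608.VF.J_a_Jl
import Pool.Agent.Helper608.VF.J_h_smooth
set_option autoImplicit false
open Matrix MeasureTheory
open scoped ENNReal ContDiff
open Filter Topology
namespace Pool.Agent.Helper608.VF


/-- main estimate -/
theorem main_est {k : ℕ} (C : Coef k) (v : E k → E k) (hv : ContDiff ℝ ∞ v) (h1 : ∀ z, ‖v z‖ = 1)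
    (hI : Integrable (dE v)) (B L : ℝ) (hL : 0 < L) (hB : 0 < B) (χ ρ : E k → ℝ)
    (hχ : ContDiff ℝ ∞ χ) (hc : HasCompactSupport χ) (h01 : ∀ z, 0 ≤ χ z) (h02 : ∀ z, χ z ≤ 1)
    (h03 : χ 0 = 1) (hρ : ∀ z h, fderiv ℝ χ z h = ρ z * inner ℝ z h) (hρ0 : Continuous ρ)
    (hρ1 : ∀ z, |ρ z| * ‖z‖ ^ 2 ≤ B / L) (hρ2 : ∀ z, ρ z ≠ 0 → 1 ≤ ‖z‖) :
    (∫ x : E k, dens x.ofLp (v 0).ofLp 0) - B / L * (2 ^ (2 * k + 2) * 3 ^ (k + 1)) * ∫ z, dE v z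
      ≤ ∫ z, χ z * Lm C v 1 z := by
  set M : ℝ := B / L * (2 ^ (2 * k + 2) * 3 ^ (k + 1)) * ∫ z, dE v z with hM
  have hb : ∀ s : ℝ, 0 < s → s ≤ 1 → |∫ z, ρ z * ∑ j, z j * Fx C v s j z| ≤ M := fun s hs hs1 =>
    J_bound C v hv h1 hI B L ρ hρ0 hρ1 hρ2 s hs hs1
  have hM0 : 0 ≤ M := le_trans (abs_nonneg _) (hb 1 one_pos le_rfl)
  have hd : ∀ s : ℝ, 0 < s →
      HasDerivAt (fun s => ∫ z, χ z * Lm C v s z) (-∫ z, ρ z * ∑ j, z j * Fx C v s j z) s := fun s hs =>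
    J_deriv C v hv h1 χ ρ hχ hc hρ s hs
  have hlim := J_limit C v hv h1 χ hχ hc h01 h02 h03
  have key : ∀ s : ℝ, 0 < s → s ≤ 1 → (∫ z, χ z * Lm C v s z) ≤ (∫ z, χ z * Lm C v 1 z) + M := by
    intro s hs hs1
    have h := Convex.norm_image_sub_le_of_norm_hasDerivWithin_le (𝕜 := ℝ)
      (f := fun s => ∫ z, χ z * Lm C v s z) (f' := fun s => -∫ z, ρ z * ∑ j, z j * Fx C v s j z)
      (s := Set.Icc s 1) (C := M) (x := 1) (y := s)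
      (fun t ht => (hd t (lt_of_lt_of_le hs ht.1)).hasDerivWithinAt)
      (fun t ht => by
        rw [norm_neg, Real.norm_eq_abs]
        exact hb t (lt_of_lt_of_le hs ht.1) ht.2)
      (convex_Icc s 1) ⟨hs1, le_rfl⟩ ⟨le_rfl, hs1⟩
    have h2 : ‖s - 1‖ ≤ 1 := by
      rw [Real.norm_eq_abs, abs_le]
      constructor <;> linarith
    have h3 := (le_abs_self _).trans (h.trans (mul_le_mul_of_nonneg_left h2 hM0))
    linarith
  have hev : ∀ᶠ s in 𝓝[>] (0:ℝ), (∫ z, χ z * Lm C v s z) ≤ (∫ z, χ z * Lm C v 1 z) + M := by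
    have : Set.Ioc (0:ℝ) 1 ∈ 𝓝[>] (0:ℝ) := Ioc_mem_nhdsGT one_pos
    filter_upwards [this] with s hs
    exact key s hs.1 hs.2
  have := le_of_tendsto hlim hev
  linarith

end Pool.Agent.Helper608.VF
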