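import Pool.Agent.Helper608.VF.XDefs
import Pool.Agent.Helper608.VF.J_p_Fb
import Pool.Agent.Helper608.VF.J_p_diag
set_option autoImplicit false
open Matrix MeasureTheory
open scoped ENNReal ContDiff
namespace Pool.Agent.Helper608.VF


theorem strict_diag_core (F R p q t ζ e η c K τ g : ℝ) (k : ℕ) (hpq : p ^ 2 + q ^ 2 = 1)
    (he : e ^ 2 * (1 + t ^ 2 + ζ ^ 2) = 1)
    (hτ : τ = e * (t * p + q)) (hg : g = e * (p - t * q))
    (hη : 0 < η) (hc0 : 0 ≤ c) (hc1 : c ≤ 1)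
    (h1 : (1 - τ ^ 2) * F ^ 2 + R ^ 2 ≤ 1 - K * τ ^ 2) (h2 : 1 ≤ F) (h3 : τ * R ≤ 0)
    (hb : 2 * η * (1 - c * (1 - τ ^ 2)) ≤ K * τ ^ 2) (hτ1 : τ ^ 2 ≤ 1) :
    (-(ζ * e * F) - η * c * (-(ζ * e))) ^ 2 +
      (-(q * g * F + p * R) - η * c * (t * e)) ^ 2 +
      (p * g * F - q * R - η * c * e) ^ 2 ≤ (1 - η) ^ 2 := by
  have hgt : g ^ 2 + τ ^ 2 + (ζ * e) ^ 2 = 1 := by
    have : g ^ 2 + τ ^ 2 + (ζ * e) ^ 2 = e ^ 2 * ((1 + t ^ 2) * (p ^ 2 + q ^ 2) + ζ ^ 2) := by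
      rw [hτ, hg]; ring
    rw [this, hpq, mul_one, he]
  have hGw : (-(ζ * e * F)) * (-(ζ * e)) + (-(q * g * F + p * R)) * (t * e) + (p * g * F - q * R) * e
      = (1 - τ ^ 2) * F - τ * R := by
    have : (-(ζ * e * F)) * (-(ζ * e)) + (-(q * g * F + p * R)) * (t * e) + (p * g * F - q * R) * e
      = (ζ * e) ^ 2 * F + (e * (p - t * q)) * g * F - (e * (t * p + q)) * R := by ring
    rw [this, ← hg, ← hτ]
    linear_combination F * hgt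
  have hGG : (-(ζ * e * F)) ^ 2 + (-(q * g * F + p * R)) ^ 2 + (p * g * F - q * R) ^ 2
      = (1 - τ ^ 2) * F ^ 2 + R ^ 2 := by
    have : (-(ζ * e * F)) ^ 2 + (-(q * g * F + p * R)) ^ 2 + (p * g * F - q * R) ^ 2
      = (ζ * e) ^ 2 * F ^ 2 + (p ^ 2 + q ^ 2) * (g ^ 2 * F ^ 2 + R ^ 2) := by ring
    rw [this, hpq]
    linear_combination F ^ 2 * hgt
  have hww : (-(ζ * e)) ^ 2 + (t * e) ^ 2 + e ^ 2 = 1 := by
    rw [← he]; ring
  have hexp : (-(ζ * e * F) - η * c * (-(ζ * e))) ^ 2 +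
      (-(q * g * F + p * R) - η * c * (t * e)) ^ 2 +
      (p * g * F - q * R - η * c * e) ^ 2
      = ((-(ζ * e * F)) ^ 2 + (-(q * g * F + p * R)) ^ 2 + (p * g * F - q * R) ^ 2)
        - 2 * (η * c) * ((-(ζ * e * F)) * (-(ζ * e)) + (-(q * g * F + p * R)) * (t * e) + (p * g * F - q * R) * e)
        + (η * c) ^ 2 * ((-(ζ * e)) ^ 2 + (t * e) ^ 2 + e ^ 2) := by ring
  rw [hexp, hGw, hGG, hww]
  have h4 : (1 - τ ^ 2) ≤ (1 - τ ^ 2) * F - τ * R := by nlinarith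
  have h5 : (η * c) ^ 2 ≤ η ^ 2 := by
    have : c ^ 2 ≤ 1 := by nlinarith
    nlinarith [sq_nonneg η]
  have h6 : 2 * (η * c) * (1 - τ ^ 2) ≤ 2 * (η * c) * ((1 - τ ^ 2) * F - τ * R) :=
    mul_le_mul_of_nonneg_left h4 (by positivity)
  nlinarith

/-- the strict diagonal bound -/
theorem strict_diag {k : ℕ} (hk : 1 ≤ k) (C : Coef k) (t ζ : ℝ) (l e : ℝ)
    (hl : l = lam ((t ^ 2 + ζ ^ 2) / 2)) (he : e = ell ((t ^ 2 + ζ ^ 2) / 2)) :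
    ∃ η : ℝ, 0 < η ∧ η < 1 ∧ ∀ p q : ℝ, p ^ 2 + q ^ 2 = 1 →
      ∑ i : Fin 3, ((∑ m : Fin (2 * k + 2), gg C t ζ m i * ((l + (m:ℝ) * t) * p + (m:ℝ) * q) ^ (2 * k))
        - η * ((p - t * q) / Real.sqrt (1 + t ^ 2)) ^ (2 * k) * (![-(ζ * e), t * e, e] : Fin 3 → ℝ) i) ^ 2
        ≤ (1 - η) ^ 2 := by
  have hk1 : (1:ℝ) ≤ k := by exact_mod_cast hk
  have hpos : 0 < 1 + t ^ 2 + ζ ^ 2 := by positivity
  have h2lam : 2 * lam ((t ^ 2 + ζ ^ 2) / 2) = 1 + t ^ 2 + ζ ^ 2 := by unfold lam; ring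
  have he2 : e ^ 2 * (1 + t ^ 2 + ζ ^ 2) = 1 := by
    rw [he, ell, h2lam, inv_pow, Real.sq_sqrt hpos.le, inv_mul_cancel₀ hpos.ne']
  have he0 : 0 < e := by
    rw [he, ell, h2lam]
    positivity
  set κ : ℝ := ((2 * (k:ℝ) + 1) - 1 / (4 * (k:ℝ) + 1)) / (4 * (k:ℝ) + 1) with hκ
  have hκ0 : 0 < κ := by
    rw [hκ]
    apply div_pos _ (by positivity)
    have : 1 / (4 * (k:ℝ) + 1) ≤ 1 := by
      rw [div_le_one (by positivity)]; linarith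
    linarith
  set Cc : ℝ := e ^ 2 * (1 + t ^ 2) with hCc
  have hCc0 : 0 < Cc := by positivity
  have hden : 0 < 2 * ((k:ℝ) / Cc + 1) := by positivity
  refine ⟨min (1 / 2) (κ / (2 * ((k:ℝ) / Cc + 1))), lt_min (by norm_num) (div_pos hκ0 hden),
    (min_le_left _ _).trans_lt (by norm_num), ?_⟩
  intro p q hpq
  set η : ℝ := min (1 / 2) (κ / (2 * ((k:ℝ) / Cc + 1))) with hηdef
  have hη0 : 0 < η := lt_min (by norm_num) (div_pos hκ0 hden)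
  have hη1 : η ≤ κ / (2 * ((k:ℝ) / Cc + 1)) := min_le_right _ _
  obtain ⟨d0, d1, d2⟩ := gg_diag C t ζ p q hpq l e hl he
  rw [Fin.sum_univ_three, d0, d1, d2]
  simp only [Matrix.cons_val_zero, Matrix.cons_val_one, Matrix.cons_val]
  have hτ1 : (e * (t * p + q)) ^ 2 ≤ 1 := by
    have h1 : (e * (p - t * q)) ^ 2 + (e * (t * p + q)) ^ 2 + (ζ * e) ^ 2 = 1 := by
      have : (e * (p - t * q)) ^ 2 + (e * (t * p + q)) ^ 2 + (ζ * e) ^ 2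
        = e ^ 2 * ((1 + t ^ 2) * (p ^ 2 + q ^ 2) + ζ ^ 2) := by ring
      rw [this, hpq, mul_one, he2]
    nlinarith [sq_nonneg (e * (p - t * q)), sq_nonneg (ζ * e)]
  obtain ⟨f1, f2, f3⟩ := F_bound k (e * (t * p + q)) hτ1
  -- the power
  have hx : ((p - t * q) / Real.sqrt (1 + t ^ 2)) ^ 2 = 1 - (e * (t * p + q)) ^ 2 / Cc := by
    rw [div_pow, Real.sq_sqrt (by positivity), hCc]
    field_simp
    linear_combination (1 + t ^ 2) * hpq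
  have hx0 : 0 ≤ 1 - (e * (t * p + q)) ^ 2 / Cc := by
    rw [← hx]; positivity
  have hy0 : 0 ≤ (e * (t * p + q)) ^ 2 / Cc := by positivity
  have hc : ((p - t * q) / Real.sqrt (1 + t ^ 2)) ^ (2 * k) = (1 - (e * (t * p + q)) ^ 2 / Cc) ^ k := by
    rw [pow_mul, hx]
  rw [hc]
  set c : ℝ := (1 - (e * (t * p + q)) ^ 2 / Cc) ^ k with hcdef
  have hc0 : 0 ≤ c := pow_nonneg hx0 k
  have hc1 : c ≤ 1 := pow_le_one₀ hx0 (by linarith)
  have hber : 1 - (k:ℝ) * ((e * (t * p + q)) ^ 2 / Cc) ≤ c := by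
    have h1 := one_add_mul_le_pow (a := -((e * (t * p + q)) ^ 2 / Cc)) (by linarith) k
    rw [hcdef]
    have h2 : (1:ℝ) + (k:ℝ) * -((e * (t * p + q)) ^ 2 / Cc) = 1 - (k:ℝ) * ((e * (t * p + q)) ^ 2 / Cc) := by ring
    rw [h2] at h1
    exact h1
  have hb : 2 * η * (1 - c * (1 - (e * (t * p + q)) ^ 2)) ≤ κ * (e * (t * p + q)) ^ 2 := by
    set T := (e * (t * p + q)) ^ 2 with hT
    have hT0 : 0 ≤ T := by positivity
    have h1 : 1 - c * (1 - T) ≤ ((k:ℝ) / Cc + 1) * T := by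
      have : 1 - c * (1 - T) = (1 - c) + c * T := by ring
      rw [this]
      have h2 : c * T ≤ T := by nlinarith
      have h3 : (k:ℝ) * (T / Cc) = (k:ℝ) / Cc * T := by ring
      linarith
    have h2 : 2 * η * (1 - c * (1 - T)) ≤ 2 * η * (((k:ℝ) / Cc + 1) * T) :=
      mul_le_mul_of_nonneg_left h1 (by positivity)
    have h3 : η * (2 * ((k:ℝ) / Cc + 1)) ≤ κ := by
      rwa [le_div_iff₀ hden] at hη1
    calc 2 * η * (1 - c * (1 - T)) ≤ 2 * η * (((k:ℝ) / Cc + 1) * T) := h2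
      _ = (η * (2 * ((k:ℝ) / Cc + 1))) * T := by ring
      _ ≤ κ * T := mul_le_mul_of_nonneg_right h3 hT0
  exact strict_diag_core (F k 1 (e * (t * p + q))) (Rr k (e * (t * p + q))) p q t ζ e η c κ
    (e * (t * p + q)) (e * (p - t * q)) k hpq he2 rfl rfl hη0 hc0 hc1 f1 f2 f3 hb hτ1

end Pool.Agent.Helper608.VF
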