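import Pool.Agent.Helper608.VF.XDefs
import Pool.Agent.Helper608.VF.J_comass_top
set_option autoImplicit false
open Matrix MeasureTheory
open scoped ENNReal ContDiff
namespace Pool.Agent.Helper608.VF


private theorem strict_comass_onb (w : Fin 3 → ℝ) (hw : ∑ i : Fin 3, w i ^ 2 = 1) :
    ∃ r r' : Fin 3 → ℝ, (∀ i, r (i+1) * r' (i+2) - r (i+2) * r' (i+1) = w i) ∧
      (∀ i j, r i * r j + r' i * r' j + w i * w j = if i = j then 1 else 0) := by
  rw [Fin.sum_univ_three] at hw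
  by_cases h2 : w 2 = -1
  · have hw01 : w 0 ^ 2 + w 1 ^ 2 = 0 := by rw [h2] at hw; linarith
    have h0 : w 0 = 0 := by nlinarith [sq_nonneg (w 0), sq_nonneg (w 1)]
    have h1 : w 1 = 0 := by nlinarith [sq_nonneg (w 0), sq_nonneg (w 1)]
    refine ⟨![0, -1, 0], ![-1, 0, 0], ?_, ?_⟩
    · intro i
      fin_cases i <;> simp [h0, h1, h2]
    · intro i j
      fin_cases i <;> fin_cases j <;> simp [h0, h1, h2]
  · have hd : 1 + w 2 ≠ 0 := fun h => h2 (by linarith)
    obtain ⟨u0, u1, d, e0, e1, e2, H⟩ : ∃ u0 u1 d : ℝ, w 0 = u0 * d ∧ w 1 = u1 * d ∧ w 2 = d - 1 ∧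
        (u0 ^ 2 + u1 ^ 2) * d + d = 2 := by
      refine ⟨w 0 / (1 + w 2), w 1 / (1 + w 2), 1 + w 2, ?_, ?_, by ring, ?_⟩
      · field_simp
      · field_simp
      · field_simp
        nlinarith [hw]
    refine ⟨![1 - u0 ^ 2 * d, -u0 * u1 * d, -u0 * d], ![-u0 * u1 * d, 1 - u1 ^ 2 * d, -u1 * d], ?_, ?_⟩
    · intro i
      fin_cases i
      · simp [e0]; ring
      · simp [e1]; ring
      · simp [e2]; linear_combination (-1) * H
    · intro i j
      fin_cases i <;> fin_cases j <;> simp [e0, e1, e2]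
      · linear_combination (u0 ^ 2 * d) * H
      · linear_combination (u0 * u1 * d) * H
      · linear_combination (u0 * d) * H
      · linear_combination (u0 * u1 * d) * H
      · linear_combination (u1 ^ 2 * d) * H
      · linear_combination (u1 * d) * H
      · linear_combination (u0 * d) * H
      · linear_combination (u1 * d) * H
      · linear_combination d * H

private theorem strict_comass_det (k : ℕ) (B : Fin (2 * k) → (Fin (2 * k) ⊕ Fin 2) → ℝ)
    (Z : Fin 3 → (Fin (2 * k) ⊕ Fin 2) → ℝ) (r r' w : Fin 3 → ℝ)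
    (h : ∀ i, r (i+1) * r' (i+2) - r (i+2) * r' (i+1) = w i) :
    (Matrix.of (Sum.elim B ![∑ i, r i • Z i, ∑ i, r' i • Z i]) :
      Matrix (Fin (2 * k) ⊕ Fin 2) (Fin (2 * k) ⊕ Fin 2) ℝ).det =
    ∑ i : Fin 3, w i * (Matrix.of (Sum.elim B ![Z (i+1), Z (i+2)]) :
      Matrix (Fin (2 * k) ⊕ Fin 2) (Fin (2 * k) ⊕ Fin 2) ℝ).det := by
  set D : ((Fin (2 * k) ⊕ Fin 2) → ℝ) → ((Fin (2 * k) ⊕ Fin 2) → ℝ) → ℝ := fun a b =>
    (Matrix.of (Sum.elim B ![a, b]) : Matrix (Fin (2 * k) ⊕ Fin 2) (Fin (2 * k) ⊕ Fin 2) ℝ).det with hD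
  have hU0 : ∀ a b, (Matrix.of (Sum.elim B ![a, b]) :
      Matrix (Fin (2 * k) ⊕ Fin 2) (Fin (2 * k) ⊕ Fin 2) ℝ) =
      Matrix.updateRow (Matrix.of (Sum.elim B ![0, b])) (Sum.inr 0) a := by
    intro a b
    ext i j
    rcases i with i | i
    · simp [Matrix.updateRow_apply]
    · fin_cases i <;> simp [Matrix.updateRow_apply]
  have hU1 : ∀ a b, (Matrix.of (Sum.elim B ![a, b]) :
      Matrix (Fin (2 * k) ⊕ Fin 2) (Fin (2 * k) ⊕ Fin 2) ℝ) =
      Matrix.updateRow (Matrix.of (Sum.elim B ![a, 0])) (Sum.inr 1) b := by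
    intro a b
    ext i j
    rcases i with i | i
    · simp [Matrix.updateRow_apply]
    · fin_cases i <;> simp [Matrix.updateRow_apply]
  have al : ∀ a a' b, D (a + a') b = D a b + D a' b := by
    intro a a' b
    simp only [hD]
    rw [hU0 (a + a') b, hU0 a b, hU0 a' b, Matrix.det_updateRow_add]
  have ar : ∀ a b b', D a (b + b') = D a b + D a b' := by
    intro a b b'
    simp only [hD]
    rw [hU1 a (b + b'), hU1 a b, hU1 a b', Matrix.det_updateRow_add]
  have sl : ∀ (c : ℝ) a b, D (c • a) b = c * D a b := by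
    intro c a b
    simp only [hD]
    rw [hU0 (c • a) b, hU0 a b, Matrix.det_updateRow_smul]
  have sr : ∀ (c : ℝ) a b, D a (c • b) = c * D a b := by
    intro c a b
    simp only [hD]
    rw [hU1 a (c • b), hU1 a b, Matrix.det_updateRow_smul]
  have dd : ∀ a, D a a = 0 := by
    intro a
    simp only [hD]
    refine Matrix.det_zero_of_row_eq (i := Sum.inr 0) (j := Sum.inr 1) (by simp) ?_
    ext j
    simp
  have anti : ∀ a b, D b a = - D a b := by
    intro a b
    have := dd (a + b)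
    rw [al, ar, ar, dd, dd] at this
    linarith
  have h0 := h 0
  have h1 := h 1
  have h2 := h 2
  have f3 : (1 : Fin 3) + 1 = 2 := rfl
  have f4 : (1 : Fin 3) + 2 = 0 := rfl
  have f5 : (2 : Fin 3) + 1 = 0 := rfl
  have f6 : (2 : Fin 3) + 2 = 1 := rfl
  simp only [zero_add, f3, f4, f5, f6] at h0 h1 h2
  have key : D (∑ i, r i • Z i) (∑ i, r' i • Z i) = ∑ i : Fin 3, w i * D (Z (i+1)) (Z (i+2)) := by
    simp only [Fin.sum_univ_three, zero_add, f3, f4, f5, f6, al, ar, sl, sr, dd]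
    rw [anti (Z 0) (Z 1), anti (Z 1) (Z 2), anti (Z 2) (Z 0), ← h0, ← h1, ← h2, anti (Z 0) (Z 2)]
    ring
  exact key

private theorem strict_comass_prod {n : Type} [DecidableEq n] (s : Finset n) (l : n → ℝ) (hl : ∀ i, 0 ≤ l i) :
    1 + ∑ i ∈ s, l i ≤ ∏ i ∈ s, (1 + l i) := by
  induction s using Finset.induction_on with
  | empty => simp
  | insert a s ha ih =>
    rw [Finset.sum_insert ha, Finset.prod_insert ha]
    have h1 : 0 ≤ ∑ i ∈ s, l i := Finset.sum_nonneg (fun i _ => hl i)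
    have h2 := hl a
    have h3 : (1 + l a) * (1 + ∑ i ∈ s, l i) ≤ (1 + l a) * ∏ i ∈ s, (1 + l i) :=
      mul_le_mul_of_nonneg_left ih (by linarith)
    nlinarith [mul_nonneg h2 h1]

private theorem strict_comass_pd {n m : Type} [Fintype n] [DecidableEq n] [Fintype m]
    (L : Matrix n n ℝ) (L' : Matrix m n ℝ) (hL : 0 < L.det)
    (hle : (Lᵀ * L + L'ᵀ * L').det ≤ L.det ^ 2) : L' = 0 := by
  classical
  have hu : IsUnit L.det := hL.ne'.isUnit
  set N : Matrix m n ℝ := L' * L⁻¹ with hN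
  have hNL : N * L = L' := by
    rw [hN, Matrix.mul_assoc, Matrix.nonsing_inv_mul _ hu, Matrix.mul_one]
  have hfac : Lᵀ * L + L'ᵀ * L' = Lᵀ * (1 + Nᵀ * N) * L := by
    rw [← hNL, Matrix.transpose_mul]
    simp only [Matrix.mul_add, Matrix.add_mul, Matrix.mul_one, Matrix.mul_assoc]
  have hdet : (1 + Nᵀ * N).det ≤ 1 := by
    rw [hfac, Matrix.det_mul, Matrix.det_mul, Matrix.det_transpose] at hle
    by_contra hc
    push Not at hc
    nlinarith [mul_pos hL hL, mul_lt_mul_of_pos_left hc (mul_pos hL hL)]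
  have hpsd : (Nᵀ * N).PosSemidef := by
    have := Matrix.posSemidef_conjTranspose_mul_self N
    simpa using this
  have hH : (Nᵀ * N).IsHermitian := hpsd.isHermitian
  have hprod : (1 + Nᵀ * N).det = ∏ i, (1 + hH.eigenvalues i) := by
    have e1 := Matrix.eval_charpoly (Nᵀ * N) (-1)
    rw [hH.charpoly_eq, Polynomial.eval_prod] at e1
    have e2 : (Matrix.scalar n (-1 : ℝ) - Nᵀ * N) = -(1 + Nᵀ * N) := by
      rw [Matrix.scalar_apply]
      ext i j
      by_cases hij : i = j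
      · subst hij; simp; ring
      · simp [hij]
    rw [e2, Matrix.det_neg] at e1
    have e3 : ∏ j, (Polynomial.eval (-1) (Polynomial.X - Polynomial.C ((hH.eigenvalues j : ℝ)))) =
        (-1) ^ Fintype.card n * ∏ i, (1 + hH.eigenvalues i) := by
      rw [← Finset.card_univ, ← Finset.prod_const, ← Finset.prod_mul_distrib]
      refine Finset.prod_congr rfl (fun i _ => ?_)
      simp; ring
    have e4 : (-1 : ℝ) ^ Fintype.card n * ∏ i, (1 + hH.eigenvalues i) =
        (-1) ^ Fintype.card n * (1 + Nᵀ * N).det := by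
      rw [← e3]; exact e1
    have h5 : ((-1 : ℝ) ^ Fintype.card n) ≠ 0 := by positivity
    exact (mul_left_cancel₀ h5 e4).symm
  have h6 := strict_comass_prod Finset.univ (fun i => hH.eigenvalues i) (fun i => hpsd.eigenvalues_nonneg i)
  have h7 : (Nᵀ * N).trace = 0 := by
    rw [hH.trace_eq_sum_eigenvalues]
    refine le_antisymm ?_ (Finset.sum_nonneg (fun i _ => hpsd.eigenvalues_nonneg i))
    have : ∑ i, hH.eigenvalues i ≤ 0 := by
      rw [hprod] at hdet
      linarith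
    simpa using this
  have h8 : N = 0 := by
    have := (Matrix.trace_conjTranspose_mul_self_eq_zero_iff (A := N)).1 (by simpa using h7)
    exact this
  rw [← hNL, h8, Matrix.zero_mul]

/-- strict version of the comass theorem -/
theorem strict_comass {ι : Type} [Fintype ι] (k : ℕ) (α β : ι → ℝ) (g : ι → Fin 3 → ℝ) (t η : ℝ) (w : Fin 3 → ℝ)
    (hw : ∑ i : Fin 3, w i ^ 2 = 1) (h0 : 0 < η) (h1 : η < 1)
    (h : ∀ p q : ℝ, p ^ 2 + q ^ 2 = 1 →
      ∑ i : Fin 3, ((∑ m, g m i * (α m * p + β m * q) ^ (2 * k))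
        - η * ((p - t * q) / Real.sqrt (1 + t ^ 2)) ^ (2 * k) * w i) ^ 2 ≤ (1 - η) ^ 2)
    (X Y : Matrix (Fin (2 * k)) (Fin (2 * k) ⊕ Fin 2) ℝ) (Z : Matrix (Fin 3) (Fin (2 * k) ⊕ Fin 2) ℝ)
    (hG : 0 < (Xᵀ * X + Yᵀ * Y + Zᵀ * Z).det)
    (heq : ∑ m, ∑ i : Fin 3, g m i *
      (Matrix.of (Sum.elim (fun j => α m • X j + β m • Y j) ![Z (i + 1), Z (i + 2)]) :
        Matrix (Fin (2 * k) ⊕ Fin 2) (Fin (2 * k) ⊕ Fin 2) ℝ).det
      = Real.sqrt (Xᵀ * X + Yᵀ * Y + Zᵀ * Z).det) :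
    (∀ j, Y j + t • X j = 0) ∧ ∑ i : Fin 3, w i • Z i = 0 := by
  classical
  have ht : 0 < 1 + t ^ 2 := by positivity
  set sq : ℝ := Real.sqrt (1 + t ^ 2) with hsq
  have hsqpos : 0 < sq := Real.sqrt_pos.2 ht
  have hsq2 : sq ^ 2 = 1 + t ^ 2 := Real.sq_sqrt ht.le
  set c : ℝ := sq⁻¹ with hc
  have hcpos : 0 < c := inv_pos.2 hsqpos
  have hc2 : c ^ 2 * (1 + t ^ 2) = 1 := by
    rw [hc, ← hsq2]; field_simp
  have h1η : 0 < 1 - η := by linarith
  set s : ℝ := Real.sqrt (Xᵀ * X + Yᵀ * Y + Zᵀ * Z).det with hs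
  have hspos : 0 < s := Real.sqrt_pos.2 hG
  have hs2 : s ^ 2 = (Xᵀ * X + Yᵀ * Y + Zᵀ * Z).det := Real.sq_sqrt hG.le
  set P : ℝ := ∑ i : Fin 3, w i * (Matrix.of (Sum.elim (fun j => c • X j + (-(t * c)) • Y j) ![Z (i + 1), Z (i + 2)]) :
        Matrix (Fin (2 * k) ⊕ Fin 2) (Fin (2 * k) ⊕ Fin 2) ℝ).det with hP
  have hcm := comass (ι := Option ι) k (fun o => o.elim c α) (fun o => o.elim (-(t * c)) β)
    (fun o => o.elim (fun i => - (η * w i) / (1 - η)) (fun m i => g m i / (1 - η))) (by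
      intro p q hpq
      have h3 := h p q hpq
      have h4 : ∀ i : Fin 3, (∑ m : Option ι, (m.elim (fun i => - (η * w i) / (1 - η)) (fun m i => g m i / (1 - η)) : Fin 3 → ℝ) i *
          ((m.elim c α : ℝ) * p + (m.elim (-(t * c)) β : ℝ) * q) ^ (2 * k)) =
          ((∑ m, g m i * (α m * p + β m * q) ^ (2 * k))
        - η * ((p - t * q) / sq) ^ (2 * k) * w i) / (1 - η) := by
        intro i
        rw [Fintype.sum_option]
        simp only [Option.elim_none, Option.elim_some]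
        have e1 : c * p + -(t * c) * q = (p - t * q) / sq := by
          rw [hc]; field_simp; ring
        have e2 : ∑ m, g m i / (1 - η) * (α m * p + β m * q) ^ (2 * k) =
            (∑ m, g m i * (α m * p + β m * q) ^ (2 * k)) / (1 - η) := by
          rw [Finset.sum_div]
          exact Finset.sum_congr rfl (fun m _ => by ring)
        rw [e1, e2]
        ring
      have h5 : ∑ i : Fin 3, (∑ m : Option ι, (m.elim (fun i => - (η * w i) / (1 - η)) (fun m i => g m i / (1 - η)) : Fin 3 → ℝ) i *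
          ((m.elim c α : ℝ) * p + (m.elim (-(t * c)) β : ℝ) * q) ^ (2 * k)) ^ 2 =
          (∑ i : Fin 3, ((∑ m, g m i * (α m * p + β m * q) ^ (2 * k))
        - η * ((p - t * q) / sq) ^ (2 * k) * w i) ^ 2) / (1 - η) ^ 2 := by
        rw [Finset.sum_div]
        refine Finset.sum_congr rfl (fun i _ => ?_)
        rw [h4 i, div_pow]
      rw [h5, div_le_one (by positivity)]
      exact h3) X Y Z
  have hform : ∑ m : Option ι, ∑ i : Fin 3, (m.elim (fun i => - (η * w i) / (1 - η)) (fun m i => g m i / (1 - η)) : Fin 3 → ℝ) i *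
      (Matrix.of (Sum.elim (fun j => (m.elim c α : ℝ) • X j + (m.elim (-(t * c)) β : ℝ) • Y j) ![Z (i + 1), Z (i + 2)]) :
        Matrix (Fin (2 * k) ⊕ Fin 2) (Fin (2 * k) ⊕ Fin 2) ℝ).det = (s - η * P) / (1 - η) := by
    rw [Fintype.sum_option]
    simp only [Option.elim_none, Option.elim_some]
    have e1 : ∑ i : Fin 3, -(η * w i) / (1 - η) *
        (Matrix.of (Sum.elim (fun j => c • X j + (-(t * c)) • Y j) ![Z (i + 1), Z (i + 2)]) :
        Matrix (Fin (2 * k) ⊕ Fin 2) (Fin (2 * k) ⊕ Fin 2) ℝ).det = -(η * P) / (1 - η) := by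
      rw [hP, Finset.mul_sum, ← Finset.sum_neg_distrib, Finset.sum_div]
      exact Finset.sum_congr rfl (fun i _ => by ring)
    have e2 : ∑ m : ι, ∑ i : Fin 3, g m i / (1 - η) *
        (Matrix.of (Sum.elim (fun j => α m • X j + β m • Y j) ![Z (i + 1), Z (i + 2)]) :
        Matrix (Fin (2 * k) ⊕ Fin 2) (Fin (2 * k) ⊕ Fin 2) ℝ).det = s / (1 - η) := by
      rw [← heq, Finset.sum_div]
      refine Finset.sum_congr rfl (fun m _ => ?_)
      rw [Finset.sum_div]
      exact Finset.sum_congr rfl (fun i _ => by ring)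
    rw [e1, e2]
    ring
  rw [hform] at hcm
  have hPs : s ≤ P := by
    have h6 := (abs_le.1 hcm).2
    rw [div_le_iff₀ h1η] at h6
    have h7 : η * s ≤ η * P := by nlinarith
    exact le_of_mul_le_mul_left h7 h0
  obtain ⟨r, r', hcross, hcomp⟩ := strict_comass_onb w hw
  set L : Matrix (Fin (2 * k) ⊕ Fin 2) (Fin (2 * k) ⊕ Fin 2) ℝ :=
    Matrix.of (Sum.elim (fun j => c • X j + (-(t * c)) • Y j) ![∑ i, r i • Z i, ∑ i, r' i • Z i]) with hLdef
  have hLdet : L.det = P := strict_comass_det k (fun j => c • X j + (-(t * c)) • Y j) Z r r' w hcross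
  set L' : Matrix (Fin (2 * k) ⊕ Fin 1) (Fin (2 * k) ⊕ Fin 2) ℝ :=
    Matrix.of (Sum.elim (fun j => c • (Y j + t • X j)) (fun _ => ∑ i : Fin 3, w i • Z i)) with hL'def
  have hGram : Lᵀ * L + L'ᵀ * L' = Xᵀ * X + Yᵀ * Y + Zᵀ * Z := by
    ext p q
    simp only [Matrix.add_apply, Matrix.mul_apply, Matrix.transpose_apply, Fintype.sum_sum_type,
      Fin.sum_univ_two, Fin.sum_univ_one, hLdef, hL'def, Matrix.of_apply, Sum.elim_inl, Sum.elim_inr,
      Matrix.cons_val_zero, Matrix.cons_val_one, Pi.add_apply, Pi.smul_apply, smul_eq_mul,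
      Finset.sum_apply, Fin.sum_univ_three]
    have c00 := hcomp 0 0
    have c01 := hcomp 0 1
    have c02 := hcomp 0 2
    have c11 := hcomp 1 1
    have c12 := hcomp 1 2
    have c22 := hcomp 2 2
    simp at c00 c01 c02 c11 c12 c22
    have hXY : ∑ x, (c * X x p + -(t * c) * Y x p) * (c * X x q + -(t * c) * Y x q) +
        ∑ x, c * (Y x p + t * X x p) * (c * (Y x q + t * X x q)) =
        ∑ x, X x p * X x q + ∑ x, Y x p * Y x q := by
      rw [← Finset.sum_add_distrib, ← Finset.sum_add_distrib]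
      refine Finset.sum_congr rfl (fun x _ => ?_)
      linear_combination (X x p * X x q + Y x p * Y x q) * hc2
    linear_combination hXY + (Z 0 p * Z 0 q) * c00 + (Z 0 p * Z 1 q + Z 1 p * Z 0 q) * c01 +
      (Z 0 p * Z 2 q + Z 2 p * Z 0 q) * c02 + (Z 1 p * Z 1 q) * c11 +
      (Z 1 p * Z 2 q + Z 2 p * Z 1 q) * c12 + (Z 2 p * Z 2 q) * c22
  have hzero : L' = 0 := by
    refine strict_comass_pd L L' (by rw [hLdet]; linarith) ?_
    rw [hGram, hLdet, ← hs2]
    nlinarith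
  constructor
  · intro j
    have h8 : c • (Y j + t • X j) = 0 := by
      have h88 : L' (Sum.inl j) = 0 := by rw [hzero]; rfl
      exact h88
    rcases smul_eq_zero.1 h8 with h9 | h9
    · exact absurd h9 hcpos.ne'
    · exact h9
  · have h88 : L' (Sum.inr 0) = 0 := by rw [hzero]; rfl
    exact h88

end Pool.Agent.Helper608.VF
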