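import Pool.Agent.Helper608.VF.XDefs
import Pool.Agent.Helper608.VF.J_p_cls
import Pool.Agent.Helper608.VF.J_p_gram
import Pool.Agent.Helper608.VF.J_p_sdiag
import Pool.Agent.Helper608.VF.J_p_strict
set_option autoImplicit false
open Matrix MeasureTheory
open scoped ENNReal ContDiff
namespace Pool.Agent.Helper608.VF


theorem om_eq_normal_dot {k : ℕ} (t ζ : ℝ) : (xn k t ζ) ⬝ᵥ (Vn k) = t := by
  unfold xn Vn
  rw [dotProduct_single]
  simp

theorem om_eq_normal_sq {k : ℕ} (t ζ : ℝ) : (xn k t ζ) ⬝ᵥ (xn k t ζ) = t ^ 2 + ζ ^ 2 := by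
  unfold xn
  rw [dotProduct_add, dotProduct_smul, dotProduct_smul, dotProduct_single, dotProduct_single]
  simp
  ring

theorem om_eq_normal {k : ℕ} (hk : 1 ≤ k) (C : Coef k) (t ζ : ℝ) (A : Matrix (I k) (I k) ℝ)
    (hA : ∀ j, A (Sum.inr 0) j = 0)
    (heq : Om C (xn k t ζ) (Vn k) 1 A = dens (xn k t ζ) (Vn k) A) : A = 0 := by
  set l : ℝ := lam ((t ^ 2 + ζ ^ 2) / 2) with hl
  set e : ℝ := ell ((t ^ 2 + ζ ^ 2) / 2) with he
  set M : Matrix (I k) (I k) ℝ := Mm (xn k t ζ) (Vn k) A with hM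
  have hpos : 0 < 1 + t ^ 2 + ζ ^ 2 := by positivity
  have h2lam : 2 * lam ((t ^ 2 + ζ ^ 2) / 2) = 1 + t ^ 2 + ζ ^ 2 := by unfold lam; ring
  have hl0 : 0 < l := by
    have : 0 < 2 * l := by rw [hl, h2lam]; exact hpos
    linarith
  have he2 : e ^ 2 * (1 + t ^ 2 + ζ ^ 2) = 1 := by
    rw [he, ell, h2lam, inv_pow, Real.sq_sqrt hpos.le, inv_mul_cancel₀ hpos.ne']
  have he0 : 0 < e := by
    rw [he, ell, h2lam]
    positivity
  obtain ⟨η, hη0, hη1, hη⟩ := strict_diag hk C t ζ l e hl he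
  let X : Matrix (Fin (2 * k)) (I k) ℝ := fun j => l⁻¹ • (1 : Matrix (I k) (I k) ℝ) (Sum.inl j)
  let Y : Matrix (Fin (2 * k)) (I k) ℝ := fun j => l⁻¹ • M (Sum.inl j)
  let Z : Matrix (Fin 3) (I k) ℝ := ![l⁻¹ • (1 : Matrix (I k) (I k) ℝ) (Sum.inr 0),
    l⁻¹ • (1 : Matrix (I k) (I k) ℝ) (Sum.inr 1), l⁻¹ • M (Sum.inr 1)]
  obtain ⟨hg1, hg2⟩ := gram_normal t ζ A hA l hl M hM X Y Z rfl rfl rfl
  rw [om_cls C t ζ A hA l hl M hM, ← hg1] at heq
  have hw : ∑ i : Fin 3, (![-(ζ * e), t * e, e] : Fin 3 → ℝ) i ^ 2 = 1 := by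
    rw [Fin.sum_univ_three]
    simp only [Matrix.cons_val_zero, Matrix.cons_val_one, Matrix.cons_val]
    rw [← he2]; ring
  obtain ⟨c1, c2⟩ := strict_comass k (fun m : Fin (2 * k + 2) => l + (m:ℝ) * t)
    (fun m : Fin (2 * k + 2) => (m:ℝ)) (gg C t ζ) t η (![-(ζ * e), t * e, e] : Fin 3 → ℝ) hw hη0 hη1 hη
    X Y Z hg2 heq
  have hMe : ∀ i j, M i j = l * A i j - t * (1 : Matrix (I k) (I k) ℝ) i j + (xn k t ζ) i * (Vn k) j := by
    intro i j
    rw [hM, Mm, om_eq_normal_dot, om_eq_normal_sq, ← hl]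
    simp [Matrix.vecMulVec_apply]
  ext i j
  rw [Matrix.zero_apply]
  rcases i with i | i
  · have h1 := congrFun (c1 i) j
    have h2 : l⁻¹ * M (Sum.inl i) j + t * (l⁻¹ * (1 : Matrix (I k) (I k) ℝ) (Sum.inl i) j) = 0 := h1
    have hx : (xn k t ζ) (Sum.inl i) = 0 := by
      simp [xn]
    rw [hMe, hx] at h2
    have h3 : l⁻¹ * (l * A (Sum.inl i) j) = 0 := by linear_combination h2
    rwa [inv_mul_cancel_left₀ hl0.ne'] at h3
  · fin_cases i
    · exact hA j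
    · have h1 := congrFun c2 j
      rw [Fin.sum_univ_three] at h1
      have h2 : -(ζ * e) * (l⁻¹ * (1 : Matrix (I k) (I k) ℝ) (Sum.inr 0) j)
          + t * e * (l⁻¹ * (1 : Matrix (I k) (I k) ℝ) (Sum.inr 1) j)
          + e * (l⁻¹ * M (Sum.inr 1) j) = 0 := h1
      have hx : (xn k t ζ) (Sum.inr 1) = ζ := by
        simp [xn]
      have hV : (Vn k) j = (1 : Matrix (I k) (I k) ℝ) (Sum.inr 0) j := by
        rw [Vn, Matrix.one_apply, Pi.single_apply]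
        simp [eq_comm]
      rw [hMe, hx, hV] at h2
      have h3 : e * (l⁻¹ * (l * A (Sum.inr 1) j)) = 0 := by linear_combination h2
      rw [inv_mul_cancel_left₀ hl0.ne'] at h3
      exact (mul_eq_zero.1 h3).resolve_left he0.ne'

end Pool.Agent.Helper608.VF
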