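import Pool.Agent.Helper608.VF.XDefs
import Pool.Agent.Helper608.VF.J_p_alg
import Pool.Agent.Helper608.VF.J_p_eqn
import Pool.Agent.Helper608.VF.J_p_frame
set_option autoImplicit false
open Matrix MeasureTheory
open scoped ENNReal ContDiff
namespace Pool.Agent.Helper608.VF


/-- UNIQUENESS in the calibration inequality -/
theorem om_eq {k : ℕ} (hk : 1 ≤ k) (C : Coef k) (x V : I k → ℝ) (hV : V ⬝ᵥ V = 1) (A : Matrix (I k) (I k) ℝ)
    (hA : V ᵥ* A = 0) (heq : Om C x V 1 A = dens x V A) : A = 0 := by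
  obtain ⟨O, hO, hOV, ζ, _, hOx⟩ := frame x V hV
  have h1 : Vn k ᵥ* (O * A * Oᵀ) = 0 := by
    have e1 : O *ᵥ V = V ᵥ* Oᵀ := (Matrix.vecMul_transpose O V).symm
    rw [← hOV, e1, Matrix.vecMul_vecMul,
      show Oᵀ * (O * A * Oᵀ) = (Oᵀ * O) * A * Oᵀ by simp only [mul_assoc],
      hO, one_mul, ← Matrix.vecMul_vecMul, hA, Matrix.zero_vecMul]
  have hA' : ∀ j, (O * A * Oᵀ) (Sum.inr 0) j = 0 := by
    intro j
    have h2 := congrFun h1 j
    rw [Vn, Matrix.single_one_vecMul] at h2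
    exact h2
  have h3 : Om C (xn k (x ⬝ᵥ V) ζ) (Vn k) 1 (O * A * Oᵀ) =
      dens (xn k (x ⬝ᵥ V) ζ) (Vn k) (O * A * Oᵀ) := by
    rw [← hOV, ← hOx, om_equiv C x V A O hO, dens_equiv x V A O hO, heq]
  have h4 := om_eq_normal hk C (x ⬝ᵥ V) ζ (O * A * Oᵀ) hA' h3
  calc A = (Oᵀ * O) * A * (Oᵀ * O) := by rw [hO, one_mul, mul_one]
    _ = Oᵀ * (O * A * Oᵀ) * O := by simp only [mul_assoc]
    _ = 0 := by rw [h4, mul_zero, zero_mul]

end Pool.Agent.Helper608.VF
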