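import Pool.Agent.Helper608.VF.XDefs
set_option autoImplicit false
open Matrix MeasureTheory
open scoped ENNReal ContDiff
namespace Pool.Agent.Helper608.VF


theorem fc_nonneg (k j : ℕ) (hj : j ≤ k) : 0 ≤ fc k j := by
  induction j with
  | zero => simp [fc]
  | succ j ih =>
    have h1 := ih (by omega)
    have h2 : ((j:ℝ) + 1) ≤ k := by exact_mod_cast hj
    have h0 : (0:ℝ) ≤ j := Nat.cast_nonneg j
    show 0 ≤ fc k j * ((2 * (j:ℝ) + 1) * (2 * (k:ℝ) - 2 * (j:ℝ))) / ((2 * (j:ℝ) + 2) * (4 * (k:ℝ) + 1 - 2 * (j:ℝ)))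
    apply div_nonneg
    · apply mul_nonneg h1
      apply mul_nonneg <;> linarith
    · apply mul_nonneg <;> linarith

theorem F_hasDerivAt_s (k : ℕ) (q s : ℝ) : HasDerivAt (fun s => F k q s) (Fs k q s) s := by
  unfold F Fs
  apply HasDerivAt.fun_sum
  intro j _
  have h := ((hasDerivAt_pow (2 * j) s).const_mul (fc k j)).mul_const (q ^ (k - j))
  refine h.congr_deriv ?_
  push_cast
  ring

theorem F_hasDerivAt_q (k : ℕ) (q s : ℝ) : HasDerivAt (fun q => F k q s) (Fq k q s) q := by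
  unfold F Fq
  apply HasDerivAt.fun_sum
  intro j _
  exact (hasDerivAt_pow (k - j) q).const_mul (fc k j * s ^ (2 * j))

/-- Euler relation -/
theorem F_euler (k : ℕ) (q s : ℝ) : 2 * q * Fq k q s + s * Fs k q s = 2 * k * F k q s := by
  unfold F Fs Fq
  rw [Finset.mul_sum, Finset.mul_sum, Finset.mul_sum, ← Finset.sum_add_distrib]
  refine Finset.sum_congr rfl fun j hj => ?_
  rw [Finset.mem_range] at hj
  have h1 : q * (((k - j : ℕ) : ℝ) * q ^ (k - j - 1)) = ((k:ℝ) - j) * q ^ (k - j) := by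
    rw [Nat.cast_sub (by omega)]
    rcases Nat.eq_zero_or_pos (k - j) with h | h
    · have : k = j := by omega
      subst this
      simp
    · obtain ⟨m, hm⟩ : ∃ m, k - j = m + 1 := ⟨k - j - 1, by omega⟩
      rw [hm, Nat.add_sub_cancel]
      ring
  have h2 : s * ((2 * (j:ℝ)) * s ^ (2 * j - 1)) = (2 * (j:ℝ)) * s ^ (2 * j) := by
    rcases Nat.eq_zero_or_pos j with h | h
    · subst h
      simp
    · obtain ⟨m, hm⟩ : ∃ m, 2 * j = m + 1 := ⟨2 * j - 1, by omega⟩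
      rw [hm, Nat.add_sub_cancel]
      ring
  calc 2 * q * (fc k j * s ^ (2 * j) * (((k - j : ℕ) : ℝ) * q ^ (k - j - 1)))
      + s * (fc k j * (2 * (j:ℝ)) * s ^ (2 * j - 1) * q ^ (k - j))
      = 2 * (fc k j * s ^ (2 * j)) * (q * (((k - j : ℕ) : ℝ) * q ^ (k - j - 1)))
        + fc k j * q ^ (k - j) * (s * ((2 * (j:ℝ)) * s ^ (2 * j - 1))) := by ring
    _ = 2 * k * (fc k j * s ^ (2 * j) * q ^ (k - j)) := by
        rw [h1, h2]
        ring

theorem F_ode_ss (k : ℕ) (q s : ℝ) : HasDerivAt (fun s => Fs k q s)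
    (∑ j ∈ Finset.range (k + 1), fc k j * (2 * (j:ℝ)) *
      (((2 * j - 1 : ℕ) : ℝ) * s ^ (2 * j - 1 - 1)) * q ^ (k - j)) s := by
  unfold Fs
  apply HasDerivAt.fun_sum
  intro j _
  exact ((hasDerivAt_pow (2 * j - 1) s).const_mul (fc k j * (2 * (j:ℝ)))).mul_const (q ^ (k - j))

/-- the differential equation satisfied by `F` -/
theorem F_ode (k : ℕ) (q s : ℝ) :
    s * (q - s ^ 2) * deriv (fun s => Fs k q s) s
      - ((2 * k + 1) * (2 * q - s ^ 2) + 3 * s ^ 2) * Fs k q s + 2 * k * s * F k q s = 0 := by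
  rw [(F_ode_ss k q s).deriv]
  unfold F Fs
  rw [Finset.mul_sum, Finset.mul_sum, Finset.mul_sum, ← Finset.sum_sub_distrib,
    ← Finset.sum_add_distrib, Finset.sum_range_succ']
  have key : ∀ i ∈ Finset.range k,
      (s * (q - s ^ 2) * (fc k (i + 1) * (2 * ((i + 1 : ℕ):ℝ)) *
        (((2 * (i + 1) - 1 : ℕ) : ℝ) * s ^ (2 * (i + 1) - 1 - 1)) * q ^ (k - (i + 1)))
      - ((2 * k + 1) * (2 * q - s ^ 2) + 3 * s ^ 2) *
        (fc k (i + 1) * (2 * ((i + 1 : ℕ):ℝ)) * s ^ (2 * (i + 1) - 1) * q ^ (k - (i + 1)))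
      + 2 * k * s * (fc k (i + 1) * s ^ (2 * (i + 1)) * q ^ (k - (i + 1))))
      = (fun i : ℕ => fc k i * ((2 * (i:ℝ) + 1) * (2 * (k:ℝ) - 2 * (i:ℝ))) * s ^ (2 * i + 1)
          * q ^ (k - i)) (i + 1)
        - (fun i : ℕ => fc k i * ((2 * (i:ℝ) + 1) * (2 * (k:ℝ) - 2 * (i:ℝ))) * s ^ (2 * i + 1)
          * q ^ (k - i)) i := by
    intro i hi
    rw [Finset.mem_range] at hi
    have h2 : ((i:ℝ) + 1) ≤ k := by exact_mod_cast hi
    have h0 : (0:ℝ) ≤ i := Nat.cast_nonneg i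
    have hrec : fc k i * ((2 * (i:ℝ) + 1) * (2 * (k:ℝ) - 2 * (i:ℝ)))
        = fc k (i + 1) * ((2 * (i:ℝ) + 2) * (4 * (k:ℝ) + 1 - 2 * (i:ℝ))) := by
      have h3 : ((2 * (i:ℝ) + 2) * (4 * (k:ℝ) + 1 - 2 * (i:ℝ))) ≠ 0 := by
        apply ne_of_gt
        apply mul_pos <;> linarith
      show _ = fc k i * ((2 * (i:ℝ) + 1) * (2 * (k:ℝ) - 2 * (i:ℝ))) / ((2 * (i:ℝ) + 2) * (4 * (k:ℝ) + 1 - 2 * (i:ℝ))) * _
      rw [div_mul_cancel₀ _ h3]
    have e1 : 2 * (i + 1) - 1 = 2 * i + 1 := by omega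
    have e2 : 2 * i + 1 - 1 = 2 * i := by omega
    obtain ⟨m, hm⟩ : ∃ m, k - i = m + 1 := ⟨k - i - 1, by omega⟩
    have e3 : k - (i + 1) = m := by omega
    beta_reduce
    rw [hrec, e1, e2, e3, hm]
    push_cast
    ring
  rw [Finset.sum_congr rfl key, Finset.sum_range_sub
    (fun i : ℕ => fc k i * ((2 * (i:ℝ) + 1) * (2 * (k:ℝ) - 2 * (i:ℝ))) * s ^ (2 * i + 1)
          * q ^ (k - i))]
  simp
  ring

theorem Q_pos (t R a b : ℝ) (hR : -1 / 2 < R) (ha : a ≠ 0) : 0 < Q t R a b := by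
  have hl : 0 < lam R := by unfold lam; linarith
  have e : Q t R a b = (a / lam R) ^ 2 + (t * (a / lam R) - b) ^ 2 := by
    unfold Q
    field_simp
    ring
  rw [e]
  have h1 : 0 < (a / lam R) ^ 2 := by
    have : a / lam R ≠ 0 := div_ne_zero ha hl.ne'
    positivity
  have h2 := sq_nonneg (t * (a / lam R) - b)
  linarith

end Pool.Agent.Helper608.VF
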