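import Pool.Agent.Helper608.VF.XDefs
import Pool.Agent.Helper608.VF.J_w_F
set_option autoImplicit false
open Matrix MeasureTheory
open scoped ENNReal ContDiff
namespace Pool.Agent.Helper608.VF


/-- second derivatives of the polynomial -/
noncomputable def pdeFqq (k : ℕ) (q s : ℝ) : ℝ :=
  ∑ j ∈ Finset.range (k + 1), fc k j * s ^ (2 * j) *
    (((k - j : ℕ) : ℝ) * (((k - j - 1 : ℕ) : ℝ) * q ^ (k - j - 1 - 1)))
noncomputable def pdeFqs (k : ℕ) (q s : ℝ) : ℝ :=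
  ∑ j ∈ Finset.range (k + 1), fc k j * (2 * (j:ℝ)) * s ^ (2 * j - 1) *
    (((k - j : ℕ) : ℝ) * q ^ (k - j - 1))
noncomputable def pdeFss (k : ℕ) (q s : ℝ) : ℝ :=
  ∑ j ∈ Finset.range (k + 1), fc k j * (2 * (j:ℝ)) *
    (((2 * j - 1 : ℕ) : ℝ) * s ^ (2 * j - 1 - 1)) * q ^ (k - j)

theorem pde_F (k : ℕ) {q s : ℝ → ℝ} {q' s' x : ℝ} (hq : HasDerivAt q q' x)
    (hs : HasDerivAt s s' x) : HasDerivAt (fun x => F k (q x) (s x))
      (Fq k (q x) (s x) * q' + Fs k (q x) (s x) * s') x := by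
  unfold F Fq Fs
  rw [Finset.sum_mul, Finset.sum_mul, ← Finset.sum_add_distrib]
  refine HasDerivAt.fun_sum fun j _ => ?_
  have h1 : HasDerivAt (fun x => fc k j * s x ^ (2 * j) * q x ^ (k - j)) _ x :=
    ((hs.pow (2 * j)).const_mul (fc k j)).mul (hq.pow (k - j))
  refine h1.congr_deriv ?_
  simp only [Pi.pow_apply]
  push_cast
  ring

theorem pde_Fq (k : ℕ) {q s : ℝ → ℝ} {q' s' x : ℝ} (hq : HasDerivAt q q' x)
    (hs : HasDerivAt s s' x) : HasDerivAt (fun x => Fq k (q x) (s x))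
      (pdeFqq k (q x) (s x) * q' + pdeFqs k (q x) (s x) * s') x := by
  unfold Fq pdeFqq pdeFqs
  rw [Finset.sum_mul, Finset.sum_mul, ← Finset.sum_add_distrib]
  refine HasDerivAt.fun_sum fun j _ => ?_
  have h1 : HasDerivAt (fun x => fc k j * s x ^ (2 * j) *
      (((k - j : ℕ) : ℝ) * q x ^ (k - j - 1))) _ x :=
    ((hs.pow (2 * j)).const_mul (fc k j)).mul ((hq.pow (k - j - 1)).const_mul _)
  refine h1.congr_deriv ?_
  simp only [Pi.pow_apply]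
  push_cast
  ring

theorem pde_Fs (k : ℕ) {q s : ℝ → ℝ} {q' s' x : ℝ} (hq : HasDerivAt q q' x)
    (hs : HasDerivAt s s' x) : HasDerivAt (fun x => Fs k (q x) (s x))
      (pdeFqs k (q x) (s x) * q' + pdeFss k (q x) (s x) * s') x := by
  unfold Fs pdeFqs pdeFss
  rw [Finset.sum_mul, Finset.sum_mul, ← Finset.sum_add_distrib]
  refine HasDerivAt.fun_sum fun j _ => ?_
  have h1 : HasDerivAt (fun x => fc k j * (2 * (j:ℝ)) * s x ^ (2 * j - 1) * q x ^ (k - j)) _ x :=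
    ((hs.pow (2 * j - 1)).const_mul (fc k j * (2 * (j:ℝ)))).mul (hq.pow (k - j))
  refine h1.congr_deriv ?_
  simp only [Pi.pow_apply]
  ring

theorem pde_E2 (k : ℕ) (q s : ℝ) :
    2 * q * pdeFqs k q s + s * pdeFss k q s = (2 * k - 1) * Fs k q s := by
  have hc : HasDerivAt (fun _ : ℝ => q) 0 s := hasDerivAt_const s q
  have hi : HasDerivAt (fun s : ℝ => s) 1 s := hasDerivAt_id s
  have h1 := pde_Fq k hc hi
  have h2 := pde_Fs k hc hi
  have h3 := pde_F k hc hi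
  have h4 : HasDerivAt (fun s => 2 * q * Fq k q s + s * Fs k q s) _ s :=
    (h1.const_mul (2 * q)).add (hi.mul h2)
  have h5 : HasDerivAt (fun s => 2 * k * F k q s) _ s := h3.const_mul (2 * (k:ℝ))
  have h6 : (fun s => 2 * q * Fq k q s + s * Fs k q s) = fun s => 2 * k * F k q s :=
    funext fun s => F_euler k q s
  rw [h6] at h4
  have h7 := h4.unique h5
  linarith

theorem pde_ode (k : ℕ) (q s : ℝ) :
    s * (q - s ^ 2) * pdeFss k q s
      - ((2 * k + 1) * (2 * q - s ^ 2) + 3 * s ^ 2) * Fs k q s + 2 * k * s * F k q s = 0 := by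
  have hc : HasDerivAt (fun _ : ℝ => q) 0 s := hasDerivAt_const s q
  have hi : HasDerivAt (fun s : ℝ => s) 1 s := hasDerivAt_id s
  have h2 := (pde_Fs k hc hi).deriv
  have h3 := F_ode k q s
  rw [h2] at h3
  linarith

theorem pde_lam (R : ℝ) : HasDerivAt lam 1 R := by
  unfold lam
  exact (hasDerivAt_id R).const_add (1 / 2)

theorem pde_ell (R : ℝ) (hR : -1 / 2 < R) : HasDerivAt ell (-(ell R) ^ 3) R := by
  have hl : 0 < 2 * lam R := by unfold lam; linarith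
  have h1 : HasDerivAt (fun R => 2 * lam R) (2 * 1) R := (pde_lam R).const_mul 2
  have h2 : HasDerivAt (fun R => (Real.sqrt (2 * lam R))⁻¹) _ R :=
    (h1.sqrt hl.ne').inv (Real.sqrt_pos.mpr hl).ne'
  unfold ell
  refine h2.congr_deriv ?_
  have h3 : 0 < Real.sqrt (2 * lam R) := Real.sqrt_pos.mpr hl
  field_simp

theorem pde_ell_sq (R : ℝ) (hR : -1 / 2 < R) : ell R ^ 2 * (2 * lam R) = 1 := by
  have hl : 0 < 2 * lam R := by unfold lam; linarith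
  unfold ell
  rw [inv_pow, Real.sq_sqrt hl.le, inv_mul_cancel₀ hl.ne']

theorem pde_alg (t a b L k F Fq Fs Fqq Fqs Fss : ℝ) (hL : L ≠ 0) (hk : 2 * k + 1 ≠ 0)
    (hq0 : 4 * (1 + t ^ 2) * a ^ 2 * L ^ 4 - 4 * t * a * b * L ^ 2 + b ^ 2 ≠ 0)
    (E0 : 2 * (4 * (1 + t ^ 2) * a ^ 2 * L ^ 4 - 4 * t * a * b * L ^ 2 + b ^ 2) * Fq +
      L * b * Fs - 2 * k * F = 0)
    (E2 : 2 * (4 * (1 + t ^ 2) * a ^ 2 * L ^ 4 - 4 * t * a * b * L ^ 2 + b ^ 2) * Fqs +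
      L * b * Fss - (2 * k - 1) * Fs = 0)
    (EO : L * b * ((4 * (1 + t ^ 2) * a ^ 2 * L ^ 4 - 4 * t * a * b * L ^ 2 + b ^ 2) -
        (L * b) ^ 2) * Fss
      - ((2 * k + 1) * (2 * (4 * (1 + t ^ 2) * a ^ 2 * L ^ 4 - 4 * t * a * b * L ^ 2 + b ^ 2) -
        (L * b) ^ 2) + 3 * (L * b) ^ 2) * Fs + 2 * k * (L * b) * F = 0)
    (Qa Qb Qt QR Qat QaR QbR LR m ρ : ℝ) (hm : m = 2 * L ^ 2)
    (hQa : Qa = 2 * (1 + t ^ 2) * a * m ^ 2 - 2 * t * b * m)
    (hQb : Qb = 2 * b - 2 * t * a * m)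
    (hQt : Qt = 2 * t * a ^ 2 * m ^ 2 - 2 * a * b * m)
    (hQat : Qat = 4 * t * a * m ^ 2 - 2 * b * m)
    (hQR : QR = -(a * m * Qa))
    (hQaR : QaR = -4 * (1 + t ^ 2) * a * m ^ 3 + 2 * t * b * m ^ 2)
    (hQbR : QbR = 2 * t * a * m ^ 2)
    (hLR : LR = -L ^ 3) (hρ : ρ = 1 / L ^ 2 - 1) :
    L / (2 * (2 * k + 1)) * (Fqq * Qt * Qa ^ 2 + Fq * (2 * Qa * Qat) +
        Fq * Qt * (2 * (1 + t ^ 2) * m ^ 2) + F * (4 * t * m ^ 2))
    - (LR / (2 * (2 * k + 1)) * ((Fq * Qb + L * Fs) * Qa - F * (2 * t * m)) +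
       L / (2 * (2 * k + 1)) * (((Fqq * QR + Fqs * (LR * b)) * Qb + Fq * QbR + LR * Fs +
         L * (Fqs * QR + Fss * (LR * b))) * Qa + (Fq * Qb + L * Fs) * QaR -
         (Fq * QR + Fs * (LR * b)) * (2 * t * m) - F * (2 * t * (-m ^ 2))))
    + (ρ - t ^ 2) * (L * (Fq * Qt) * m ^ 2 - L ^ 2 * b * (Fqs * Qt) * m ^ 2 / (2 * k + 1))
    - 2 * t * (L * F * m ^ 2 - L ^ 2 * b * Fs * m ^ 2 / (2 * k + 1))
    + (a - t * b) * (L * (Fq * Qb + Fs * L) * m ^ 2 - L ^ 2 * m ^ 2 / (2 * k + 1) *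
        (Fs + b * (Fqs * Qb + Fss * L)))
    - (ρ - t ^ 2) * (a / (2 * k + 1) * (2 * L * LR * Fs * m ^ 2 +
        L ^ 2 * (Fqs * QR + Fss * (LR * b)) * m ^ 2 + L ^ 2 * Fs * (-2 * m ^ 3)))
    - 2 * (L ^ 2 * a * Fs * m ^ 2 / (2 * k + 1))
    - (a - t * b) * (L ^ 2 * m ^ 2 / (2 * k + 1) * (Fs + a * (Fqs * Qa)))
    + (-(L * m * (Fq * Qt)))
    + t * (-(LR * m + L * (-m ^ 2)) * F - L * m * (Fq * QR + Fs * (LR * b)))
    + b * (-(L * m * (Fq * Qa))) = 0 := by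
  subst hm hQa hQb hQt hQat hQR hQaR hQbR hLR hρ
  apply mul_left_cancel₀ hq0
  rw [mul_zero]
  trans (4 * L ^ 5 / (2 * k + 1)) * (((4 * (1 + t ^ 2) * a ^ 2 * L ^ 4 - 4 * t * a * b * L ^ 2 + b ^ 2) * t / 2 - a * L ^ 2 * b) * (2 * (4 * (1 + t ^ 2) * a ^ 2 * L ^ 4 - 4 * t * a * b * L ^ 2 + b ^ 2) * Fq + L * b * Fs - 2 * k * F)
    + L * ((4 * (1 + t ^ 2) * a ^ 2 * L ^ 4 - 4 * t * a * b * L ^ 2 + b ^ 2) * t * b / 2 + a * ((4 * (1 + t ^ 2) * a ^ 2 * L ^ 4 - 4 * t * a * b * L ^ 2 + b ^ 2) - (L * b) ^ 2)) * (2 * (4 * (1 + t ^ 2) * a ^ 2 * L ^ 4 - 4 * t * a * b * L ^ 2 + b ^ 2) * Fqs + L * b * Fss - (2 * k - 1) * Fs) - L * a * (L * b * ((4 * (1 + t ^ 2) * a ^ 2 * L ^ 4 - 4 * t * a * b * L ^ 2 + b ^ 2) - (L * b) ^ 2) * Fss - ((2 * k + 1) * (2 * (4 * (1 + t ^ 2) * a ^ 2 * L ^ 4 - 4 * t * a * b * L ^ 2 + b ^ 2) - (L * b) ^ 2) + 3 * (L * b) ^ 2) * Fs + 2 * k * (L * b) * F))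
  · field_simp
    ring
  · rw [E0, E2, EO]
    ring

theorem pde_M (R : ℝ) (hR : -1 / 2 < R) :
    HasDerivAt (fun R => (lam R)⁻¹) (-((lam R)⁻¹) ^ 2) R := by
  have hl : 0 < lam R := by unfold lam; linarith
  have h := (pde_lam R).inv hl.ne'
  refine h.congr_deriv ?_
  field_simp

theorem pde_Q_eq (t R a b : ℝ) : Q t R a b =
    (1 + t ^ 2) * a ^ 2 * (lam R)⁻¹ ^ 2 - 2 * t * a * b * (lam R)⁻¹ + b ^ 2 := by
  unfold Q; ring
theorem pde_Qa_eq (t R a b : ℝ) : Qa t R a b =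
    2 * (1 + t ^ 2) * a * (lam R)⁻¹ ^ 2 - 2 * t * b * (lam R)⁻¹ := by
  unfold Qa; ring
theorem pde_Qb_eq (t R a b : ℝ) : Qb t R a b = 2 * b - 2 * t * a * (lam R)⁻¹ := by
  unfold Qb; ring

theorem pde_Qt (t R a b : ℝ) : HasDerivAt (fun t => Q t R a b)
    (2 * t * a ^ 2 * (lam R)⁻¹ ^ 2 - 2 * a * b * (lam R)⁻¹) t := by
  simp only [pde_Q_eq]
  have hi : HasDerivAt (fun t : ℝ => t) 1 t := hasDerivAt_id t
  have h : HasDerivAt (fun t : ℝ => (1 + t ^ 2) * (a ^ 2 * (lam R)⁻¹ ^ 2) -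
      t * (2 * a * b * (lam R)⁻¹) + b ^ 2) _ t :=
    ((((hi.pow 2).const_add 1).mul_const _).sub (hi.mul_const _)).add_const (b ^ 2)
  have e : (fun t : ℝ => (1 + t ^ 2) * a ^ 2 * (lam R)⁻¹ ^ 2 - 2 * t * a * b * (lam R)⁻¹ + b ^ 2) =
      fun t : ℝ => (1 + t ^ 2) * (a ^ 2 * (lam R)⁻¹ ^ 2) -
      t * (2 * a * b * (lam R)⁻¹) + b ^ 2 := by
    funext t; ring
  rw [e]
  refine h.congr_deriv ?_
  push_cast
  ring

theorem pde_Qa' (t R a b : ℝ) : HasDerivAt (fun a => Q t R a b) (Qa t R a b) a := by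
  simp only [pde_Q_eq, pde_Qa_eq]
  have hi : HasDerivAt (fun a : ℝ => a) 1 a := hasDerivAt_id a
  have h : HasDerivAt (fun a : ℝ => ((1 + t ^ 2) * (lam R)⁻¹ ^ 2) * a ^ 2 -
      (2 * t * b * (lam R)⁻¹) * a + b ^ 2) _ a :=
    (((hi.pow 2).const_mul _).sub (hi.const_mul _)).add_const (b ^ 2)
  have e : (fun a : ℝ => (1 + t ^ 2) * a ^ 2 * (lam R)⁻¹ ^ 2 - 2 * t * a * b * (lam R)⁻¹ + b ^ 2) =
      fun a : ℝ => ((1 + t ^ 2) * (lam R)⁻¹ ^ 2) * a ^ 2 -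
      (2 * t * b * (lam R)⁻¹) * a + b ^ 2 := by
    funext t; ring
  rw [e]
  refine h.congr_deriv ?_
  push_cast
  ring

theorem pde_Qb' (t R a b : ℝ) : HasDerivAt (fun b => Q t R a b) (Qb t R a b) b := by
  simp only [pde_Q_eq, pde_Qb_eq]
  have hi : HasDerivAt (fun b : ℝ => b) 1 b := hasDerivAt_id b
  have h : HasDerivAt (fun b : ℝ => (1 + t ^ 2) * a ^ 2 * (lam R)⁻¹ ^ 2 -
      (2 * t * a * (lam R)⁻¹) * b + b ^ 2) _ b :=
    ((hi.const_mul _).const_sub _).add (hi.pow 2)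
  have e : (fun b : ℝ => (1 + t ^ 2) * a ^ 2 * (lam R)⁻¹ ^ 2 - 2 * t * a * b * (lam R)⁻¹ + b ^ 2) =
      fun b : ℝ => (1 + t ^ 2) * a ^ 2 * (lam R)⁻¹ ^ 2 -
      (2 * t * a * (lam R)⁻¹) * b + b ^ 2 := by
    funext t; ring
  rw [e]
  refine h.congr_deriv ?_
  push_cast
  ring

theorem pde_QR (t R a b : ℝ) (hR : -1 / 2 < R) : HasDerivAt (fun R => Q t R a b)
    (-(a * (lam R)⁻¹ * Qa t R a b)) R := by
  simp only [pde_Q_eq, pde_Qa_eq]
  have hM := pde_M R hR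
  have h : HasDerivAt (fun R : ℝ => ((1 + t ^ 2) * a ^ 2) * (lam R)⁻¹ ^ 2 -
      (2 * t * a * b) * (lam R)⁻¹ + b ^ 2) _ R :=
    (((hM.pow 2).const_mul _).sub (hM.const_mul _)).add_const (b ^ 2)
  refine h.congr_deriv ?_
  push_cast
  ring

theorem pde_Qat (t R a b : ℝ) : HasDerivAt (fun t => Qa t R a b)
    (4 * t * a * (lam R)⁻¹ ^ 2 - 2 * b * (lam R)⁻¹) t := by
  simp only [pde_Qa_eq]
  have hi : HasDerivAt (fun t : ℝ => t) 1 t := hasDerivAt_id t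
  have h : HasDerivAt (fun t : ℝ => (1 + t ^ 2) * (2 * a * (lam R)⁻¹ ^ 2) -
      t * (2 * b * (lam R)⁻¹)) _ t :=
    (((hi.pow 2).const_add 1).mul_const _).sub (hi.mul_const _)
  have e : (fun t : ℝ => 2 * (1 + t ^ 2) * a * (lam R)⁻¹ ^ 2 - 2 * t * b * (lam R)⁻¹) =
      fun t : ℝ => (1 + t ^ 2) * (2 * a * (lam R)⁻¹ ^ 2) - t * (2 * b * (lam R)⁻¹) := by
    funext t; ring
  rw [e]
  refine h.congr_deriv ?_
  push_cast
  ring

theorem pde_QaR (t R a b : ℝ) (hR : -1 / 2 < R) : HasDerivAt (fun R => Qa t R a b)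
    (-4 * (1 + t ^ 2) * a * (lam R)⁻¹ ^ 3 + 2 * t * b * (lam R)⁻¹ ^ 2) R := by
  simp only [pde_Qa_eq]
  have hM := pde_M R hR
  have h : HasDerivAt (fun R : ℝ => (2 * (1 + t ^ 2) * a) * (lam R)⁻¹ ^ 2 -
      (2 * t * b) * (lam R)⁻¹) _ R :=
    ((hM.pow 2).const_mul _).sub (hM.const_mul _)
  refine h.congr_deriv ?_
  push_cast
  ring

theorem pde_QbR (t R a b : ℝ) (hR : -1 / 2 < R) : HasDerivAt (fun R => Qb t R a b)
    (2 * t * a * (lam R)⁻¹ ^ 2) R := by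
  simp only [pde_Qb_eq]
  have hM := pde_M R hR
  have h : HasDerivAt (fun R : ℝ => 2 * b - (2 * t * a) * (lam R)⁻¹) _ R :=
    (hM.const_mul _).const_sub _
  refine h.congr_deriv ?_
  ring

/-- the closedness equation in terms of the explicit functions -/
theorem pde (k : ℕ) (t R a b : ℝ) (hR : -1 / 2 < R) (ha : a ≠ 0) :
    deriv (fun t => Kaf k t R a b) t - deriv (fun R => Kbf k t R a b) R
      + (2 * R - t ^ 2) * deriv (fun t => Ef k t R a b) t - 2 * t * Ef k t R a b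
      + (a - t * b) * deriv (fun b => Ef k t R a b) b
      - (2 * R - t ^ 2) * deriv (fun R => Ff k t R a b) R - 2 * Ff k t R a b
      - (a - t * b) * deriv (fun a => Ff k t R a b) a
      + deriv (fun t => Hf k t R a b) t + t * deriv (fun R => Hf k t R a b) R
      + b * deriv (fun a => Hf k t R a b) a = 0 := by
  have hl : 0 < lam R := by unfold lam; linarith
  have hM := pde_M R hR
  have hL := pde_ell R hR
  have hLs := pde_ell_sq R hR
  have hLp : 0 < ell R := by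
    unfold ell
    exact inv_pos.mpr (Real.sqrt_pos.mpr (by linarith))
  have hmL : (lam R)⁻¹ = 2 * ell R ^ 2 := by
    field_simp
    linarith
  have hi : HasDerivAt (fun t : ℝ => t) 1 t := hasDerivAt_id t
  have hia : HasDerivAt (fun t : ℝ => t) 1 a := hasDerivAt_id a
  have hib : HasDerivAt (fun t : ℝ => t) 1 b := hasDerivAt_id b
  -- values of the composite functions
  have hFt := pde_F k (pde_Qt t R a b) (hasDerivAt_const t (ell R * b))
  have hFqt := pde_Fq k (pde_Qt t R a b) (hasDerivAt_const t (ell R * b))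
  have hFst := pde_Fs k (pde_Qt t R a b) (hasDerivAt_const t (ell R * b))
  have hFa := pde_F k (pde_Qa' t R a b) (hasDerivAt_const a (ell R * b))
  have hFsa := pde_Fs k (pde_Qa' t R a b) (hasDerivAt_const a (ell R * b))
  have hFb := pde_F k (pde_Qb' t R a b) (hib.const_mul (ell R))
  have hFsb := pde_Fs k (pde_Qb' t R a b) (hib.const_mul (ell R))
  have hFR := pde_F k (pde_QR t R a b hR) (hL.mul_const b)
  have hFqR := pde_Fq k (pde_QR t R a b hR) (hL.mul_const b)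
  have hFsR := pde_Fs k (pde_QR t R a b hR) (hL.mul_const b)
  have d1 : HasDerivAt (fun t => ell R / (2 * (2 * k + 1)) *
        (Fq k (Q t R a b) (ell R * b) * Qa t R a b ^ 2
        + F k (Q t R a b) (ell R * b) * ((1 + t ^ 2) * (2 * (lam R)⁻¹ ^ 2)))) _ t :=
      ((hFqt.mul ((pde_Qat t R a b).pow 2)).add
        (hFt.mul (((hi.pow 2).const_add 1).mul_const _))).const_mul _
  have ed1 : (fun t => Kaf k t R a b) = fun t => ell R / (2 * (2 * k + 1)) *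
        (Fq k (Q t R a b) (ell R * b) * Qa t R a b ^ 2
        + F k (Q t R a b) (ell R * b) * ((1 + t ^ 2) * (2 * (lam R)⁻¹ ^ 2))) := by
      funext t
      unfold Kaf
      ring
  rw [← ed1] at d1
  have d2 : HasDerivAt (fun R => ell R * (2 * (2 * (k:ℝ) + 1))⁻¹ *
        ((Fq k (Q t R a b) (ell R * b) * Qb t R a b
      + ell R * Fs k (Q t R a b) (ell R * b)) * Qa t R a b
    - F k (Q t R a b) (ell R * b) * ((2 * t) * (lam R)⁻¹))) _ R :=
      (hL.mul_const _).mul ((((hFqR.mul (pde_QbR t R a b hR)).add (hL.mul hFsR)).mul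
        (pde_QaR t R a b hR)).sub (hFR.mul (hM.const_mul (2 * t))))
  have ed2 : (fun R => Kbf k t R a b) = fun R => ell R * (2 * (2 * (k:ℝ) + 1))⁻¹ *
        ((Fq k (Q t R a b) (ell R * b) * Qb t R a b
      + ell R * Fs k (Q t R a b) (ell R * b)) * Qa t R a b
    - F k (Q t R a b) (ell R * b) * ((2 * t) * (lam R)⁻¹)) := by
      funext R
      unfold Kbf
      ring
  rw [← ed2] at d2
  have d3 : HasDerivAt (fun t => (ell R * (lam R)⁻¹ ^ 2) * F k (Q t R a b) (ell R * b)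
        - (ell R ^ 2 * b * (2 * (k:ℝ) + 1)⁻¹ * (lam R)⁻¹ ^ 2) * Fs k (Q t R a b) (ell R * b)) _ t :=
      (hFt.const_mul _).sub (hFst.const_mul _)
  have ed3 : (fun t => Ef k t R a b) = fun t => (ell R * (lam R)⁻¹ ^ 2) *
        F k (Q t R a b) (ell R * b)
        - (ell R ^ 2 * b * (2 * (k:ℝ) + 1)⁻¹ * (lam R)⁻¹ ^ 2) * Fs k (Q t R a b) (ell R * b) := by
      funext t
      unfold Ef
      field_simp
  rw [← ed3] at d3
  have d4 : HasDerivAt (fun b => (ell R * (lam R)⁻¹ ^ 2) * F k (Q t R a b) (ell R * b)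
        - (ell R ^ 2 * (2 * (k:ℝ) + 1)⁻¹ * (lam R)⁻¹ ^ 2) *
          (b * Fs k (Q t R a b) (ell R * b))) _ b :=
      (hFb.const_mul _).sub ((hib.mul hFsb).const_mul _)
  have ed4 : (fun b => Ef k t R a b) = fun b => (ell R * (lam R)⁻¹ ^ 2) *
        F k (Q t R a b) (ell R * b)
        - (ell R ^ 2 * (2 * (k:ℝ) + 1)⁻¹ * (lam R)⁻¹ ^ 2) *
          (b * Fs k (Q t R a b) (ell R * b)) := by
      funext b
      unfold Ef
      field_simp
  rw [← ed4] at d4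
  have d5 : HasDerivAt (fun R => (a * (2 * (k:ℝ) + 1)⁻¹) * (ell R ^ 2 *
        Fs k (Q t R a b) (ell R * b) * (lam R)⁻¹ ^ 2)) _ R :=
      (((hL.pow 2).mul hFsR).mul (hM.pow 2)).const_mul _
  have ed5 : (fun R => Ff k t R a b) = fun R => (a * (2 * (k:ℝ) + 1)⁻¹) * (ell R ^ 2 *
        Fs k (Q t R a b) (ell R * b) * (lam R)⁻¹ ^ 2) := by
      funext R
      unfold Ff
      rw [div_eq_mul_inv, mul_inv]
      ring
  rw [← ed5] at d5
  have d6 : HasDerivAt (fun a => (ell R ^ 2 * (2 * (k:ℝ) + 1)⁻¹ * (lam R)⁻¹ ^ 2) *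
        (a * Fs k (Q t R a b) (ell R * b))) _ a :=
      (hia.mul hFsa).const_mul _
  have ed6 : (fun a => Ff k t R a b) = fun a => (ell R ^ 2 * (2 * (k:ℝ) + 1)⁻¹ *
        (lam R)⁻¹ ^ 2) * (a * Fs k (Q t R a b) (ell R * b)) := by
      funext a
      unfold Ff
      rw [div_eq_mul_inv, mul_inv]
      ring
  rw [← ed6] at d6
  have d7 : HasDerivAt (fun t => -(ell R * (lam R)⁻¹) * F k (Q t R a b) (ell R * b)) _ t :=
      hFt.const_mul _
  have ed7 : (fun t => Hf k t R a b) = fun t => -(ell R * (lam R)⁻¹) *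
        F k (Q t R a b) (ell R * b) := by
      funext t
      unfold Hf
      ring
  rw [← ed7] at d7
  have d8 : HasDerivAt (fun R => -(ell R * (lam R)⁻¹) * F k (Q t R a b) (ell R * b)) _ R :=
      ((hL.mul hM).neg).mul hFR
  have ed8 : (fun R => Hf k t R a b) = fun R => -(ell R * (lam R)⁻¹) *
        F k (Q t R a b) (ell R * b) := by
      funext t
      unfold Hf
      ring
  rw [← ed8] at d8
  have d9 : HasDerivAt (fun a => -(ell R * (lam R)⁻¹) * F k (Q t R a b) (ell R * b)) _ a :=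
      hFa.const_mul _
  have ed9 : (fun a => Hf k t R a b) = fun a => -(ell R * (lam R)⁻¹) *
        F k (Q t R a b) (ell R * b) := by
      funext t
      unfold Hf
      ring
  rw [← ed9] at d9
  rw [d1.deriv, d2.deriv, d3.deriv, d4.deriv, d5.deriv, d6.deriv, d7.deriv, d8.deriv, d9.deriv]
  have hq : Q t R a b = 4 * (1 + t ^ 2) * a ^ 2 * ell R ^ 4 - 4 * t * a * b * ell R ^ 2 +
      b ^ 2 := by
    rw [pde_Q_eq, hmL]
    ring
  have hk : (2 * (k:ℝ) + 1) ≠ 0 := by positivity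
  have E0 := F_euler k (Q t R a b) (ell R * b)
  have E2 := pde_E2 k (Q t R a b) (ell R * b)
  have EO := pde_ode k (Q t R a b) (ell R * b)
  have hq0 := (Q_pos t R a b hR ha).ne'
  have key := pde_alg t a b (ell R) k (F k (Q t R a b) (ell R * b))
    (Fq k (Q t R a b) (ell R * b)) (Fs k (Q t R a b) (ell R * b))
    (pdeFqq k (Q t R a b) (ell R * b)) (pdeFqs k (Q t R a b) (ell R * b))
    (pdeFss k (Q t R a b) (ell R * b)) hLp.ne' hk (by rw [← hq]; exact hq0)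
    (by rw [← hq]; linarith) (by rw [← hq]; linarith) (by rw [← hq]; linarith)
    (Qa t R a b) (Qb t R a b) (2 * t * a ^ 2 * (lam R)⁻¹ ^ 2 - 2 * a * b * (lam R)⁻¹)
    (-(a * (lam R)⁻¹ * Qa t R a b)) (4 * t * a * (lam R)⁻¹ ^ 2 - 2 * b * (lam R)⁻¹)
    (-4 * (1 + t ^ 2) * a * (lam R)⁻¹ ^ 3 + 2 * t * b * (lam R)⁻¹ ^ 2)
    (2 * t * a * (lam R)⁻¹ ^ 2) (-(ell R) ^ 3) (lam R)⁻¹ (2 * R) hmL (pde_Qa_eq t R a b)
    (pde_Qb_eq t R a b) rfl rfl rfl rfl rfl rfl (by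
      have : 2 * lam R = 1 + 2 * R := by unfold lam; ring
      rw [this] at hLs
      field_simp
      linarith)
  refine Eq.trans ?_ key
  unfold Ef Ff
  simp only [Pi.pow_apply, Pi.mul_apply, Pi.add_apply, Pi.sub_apply, Pi.neg_apply]
  push_cast
  rw [div_eq_mul_inv _ (lam R ^ 2), div_eq_mul_inv _ ((2 * (k:ℝ) + 1) * lam R ^ 2), mul_inv,
    div_eq_mul_inv _ ((2 * (k:ℝ) + 1) * lam R ^ 2), mul_inv]
  simp only [← inv_pow]
  generalize F k (Q t R a b) (ell R * b) = F0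
  generalize Fq k (Q t R a b) (ell R * b) = F1
  generalize Fs k (Q t R a b) (ell R * b) = F2
  generalize pdeFqq k (Q t R a b) (ell R * b) = F3
  generalize pdeFqs k (Q t R a b) (ell R * b) = F4
  generalize pdeFss k (Q t R a b) (ell R * b) = F5
  generalize Qa t R a b = qa
  generalize Qb t R a b = qb
  generalize (lam R)⁻¹ = m
  generalize ell R = L
  simp only [div_eq_mul_inv, mul_inv]
  ring

end Pool.Agent.Helper608.VF
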