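import Pool.Agent.Helper608.VF.XDefs
set_option autoImplicit false
open Matrix MeasureTheory
open scoped ENNReal ContDiff
namespace Pool.Agent.Helper608.VF


theorem Kf_da_F {k : ℕ} {q s : ℝ → ℝ} {q' s' x : ℝ} (hq : HasDerivAt q q' x)
    (hs : HasDerivAt s s' x) :
    HasDerivAt (fun x => F k (q x) (s x)) (Fq k (q x) (s x) * q' + Fs k (q x) (s x) * s') x := by
  unfold F
  have h : HasDerivAt (fun x => ∑ j ∈ Finset.range (k + 1), fc k j * s x ^ (2 * j) * q x ^ (k - j))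
      (∑ j ∈ Finset.range (k + 1), (fc k j * (((2 * j : ℕ) : ℝ) * s x ^ (2 * j - 1) * s')
        * q x ^ (k - j) + fc k j * s x ^ (2 * j) *
          (((k - j : ℕ) : ℝ) * q x ^ (k - j - 1) * q'))) x :=
    HasDerivAt.fun_sum fun j _ =>
      ((hs.fun_pow (2 * j)).const_mul (fc k j)).mul (hq.fun_pow (k - j))
  refine h.congr_deriv ?_
  unfold Fq Fs
  rw [Finset.sum_mul, Finset.sum_mul, ← Finset.sum_add_distrib]
  refine Finset.sum_congr rfl fun j _ => ?_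
  push_cast
  ring

theorem Kf_da_Q (t R a b : ℝ) : HasDerivAt (fun a => Q t R a b) (Qa t R a b) a := by
  unfold Q Qa
  have h1 : HasDerivAt (fun a : ℝ => (1 + t ^ 2) * a ^ 2 / lam R ^ 2)
      ((1 + t ^ 2) * (((2 : ℕ) : ℝ) * a ^ (2 - 1) * 1) / lam R ^ 2) a :=
    (((hasDerivAt_id a).fun_pow 2).const_mul (1 + t ^ 2)).div_const _
  have h2 : HasDerivAt (fun a : ℝ => 2 * t * a * b / lam R) (2 * t * 1 * b / lam R) a :=
    ((((hasDerivAt_id a).const_mul (2 * t)).mul_const b)).div_const _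
  refine ((h1.fun_sub h2).add_const (b ^ 2)).congr_deriv ?_
  push_cast
  ring

theorem Kf_da_Qb (t R a b : ℝ) : HasDerivAt (fun b => Q t R a b) (Qb t R a b) b := by
  unfold Q Qb
  have h1 : HasDerivAt (fun b : ℝ => b ^ 2) (((2 : ℕ) : ℝ) * b ^ (2 - 1) * 1) b :=
    (hasDerivAt_id b).fun_pow 2
  have h2 : HasDerivAt (fun b : ℝ => 2 * t * a * b / lam R) (2 * t * a * 1 / lam R) b :=
    (((hasDerivAt_id b).const_mul (2 * t * a))).div_const _
  have h3 := (((hasDerivAt_const b ((1 + t ^ 2) * a ^ 2 / lam R ^ 2)).fun_sub h2)).fun_add h1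
  refine h3.congr_deriv ?_
  push_cast
  ring

theorem Kf_da (k : ℕ) (t R a b : ℝ) :
    HasDerivAt (fun a => Kf k t R a b) ((2 * k + 1) * Kaf k t R a b) a := by
  have hk : (2 * (k : ℝ) + 1) ≠ 0 := by positivity
  have hF := Kf_da_F (k := k) (Kf_da_Q t R a b) (hasDerivAt_const a (ell R * b))
  have hQa : HasDerivAt (fun a => Qa t R a b) (2 * (1 + t ^ 2) / lam R ^ 2) a := by
    unfold Qa
    have h1 : HasDerivAt (fun a : ℝ => 2 * (1 + t ^ 2) * a / lam R ^ 2)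
        (2 * (1 + t ^ 2) * 1 / lam R ^ 2) a :=
      ((hasDerivAt_id a).const_mul (2 * (1 + t ^ 2))).div_const _
    have h2 := h1.fun_sub (hasDerivAt_const a (2 * t * b / lam R))
    refine h2.congr_deriv ?_
    ring
  have h := (hF.const_mul (ell R / 2)).fun_mul hQa
  unfold Kf
  refine h.congr_deriv ?_
  unfold Kaf
  have e2 : (2 * (k : ℝ) + 1) * (ell R / (2 * (2 * k + 1))) = ell R / 2 := by
    field_simp
  rw [← mul_assoc, e2]
  ring

theorem Kf_db (k : ℕ) (t R a b : ℝ) :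
    HasDerivAt (fun b => Kf k t R a b) ((2 * k + 1) * Kbf k t R a b) b := by
  have hk : (2 * (k : ℝ) + 1) ≠ 0 := by positivity
  have hlb : HasDerivAt (fun b : ℝ => ell R * b) (ell R * 1) b :=
    (hasDerivAt_id b).const_mul (ell R)
  have hF := Kf_da_F (k := k) (Kf_da_Qb t R a b) hlb
  have hQa : HasDerivAt (fun b => Qa t R a b) (-(2 * t / lam R)) b := by
    unfold Qa
    have h1 : HasDerivAt (fun b : ℝ => 2 * t * b / lam R) (2 * t * 1 / lam R) b :=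
      ((hasDerivAt_id b).const_mul (2 * t)).div_const _
    have h2 := (hasDerivAt_const b (2 * (1 + t ^ 2) * a / lam R ^ 2)).fun_sub h1
    refine h2.congr_deriv ?_
    ring
  have h := (hF.const_mul (ell R / 2)).fun_mul hQa
  unfold Kf
  refine h.congr_deriv ?_
  unfold Kbf
  have e : (2 * (k : ℝ) + 1) * (ell R / (2 * (2 * k + 1)) *
      ((Fq k (Q t R a b) (ell R * b) * Qb t R a b
      + ell R * Fs k (Q t R a b) (ell R * b)) * Qa t R a b
    - F k (Q t R a b) (ell R * b) * (2 * t / lam R))) = ell R / 2 *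
      ((Fq k (Q t R a b) (ell R * b) * Qb t R a b
      + ell R * Fs k (Q t R a b) (ell R * b)) * Qa t R a b
    - F k (Q t R a b) (ell R * b) * (2 * t / lam R)) := by
    have e2 : (2 * (k : ℝ) + 1) * (ell R / (2 * (2 * k + 1))) = ell R / 2 := by
      field_simp
    rw [← mul_assoc, e2]
  rw [e]
  ring

theorem sm_all_F {k : ℕ} {G : Type*} [NormedAddCommGroup G] [NormedSpace ℝ G] {S : Set G}
    {q s : G → ℝ} (hq : ContDiffOn ℝ ∞ q S) (hs : ContDiffOn ℝ ∞ s S) :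
    ContDiffOn ℝ ∞ (fun p => F k (q p) (s p)) S := by
  unfold F
  exact ContDiffOn.sum fun j _ => (contDiffOn_const.mul (hs.pow _)).mul (hq.pow _)

theorem sm_all_Fs {k : ℕ} {G : Type*} [NormedAddCommGroup G] [NormedSpace ℝ G] {S : Set G}
    {q s : G → ℝ} (hq : ContDiffOn ℝ ∞ q S) (hs : ContDiffOn ℝ ∞ s S) :
    ContDiffOn ℝ ∞ (fun p => Fs k (q p) (s p)) S := by
  unfold Fs
  exact ContDiffOn.sum fun j _ => (contDiffOn_const.mul (hs.pow _)).mul (hq.pow _)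

/-- joint smoothness in `((t, R), (a, b))` -/
theorem sm_all (k : ℕ) :
    ContDiffOn ℝ ∞ (fun p : (ℝ × ℝ) × (ℝ × ℝ) => Kf k p.1.1 p.1.2 p.2.1 p.2.2) {p | -1 / 2 < p.1.2} ∧
    ContDiffOn ℝ ∞ (fun p : (ℝ × ℝ) × (ℝ × ℝ) => Ef k p.1.1 p.1.2 p.2.1 p.2.2) {p | -1 / 2 < p.1.2} ∧
    ContDiffOn ℝ ∞ (fun p : (ℝ × ℝ) × (ℝ × ℝ) => Ff k p.1.1 p.1.2 p.2.1 p.2.2) {p | -1 / 2 < p.1.2} ∧
    ContDiffOn ℝ ∞ (fun p : (ℝ × ℝ) × (ℝ × ℝ) => Hf k p.1.1 p.1.2 p.2.1 p.2.2) {p | -1 / 2 < p.1.2} := by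
  set S : Set ((ℝ × ℝ) × (ℝ × ℝ)) := {p | -1 / 2 < p.1.2} with hS
  have ht : ContDiffOn ℝ ∞ (fun p : (ℝ × ℝ) × (ℝ × ℝ) => p.1.1) S :=
    (contDiff_fst.comp contDiff_fst).contDiffOn
  have hR : ContDiffOn ℝ ∞ (fun p : (ℝ × ℝ) × (ℝ × ℝ) => p.1.2) S :=
    (contDiff_snd.comp contDiff_fst).contDiffOn
  have ha : ContDiffOn ℝ ∞ (fun p : (ℝ × ℝ) × (ℝ × ℝ) => p.2.1) S :=
    (contDiff_fst.comp contDiff_snd).contDiffOn
  have hb : ContDiffOn ℝ ∞ (fun p : (ℝ × ℝ) × (ℝ × ℝ) => p.2.2) S :=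
    (contDiff_snd.comp contDiff_snd).contDiffOn
  have hlam : ContDiffOn ℝ ∞ (fun p : (ℝ × ℝ) × (ℝ × ℝ) => lam p.1.2) S := by
    unfold lam
    exact contDiffOn_const.add hR
  have hpos : ∀ p ∈ S, 0 < lam p.1.2 := by
    intro p hp
    have hp' : -1 / 2 < p.1.2 := hp
    unfold lam
    linarith
  have hne : ∀ p ∈ S, lam p.1.2 ≠ 0 := fun p hp => (hpos p hp).ne'
  have hne2 : ∀ p ∈ S, lam p.1.2 ^ 2 ≠ 0 := fun p hp => pow_ne_zero _ (hne p hp)
  have hell : ContDiffOn ℝ ∞ (fun p : (ℝ × ℝ) × (ℝ × ℝ) => ell p.1.2) S := by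
    unfold ell
    refine ContDiffOn.inv (ContDiffOn.sqrt (contDiffOn_const.mul hlam) ?_) ?_
    · intro p hp
      have := hpos p hp
      positivity
    · intro p hp
      have := hpos p hp
      have : 0 < Real.sqrt (2 * lam p.1.2) := Real.sqrt_pos.2 (by linarith)
      exact this.ne'
  have hQ : ContDiffOn ℝ ∞ (fun p : (ℝ × ℝ) × (ℝ × ℝ) => Q p.1.1 p.1.2 p.2.1 p.2.2) S := by
    unfold Q
    exact ((((contDiffOn_const.add (ht.pow 2)).mul (ha.pow 2)).div (hlam.pow 2) hne2).sub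
      ((((contDiffOn_const.mul ht).mul ha).mul hb).div hlam hne)).add (hb.pow 2)
  have hQa : ContDiffOn ℝ ∞ (fun p : (ℝ × ℝ) × (ℝ × ℝ) => Qa p.1.1 p.1.2 p.2.1 p.2.2) S := by
    unfold Qa
    exact (((contDiffOn_const.mul (contDiffOn_const.add (ht.pow 2))).mul ha).div
      (hlam.pow 2) hne2).sub (((contDiffOn_const.mul ht).mul hb).div hlam hne)
  have hlb : ContDiffOn ℝ ∞ (fun p : (ℝ × ℝ) × (ℝ × ℝ) => ell p.1.2 * p.2.2) S := hell.mul hb
  have hF := sm_all_F (k := k) hQ hlb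
  have hFs := sm_all_Fs (k := k) hQ hlb
  have hden : ContDiffOn ℝ ∞ (fun p : (ℝ × ℝ) × (ℝ × ℝ) => (2 * (k : ℝ) + 1) * lam p.1.2 ^ 2) S :=
    contDiffOn_const.mul (hlam.pow 2)
  have hdne : ∀ p ∈ S, (2 * (k : ℝ) + 1) * lam p.1.2 ^ 2 ≠ 0 := fun p hp =>
    mul_ne_zero (by positivity) (hne2 p hp)
  refine ⟨?_, ?_, ?_, ?_⟩
  · unfold Kf
    exact ((hell.div_const 2).mul hF).mul hQa
  · unfold Ef
    exact ((hell.mul hF).div (hlam.pow 2) hne2).sub
      ((((hell.pow 2).mul hb).mul hFs).div hden hdne)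
  · unfold Ff
    exact (((hell.pow 2).mul ha).mul hFs).div hden hdne
  · unfold Hf
    exact ((hell.div hlam hne).neg).mul hF

end Pool.Agent.Helper608.VF
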