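import Pool.Agent.Helper608.VF.XDefs
import Pool.Agent.Helper608.VF.J_w_F
import Pool.Agent.Helper608.VF.J_w_pde
import Pool.Agent.Helper608.VF.J_w_sm
set_option autoImplicit false
open Matrix MeasureTheory
open scoped ENNReal ContDiff
namespace Pool.Agent.Helper608.VF


theorem cl_pow_diff (w : ℝ → ℝ → ℝ)
    (h : ContDiffOn ℝ ∞ (fun p : ℝ × ℝ => w p.1 p.2) {p | -1 / 2 < p.2}) (t R : ℝ)
    (hR : -1 / 2 < R) :
    DifferentiableAt ℝ (fun t => w t R) t ∧ DifferentiableAt ℝ (fun R => w t R) R := by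
  have ho : IsOpen {p : ℝ × ℝ | -1 / 2 < p.2} := isOpen_lt continuous_const continuous_snd
  have h1 : ContDiffAt ℝ ∞ (fun p : ℝ × ℝ => w p.1 p.2) (t, R) :=
    h.contDiffAt (ho.mem_nhds hR)
  have h2 : DifferentiableAt ℝ (fun p : ℝ × ℝ => w p.1 p.2) (t, R) :=
    h1.differentiableAt (by simp)
  constructor
  · exact h2.comp t (f := fun t : ℝ => (t, R)) (differentiableAt_id.prodMk (differentiableAt_const R))
  · exact h2.comp R (f := fun R : ℝ => (t, R)) ((differentiableAt_const t).prodMk differentiableAt_id)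

theorem cl_pow_dsum {n : ℕ} (w : Fin n → ℝ → ℝ) (c : Fin n → ℝ) (f : ℝ → ℝ) (x : ℝ)
    (hf : f =ᶠ[nhds x] fun y => ∑ m, w m y * c m) (hd : ∀ m, DifferentiableAt ℝ (w m) x) :
    deriv f x = ∑ m, deriv (w m) x * c m := by
  rw [hf.deriv_eq]
  exact (HasDerivAt.fun_sum fun m _ => (hd m).hasDerivAt.mul_const (c m)).deriv

theorem cl_pow_da {n : ℕ} (W : Fin n → ℝ) (f : ℝ → ℝ) (a b : ℝ) (N : ℕ)
    (hf : ∀ a, ∑ m : Fin n, W m * (a + (m : ℝ) * b) ^ N = f a) :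
    deriv f a = ∑ m : Fin n, W m * ((N : ℝ) * (a + (m : ℝ) * b) ^ (N - 1)) := by
  have h1 : f = fun a => ∑ m : Fin n, W m * (a + (m : ℝ) * b) ^ N := by
    funext a
    exact (hf a).symm
  rw [h1]
  refine (HasDerivAt.fun_sum fun m _ => ?_).deriv
  have h2 : HasDerivAt (fun a : ℝ => a + (m : ℝ) * b) 1 a := (hasDerivAt_id a).add_const _
  have h3 := (h2.pow N).const_mul (W m)
  rw [mul_one] at h3
  exact h3

theorem cl_pow_db {n : ℕ} (W : Fin n → ℝ) (f : ℝ → ℝ) (a b : ℝ) (N : ℕ)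
    (hf : ∀ b, ∑ m : Fin n, W m * (a + (m : ℝ) * b) ^ N = f b) :
    deriv f b = ∑ m : Fin n, W m * ((N : ℝ) * (a + (m : ℝ) * b) ^ (N - 1) * (m : ℝ)) := by
  have h1 : f = fun b => ∑ m : Fin n, W m * (a + (m : ℝ) * b) ^ N := by
    funext b
    exact (hf b).symm
  rw [h1]
  refine (HasDerivAt.fun_sum fun m _ => ?_).deriv
  have h2 : HasDerivAt (fun b : ℝ => a + (m : ℝ) * b) (m : ℝ) b := by
    have := ((hasDerivAt_id b).const_mul (m : ℝ)).const_add a
    rwa [mul_one] at this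
  exact (h2.pow N).const_mul (W m)

theorem cl_pow_np (N : ℕ) (x : ℝ) : (N : ℝ) * x ^ (N - 1) * x = (N : ℝ) * x ^ N := by
  rcases Nat.eq_zero_or_pos N with h0 | h0
  · subst h0
    simp
  · rw [mul_assoc, ← pow_succ, Nat.sub_add_cancel h0]

/-- closedness for the test polynomial `(1 + β u)^(2k)` -/
theorem cl_pow (k : ℕ) (w : Wts k) (t R β : ℝ) (hR : -1 / 2 < R) :
    ∑ m : Fin (2 * k + 2),
      ((deriv (fun t => w.wK m t R) t - (m:ℝ) * deriv (fun R => w.wK m t R) R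
        + (2 * R - t ^ 2) * deriv (fun t => w.wE m t R) t - 2 * t * w.wE m t R
        + 2 * k * (m:ℝ) * w.wE m t R - (2 * R - t ^ 2) * deriv (fun R => w.wF m t R) R
        - (2 * k + 2) * w.wF m t R + deriv (fun t => w.wH m t R) t
        + t * deriv (fun R => w.wH m t R) R) * (1 + β * (m:ℝ)) ^ (2 * k)
      + (-(m:ℝ) * (t + (m:ℝ)) * w.wE m t R + (t + (m:ℝ)) * w.wF m t R + w.wH m t R)
        * (2 * k * β * (1 + β * (m:ℝ)) ^ (2 * k - 1))) = 0 := by
  have hRe : ∀ᶠ R' in nhds R, -1 / 2 < R' := lt_mem_nhds hR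
  have eKa : deriv (fun t => Kaf k t R 1 β) t =
      ∑ m : Fin (2 * k + 2), deriv (fun t => w.wK m t R) t * (1 + (m:ℝ) * β) ^ (2 * k) :=
    cl_pow_dsum (fun m t => w.wK m t R) (fun m => (1 + (m:ℝ) * β) ^ (2 * k)) _ t
      (Filter.Eventually.of_forall fun t' => (w.pKa t' R hR 1 β).symm)
      (fun m => (cl_pow_diff (w.wK m) (w.smK m) t R hR).1)
  have eKb : deriv (fun R => Kbf k t R 1 β) R =
      ∑ m : Fin (2 * k + 2), deriv (fun R => w.wK m t R) R *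
        ((m:ℝ) * (1 + (m:ℝ) * β) ^ (2 * k)) := by
    refine cl_pow_dsum (fun m R => w.wK m t R) (fun m => (m:ℝ) * (1 + (m:ℝ) * β) ^ (2 * k)) _ R
      ?_ (fun m => (cl_pow_diff (w.wK m) (w.smK m) t R hR).2)
    filter_upwards [hRe] with R' hR'
    rw [← w.pKb t R' hR' 1 β]
    exact Finset.sum_congr rfl fun m _ => by ring
  have eEt : deriv (fun t => Ef k t R 1 β) t =
      ∑ m : Fin (2 * k + 2), deriv (fun t => w.wE m t R) t * (1 + (m:ℝ) * β) ^ (2 * k) :=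
    cl_pow_dsum (fun m t => w.wE m t R) (fun m => (1 + (m:ℝ) * β) ^ (2 * k)) _ t
      (Filter.Eventually.of_forall fun t' => (w.pE t' R hR 1 β).symm)
      (fun m => (cl_pow_diff (w.wE m) (w.smE m) t R hR).1)
  have eFR : deriv (fun R => Ff k t R 1 β) R =
      ∑ m : Fin (2 * k + 2), deriv (fun R => w.wF m t R) R * (1 + (m:ℝ) * β) ^ (2 * k) := by
    refine cl_pow_dsum (fun m R => w.wF m t R) (fun m => (1 + (m:ℝ) * β) ^ (2 * k)) _ R
      ?_ (fun m => (cl_pow_diff (w.wF m) (w.smF m) t R hR).2)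
    filter_upwards [hRe] with R' hR'
    exact (w.pF t R' hR' 1 β).symm
  have eHt : deriv (fun t => Hf k t R 1 β) t =
      ∑ m : Fin (2 * k + 2), deriv (fun t => w.wH m t R) t * (1 + (m:ℝ) * β) ^ (2 * k) :=
    cl_pow_dsum (fun m t => w.wH m t R) (fun m => (1 + (m:ℝ) * β) ^ (2 * k)) _ t
      (Filter.Eventually.of_forall fun t' => (w.pH t' R hR 1 β).symm)
      (fun m => (cl_pow_diff (w.wH m) (w.smH m) t R hR).1)
  have eHR : deriv (fun R => Hf k t R 1 β) R =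
      ∑ m : Fin (2 * k + 2), deriv (fun R => w.wH m t R) R * (1 + (m:ℝ) * β) ^ (2 * k) := by
    refine cl_pow_dsum (fun m R => w.wH m t R) (fun m => (1 + (m:ℝ) * β) ^ (2 * k)) _ R
      ?_ (fun m => (cl_pow_diff (w.wH m) (w.smH m) t R hR).2)
    filter_upwards [hRe] with R' hR'
    exact (w.pH t R' hR' 1 β).symm
  have eEb := cl_pow_db (fun m => w.wE m t R) (fun b => Ef k t R 1 b) 1 β (2 * k)
    (fun b => w.pE t R hR 1 b)
  have eFa := cl_pow_da (fun m => w.wF m t R) (fun a => Ff k t R a β) 1 β (2 * k)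
    (fun a => w.pF t R hR a β)
  have eHa := cl_pow_da (fun m => w.wH m t R) (fun a => Hf k t R a β) 1 β (2 * k)
    (fun a => w.pH t R hR a β)
  have key := pde k t R 1 β hR one_ne_zero
  rw [eKa, eKb, eEt, ← w.pE t R hR 1 β, eEb, eFR, ← w.pF t R hR 1 β, eFa, eHt, eHR, eHa] at key
  rw [← key]
  simp only [Finset.mul_sum, ← Finset.sum_add_distrib, ← Finset.sum_sub_distrib]
  refine Finset.sum_congr rfl fun m _ => ?_
  rw [mul_comm β (m : ℝ)]
  have hp : ((2 * k : ℕ) : ℝ) * (1 + (m:ℝ) * β) ^ (2 * k - 1) * (1 + (m:ℝ) * β) =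
      ((2 * k : ℕ) : ℝ) * (1 + (m:ℝ) * β) ^ (2 * k) := cl_pow_np _ _
  push_cast at hp ⊢
  linear_combination (-((m:ℝ) * w.wE m t R - w.wF m t R)) * hp

end Pool.Agent.Helper608.VF
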