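import Pool.Agent.Helper608.VF.XDefs
set_option autoImplicit false
open Matrix MeasureTheory
open scoped ENNReal ContDiff
namespace Pool.Agent.Helper608.VF


theorem span_pow_coeff (N : ℕ) (b : ℝ) (i : ℕ) :
    ((1 + Polynomial.C b * Polynomial.X) ^ N : Polynomial ℝ).coeff i = (N.choose i : ℝ) * b ^ i := by
  have h1 : ((1 + Polynomial.C b * Polynomial.X) ^ N : Polynomial ℝ) =
      ((1 + Polynomial.X) ^ N : Polynomial ℝ).comp (Polynomial.C b * Polynomial.X) := by
    simp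
  rw [h1, Polynomial.comp_C_mul_X_coeff, Polynomial.coeff_one_add_X_pow]

/-- `(1 + β X)^N` span the polynomials of degree `≤ N` -/
theorem span_pow (N : ℕ) (e : Polynomial ℝ) (he : e.natDegree ≤ N) :
    ∃ d : Fin (N + 1) → ℝ, e = ∑ l : Fin (N + 1),
      Polynomial.C (d l) * (1 + Polynomial.C ((l : ℕ) : ℝ) * Polynomial.X) ^ N := by
  set V : Matrix (Fin (N + 1)) (Fin (N + 1)) ℝ :=
    (Matrix.vandermonde (fun l : Fin (N + 1) => ((l : ℕ) : ℝ)))ᵀ with hV
  have hdet : IsUnit V.det := by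
    rw [isUnit_iff_ne_zero, hV, Matrix.det_transpose, Matrix.det_vandermonde_ne_zero_iff]
    intro a b hab
    have h1 : ((a : ℕ) : ℝ) = ((b : ℕ) : ℝ) := hab
    exact Fin.ext (by exact_mod_cast h1)
  refine ⟨V⁻¹ *ᵥ (fun i : Fin (N + 1) => e.coeff i / (N.choose i : ℝ)), ?_⟩
  set d := V⁻¹ *ᵥ (fun i : Fin (N + 1) => e.coeff i / (N.choose i : ℝ)) with hd
  have hVd : V *ᵥ d = (fun i : Fin (N + 1) => e.coeff i / (N.choose i : ℝ)) := by
    rw [hd, Matrix.mulVec_mulVec, Matrix.mul_nonsing_inv _ hdet, Matrix.one_mulVec]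
  ext i
  rw [Polynomial.finsetSum_coeff]
  have h2 : ∀ l : Fin (N + 1), (Polynomial.C (d l) *
      (1 + Polynomial.C ((l : ℕ) : ℝ) * Polynomial.X) ^ N).coeff i =
      d l * ((N.choose i : ℝ) * ((l : ℕ) : ℝ) ^ i) := by
    intro l
    rw [Polynomial.coeff_C_mul, span_pow_coeff]
  rw [Finset.sum_congr rfl (fun l _ => h2 l)]
  by_cases hi : i < N + 1
  · have h3 := congrFun hVd ⟨i, hi⟩
    have h4 : (V *ᵥ d) ⟨i, hi⟩ = ∑ l : Fin (N + 1), ((l : ℕ) : ℝ) ^ i * d l := by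
      rw [Matrix.mulVec, dotProduct]
      exact Finset.sum_congr rfl fun l _ => rfl
    have hc : (N.choose i : ℝ) ≠ 0 := by
      have := Nat.choose_pos (Nat.lt_succ_iff.1 hi)
      exact_mod_cast this.ne'
    rw [h4] at h3
    have h5 : ∑ l : Fin (N + 1), d l * ((N.choose i : ℝ) * ((l : ℕ) : ℝ) ^ i) =
        (N.choose i : ℝ) * ∑ l : Fin (N + 1), ((l : ℕ) : ℝ) ^ i * d l := by
      rw [Finset.mul_sum]
      exact Finset.sum_congr rfl fun l _ => by ring
    rw [h5, h3]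
    field_simp
  · have h3 : e.coeff i = 0 := Polynomial.coeff_eq_zero_of_natDegree_lt (by omega)
    have h4 : N.choose i = 0 := Nat.choose_eq_zero_of_lt (by omega)
    rw [h3]
    symm
    exact Finset.sum_eq_zero fun l _ => by rw [h4]; simp

end Pool.Agent.Helper608.VF
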