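import Pool.Agent.Helper608.VF.XDefs
import Pool.Agent.Helper608.VF.J_w_clpow
import Pool.Agent.Helper608.VF.J_w_span
set_option autoImplicit false
open Matrix MeasureTheory
open scoped ENNReal ContDiff
namespace Pool.Agent.Helper608.VF


theorem cl_poly_aux (k : ℕ) (P Qf : Fin (2 * k + 2) → ℝ)
    (h : ∀ β : ℝ, ∑ m : Fin (2 * k + 2), (P m * (1 + β * (m:ℝ)) ^ (2 * k)
      + Qf m * (2 * k * β * (1 + β * (m:ℝ)) ^ (2 * k - 1))) = 0)
    (e : Polynomial ℝ) (he : e.natDegree ≤ 2 * k) :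
    ∑ m : Fin (2 * k + 2), (P m * e.eval (m:ℝ) + Qf m * e.derivative.eval (m:ℝ)) = 0 := by
  obtain ⟨d, hd⟩ := span_pow (2 * k) e he
  have he1 : ∀ x : ℝ, e.eval x = ∑ l : Fin (2 * k + 1), d l * (1 + ((l : ℕ) : ℝ) * x) ^ (2 * k) := by
    intro x
    rw [hd, Polynomial.eval_finset_sum]
    refine Finset.sum_congr rfl fun l _ => ?_
    simp
  have he2 : ∀ x : ℝ, e.derivative.eval x = ∑ l : Fin (2 * k + 1),
      d l * (2 * k * ((l : ℕ) : ℝ) * (1 + ((l : ℕ) : ℝ) * x) ^ (2 * k - 1)) := by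
    intro x
    rw [hd, Polynomial.derivative_sum, Polynomial.eval_finset_sum]
    refine Finset.sum_congr rfl fun l _ => ?_
    rw [Polynomial.derivative_C_mul, Polynomial.derivative_pow]
    simp only [Polynomial.derivative_add, Polynomial.derivative_one, zero_add,
      Polynomial.derivative_C_mul, Polynomial.derivative_X, mul_one, Polynomial.eval_mul,
      Polynomial.eval_C, Polynomial.eval_pow, Polynomial.eval_add, Polynomial.eval_one,
      Polynomial.eval_X]
    push_cast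
    ring
  calc ∑ m : Fin (2 * k + 2), (P m * e.eval (m:ℝ) + Qf m * e.derivative.eval (m:ℝ))
      = ∑ m : Fin (2 * k + 2), ∑ l : Fin (2 * k + 1), d l *
          (P m * (1 + ((l : ℕ) : ℝ) * (m:ℝ)) ^ (2 * k)
            + Qf m * (2 * k * ((l : ℕ) : ℝ) * (1 + ((l : ℕ) : ℝ) * (m:ℝ)) ^ (2 * k - 1))) := by
        refine Finset.sum_congr rfl fun m _ => ?_
        rw [he1, he2, Finset.mul_sum, Finset.mul_sum, ← Finset.sum_add_distrib]
        refine Finset.sum_congr rfl fun l _ => ?_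
        ring
    _ = ∑ l : Fin (2 * k + 1), ∑ m : Fin (2 * k + 2), d l *
          (P m * (1 + ((l : ℕ) : ℝ) * (m:ℝ)) ^ (2 * k)
            + Qf m * (2 * k * ((l : ℕ) : ℝ) * (1 + ((l : ℕ) : ℝ) * (m:ℝ)) ^ (2 * k - 1))) :=
        Finset.sum_comm
    _ = 0 := by
        refine Finset.sum_eq_zero fun l _ => ?_
        rw [← Finset.mul_sum, h, mul_zero]


/-- closedness for all polynomials of degree `≤ 2k` -/
theorem cl_poly (k : ℕ) (w : Wts k) (t R : ℝ) (hR : -1 / 2 < R) (e : Polynomial ℝ)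
    (he : e.natDegree ≤ 2 * k) :
    ∑ m : Fin (2 * k + 2),
      ((deriv (fun t => w.wK m t R) t - (m:ℝ) * deriv (fun R => w.wK m t R) R
        + (2 * R - t ^ 2) * deriv (fun t => w.wE m t R) t - 2 * t * w.wE m t R
        + 2 * k * (m:ℝ) * w.wE m t R - (2 * R - t ^ 2) * deriv (fun R => w.wF m t R) R
        - (2 * k + 2) * w.wF m t R + deriv (fun t => w.wH m t R) t
        + t * deriv (fun R => w.wH m t R) R) * e.eval (m:ℝ)
      + (-(m:ℝ) * (t + (m:ℝ)) * w.wE m t R + (t + (m:ℝ)) * w.wF m t R + w.wH m t R)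
        * e.derivative.eval (m:ℝ)) = 0 := by
  exact cl_poly_aux k _ _ (fun β => cl_pow k w t R β hR) e he

end Pool.Agent.Helper608.VF
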