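import Pool.Agent.Helper608.VF.XDefs
set_option autoImplicit false
open Matrix MeasureTheory
open scoped ENNReal ContDiff
namespace Pool.Agent.Helper608.VF


/-- auxiliary form of `HP` -/
def hp_K_H (n : ℕ) (P : ℝ → ℝ → ℝ) : Prop :=
  ∃ cf : ℕ → ℝ, ∀ a b : ℝ, P a b = ∑ i ∈ Finset.range (n + 1), cf i * a ^ (n - i) * b ^ i

theorem hp_K_HP {n : ℕ} {P : ℝ → ℝ → ℝ} (h : hp_K_H n P) : HP n P := by
  obtain ⟨cf, h⟩ := h
  refine ⟨fun i => cf i, fun a b => ?_⟩
  rw [h, ← Fin.sum_univ_eq_sum_range (fun i => cf i * a ^ (n - i) * b ^ i)]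

theorem hp_K_congr {n : ℕ} {P P' : ℝ → ℝ → ℝ} (h : hp_K_H n P) (he : ∀ a b, P' a b = P a b) :
    hp_K_H n P' := by
  obtain ⟨cf, h⟩ := h
  exact ⟨cf, fun a b => by rw [he, h]⟩

theorem hp_K_zero (n : ℕ) : hp_K_H n (fun _ _ => 0) := ⟨fun _ => 0, fun a b => by simp⟩

theorem hp_K_add {n : ℕ} {P P' : ℝ → ℝ → ℝ} (h : hp_K_H n P) (h' : hp_K_H n P') :
    hp_K_H n (fun a b => P a b + P' a b) := by
  obtain ⟨cf, h⟩ := h
  obtain ⟨cf', h'⟩ := h'
  refine ⟨fun i => cf i + cf' i, fun a b => ?_⟩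
  show P a b + P' a b = _
  rw [h, h', ← Finset.sum_add_distrib]
  exact Finset.sum_congr rfl fun i _ => by ring

theorem hp_K_smul {n : ℕ} {P : ℝ → ℝ → ℝ} (c : ℝ) (h : hp_K_H n P) :
    hp_K_H n (fun a b => c * P a b) := by
  obtain ⟨cf, h⟩ := h
  refine ⟨fun i => c * cf i, fun a b => ?_⟩
  show c * P a b = _
  rw [h, Finset.mul_sum]
  exact Finset.sum_congr rfl fun i _ => by ring

theorem hp_K_mula {n : ℕ} {P : ℝ → ℝ → ℝ} (h : hp_K_H n P) :
    hp_K_H (n + 1) (fun a b => a * P a b) := by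
  obtain ⟨cf, h⟩ := h
  refine ⟨fun i => if i ≤ n then cf i else 0, fun a b => ?_⟩
  show a * P a b = _
  rw [h, Finset.mul_sum, Finset.sum_range_succ _ (n + 1)]
  beta_reduce
  rw [if_neg (by omega : ¬ n + 1 ≤ n), zero_mul, zero_mul, add_zero]
  refine Finset.sum_congr rfl fun i hi => ?_
  have hi' : i ≤ n := by have := Finset.mem_range.1 hi; omega
  rw [if_pos hi', show n + 1 - i = (n - i) + 1 by omega, pow_succ]
  ring

theorem hp_K_mulb {n : ℕ} {P : ℝ → ℝ → ℝ} (h : hp_K_H n P) :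
    hp_K_H (n + 1) (fun a b => b * P a b) := by
  obtain ⟨cf, h⟩ := h
  refine ⟨fun i => if i = 0 then 0 else cf (i - 1), fun a b => ?_⟩
  show b * P a b = _
  rw [h, Finset.mul_sum, Finset.sum_range_succ' _ (n + 1)]
  beta_reduce
  rw [if_pos (rfl : (0 : ℕ) = 0), zero_mul, zero_mul, add_zero]
  refine Finset.sum_congr rfl fun i _ => ?_
  rw [if_neg (Nat.succ_ne_zero i), show n + 1 - (i + 1) = n - i by omega,
    show i + 1 - 1 = i by omega, pow_succ]
  ring

theorem hp_K_mona {n : ℕ} {P : ℝ → ℝ → ℝ} (h : hp_K_H n P) (p : ℕ) :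
    hp_K_H (n + p) (fun a b => a ^ p * P a b) := by
  induction p with
  | zero => exact hp_K_congr h fun a b => by simp
  | succ p ih => exact hp_K_congr (hp_K_mula ih) fun a b => by ring

theorem hp_K_monb {n : ℕ} {P : ℝ → ℝ → ℝ} (h : hp_K_H n P) (p : ℕ) :
    hp_K_H (n + p) (fun a b => b ^ p * P a b) := by
  induction p with
  | zero => exact hp_K_congr h fun a b => by simp
  | succ p ih => exact hp_K_congr (hp_K_mulb ih) fun a b => by ring

theorem hp_K_sum {n : ℕ} {ι : Type} (s : Finset ι) (P : ι → ℝ → ℝ → ℝ)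
    (h : ∀ i ∈ s, hp_K_H n (P i)) : hp_K_H n (fun a b => ∑ i ∈ s, P i a b) := by
  classical
  induction s using Finset.induction_on with
  | empty => exact hp_K_congr (hp_K_zero n) fun a b => by simp
  | insert i s hi ih =>
    refine hp_K_congr (hp_K_add (h i (Finset.mem_insert_self _ _))
      (ih fun j hj => h j (Finset.mem_insert_of_mem hj))) fun a b => ?_
    rw [Finset.sum_insert hi]

theorem hp_K_mul {m n : ℕ} {P P' : ℝ → ℝ → ℝ} (h : hp_K_H m P) (h' : hp_K_H n P') :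
    hp_K_H (n + m) (fun a b => P a b * P' a b) := by
  obtain ⟨cf, h⟩ := h
  have h1 : hp_K_H (n + m) (fun a b => ∑ i ∈ Finset.range (m + 1),
      cf i * (a ^ (m - i) * (b ^ i * P' a b))) := by
    refine hp_K_sum _ _ fun i hi => hp_K_smul _ ?_
    have hi' : i ≤ m := by have := Finset.mem_range.1 hi; omega
    have h2 := hp_K_mona (hp_K_monb h' i) (m - i)
    have h3 : n + i + (m - i) = n + m := by omega
    rwa [h3] at h2
  refine hp_K_congr h1 fun a b => ?_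
  rw [h, Finset.sum_mul]
  exact Finset.sum_congr rfl fun i _ => by ring

theorem hp_K_one : hp_K_H 0 (fun _ _ => 1) := ⟨fun _ => 1, fun a b => by simp⟩

theorem hp_K_pow {n : ℕ} {P : ℝ → ℝ → ℝ} (h : hp_K_H n P) (k : ℕ) :
    hp_K_H (n * k) (fun a b => P a b ^ k) := by
  induction k with
  | zero => exact hp_K_congr hp_K_one fun a b => by simp
  | succ k ih =>
    have := hp_K_mul h ih
    exact hp_K_congr this fun a b => by ring

theorem hp_K_Q (t R : ℝ) : hp_K_H 2 (fun a b => Q t R a b) := by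
  have h1 : hp_K_H 2 (fun a b => (1 + t ^ 2) / lam R ^ 2 * (a * (a * 1)) +
      (-(2 * t) / lam R) * (a * (b * 1)) + 1 * (b * (b * 1))) :=
    hp_K_add (hp_K_add (hp_K_smul _ (hp_K_mula (hp_K_mula hp_K_one)))
      (hp_K_smul _ (hp_K_mula (hp_K_mulb hp_K_one)))) (hp_K_smul _ (hp_K_mulb (hp_K_mulb hp_K_one)))
  refine hp_K_congr h1 fun a b => ?_
  unfold Q
  ring

theorem hp_K_Qa (t R : ℝ) : hp_K_H 1 (fun a b => Qa t R a b) := by
  have h1 : hp_K_H 1 (fun a b => 2 * (1 + t ^ 2) / lam R ^ 2 * (a * 1) +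
      (-(2 * t) / lam R) * (b * 1)) :=
    hp_K_add (hp_K_smul _ (hp_K_mula hp_K_one)) (hp_K_smul _ (hp_K_mulb hp_K_one))
  refine hp_K_congr h1 fun a b => ?_
  unfold Qa
  ring

theorem hp_K_F (k : ℕ) (t R : ℝ) : hp_K_H (2 * k) (fun a b => F k (Q t R a b) (ell R * b)) := by
  have h1 : hp_K_H (2 * k) (fun a b => ∑ j ∈ Finset.range (k + 1),
      (fc k j * ell R ^ (2 * j)) * (b ^ (2 * j) * Q t R a b ^ (k - j))) := by
    refine hp_K_sum _ _ fun j hj => hp_K_smul _ ?_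
    have hj' : j ≤ k := by have := Finset.mem_range.1 hj; omega
    have h2 := hp_K_monb (hp_K_pow (hp_K_Q t R) (k - j)) (2 * j)
    have h3 : 2 * (k - j) + 2 * j = 2 * k := by omega
    rwa [h3] at h2
  refine hp_K_congr h1 fun a b => ?_
  unfold F
  exact Finset.sum_congr rfl fun j _ => by rw [mul_pow]; ring

theorem hp_K_bFs (k : ℕ) (t R : ℝ) :
    hp_K_H (2 * k) (fun a b => b * Fs k (Q t R a b) (ell R * b)) := by
  have h1 : hp_K_H (2 * k) (fun a b => ∑ j ∈ Finset.range (k + 1),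
      (b * (fc k j * (2 * (j:ℝ)) * (ell R * b) ^ (2 * j - 1) * Q t R a b ^ (k - j)))) := by
    refine hp_K_sum _ _ fun j hj => ?_
    have hj' : j ≤ k := by have := Finset.mem_range.1 hj; omega
    rcases j with _ | j
    · exact hp_K_congr (hp_K_zero _) fun a b => by simp
    · have h2 := hp_K_smul (fc k (j + 1) * (2 * ((j + 1 : ℕ) : ℝ)) * ell R ^ (2 * j + 1))
        (hp_K_monb (hp_K_pow (hp_K_Q t R) (k - (j + 1))) (2 * j + 2))
      have h3 : 2 * (k - (j + 1)) + (2 * j + 2) = 2 * k := by omega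
      rw [h3] at h2
      refine hp_K_congr h2 fun a b => ?_
      rw [show 2 * (j + 1) - 1 = 2 * j + 1 by omega, mul_pow]
      ring
  refine hp_K_congr h1 fun a b => ?_
  unfold Fs
  rw [Finset.mul_sum]

theorem hp_K_aFs (k : ℕ) (t R : ℝ) :
    hp_K_H (2 * k) (fun a b => a * Fs k (Q t R a b) (ell R * b)) := by
  have h1 : hp_K_H (2 * k) (fun a b => ∑ j ∈ Finset.range (k + 1),
      (a * (fc k j * (2 * (j:ℝ)) * (ell R * b) ^ (2 * j - 1) * Q t R a b ^ (k - j)))) := by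
    refine hp_K_sum _ _ fun j hj => ?_
    have hj' : j ≤ k := by have := Finset.mem_range.1 hj; omega
    rcases j with _ | j
    · exact hp_K_congr (hp_K_zero _) fun a b => by simp
    · have h2 := hp_K_smul (fc k (j + 1) * (2 * ((j + 1 : ℕ) : ℝ)) * ell R ^ (2 * j + 1))
        (hp_K_mona (hp_K_monb (hp_K_pow (hp_K_Q t R) (k - (j + 1))) (2 * j + 1)) 1)
      have h3 : 2 * (k - (j + 1)) + (2 * j + 1) + 1 = 2 * k := by omega
      rw [h3] at h2
      refine hp_K_congr h2 fun a b => ?_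
      rw [show 2 * (j + 1) - 1 = 2 * j + 1 by omega, mul_pow]
      ring
  refine hp_K_congr h1 fun a b => ?_
  unfold Fs
  rw [Finset.mul_sum]

theorem hp_K (k : ℕ) (t R : ℝ) : HP (2 * k + 1) (fun a b => Kf k t R a b) := by
  apply hp_K_HP
  have h1 := hp_K_smul (ell R / 2) (hp_K_mul (hp_K_Qa t R) (hp_K_F k t R))
  refine hp_K_congr h1 fun a b => ?_
  unfold Kf
  ring

theorem hp_E (k : ℕ) (t R : ℝ) : HP (2 * k) (fun a b => Ef k t R a b) := by
  apply hp_K_HP
  have h1 := hp_K_add (hp_K_smul (ell R / lam R ^ 2) (hp_K_F k t R))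
    (hp_K_smul (-(ell R ^ 2) / ((2 * k + 1) * lam R ^ 2)) (hp_K_bFs k t R))
  refine hp_K_congr h1 fun a b => ?_
  unfold Ef
  ring

theorem hp_F (k : ℕ) (t R : ℝ) : HP (2 * k) (fun a b => Ff k t R a b) := by
  apply hp_K_HP
  have h1 := hp_K_smul (ell R ^ 2 / ((2 * k + 1) * lam R ^ 2)) (hp_K_aFs k t R)
  refine hp_K_congr h1 fun a b => ?_
  unfold Ff
  ring

theorem hp_H (k : ℕ) (t R : ℝ) : HP (2 * k) (fun a b => Hf k t R a b) := by
  apply hp_K_HP
  have h1 := hp_K_smul (-(ell R / lam R)) (hp_K_F k t R)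
  refine hp_K_congr h1 fun a b => ?_
  unfold Hf
  ring

end Pool.Agent.Helper608.VF
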