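import Pool.Agent.Helper608.VF.XDefs
set_option autoImplicit false
open Matrix MeasureTheory
open scoped ENNReal ContDiff
namespace Pool.Agent.Helper608.VF


theorem wts_exist_aux1 (n : ℕ) : ∃ W : Matrix (Fin (n + 1)) (Fin (n + 1)) ℝ,
    ∀ i i' : Fin (n + 1), ∑ l : Fin (n + 1), W i l * ((l : ℕ) : ℝ) ^ (i' : ℕ)
      = if i = i' then 1 else 0 := by
  set Vd := Matrix.vandermonde (fun l : Fin (n + 1) => ((l : ℕ) : ℝ)) with hV
  have hdet : Vd.det ≠ 0 := by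
    rw [hV, Matrix.det_vandermonde_ne_zero_iff]
    intro x y hxy
    exact Fin.ext (Nat.cast_injective hxy)
  have hu : IsUnit Vd.det := isUnit_iff_ne_zero.2 hdet
  have h1 : Vd⁻¹ * Vd = 1 := Matrix.nonsing_inv_mul Vd hu
  refine ⟨Vd⁻¹, fun i i' => ?_⟩
  have h2 := congrFun (congrFun h1 i) i'
  rw [Matrix.mul_apply, Matrix.one_apply] at h2
  rw [← h2]
  rfl

theorem wts_exist_aux2 (n : ℕ) (W : Matrix (Fin (n + 1)) (Fin (n + 1)) ℝ)
    (hW : ∀ i i' : Fin (n + 1), ∑ l : Fin (n + 1), W i l * ((l : ℕ) : ℝ) ^ (i' : ℕ)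
      = if i = i' then 1 else 0) (i : Fin (n + 1)) (a b : ℝ) :
    ∑ m : Fin (n + 1), W i m / ((n.choose i : ℕ) : ℝ) * (a + ((m : ℕ) : ℝ) * b) ^ n
      = a ^ (n - (i : ℕ)) * b ^ (i : ℕ) := by
  have hc : ((n.choose i : ℕ) : ℝ) ≠ 0 := by
    have : 0 < n.choose i := Nat.choose_pos (Nat.lt_succ_iff.1 i.2)
    exact_mod_cast this.ne'
  have h1 : ∀ m : Fin (n + 1), (a + ((m : ℕ) : ℝ) * b) ^ n
      = ∑ i' : Fin (n + 1), ((m : ℕ) : ℝ) ^ (i' : ℕ) * (b ^ (i' : ℕ) * a ^ (n - (i' : ℕ))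
          * ((n.choose i' : ℕ) : ℝ)) := by
    intro m
    rw [add_comm, add_pow, Finset.sum_range]
    refine Finset.sum_congr rfl fun i' _ => ?_
    rw [mul_pow]
    ring
  calc ∑ m : Fin (n + 1), W i m / ((n.choose i : ℕ) : ℝ) * (a + ((m : ℕ) : ℝ) * b) ^ n
      = ∑ m : Fin (n + 1), ∑ i' : Fin (n + 1), W i m * ((m : ℕ) : ℝ) ^ (i' : ℕ) *
          (b ^ (i' : ℕ) * a ^ (n - (i' : ℕ)) * ((n.choose i' : ℕ) : ℝ)
            / ((n.choose i : ℕ) : ℝ)) := by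
        refine Finset.sum_congr rfl fun m _ => ?_
        rw [h1, Finset.mul_sum]
        refine Finset.sum_congr rfl fun i' _ => ?_
        ring
    _ = ∑ i' : Fin (n + 1), (if i = i' then 1 else 0) *
          (b ^ (i' : ℕ) * a ^ (n - (i' : ℕ)) * ((n.choose i' : ℕ) : ℝ)
            / ((n.choose i : ℕ) : ℝ)) := by
        rw [Finset.sum_comm]
        refine Finset.sum_congr rfl fun i' _ => ?_
        rw [← Finset.sum_mul, hW]
    _ = a ^ (n - (i : ℕ)) * b ^ (i : ℕ) := by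
        simp only [ite_mul, one_mul, zero_mul, Finset.sum_ite_eq, Finset.mem_univ, if_true]
        field_simp

theorem wts_exist_aux3 (M n : ℕ) (h : n < M) (g : ℕ → ℝ) (hg : ∀ m, n < m → g m = 0) :
    ∑ m : Fin M, g m = ∑ m : Fin (n + 1), g m := by
  rw [Fin.sum_univ_eq_sum_range, Fin.sum_univ_eq_sum_range]
  symm
  apply Finset.sum_subset
  · intro x hx
    rw [Finset.mem_range] at hx ⊢
    omega
  · intro x _ hx
    rw [Finset.mem_range] at hx
    exact hg x (by omega)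

theorem wts_exist_aux4 (n : ℕ) (W : Matrix (Fin (n + 1)) (Fin (n + 1)) ℝ)
    (θ P : Fin (n + 1) → ℝ) (Q : ℝ) :
    (∑ l : Fin (n + 1), (∑ i, θ i * W i l) * P l) * Q
      = ∑ i, (θ i * Q) * ∑ l : Fin (n + 1), W i l * P l := by
  simp only [Finset.sum_mul, Finset.mul_sum]
  rw [Finset.sum_comm]
  refine Finset.sum_congr rfl fun i _ => ?_
  refine Finset.sum_congr rfl fun l _ => ?_
  ring

/-- nodes and weights with constant interpolation matrix -/
theorem wts_exist (M n : ℕ) (h : n < M) :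
    ∃ Θ : Fin M → Fin (n + 1) → ℝ, ∀ (cf : Fin (n + 1) → ℝ) (a b : ℝ),
      ∑ m : Fin M, (∑ l : Fin (n + 1), Θ m l * (∑ i : Fin (n + 1), cf i * ((l : ℕ) : ℝ) ^ (i : ℕ)))
        * (a + ((m : ℕ) : ℝ) * b) ^ n
      = ∑ i : Fin (n + 1), cf i * a ^ (n - (i:ℕ)) * b ^ (i:ℕ) := by
  obtain ⟨W, hW⟩ := wts_exist_aux1 n
  let θ : ℕ → Fin (n + 1) → ℝ := fun m i =>
    if hm : m < n + 1 then W i ⟨m, hm⟩ / ((n.choose i : ℕ) : ℝ) else 0
  refine ⟨fun m l => ∑ i, θ m i * W i l, fun cf a b => ?_⟩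
  have h1 : ∀ i, ∑ l : Fin (n + 1), W i l * (∑ i' : Fin (n + 1), cf i' * ((l : ℕ) : ℝ) ^ (i' : ℕ))
      = cf i := by
    intro i
    calc ∑ l : Fin (n + 1), W i l * (∑ i' : Fin (n + 1), cf i' * ((l : ℕ) : ℝ) ^ (i' : ℕ))
        = ∑ l : Fin (n + 1), ∑ i' : Fin (n + 1), W i l * ((l : ℕ) : ℝ) ^ (i' : ℕ) * cf i' := by
          refine Finset.sum_congr rfl fun l _ => ?_
          rw [Finset.mul_sum]
          refine Finset.sum_congr rfl fun i' _ => ?_
          ring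
      _ = ∑ i' : Fin (n + 1), (if i = i' then 1 else 0) * cf i' := by
          rw [Finset.sum_comm]
          refine Finset.sum_congr rfl fun i' _ => ?_
          rw [← Finset.sum_mul, hW]
      _ = cf i := by simp
  have h2 : ∀ i, ∑ m : Fin M, θ m i * (a + ((m : ℕ) : ℝ) * b) ^ n
      = a ^ (n - (i : ℕ)) * b ^ (i : ℕ) := by
    intro i
    rw [wts_exist_aux3 M n h (fun m => θ m i * (a + (m : ℝ) * b) ^ n)]
    · rw [← wts_exist_aux2 n W hW i a b]
      refine Finset.sum_congr rfl fun m _ => ?_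
      have hm : (m : ℕ) < n + 1 := m.2
      simp only [θ, dif_pos hm]
    · intro m hm
      have hm' : ¬ (m < n + 1) := by omega
      simp only [θ, dif_neg hm', zero_mul]
  calc ∑ m : Fin M, (∑ l : Fin (n + 1), (∑ i, θ m i * W i l) *
          (∑ i : Fin (n + 1), cf i * ((l : ℕ) : ℝ) ^ (i : ℕ))) * (a + ((m : ℕ) : ℝ) * b) ^ n
      = ∑ m : Fin M, ∑ i, (θ m i * (a + ((m : ℕ) : ℝ) * b) ^ n) *
          ∑ l : Fin (n + 1), W i l *
            (∑ i : Fin (n + 1), cf i * ((l : ℕ) : ℝ) ^ (i : ℕ)) := by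
        refine Finset.sum_congr rfl fun m _ => ?_
        exact wts_exist_aux4 n W (fun i => θ m i) _ _
    _ = ∑ i, cf i * a ^ (n - (i:ℕ)) * b ^ (i:ℕ) := by
        rw [Finset.sum_comm]
        refine Finset.sum_congr rfl fun i _ => ?_
        rw [← Finset.sum_mul, h2, h1]
        ring


end Pool.Agent.Helper608.VF
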