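import Pool.Agent.Helper608.VF.XDefs
import Pool.Agent.Helper608.VF.J_w_hp
import Pool.Agent.Helper608.VF.J_w_sm
import Pool.Agent.Helper608.VF.J_w_wts
set_option autoImplicit false
open Matrix MeasureTheory
open scoped ENNReal ContDiff
namespace Pool.Agent.Helper608.VF


theorem wts_smooth_gen (M n : ℕ) (h : n < M) (P : ℝ → ℝ → ℝ → ℝ → ℝ)
    (hP : ∀ t R, HP n (fun a b => P t R a b))
    (sm : ContDiffOn ℝ ∞ (fun p : (ℝ × ℝ) × (ℝ × ℝ) => P p.1.1 p.1.2 p.2.1 p.2.2)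
      {p | -1 / 2 < p.1.2}) :
    ∃ w : Fin M → ℝ → ℝ → ℝ,
      (∀ m, ContDiffOn ℝ ∞ (fun p : ℝ × ℝ => w m p.1 p.2) {p | -1 / 2 < p.2}) ∧
      ∀ t R a b, ∑ m : Fin M, w m t R * (a + (m:ℝ) * b) ^ n = P t R a b := by
  obtain ⟨Θ, hΘ⟩ := wts_exist M n h
  refine ⟨fun m t R => ∑ l : Fin (n + 1), Θ m l * P t R 1 ((l : ℕ) : ℝ), ?_, ?_⟩
  · intro m
    apply ContDiffOn.sum
    intro l _
    apply contDiffOn_const.mul
    have hmap : Set.MapsTo (fun p : ℝ × ℝ => (p, ((1:ℝ), ((l : ℕ):ℝ)))) {p | -1 / 2 < p.2}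
        {p : (ℝ × ℝ) × (ℝ × ℝ) | -1 / 2 < p.1.2} := fun p hp => hp
    exact sm.comp ((contDiff_id.prodMk contDiff_const).contDiffOn) hmap
  · intro t R a b
    obtain ⟨cf, hcf⟩ := hP t R
    have h1 := hΘ cf a b
    have h2 := hcf a b
    simp only at h2
    rw [h2, ← h1]
    refine Finset.sum_congr rfl fun m _ => ?_
    congr 1
    refine Finset.sum_congr rfl fun l _ => ?_
    have h3 := hcf 1 ((l : ℕ) : ℝ)
    simp only [one_pow, mul_one] at h3
    rw [h3]

theorem wts_smooth (k : ℕ) : Nonempty (Wts k) := by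
  obtain ⟨s1, s2, s3, s4⟩ := sm_all k
  obtain ⟨wK, hK1, hK2⟩ := wts_smooth_gen (2 * k + 2) (2 * k + 1) (by omega) (Kf k)
    (fun t R => hp_K k t R) s1
  obtain ⟨wE, hE1, hE2⟩ := wts_smooth_gen (2 * k + 2) (2 * k) (by omega) (Ef k)
    (fun t R => hp_E k t R) s2
  obtain ⟨wF, hF1, hF2⟩ := wts_smooth_gen (2 * k + 2) (2 * k) (by omega) (Ff k)
    (fun t R => hp_F k t R) s3
  obtain ⟨wH, hH1, hH2⟩ := wts_smooth_gen (2 * k + 2) (2 * k) (by omega) (Hf k)
    (fun t R => hp_H k t R) s4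
  refine ⟨⟨wK, wE, wF, wH, hK1, hE1, hF1, hH1, ?_, ?_, fun t R _ a b => hE2 t R a b,
    fun t R _ a b => hF2 t R a b, fun t R _ a b => hH2 t R a b⟩⟩
  · intro t R _ a b
    have hk : (2 * (k : ℝ) + 1) ≠ 0 := by positivity
    have h1 := Kf_da k t R a b
    have h2 : HasDerivAt (fun a => Kf k t R a b)
        (∑ m : Fin (2 * k + 2), wK m t R * (((2 * k + 1 : ℕ) : ℝ) * (a + (m:ℝ) * b) ^ (2 * k) * 1))
        a := by
      have h3 : (fun a => Kf k t R a b) = fun a => ∑ m : Fin (2 * k + 2),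
          wK m t R * (a + (m:ℝ) * b) ^ (2 * k + 1) := by
        funext a; rw [hK2]
      rw [h3]
      apply HasDerivAt.fun_sum
      intro m _
      exact ((((hasDerivAt_id a).add_const _).pow (2 * k + 1))).const_mul _
    have h4 := h1.unique h2
    apply mul_left_cancel₀ hk
    rw [h4, Finset.mul_sum]
    refine Finset.sum_congr rfl fun m _ => ?_
    push_cast
    ring
  · intro t R _ a b
    have hk : (2 * (k : ℝ) + 1) ≠ 0 := by positivity
    have h1 := Kf_db k t R a b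
    have h2 : HasDerivAt (fun b => Kf k t R a b)
        (∑ m : Fin (2 * k + 2), wK m t R * (((2 * k + 1 : ℕ) : ℝ) * (a + (m:ℝ) * b) ^ (2 * k) *
          ((m : ℝ) * 1))) b := by
      have h3 : (fun b => Kf k t R a b) = fun b => ∑ m : Fin (2 * k + 2),
          wK m t R * (a + (m:ℝ) * b) ^ (2 * k + 1) := by
        funext b; rw [hK2]
      rw [h3]
      apply HasDerivAt.fun_sum
      intro m _
      exact (((((hasDerivAt_id b).const_mul (m : ℝ)).const_add a).pow (2 * k + 1))).const_mul _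
    have h4 := h1.unique h2
    apply mul_left_cancel₀ hk
    rw [h4, Finset.mul_sum]
    refine Finset.sum_congr rfl fun m _ => ?_
    push_cast
    ring

end Pool.Agent.Helper608.VF
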