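import Pool.Agent.Helper608.VF.XDefs
import Pool.Agent.Helper608.VF.J_w_clpoly
import Pool.Agent.Helper608.VF.J_w_w
set_option autoImplicit false
open Matrix MeasureTheory
open scoped ENNReal ContDiff
namespace Pool.Agent.Helper608.VF


theorem coef_exists_diff (f : ℝ → ℝ → ℝ)
    (hf : ContDiffOn ℝ ∞ (fun p : ℝ × ℝ => f p.1 p.2) {p | -1 / 2 < p.2}) (t R : ℝ)
    (hR : -1 / 2 < R) :
    HasDerivAt (fun t => f t R) (deriv (fun t => f t R) t) t ∧
      HasDerivAt (fun R => f t R) (deriv (fun R => f t R) R) R := by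
  have hopen : IsOpen {p : ℝ × ℝ | -1 / 2 < p.2} := isOpen_lt continuous_const continuous_snd
  have hcd : ContDiffAt ℝ ∞ (fun p : ℝ × ℝ => f p.1 p.2) (t, R) :=
    hf.contDiffAt (hopen.mem_nhds hR)
  have hd : DifferentiableAt ℝ (fun p : ℝ × ℝ => f p.1 p.2) (t, R) :=
    hcd.differentiableAt (by simp)
  constructor
  · have h1 : DifferentiableAt ℝ (fun t : ℝ => (t, R)) t :=
      differentiableAt_id.prodMk (differentiableAt_const R)
    have h2 : DifferentiableAt ℝ (fun t => f t R) t :=
      DifferentiableAt.comp (g := fun p : ℝ × ℝ => f p.1 p.2) t hd h1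
    exact h2.hasDerivAt
  · have h1 : DifferentiableAt ℝ (fun R : ℝ => (t, R)) R :=
      (differentiableAt_const t).prodMk differentiableAt_id
    have h2 : DifferentiableAt ℝ (fun R => f t R) R :=
      DifferentiableAt.comp (g := fun p : ℝ × ℝ => f p.1 p.2) R hd h1
    exact h2.hasDerivAt

theorem coef_exists (k : ℕ) : Nonempty (Coef k) := by
  obtain ⟨w⟩ := wts_smooth k
  refine ⟨{
    a := fun m t R => w.wK m t R + (2 * R - t ^ 2) * w.wE m t R + w.wH m t R
    b := fun m t R => - w.wH m t R - (w.wF m t R - (m:ℝ) * w.wE m t R) * (t + (m:ℝ))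
    c := fun m t R => w.wF m t R - (m:ℝ) * w.wE m t R
    sma := ?_, smb := ?_, smc := ?_, pE := ?_, pF := ?_, pH := ?_, cl := ?_ }⟩
  · intro m
    refine ((w.smK m).add (ContDiffOn.mul ?_ (w.smE m))).add (w.smH m)
    exact ((contDiff_const.mul contDiff_snd).sub (contDiff_fst.pow 2)).contDiffOn
  · intro m
    refine (w.smH m).neg.sub (((w.smF m).sub (ContDiffOn.mul contDiffOn_const (w.smE m))).mul ?_)
    exact (contDiff_fst.add contDiff_const).contDiffOn
  · intro m
    exact (w.smF m).sub (ContDiffOn.mul contDiffOn_const (w.smE m))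
  · intro t R hR α β
    rw [← w.pKa t R hR, ← w.pE t R hR, Finset.mul_sum, ← Finset.sum_add_distrib]
    apply Finset.sum_congr rfl
    intro m _
    ring
  · intro t R hR α β
    rw [← w.pKb t R hR, ← w.pF t R hR, Finset.mul_sum, ← Finset.sum_add_distrib]
    apply Finset.sum_congr rfl
    intro m _
    ring
  · intro t R hR α β
    rw [← w.pH t R hR]
    apply Finset.sum_congr rfl
    intro m _
    ring
  · intro t R hR e he
    rw [← cl_poly k w t R hR e he]
    apply Finset.sum_congr rfl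
    intro m _
    obtain ⟨hKt, hKR⟩ := coef_exists_diff _ (w.smK m) t R hR
    obtain ⟨hEt, hER⟩ := coef_exists_diff _ (w.smE m) t R hR
    obtain ⟨hFt, hFR⟩ := coef_exists_diff _ (w.smF m) t R hR
    obtain ⟨hHt, hHR⟩ := coef_exists_diff _ (w.smH m) t R hR
    have h1 : HasDerivAt (fun t : ℝ => 2 * R - t ^ 2) (-(2 * t)) t := by
      refine ((hasDerivAt_const t (2 * R)).sub (hasDerivAt_pow 2 t)).congr_deriv ?_
      norm_num
    have h2 : HasDerivAt (fun R : ℝ => 2 * R - t ^ 2) 2 R := by
      refine (((hasDerivAt_id R).const_mul 2).sub (hasDerivAt_const R (t ^ 2))).congr_deriv ?_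
      norm_num
    have hat : deriv (fun t => w.wK m t R + (2 * R - t ^ 2) * w.wE m t R + w.wH m t R) t
        = deriv (fun t => w.wK m t R) t + (-(2 * t) * w.wE m t R
          + (2 * R - t ^ 2) * deriv (fun t => w.wE m t R) t) + deriv (fun t => w.wH m t R) t :=
      ((hKt.add (h1.mul hEt)).add hHt).deriv
    have haR : deriv (fun R => w.wK m t R + (2 * R - t ^ 2) * w.wE m t R + w.wH m t R) R
        = deriv (fun R => w.wK m t R) R + (2 * w.wE m t R
          + (2 * R - t ^ 2) * deriv (fun R => w.wE m t R) R) + deriv (fun R => w.wH m t R) R :=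
      ((hKR.add (h2.mul hER)).add hHR).deriv
    have hcR0 := hFR.sub (hER.const_mul (m:ℝ))
    have hcR : deriv (fun R => w.wF m t R - (m:ℝ) * w.wE m t R) R
        = deriv (fun R => w.wF m t R) R - (m:ℝ) * deriv (fun R => w.wE m t R) R :=
      hcR0.deriv
    have hbR : deriv (fun R => - w.wH m t R - (w.wF m t R - (m:ℝ) * w.wE m t R) * (t + (m:ℝ))) R
        = - deriv (fun R => w.wH m t R) R
          - (deriv (fun R => w.wF m t R) R - (m:ℝ) * deriv (fun R => w.wE m t R) R) * (t + (m:ℝ)) :=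
      (hHR.neg.sub (hcR0.mul_const (t + (m:ℝ)))).deriv
    simp only [hat, haR, hcR, hbR]
    ring

end Pool.Agent.Helper608.VF
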