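import Pool.Agent.Helper608.VF.XDefs
import Pool.Agent.Helper608.VF.J_a_cutoff
import Pool.Agent.Helper608.VF.J_a_dens
import Pool.Agent.Helper608.VF.J_a_jm
import Pool.Agent.Helper608.VF.J_a_main
import Pool.Agent.Helper608.VF.J_h_smooth
import Pool.Agent.Helper608.VF.J_p_eq
import Pool.Agent.Helper608.VF.J_p_le
import Pool.Agent.Helper608.VF.J_w_fin
set_option autoImplicit false
open Matrix MeasureTheory
open scoped ENNReal ContDiff
open Filter Topology
namespace Pool.Agent.Helper608.VF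


theorem flat_int_Lm {k : ℕ} (C : Coef k) (v : E k → E k) (z : E k) :
    Lm C v 1 z = Om C z.ofLp (v z).ofLp 1 (Jm v z) := by
  unfold Lm
  rw [inv_one, one_smul, one_smul]

theorem flat_int_unit {k : ℕ} (v : E k → E k) (h1 : ∀ z, ‖v z‖ = 1) (z : E k) :
    (v z).ofLp ⬝ᵥ (v z).ofLp = 1 := by
  have h := EuclideanSpace.real_norm_sq_eq (v z)
  rw [h1 z] at h
  unfold dotProduct
  rw [one_pow] at h
  rw [h]
  exact Finset.sum_congr rfl fun i _ => (sq _).symm

theorem flat_int_abs {k : ℕ} (C : Coef k) (v : E k → E k) (hv : ContDiff ℝ ∞ v)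
    (h1 : ∀ z, ‖v z‖ = 1) (z : E k) : |Lm C v 1 z| ≤ dE v z := by
  rw [flat_int_Lm]
  exact om_le C z.ofLp (v z).ofLp (flat_int_unit v h1 z) (Jm v z) (Jm_perp v hv h1 z)

theorem flat_int_cont {k : ℕ} (C : Coef k) (v : E k → E k) (hv : ContDiff ℝ ∞ v) :
    Continuous (fun z => Lm C v 1 z) := by
  have h := (Lm_smooth C v hv).continuousOn
  have h2 : Continuous (fun z : E k => ((1:ℝ), z)) := by fun_prop
  exact h.comp_continuous h2 fun z => (zero_lt_one : (0:ℝ) < 1)

theorem flat_int_const {k : ℕ} (v : E k → E k) (hv : ContDiff ℝ ∞ v)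
    (h : ∀ z, Jm v z = 0) (z : E k) : v z = v 0 := by
  have hd : Differentiable ℝ v := hv.differentiable (by simp)
  refine is_const_of_fderiv_eq_zero hd (fun z => ?_) z 0
  have h2 : (fderiv ℝ v z).toLinearMap = 0 := by
    refine (EuclideanSpace.basisFun (I k) ℝ).toBasis.ext fun j => ?_
    rw [OrthonormalBasis.coe_toBasis, EuclideanSpace.basisFun_apply]
    ext i
    exact congrFun (congrFun (h z) i) j
  ext x i
  exact congrArg (fun w : E k => w i) (LinearMap.congr_fun h2 x)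

/-- the flat theorem, integrable case -/
theorem flat_int {k : ℕ} (hk : 1 ≤ k) (v : E k → E k) (hv : ContDiff ℝ ∞ v) (h1 : ∀ z, ‖v z‖ = 1)
    (hI : Integrable (dE v)) :
    (∫ x : E k, dens x.ofLp (v 0).ofLp 0) ≤ ∫ z, dE v z ∧
    ((∫ z, dE v z) ≤ (∫ x : E k, dens x.ofLp (v 0).ofLp 0) → ∀ z, v z = v 0) := by
  obtain ⟨C⟩ := coef_exists k
  obtain ⟨B, hB, hcut⟩ := cutoff k
  set J0 : ℝ := ∫ x : E k, dens x.ofLp (v 0).ofLp 0 with hJ0
  set I0 : ℝ := ∫ z, dE v z with hI0
  set K : ℝ := 2 ^ (2 * k + 2) * 3 ^ (k + 1) with hK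
  have hK0 : 0 < K := by positivity
  have habs := flat_int_abs C v hv h1
  have hLc := flat_int_cont C v hv
  have hdc := dE_cont v hv
  have hd0 : ∀ z, 0 ≤ dE v z := fun z => (abs_nonneg _).trans (habs z)
  have hI00 : 0 ≤ I0 := integral_nonneg hd0
  -- the estimate for every `L`
  have hsmall : ∀ δ : ℝ, 0 < δ → ∀ R : ℝ, ∃ L : ℝ, 1 ≤ L ∧ R ≤ L ∧ B / L * K * I0 < δ := by
    intro δ hδ R
    refine ⟨max (max 1 R) (B * K * I0 / δ + 1), le_max_of_le_left (le_max_left _ _),
      le_max_of_le_left (le_max_right _ _), ?_⟩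
    set L := max (max 1 R) (B * K * I0 / δ + 1) with hL
    have hL1 : 1 ≤ L := le_max_of_le_left (le_max_left _ _)
    have hL2 : B * K * I0 / δ + 1 ≤ L := le_max_right _ _
    have hL0 : 0 < L := by linarith
    have h3 : B / L * K * I0 = B * K * I0 / L := by ring
    rw [h3, div_lt_iff₀ hL0]
    have h4 : B * K * I0 / δ < L := by linarith
    rw [div_lt_iff₀ hδ] at h4
    linarith
  have hmain : ∀ L : ℝ, 1 ≤ L → ∃ χ : E k → ℝ, Continuous χ ∧ HasCompactSupport χ ∧
      (∀ z, 0 ≤ χ z) ∧ (∀ z, χ z ≤ 1) ∧ (∀ z, 1 + ‖z‖ ^ 2 ≤ Real.exp L → χ z = 1) ∧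
      J0 - B / L * K * I0 ≤ ∫ z, χ z * Lm C v 1 z := by
    intro L hL
    obtain ⟨χ, ρ, c1, c2, c3, c4, c5, c6, c7, c8, c9⟩ := hcut L hL
    refine ⟨χ, c1.continuous, c2, c3, c4, c5, ?_⟩
    have h0 : χ 0 = 1 := by
      apply c5
      rw [norm_zero]
      have := Real.add_one_le_exp L
      linarith
    exact main_est C v hv h1 hI B L (by linarith) hB χ ρ c1 c2 c3 c4 h0 c6 c7 c8 c9
  have hint : ∀ χ : E k → ℝ, Continuous χ → HasCompactSupport χ →
      Integrable (fun z => χ z * Lm C v 1 z) := by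
    intro χ hχ hc
    exact (hχ.mul hLc).integrable_of_hasCompactSupport hc.mul_right
  have hint2 : ∀ χ : E k → ℝ, Continuous χ → HasCompactSupport χ →
      Integrable (fun z => χ z * dE v z) := by
    intro χ hχ hc
    exact (hχ.mul hdc).integrable_of_hasCompactSupport hc.mul_right
  have hint3 : ∀ χ : E k → ℝ, Continuous χ → HasCompactSupport χ →
      Integrable (fun z => χ z * (dE v z - Lm C v 1 z)) := by
    intro χ hχ hc
    exact (hχ.mul (hdc.sub hLc)).integrable_of_hasCompactSupport hc.mul_right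
  have hle : ∀ χ : E k → ℝ, Continuous χ → HasCompactSupport χ → (∀ z, 0 ≤ χ z) →
      (∀ z, χ z ≤ 1) → ∫ z, χ z * dE v z ≤ I0 := by
    intro χ hχ hc h0 h01
    refine integral_mono (hint2 χ hχ hc) hI fun z => ?_
    exact mul_le_of_le_one_left (hd0 z) (h01 z)
  constructor
  · by_contra hcon
    push Not at hcon
    obtain ⟨L, hL1, -, hL⟩ := hsmall (J0 - I0) (by linarith) 1
    obtain ⟨χ, c1, c2, c3, c4, c5, c6⟩ := hmain L hL1
    have h3 : ∫ z, χ z * Lm C v 1 z ≤ ∫ z, χ z * dE v z := by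
      refine integral_mono (hint χ c1 c2) (hint2 χ c1 c2) fun z => ?_
      exact mul_le_mul_of_nonneg_left ((le_abs_self _).trans (habs z)) (c3 z)
    have h4 := hle χ c1 c2 c3 c4
    linarith
  · intro hIJ
    have hD0 : ∀ z, 0 ≤ dE v z - Lm C v 1 z := fun z =>
      sub_nonneg.2 ((le_abs_self _).trans (habs z))
    have hzero : ∀ z, dE v z - Lm C v 1 z = 0 := by
      intro z0
      by_contra hne
      -- a cutoff equal to one at `z0`
      obtain ⟨L0, hL01, hL02, -⟩ := hsmall 1 one_pos (‖z0‖ ^ 2)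
      obtain ⟨χ0, a1, a2, a3, a4, a5, -⟩ := hmain L0 hL01
      have hχ0 : χ0 z0 = 1 := by
        apply a5
        have := Real.add_one_le_exp L0
        linarith
      have hpos : 0 < ∫ z, χ0 z * (dE v z - Lm C v 1 z) := by
        refine Continuous.integral_pos_of_hasCompactSupport_nonneg_nonzero
          (a1.mul (hdc.sub hLc)) a2.mul_right (fun z => mul_nonneg (a3 z) (hD0 z)) (x := z0) ?_
        show χ0 z0 * (dE v z0 - Lm C v 1 z0) ≠ 0
        rw [hχ0, one_mul]
        exact hne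
      -- the support of the first cutoff is bounded
      obtain ⟨R, hR⟩ := a2.isCompact.isBounded.exists_norm_le
      obtain ⟨L, hL1, hLR, hL⟩ := hsmall _ hpos (R ^ 2)
      obtain ⟨χ, c1, c2, c3, c4, c5, c6⟩ := hmain L hL1
      have h3 : ∫ z, χ0 z * (dE v z - Lm C v 1 z) ≤ ∫ z, χ z * (dE v z - Lm C v 1 z) := by
        refine integral_mono (hint3 χ0 a1 a2) (hint3 χ c1 c2) fun z => ?_
        refine mul_le_mul_of_nonneg_right ?_ (hD0 z)
        by_cases hz : χ0 z = 0
        · rw [hz]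
          exact c3 z
        · have hz' : z ∈ tsupport χ0 := subset_tsupport _ hz
          have h4 := hR z hz'
          have h5 : χ z = 1 := by
            apply c5
            have h6 := Real.add_one_le_exp L
            have h7 : ‖z‖ ^ 2 ≤ R ^ 2 := pow_le_pow_left₀ (norm_nonneg _) h4 2
            linarith
          rw [h5]
          exact a4 z
      have h4 : ∫ z, χ z * (dE v z - Lm C v 1 z) =
          (∫ z, χ z * dE v z) - ∫ z, χ z * Lm C v 1 z := by
        rw [← integral_sub (hint2 χ c1 c2) (hint χ c1 c2)]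
        congr 1
        funext z
        ring
      have h5 := hle χ c1 c2 c3 c4
      linarith
    apply flat_int_const v hv
    intro z
    have h3 := hzero z
    rw [flat_int_Lm] at h3
    exact om_eq hk C z.ofLp (v z).ofLp (flat_int_unit v h1 z) (Jm v z) (Jm_perp v hv h1 z)
      (sub_eq_zero.1 h3).symm

end Pool.Agent.Helper608.VF
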