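import Pool.Agent.Helper608.VF.XDefs
import Pool.Agent.Helper608.VF.J_a_dens
import Pool.Agent.Helper608.VF.J_a_flatint
set_option autoImplicit false
open Matrix MeasureTheory
open scoped ENNReal ContDiff
open Filter Topology
namespace Pool.Agent.Helper608.VF


theorem flat_dens_nonneg {k : ℕ} (x V : I k → ℝ) (A : Matrix (I k) (I k) ℝ) : 0 ≤ dens x V A := by
  unfold dens
  have h1 : 0 ≤ x ⬝ᵥ x := Finset.sum_nonneg fun i _ => mul_self_nonneg _
  have h2 : 0 < lam ((x ⬝ᵥ x) / 2) := by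
    unfold lam
    linarith
  positivity

/-- the flat theorem -/
theorem flat {k : ℕ} (hk : 1 ≤ k) (v : E k → E k) (hv : ContDiff ℝ ∞ v) (h1 : ∀ z, ‖v z‖ = 1)
    (e : E k) (he : ‖e‖ = 1) :
    ∫⁻ x : E k, ENNReal.ofReal (dens x.ofLp e.ofLp 0) ≤ ∫⁻ z : E k, ENNReal.ofReal (dE v z) ∧
    (∫⁻ z : E k, ENNReal.ofReal (dE v z) ≤ ∫⁻ x : E k, ENNReal.ofReal (dens x.ofLp e.ofLp 0) →
      ∀ z, v z = v 0) := by
  have hf : Integrable (fun x : E k => dens x.ofLp e.ofLp 0) := dens_int e he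
  have hf0 : 0 ≤ᵐ[volume] (fun x : E k => dens x.ofLp e.ofLp 0) :=
    Filter.Eventually.of_forall fun x => flat_dens_nonneg _ _ _
  have hd0 : ∀ z, 0 ≤ dE v z := fun z => flat_dens_nonneg _ _ _
  rw [← ofReal_integral_eq_lintegral_ofReal hf hf0]
  by_cases hI : Integrable (dE v)
  · have hfl := flat_int hk v hv h1 hI
    have hrot := dens_rot e (v 0) he (h1 0)
    rw [← ofReal_integral_eq_lintegral_ofReal hI (Filter.Eventually.of_forall hd0)]
    rw [← hrot] at hfl
    refine ⟨ENNReal.ofReal_le_ofReal hfl.1, fun h => hfl.2 ?_⟩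
    exact (ENNReal.ofReal_le_ofReal_iff (integral_nonneg_of_ae hf0)).1 h
  · have htop : ∫⁻ z : E k, ENNReal.ofReal (dE v z) = ⊤ := by
      by_contra hne
      apply hI
      refine ⟨(dE_cont v hv).aestronglyMeasurable, ?_⟩
      rw [hasFiniteIntegral_iff_ofReal (Filter.Eventually.of_forall hd0)]
      exact lt_top_iff_ne_top.2 hne
    rw [htop]
    refine ⟨le_top, fun h => ?_⟩
    exact absurd (top_le_iff.1 h) ENNReal.ofReal_ne_top

end Pool.Agent.Helper608.VF
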