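import Pool.Agent.Helper608.VF.XDefs
import Pool.Agent.Helper734.PV.Defs
set_option autoImplicit false
open Matrix MeasureTheory
open scoped ENNReal ContDiff
namespace Pool.Agent.Helper608.VF

/-- identification of index types -/
def ek (k : ℕ) : I k ≃ Fin (2 * (k + 1)) := finSumFinEquiv

/-- identification of the two flat models -/
noncomputable def Tk (k : ℕ) : E k ≃ₗᵢ[ℝ] Pool.Agent.Helper734.PV.En (2 * (k + 1)) :=
  LinearIsometryEquiv.piLpCongrLeft 2 ℝ ℝ (ek k)

end Pool.Agent.Helper608.VF
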