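import Pool.Agent.Helper608.VF.XDefs
import Pool.Agent.Helper608.VF.KDefs
set_option autoImplicit false
open Matrix MeasureTheory
open scoped ENNReal ContDiff
namespace Pool.Agent.Helper608.VF


/-- orthonormal basis of the target indexed by `I k`. -/
noncomputable def dens_conv_B (k : ℕ) :
    OrthonormalBasis (I k) ℝ (Pool.Agent.Helper734.PV.En (2 * (k + 1))) :=
  (EuclideanSpace.basisFun (Fin (2 * (k + 1))) ℝ).reindex (ek k).symm

theorem dens_conv_B_apply (k : ℕ) (i : I k) :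
    dens_conv_B k i = EuclideanSpace.single (ek k i) (1 : ℝ) := by
  simp [dens_conv_B]

theorem dens_conv_gram (k : ℕ)
    (M : Pool.Agent.Helper734.PV.En (2 * (k + 1)) →L[ℝ] Pool.Agent.Helper734.PV.En (2 * (k + 1))) :
    Pool.Agent.Helper734.PV.gram M =
      (1 + (LinearMap.toMatrixOrthonormal (dens_conv_B k) M.toLinearMap)ᵀ *
        (LinearMap.toMatrixOrthonormal (dens_conv_B k) M.toLinearMap)).det := by
  unfold Pool.Agent.Helper734.PV.gram
  have h1 : (ContinuousLinearMap.id ℝ (Pool.Agent.Helper734.PV.En (2 * (k + 1))) +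
      (ContinuousLinearMap.adjoint M).comp M).toLinearMap =
      1 + star M.toLinearMap * M.toLinearMap := by
    rw [LinearMap.star_eq_adjoint, ContinuousLinearMap.adjoint_toLinearMap]
    rfl
  rw [h1, ← LinearMap.det_toMatrix (dens_conv_B k).toBasis]
  have h2 : LinearMap.toMatrix (dens_conv_B k).toBasis (dens_conv_B k).toBasis
      (1 + star M.toLinearMap * M.toLinearMap) =
      LinearMap.toMatrixOrthonormal (dens_conv_B k) (1 + star M.toLinearMap * M.toLinearMap) := rfl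
  rw [h2, map_add, map_one, map_mul, map_star, Matrix.star_eq_conjTranspose,
    Matrix.conjTranspose_eq_transpose_of_trivial]

theorem dens_conv_T (k : ℕ) (z : E k) (i : I k) : (Tk k z) (ek k i) = z i := by
  show z ((ek k).symm (ek k i)) = z i
  rw [Equiv.symm_apply_apply]

theorem dens_conv_Ts (k : ℕ) (y : Pool.Agent.Helper734.PV.En (2 * (k + 1))) (i : I k) :
    ((Tk k).symm y) i = y (ek k i) := by
  have h := dens_conv_T k ((Tk k).symm y) i
  rw [LinearIsometryEquiv.apply_symm_apply] at h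
  exact h.symm

theorem dens_conv_single (k : ℕ) (i : I k) :
    Tk k (EuclideanSpace.single i (1 : ℝ)) = EuclideanSpace.single (ek k i) (1 : ℝ) :=
  LinearIsometryEquiv.piLpCongrLeft_single (ek k) i (1 : ℝ)

theorem dens_conv_dot (k : ℕ) (z w : E k) : z.ofLp ⬝ᵥ w.ofLp = inner ℝ z w := by
  rw [PiLp.inner_apply]
  simp only [dotProduct]
  refine Finset.sum_congr rfl fun i _ => ?_
  simp [mul_comm]

theorem dens_conv_lam (k : ℕ) (z : E k) :
    Pool.Agent.Helper734.PV.lam (Tk k z) = (lam ((z.ofLp ⬝ᵥ z.ofLp) / 2))⁻¹ := by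
  unfold Pool.Agent.Helper734.PV.lam lam
  rw [dens_conv_dot, real_inner_self_eq_norm_sq, LinearIsometryEquiv.norm_map]
  have h : (1 : ℝ) + ‖z‖ ^ 2 ≠ 0 := by positivity
  field_simp

theorem dens_conv_Jm (k : ℕ)
    (U : Pool.Agent.Helper734.PV.En (2 * (k + 1)) → Pool.Agent.Helper734.PV.En (2 * (k + 1)))
    (hU : ContDiff ℝ ∞ U) (z : E k) (i j : I k) :
    Jm (fun z => (Tk k).symm (U (Tk k z))) z i j =
      (fderiv ℝ U (Tk k z) (EuclideanSpace.single (ek k j) (1 : ℝ))) (ek k i) := by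
  have hUd : HasFDerivAt U (fderiv ℝ U (Tk k z)) (Tk k z) :=
    ((hU.differentiable (by simp)) _).hasFDerivAt
  have hT : HasFDerivAt (fun z => Tk k z)
      ((Tk k).toContinuousLinearEquiv : E k →L[ℝ] Pool.Agent.Helper734.PV.En (2 * (k + 1))) z :=
    (Tk k).toContinuousLinearEquiv.hasFDerivAt
  have hTs : HasFDerivAt (fun y => (Tk k).symm y)
      ((Tk k).symm.toContinuousLinearEquiv :
        Pool.Agent.Helper734.PV.En (2 * (k + 1)) →L[ℝ] E k) (U (Tk k z)) :=
    (Tk k).symm.toContinuousLinearEquiv.hasFDerivAt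
  have h1 := hTs.comp z (hUd.comp z hT)
  unfold Jm
  have h2 : fderiv ℝ (fun z => (Tk k).symm (U (Tk k z))) z = _ := h1.fderiv
  rw [h2]
  show ((Tk k).symm (fderiv ℝ U (Tk k z) (Tk k (EuclideanSpace.single j (1 : ℝ))))) i = _
  rw [dens_conv_Ts, dens_conv_single]

theorem dens_conv_mat (k : ℕ)
    (U : Pool.Agent.Helper734.PV.En (2 * (k + 1)) → Pool.Agent.Helper734.PV.En (2 * (k + 1)))
    (hU : ContDiff ℝ ∞ U) (z : E k) :
    LinearMap.toMatrixOrthonormal (dens_conv_B k)
      (Pool.Agent.Helper734.PV.Mop U (Tk k z)).toLinearMap =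
      Mm z.ofLp ((Tk k).symm (U (Tk k z))).ofLp (Jm (fun z => (Tk k).symm (U (Tk k z))) z) := by
  ext i j
  rw [LinearMap.toMatrixOrthonormal_apply_apply, dens_conv_B_apply, dens_conv_B_apply,
    EuclideanSpace.inner_single_left]
  have hin : inner ℝ (Tk k z) (U (Tk k z)) = z.ofLp ⬝ᵥ ((Tk k).symm (U (Tk k z))).ofLp := by
    rw [dens_conv_dot, ← LinearIsometryEquiv.inner_map_map (Tk k),
      LinearIsometryEquiv.apply_symm_apply]
  have hpos : lam ((z.ofLp ⬝ᵥ z.ofLp) / 2) = (Pool.Agent.Helper734.PV.lam (Tk k z))⁻¹ := by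
    rw [dens_conv_lam, inv_inv]
  have hz : z.ofLp i = (Tk k z) (ek k i) := (dens_conv_T k z i).symm
  have hv : ((Tk k).symm (U (Tk k z))).ofLp j = (U (Tk k z)) (ek k j) := dens_conv_Ts k _ j
  unfold Mm
  rw [Matrix.add_apply, Matrix.sub_apply, Matrix.smul_apply, Matrix.smul_apply,
    vecMulVec_apply, dens_conv_Jm k U hU, hpos, ← hin, hz, hv, Matrix.one_apply]
  have hs : (EuclideanSpace.single (ek k j) (1 : ℝ) :
      Pool.Agent.Helper734.PV.En (2 * (k + 1))) (ek k i) = if i = j then (1 : ℝ) else 0 := by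
    by_cases h : i = j
    · subst h; simp
    · have h' : ek k i ≠ ek k j := fun h0 => h ((ek k).injective h0)
      simp [h, h']
  have hM : (Pool.Agent.Helper734.PV.Mop U (Tk k z)).toLinearMap
      (EuclideanSpace.single (ek k j) (1 : ℝ)) =
      (Pool.Agent.Helper734.PV.lam (Tk k z))⁻¹ •
        fderiv ℝ U (Tk k z) (EuclideanSpace.single (ek k j) (1 : ℝ)) +
      (inner ℝ (U (Tk k z)) (EuclideanSpace.single (ek k j) (1 : ℝ))) • Tk k z -
      (inner ℝ (Tk k z) (U (Tk k z))) •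
        (EuclideanSpace.single (ek k j) (1 : ℝ) : Pool.Agent.Helper734.PV.En (2 * (k + 1))) := rfl
  rw [hM]
  simp only [PiLp.sub_apply, PiLp.add_apply, PiLp.smul_apply, smul_eq_mul, hs,
    EuclideanSpace.inner_single_right, map_one, one_mul]
  simp
  ring

theorem dens_conv (k : ℕ) (U : Pool.Agent.Helper734.PV.En (2 * (k + 1)) → Pool.Agent.Helper734.PV.En (2 * (k + 1)))
    (hU : ContDiff ℝ ∞ U) (z : E k) :
    Pool.Agent.Helper734.PV.dens U (Tk k z) = dE (fun z => (Tk k).symm (U (Tk k z))) z := by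
  unfold Pool.Agent.Helper734.PV.dens dE dens
  rw [dens_conv_gram, dens_conv_mat k U hU z, dens_conv_lam]
  have h1 : ∀ c : ℝ, c⁻¹ ^ (2 * (k + 1)) = (c ^ (2 * k + 2))⁻¹ := by
    intro c
    rw [inv_pow, Nat.mul_add, Nat.mul_one]
  rw [h1]
  exact (div_eq_inv_mul _ _).symm

end Pool.Agent.Helper608.VF
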