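import Pool.Agent.Helper608.VF.XDefs
import Pool.Agent.Helper608.VF.KDefs
import Pool.Agent.Helper608.VF.J_k_conv
set_option autoImplicit false
open Matrix MeasureTheory
open scoped ENNReal ContDiff
namespace Pool.Agent.Helper608.VF


theorem core_of_flat_vol (k : ℕ)
    (W : Pool.Agent.Helper734.PV.En (2 * (k + 1)) → Pool.Agent.Helper734.PV.En (2 * (k + 1)))
    (hW : ContDiff ℝ ∞ W) :
    Pool.Agent.Helper734.PV.vol' W
      = ∫⁻ z : E k, ENNReal.ofReal (dE (fun z => (Tk k).symm (W (Tk k z))) z) := by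
  unfold Pool.Agent.Helper734.PV.vol'
  have h1 := (Tk k).measurePreserving.lintegral_comp_emb (Tk k).toHomeomorph.measurableEmbedding
    (fun y => ENNReal.ofReal (Pool.Agent.Helper734.PV.dens W y))
  rw [← h1]
  refine lintegral_congr fun z => ?_
  show ENNReal.ofReal (Pool.Agent.Helper734.PV.dens W (Tk k z)) = _
  rw [dens_conv k W hW z]

theorem core_of_flat_const (k : ℕ) (e : E k) (z : E k) :
    dE (fun _ => e) z = dens z.ofLp e.ofLp 0 := by
  unfold dE
  congr 1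
  funext i j
  simp [Jm]

theorem core_of_flat (k : ℕ) (h : ∀ v : E k → E k, ContDiff ℝ ∞ v → (∀ z, ‖v z‖ = 1) →
    ∀ e : E k, ‖e‖ = 1 →
      (∫⁻ x : E k, ENNReal.ofReal (dens x.ofLp e.ofLp 0) ≤ ∫⁻ z : E k, ENNReal.ofReal (dE v z)) ∧
      (∫⁻ z : E k, ENNReal.ofReal (dE v z) ≤ ∫⁻ x : E k, ENNReal.ofReal (dens x.ofLp e.ofLp 0) →
        ∀ z, v z = v 0)) :
    Pool.Agent.Helper734.PV.Core (k + 1) := by
  intro U hU hU1 u0 hu0
  have hv : ContDiff ℝ ∞ (fun z : E k => (Tk k).symm (U (Tk k z))) :=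
    (Tk k).symm.contDiff.comp (hU.comp (Tk k).contDiff)
  have hv1 : ∀ z : E k, ‖(Tk k).symm (U (Tk k z))‖ = 1 := by
    intro z
    rw [LinearIsometryEquiv.norm_map]; exact hU1 _
  have he : ‖(Tk k).symm u0‖ = 1 := by rw [LinearIsometryEquiv.norm_map]; exact hu0
  obtain ⟨h1, h2⟩ := h _ hv hv1 ((Tk k).symm u0) he
  have e1 : Pool.Agent.Helper734.PV.vol' U
      = ∫⁻ z : E k, ENNReal.ofReal (dE (fun z => (Tk k).symm (U (Tk k z))) z) :=
    core_of_flat_vol k U hU
  have e2 : Pool.Agent.Helper734.PV.vol' (fun _ => u0)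
      = ∫⁻ x : E k, ENNReal.ofReal (dens x.ofLp ((Tk k).symm u0).ofLp 0) := by
    rw [core_of_flat_vol k (fun _ => u0) contDiff_const]
    refine lintegral_congr fun z => ?_
    rw [core_of_flat_const]
  rw [e1, e2]
  refine ⟨h1, fun hle y => ?_⟩
  have h3 := h2 hle ((Tk k).symm y)
  simp only [LinearIsometryEquiv.apply_symm_apply, map_zero] at h3
  exact (Tk k).symm.injective h3

end Pool.Agent.Helper608.VF
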