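import Pool.Agent.Helper608.VF.Defs
import Pool.Agent.Helper608.VF.CDefs
set_option autoImplicit false
open Matrix MeasureTheory
open scoped ENNReal ContDiff
namespace Pool.Agent.Helper608.VF

/-- homogeneous polynomial of degree `n` in two variables -/
def HP (n : ℕ) (P : ℝ → ℝ → ℝ) : Prop :=
  ∃ cf : Fin (n + 1) → ℝ, ∀ a b : ℝ, P a b = ∑ i : Fin (n + 1), cf i * a ^ (n - (i:ℕ)) * b ^ (i:ℕ)

/-- weights representing the explicit functions -/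
structure Wts (k : ℕ) where
  wK : Fin (2 * k + 2) → ℝ → ℝ → ℝ
  wE : Fin (2 * k + 2) → ℝ → ℝ → ℝ
  wF : Fin (2 * k + 2) → ℝ → ℝ → ℝ
  wH : Fin (2 * k + 2) → ℝ → ℝ → ℝ
  smK : ∀ m, ContDiffOn ℝ ∞ (fun p : ℝ × ℝ => wK m p.1 p.2) {p | -1 / 2 < p.2}
  smE : ∀ m, ContDiffOn ℝ ∞ (fun p : ℝ × ℝ => wE m p.1 p.2) {p | -1 / 2 < p.2}
  smF : ∀ m, ContDiffOn ℝ ∞ (fun p : ℝ × ℝ => wF m p.1 p.2) {p | -1 / 2 < p.2}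
  smH : ∀ m, ContDiffOn ℝ ∞ (fun p : ℝ × ℝ => wH m p.1 p.2) {p | -1 / 2 < p.2}
  pKa : ∀ t R : ℝ, -1 / 2 < R → ∀ a b : ℝ,
    ∑ m : Fin (2 * k + 2), wK m t R * (a + (m:ℝ) * b) ^ (2 * k) = Kaf k t R a b
  pKb : ∀ t R : ℝ, -1 / 2 < R → ∀ a b : ℝ,
    ∑ m : Fin (2 * k + 2), (m:ℝ) * wK m t R * (a + (m:ℝ) * b) ^ (2 * k) = Kbf k t R a b
  pE : ∀ t R : ℝ, -1 / 2 < R → ∀ a b : ℝ,
    ∑ m : Fin (2 * k + 2), wE m t R * (a + (m:ℝ) * b) ^ (2 * k) = Ef k t R a b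
  pF : ∀ t R : ℝ, -1 / 2 < R → ∀ a b : ℝ,
    ∑ m : Fin (2 * k + 2), wF m t R * (a + (m:ℝ) * b) ^ (2 * k) = Ff k t R a b
  pH : ∀ t R : ℝ, -1 / 2 < R → ∀ a b : ℝ,
    ∑ m : Fin (2 * k + 2), wH m t R * (a + (m:ℝ) * b) ^ (2 * k) = Hf k t R a b

/-- normalised base point and vector -/
def xn (k : ℕ) (t ζ : ℝ) : I k → ℝ := t • Pi.single (Sum.inr 0) 1 + ζ • Pi.single (Sum.inr 1) 1

def Vn (k : ℕ) : I k → ℝ := Pi.single (Sum.inr 0) 1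

/-- the weights of the calibration in isometric coordinates, normalised frame -/
noncomputable def gg {k : ℕ} (C : Coef k) (t ζ : ℝ) (m : Fin (2 * k + 2)) : Fin 3 → ℝ :=
  ![lam ((t ^ 2 + ζ ^ 2) / 2) * ζ * (-(C.b m t ((t ^ 2 + ζ ^ 2) / 2) + C.c m t ((t ^ 2 + ζ ^ 2) / 2) * (t + (m:ℝ)))),
    -(lam ((t ^ 2 + ζ ^ 2) / 2) * ((m:ℝ) * (C.a m t ((t ^ 2 + ζ ^ 2) / 2) + C.b m t ((t ^ 2 + ζ ^ 2) / 2)
        + C.c m t ((t ^ 2 + ζ ^ 2) / 2) * (t + (m:ℝ))) + ζ ^ 2 * C.c m t ((t ^ 2 + ζ ^ 2) / 2))),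
    lam ((t ^ 2 + ζ ^ 2) / 2) ^ 2 * (C.a m t ((t ^ 2 + ζ ^ 2) / 2) + C.b m t ((t ^ 2 + ζ ^ 2) / 2)
        + C.c m t ((t ^ 2 + ζ ^ 2) / 2) * (t + (m:ℝ)))
      + lam ((t ^ 2 + ζ ^ 2) / 2) * t * ((m:ℝ) * (C.a m t ((t ^ 2 + ζ ^ 2) / 2) + C.b m t ((t ^ 2 + ζ ^ 2) / 2)
        + C.c m t ((t ^ 2 + ζ ^ 2) / 2) * (t + (m:ℝ))) + ζ ^ 2 * C.c m t ((t ^ 2 + ζ ^ 2) / 2))
      + lam ((t ^ 2 + ζ ^ 2) / 2) * ζ ^ 2 * (-(C.b m t ((t ^ 2 + ζ ^ 2) / 2) + C.c m t ((t ^ 2 + ζ ^ 2) / 2) * (t + (m:ℝ))))]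

/-- `((1-τ²)F' - τF)/(N+1)` at `q = 1` -/
noncomputable def Rr (k : ℕ) (τ : ℝ) : ℝ := ((1 - τ ^ 2) * Fs k 1 τ - τ * F k 1 τ) / (2 * k + 1)

/-- coordinate directions of `ℝ × ℝ^ι` -/
noncomputable def eb {ι : Type} [Fintype ι] [DecidableEq ι] : Unit ⊕ ι → ℝ × EuclideanSpace ℝ ι :=
  Sum.elim (fun _ => (1, 0)) (fun j => (0, EuclideanSpace.single j 1))

/-- first column `Y`, other columns the partial derivatives `∂_j w` -/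
noncomputable def bM {ι : Type} [Fintype ι] [DecidableEq ι]
    (w Y : ℝ × EuclideanSpace ℝ ι → (Unit ⊕ ι → ℝ)) (p : ℝ × EuclideanSpace ℝ ι) :
    Matrix (Unit ⊕ ι) (Unit ⊕ ι) ℝ :=
  fun α β => Sum.elim (fun _ => Y p α) (fun j => fderiv ℝ w p (eb (Sum.inr j)) α) β

/-- the full `(D+1) x (D+1)` Jacobian of `(t, x + u V)` -/
noncomputable def Xi {k : ℕ} (x V : I k → ℝ) (X Y : Matrix (I k) (Unit ⊕ I k) ℝ) (u : ℝ) :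
    Matrix (Unit ⊕ I k) (Unit ⊕ I k) ℝ :=
  fun α β => Sum.elim (fun _ => (V ᵥ* X + x ᵥ* Y) β) (fun i => X i β + u * Y i β) α

end Pool.Agent.Helper608.VF
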